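import Pool.Agent.Helper98.UAH.Defs

/-! Uniform postulation: codimension of the conditions of one point, general simple points. -/

namespace Pool.Agent.Helper98.UAH

open Pool.Agent.Helper46.EAH Finset

/-- value of a jet functional as a linear map -/
def m9_jet {K : Type*} [Field K] (n e : ℕ) (P : ℕ → K) (α : E n) : (Bx n e → K) →ₗ[K] K where
  toFun v := Phi n e P α (ext0 v)
  map_add' v w := by
    have h : (ext0 (v + w) : E n → K) = fun x => ext0 v x + ext0 w x :=
      funext fun x => ext0_add v w x
    rw [h, Phi_add]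
  map_smul' r v := by
    have h : (ext0 (r • v) : E n → K) = fun x => r * ext0 v x :=
      funext fun x => ext0_smul r v x
    rw [h, Phi_smul, RingHom.id_apply, smul_eq_mul]

theorem cod {K : Type*} [Field K] (n e : ℕ) (P : ℕ → K) (a : ℕ) :
    Module.finrank K (Bx n e → K) ≤ Module.finrank K (PS n e P a) + N n a := by
  cases a with
  | zero =>
    have h : PS n e P 0 = ⊤ := by
      rw [eq_top_iff]
      intro v _
      rw [mem_PS]
      intro α hα
      omega
    rw [h, finrank_top]
    exact Nat.le_add_right _ _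
  | succ b =>
    let f : (Bx n e → K) →ₗ[K] (Bx n b → K) := LinearMap.pi fun α => m9_jet n e P α.1
    have hker : LinearMap.ker f = PS n e P (b+1) := by
      ext v
      rw [LinearMap.mem_ker, mem_PS]
      constructor
      · intro h α hα
        have hα' : α ∈ Box n b := (mem_Box n b α).2 (by omega)
        exact congrFun h ⟨α, hα'⟩
      · intro h
        funext α
        exact h α.1 (by have := (mem_Box n b α.1).1 α.2; omega)
    have h1 := LinearMap.finrank_range_add_finrank_ker f
    have h2 : Module.finrank K (LinearMap.range f) ≤ N n (b+1) := by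
      rw [← finrank_Bx K n b]
      exact Submodule.finrank_le _
    rw [hker] at h1
    omega

/-- intersecting with a subspace of small codimension -/
lemma m9_inf {K V : Type*} [Field K] [AddCommGroup V] [Module K V] [FiniteDimensional K V]
    (U W : Submodule K V) (a : ℕ) (h : Module.finrank K V ≤ Module.finrank K W + a) :
    Module.finrank K U ≤ Module.finrank K (U ⊓ W : Submodule K V) + a := by
  have h1 := Submodule.finrank_sup_add_finrank_inf_eq U W
  have h2 := Submodule.finrank_le (U ⊔ W)
  omega

lemma m9_infs {K V : Type*} [Field K] [AddCommGroup V] [Module K V] [FiniteDimensional K V]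
    (W : ℕ → Submodule K V) (R : Finset ℕ)
    (h : ∀ i ∈ R, Module.finrank K V ≤ Module.finrank K (W i) + 1) :
    ∀ U : Submodule K V, Module.finrank K U ≤
      Module.finrank K (U ⊓ ⨅ i ∈ R, W i : Submodule K V) + R.card := by
  classical
  induction R using Finset.induction with
  | empty =>
    intro U
    have h0 : (⨅ i ∈ (∅ : Finset ℕ), W i : Submodule K V) = ⊤ := by simp
    rw [h0, inf_top_eq]
    exact Nat.le_add_right _ _
  | insert i R hi ih =>
    intro U
    have h1 := m9_inf U (W i) 1 (h i (mem_insert_self _ _))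
    have h2 := ih (fun j hj => h j (mem_insert_of_mem hj)) (U ⊓ W i)
    rw [card_insert_of_notMem hi, Finset.iInf_insert, ← inf_assoc]
    omega

/-- general functionals cut down the dimension -/
lemma m9_cut {K V Y : Type*} [Field K] [AddCommGroup V] [Module K V]
    [FiniteDimensional K V] [Nonempty Y] (ev : Y → V →ₗ[K] K) (Q : Finset ℕ) :
    ∀ U : Submodule K V, (∀ v ∈ U, v ≠ 0 → ∃ y, ev y v ≠ 0) →
      ∃ y : ℕ → Y, Module.finrank K (U ⊓ ⨅ i ∈ Q, LinearMap.ker (ev (y i)) : Submodule K V) ≤
        Module.finrank K U - Q.card := by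
  classical
  induction Q using Finset.induction with
  | empty =>
    intro U _
    refine ⟨fun _ => Classical.arbitrary Y, ?_⟩
    have h0 : (⨅ i ∈ (∅ : Finset ℕ), LinearMap.ker (ev ((fun _ => Classical.arbitrary Y) i)) :
        Submodule K V) = ⊤ := by simp
    rw [h0, inf_top_eq]
    exact le_of_eq (Nat.sub_zero _).symm
  | insert i Q hi ih =>
    intro U hne
    by_cases hbot : U = ⊥
    · refine ⟨fun _ => Classical.arbitrary Y, ?_⟩
      rw [hbot, bot_inf_eq, finrank_bot]
      exact Nat.zero_le _
    · obtain ⟨v, hv, hv0⟩ := Submodule.exists_mem_ne_zero_of_ne_bot hbot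
      obtain ⟨y0, hy0⟩ := hne v hv hv0
      have hlt : U ⊓ LinearMap.ker (ev y0) < U := by
        refine lt_of_le_of_ne inf_le_left fun h => hy0 ?_
        rw [← h] at hv
        exact hv.2
      have hfr := Submodule.finrank_lt_finrank_of_lt hlt
      obtain ⟨y, hy⟩ := ih (U ⊓ LinearMap.ker (ev y0)) (fun w hw hw0 => hne w hw.1 hw0)
      refine ⟨Function.update y i y0, ?_⟩
      have hcongr : (⨅ j ∈ Q, LinearMap.ker (ev (Function.update y i y0 j)) : Submodule K V) =
          ⨅ j ∈ Q, LinearMap.ker (ev (y j)) := by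
        refine iInf_congr fun j => iInf_congr fun hj => ?_
        rw [Function.update_of_ne (fun h : j = i => hi (h ▸ hj))]
      rw [card_insert_of_notMem hi, Finset.iInf_insert, ← inf_assoc, Function.update_self, hcongr]
      omega

theorem simple_drop (k : Type) [Field k] (n e : ℕ) (hn : 1 ≤ n) (μ : ℕ → ℕ) (S Q : Finset ℕ)
    (hSQ : Disjoint S Q) (hQ : ∀ i ∈ Q, μ i = 1) :
    Module.finrank (Gen k) (WS k n e μ (S ∪ Q)) ≤
      Module.finrank (Gen k) (WS k n e μ S) - Q.card := by
  classical
  obtain ⟨n, rfl⟩ : ∃ n', n = n' + 1 := ⟨n - 1, by omega⟩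
  let ev : (ℕ → Gen k) → (Bx (n+1) e → Gen k) →ₗ[Gen k] Gen k := fun y =>
    m9_jet (n+1) e y (zE (n+1))
  have hev : ∀ y v, ev y v = Phi (n+1) e y (zE (n+1)) (ext0 v) := fun _ _ => rfl
  have hne : ∀ U : Submodule (Gen k) (Bx (n+1) e → Gen k), ∀ v ∈ U, v ≠ 0 → ∃ y, ev y v ≠ 0 := by
    intro U v _ hv0
    by_contra hcon
    push Not at hcon
    exact hv0 (ext0_inj v (eq_zero_of_eval (n+1) e (ext0 v) hcon))
  obtain ⟨y, hy⟩ := m9_cut ev Q (WS k (n+1) e μ S) (hne _)
  set U := (WS k (n+1) e μ S ⊓ ⨅ i ∈ Q, LinearMap.ker (ev (y i)) :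
    Submodule (Gen k) (Bx (n+1) e → Gen k)) with hU
  obtain ⟨R, hRcard, hRdisj⟩ : ∃ R : Finset ℕ, R.card = Module.finrank (Gen k) U ∧
      Disjoint (S ∪ Q) R := by
    obtain ⟨M, hM⟩ : ∃ M : ℕ, ∀ i ∈ S ∪ Q, i < M := by
      refine ⟨(S ∪ Q).sup id + 1, fun i hi => Nat.lt_succ_of_le ?_⟩
      exact Finset.le_sup (f := id) hi
    refine ⟨(range (Module.finrank (Gen k) U)).map ⟨fun j => M + j, fun a b h => by
      simpa using h⟩, by simp, ?_⟩
    rw [Finset.disjoint_left]
    intro i hi hi2
    rw [mem_map] at hi2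
    obtain ⟨j, _, hj⟩ := hi2
    have := hM i hi
    change M + j = i at hj
    omega
  obtain ⟨y', hy'⟩ := exists_killing ev R U (hne _) hRcard.ge
  -- multiplicities with the new simple points
  set μ' : ℕ → ℕ := fun i => if i ∈ R then 1 else μ i with hμ'
  have hμSQ : ∀ i ∈ S ∪ Q, μ' i = μ i := by
    intro i hi
    simp only [hμ']
    rw [if_neg (fun h => Finset.disjoint_left.1 hRdisj hi h)]
  have hμR : ∀ i ∈ R, μ' i = 1 := fun i hi => by simp only [hμ']; rw [if_pos hi]
  have hS : SInj k n e ((S ∪ Q) ∪ R) (fun i => St.F (μ' i)) := by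
    refine SInj_of_special (L := Gen k) n e _ _
      (fun i => if i ∈ R then y' i else if i ∈ Q then y i else gen k i) ?_
    intro c hc x hx
    have h0 : (fun z : Bx (n+1) e => c z.1) = 0 := by
      apply hy'
      · rw [hU]
        refine ⟨?_, ?_⟩
        · rw [SetLike.mem_coe, mem_WS]
          intro i hi α hα
          have h1 := hc i (mem_union_left _ (mem_union_left _ hi))
          have hiR : i ∉ R := fun h => Finset.disjoint_left.1 hRdisj (mem_union_left _ hi) h
          have hiQ : i ∉ Q := fun h => Finset.disjoint_left.1 hSQ hi h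
          rw [if_neg hiR, if_neg hiQ] at h1
          have h2 := h1 α (by
            show sz (n+1) α < μ' i
            rw [hμSQ i (mem_union_left _ hi)]; exact hα)
          rw [← h2]
          exact Phi_congr _ _ _ _ (fun _ _ => rfl) _ _ _ (fun a ha => ext0_restrict c a ha)
        · rw [SetLike.mem_coe, Submodule.mem_iInf]
          intro i
          rw [Submodule.mem_iInf]
          intro hi
          have h1 := hc i (mem_union_left _ (mem_union_right _ hi))
          have hiR : i ∉ R := fun h => Finset.disjoint_left.1 hRdisj (mem_union_right _ hi) h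
          rw [if_neg hiR, if_pos hi] at h1
          have h2 := h1 (zE (n+1)) (by
            show sz (n+1) (zE (n+1)) < μ' i
            rw [hμSQ i (mem_union_right _ hi), hQ i hi, sz_zE]; omega)
          rw [LinearMap.mem_ker, hev, ← h2]
          exact Phi_congr _ _ _ _ (fun _ _ => rfl) _ _ _ (fun a ha => ext0_restrict c a ha)
      · intro i hi
        have h1 := hc i (mem_union_right _ hi)
        rw [if_pos hi] at h1
        have h2 := h1 (zE (n+1)) (by
          show sz (n+1) (zE (n+1)) < μ' i
          rw [hμR i hi, sz_zE]; omega)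
        rw [hev, ← h2]
        exact Phi_congr _ _ _ _ (fun _ _ => rfl) _ _ _ (fun a ha => ext0_restrict c a ha)
    exact congrFun h0 ⟨x, hx⟩
  have hT : WS k (n+1) e μ' ((S ∪ Q) ∪ R) = ⊥ := by
    rw [← tinj_iff]
    intro c hc x hx
    exact hS c (fun i hi β hβ => hc i hi β hβ) x hx
  have hWS : WS k (n+1) e μ' ((S ∪ Q) ∪ R) =
      WS k (n+1) e μ (S ∪ Q) ⊓ ⨅ i ∈ R, PS (n+1) e (gen k i) 1 := by
    ext v
    rw [Submodule.mem_inf, mem_WS, mem_WS]
    constructor
    · intro h
      refine ⟨fun i hi α hα => h i (mem_union_left _ hi) α (by have := hμSQ i hi; omega), ?_⟩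
      rw [Submodule.mem_iInf]
      intro i
      rw [Submodule.mem_iInf]
      intro hi
      rw [mem_PS]
      intro α hα
      exact h i (mem_union_right _ hi) α (by have := hμR i hi; omega)
    · rintro ⟨h1, h2⟩ i hi α hα
      rcases mem_union.1 hi with hi | hi
      · exact h1 i hi α (by have := hμSQ i hi; omega)
      · rw [Submodule.mem_iInf] at h2
        have h3 := h2 i
        rw [Submodule.mem_iInf] at h3
        exact h3 hi α (by have := hμR i hi; omega)
  have h3 := m9_infs (fun i => PS (n+1) e (gen k i) 1) R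
    (fun i _ => by have := cod (n+1) e (gen k i) 1; rwa [N_one] at this) (WS k (n+1) e μ (S ∪ Q))
  rw [← hWS, hT, finrank_bot] at h3
  omega

end Pool.Agent.Helper98.UAH
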