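import Mathlib
import Pool.Agent.Helper46.EAH.Geo5
import Pool.Agent.Helper45.GrSpan

/-! Uniform postulation: definitions. -/

namespace Pool.Agent.Helper98.UAH

open Pool.Agent.Helper46.EAH Finset

/-- coefficient vectors killed by the jet conditions of order `a` at `P` -/
def PS {K : Type*} [Field K] (n e : ℕ) (P : ℕ → K) (a : ℕ) : Submodule K (Bx n e → K) where
  carrier := {v | ∀ α : E n, sz n α < a → Phi n e P α (ext0 v) = 0}
  add_mem' := by
    intro v w hv hw α hα
    have h : (ext0 (v + w) : E n → K) = fun x => ext0 v x + ext0 w x :=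
      funext fun x => ext0_add v w x
    rw [h, Phi_add, hv α hα, hw α hα, add_zero]
  zero_mem' := by
    intro α _
    refine Phi_zero _ _ _ _ _ fun x _ => ?_
    unfold ext0
    split_ifs <;> rfl
  smul_mem' := by
    intro r v hv α hα
    have h : (ext0 (r • v) : E n → K) = fun x => r * ext0 v x :=
      funext fun x => ext0_smul r v x
    rw [h, Phi_smul, hv α hα, mul_zero]

lemma mem_PS {K : Type*} [Field K] {n e : ℕ} {P : ℕ → K} {a : ℕ} {v : Bx n e → K} :
    v ∈ PS n e P a ↔ ∀ α : E n, sz n α < a → Phi n e P α (ext0 v) = 0 := Iff.rfl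

/-- coefficient vectors killed by the conditions of the points `i ∈ S` (of multiplicity `μ i`) at
the generic configuration -/
noncomputable def WS (k : Type) [Field k] (n e : ℕ) (μ : ℕ → ℕ) (S : Finset ℕ) :
    Submodule (Gen k) (Bx n e → Gen k) := ⨅ i ∈ S, PS n e (gen k i) (μ i)

lemma mem_WS {k : Type} [Field k] {n e : ℕ} {μ : ℕ → ℕ} {S : Finset ℕ} {v : Bx n e → Gen k} :
    v ∈ WS k n e μ S ↔ ∀ i ∈ S, ∀ α : E n, sz n α < μ i → Phi n e (gen k i) α (ext0 v) = 0 := by
  unfold WS
  rw [Submodule.mem_iInf]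
  refine forall_congr' fun i => ?_
  rw [Submodule.mem_iInf]
  exact Iff.rfl

lemma WS_anti {k : Type} [Field k] {n e : ℕ} {μ : ℕ → ℕ} {S S' : Finset ℕ} (h : S ⊆ S') :
    WS k n e μ S' ≤ WS k n e μ S := by
  intro v hv
  rw [mem_WS] at hv ⊢
  exact fun i hi => hv i (h hi)

lemma finrank_Bx (K : Type*) [Field K] (n e : ℕ) :
    Module.finrank K (Bx n e → K) = N n (e+1) := by
  rw [Module.finrank_fintype_fun_eq_card, Fintype.card_coe, card_Box]

lemma tinj_iff (k : Type) [Field k] (n e : ℕ) (S : Finset ℕ) (μ : ℕ → ℕ) :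
    TInj k n e S μ ↔ WS k n e μ S = ⊥ := by
  rw [Submodule.eq_bot_iff]
  constructor
  · intro h v hv
    exact ext0_inj v (h (ext0 v) (mem_WS.1 hv))
  · intro h c hc x hx
    have h1 := h (fun y => c y.1) (mem_WS.2 fun i hi α hα => by
      rw [← hc i hi α hα]
      exact Phi_congr _ _ _ _ (fun _ _ => rfl) _ _ _ (fun a ha => ext0_restrict c a ha))
    exact congrFun h1 ⟨x, hx⟩

/-- one point of each type in `T` -/
def IsBlock (μ : ℕ → ℕ) (T Y : Finset ℕ) : Prop :=
  (∀ i ∈ Y, μ i ∈ T) ∧ ∀ t ∈ T, (Y.filter (fun i => μ i = t)).card = 1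

/-- homogeneous coordinates of an affine point -/
def hp {K : Type*} [Field K] (n : ℕ) (p : ℕ → K) : Fin (n+1) → K := Fin.cons 1 (fun j => p j)

/-- linear substitution given by a matrix -/
noncomputable def subst {K : Type*} [Field K] {n : ℕ} (M : Matrix (Fin (n+1)) (Fin (n+1)) K) :
    MvPolynomial (Fin (n+1)) K →ₐ[K] MvPolynomial (Fin (n+1)) K :=
  MvPolynomial.aeval fun s => ∑ t, MvPolynomial.C (M s t) * MvPolynomial.X t

/-- number of simple points needed in degree `e` by the process -/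
def zf (n m W e : ℕ) : ℕ := N (n+1) (3*m-2) + (e + 3 - 3*m) * (W + N n m)

/-- number of simple points needed on the hyperplane -/
def Wf (n m : ℕ) : ℕ := N (n+1) m * N (n+1) m

/-- number of superfluous conditions needed off the hyperplane -/
def W1f (n m : ℕ) : ℕ := 2 * (N (n+2) m * N (n+2) m) + 1

end Pool.Agent.Helper98.UAH
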