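import Mathlib
import Pool.Agent.Helper46.EAH.Geo5

/-! From injectivity statements to Hilbert functions, degree by degree. -/

namespace Pool.Agent.Helper98.UAH

open Pool.Agent.Helper46.EAH Finset MvPolynomial

variable {F : Type} [Field F]

theorem hilbert_good (n m r : ℕ) (hn : 1 ≤ n) (hm : 1 ≤ m) (k : Fin r → ℕ)
    (hk1 : ∀ i, 1 ≤ k i) (hkm : ∀ i, k i ≤ m) (D : ℕ) (hEX : EX F n m D)
    (good : ℕ → Prop) (hgood : ∀ d, good d →
      ∃ q, q ≤ N n (d+1) - ∑ i, N n (k i) ∧ TInj F n d (range (r + q)) (exm k)) :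
    ∃ G : Cf F n r, G ≠ 0 ∧ ∀ P : Fin r → Fin (n+1) → F,
      eval (fun x : Fin r × Fin (n+1) => P x.1 x.2) G ≠ 0 →
        (∀ i, P i 0 ≠ 0) ∧
        ∀ d, good d →
          hilbert (fatI P k) d = ((min (N n (d+1)) (∑ i, N n (k i)) : ℕ) : ℤ) := by
  classical
  have hGd : ∀ d, ∃ G : Cf F n r, G ≠ 0 ∧ ((D ≤ d ∨ good d) →
      ∀ P : Fin r → Fin (n+1) → F, eval (fun x : Fin r × Fin (n+1) => P x.1 x.2) G ≠ 0 →
        Module.finrank F (LinearMap.ker (Mx k d P).mulVecLin)
          ≤ N n (d+1) - ∑ i, N n (k i)) := by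
    intro d
    by_cases hd : D ≤ d
    · obtain ⟨G, hG0, hG⟩ := generic_ker n d r _ k (tinj_big (F := F) hm k hkm hEX hd)
      exact ⟨G, hG0, fun _ => hG⟩
    by_cases hd2 : good d
    · obtain ⟨q, hq, ht⟩ := hgood d hd2
      obtain ⟨G, hG0, hG⟩ := generic_ker n d r _ k ht
      exact ⟨G, hG0, fun _ P hP => (hG P hP).trans hq⟩
    exact ⟨1, one_ne_zero, fun h => absurd h (by tauto)⟩
  choose G hG0 hG using hGd
  obtain ⟨d1, hd1D, hd1⟩ : ∃ d1, D ≤ d1 ∧ ∑ i, N n (k i) ≤ N n (d1+1) :=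
    ⟨D + ∑ i, N n (k i), by omega, by
      have := N_ge_self n hn (D + ∑ i, N n (k i) + 1)
      omega⟩
  refine ⟨(∏ i : Fin r, X (i, 0)) * ∏ d ∈ range (d1+1), G d, ?_, ?_⟩
  · apply mul_ne_zero
    · exact prod_ne_zero_iff.2 fun i _ => X_ne_zero _
    · exact prod_ne_zero_iff.2 fun d _ => hG0 d
  intro P hP
  rw [map_mul, map_prod, map_prod] at hP
  have h1 := left_ne_zero_of_mul hP
  have h2 := right_ne_zero_of_mul hP
  have hP0 : ∀ i, P i 0 ≠ 0 := by
    intro i
    have := prod_ne_zero_iff.1 h1 i (mem_univ _)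
    rwa [eval_X] at this
  refine ⟨hP0, ?_⟩
  have hlow : ∀ d, d ≤ d1 → (D ≤ d ∨ good d) →
      Module.finrank F (LinearMap.range (Mx k d P).mulVecLin)
        = min (N n (d+1)) (∑ i, N n (k i)) := by
    intro d hdd hd
    have h3 := hG d hd P (prod_ne_zero_iff.1 h2 d (mem_range.2 (by omega)))
    have h4 := LinearMap.finrank_range_add_finrank_ker (Mx k d P).mulVecLin
    rw [Module.finrank_fintype_fun_eq_card, Fintype.card_coe, card_Box] at h4
    have h5 := rank_le_rows k hk1 d P
    have h6 := rank_le_cols k d P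
    omega
  intro d hd
  rw [hilbert_eq k hk1 d P hP0]
  congr 1
  by_cases hdd : d ≤ d1
  · exact hlow d hdd (Or.inr hd)
  · push Not at hdd
    have h3 := hlow d1 le_rfl (Or.inl hd1D)
    rw [min_eq_right hd1] at h3
    have h4 : N n (d1+1) ≤ N n (d+1) := N_mono (by omega)
    rw [min_eq_right (hd1.trans h4)]
    apply le_antisymm (rank_le_rows k hk1 d P)
    rw [← h3]
    have h5 : ∀ e, d1 ≤ e → Module.finrank F (LinearMap.range (Mx k d1 P).mulVecLin)
        ≤ Module.finrank F (LinearMap.range (Mx k e P).mulVecLin) := by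
      intro e he
      induction e, he using Nat.le_induction with
      | base => exact le_rfl
      | succ e he ih => exact ih.trans (rank_mono k e P hP0)
    exact h5 d hdd.le

/-- many simple points among the extended configuration -/
lemma exm_simple {r : ℕ} (k : Fin r → ℕ) (q : ℕ) :
    q ≤ ((range (r + q)).filter (fun i => exm k i = 1)).card := by
  classical
  have h1 : (range (r + q)) \ range r ⊆ (range (r + q)).filter (fun i => exm k i = 1) := by
    intro i hi
    rw [mem_sdiff, mem_range, mem_range] at hi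
    rw [mem_filter, mem_range]
    refine ⟨hi.1, ?_⟩
    unfold exm
    rw [dif_neg hi.2]
  have h2 := card_le_card h1
  rw [card_sdiff_of_subset (fun i hi => by
    rw [mem_range] at hi ⊢
    omega), card_range, card_range] at h2
  omega

end Pool.Agent.Helper98.UAH
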