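import Pool.Agent.Helper98.UAH.Blk

/-! Uniform postulation: a linear form through few generic points avoiding another one. -/

namespace Pool.Agent.Helper98.UAH

open Pool.Agent.Helper46.EAH Finset

theorem lin_avoid (k : Type) [Field k] (n : ℕ) (G : Finset ℕ) (hG : G.card ≤ n) (y : ℕ)
    (hy : y ∉ G) : ∃ l : MvPolynomial (Fin (n+1)) (Gen k), l.IsHomogeneous 1 ∧
      (∀ i ∈ G, MvPolynomial.eval (hp n (gen k i)) l = 0) ∧
      MvPolynomial.eval (hp n (gen k y)) l ≠ 0 := by
  classical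
  obtain ⟨S, hS, hSc⟩ := Infinite.exists_superset_card_eq (insert y G) (n + 1) (by
    rw [card_insert_of_notMem hy]
    omega)
  set eqv : Fin (n + 1) ≃ S := (S.equivFinOfCardEq hSc).symm with heqv
  set ι : Fin (n + 1) → ℕ := fun t => (eqv t : ℕ) with hι
  have hιi : Function.Injective ι := fun s t h => eqv.injective (Subtype.ext h)
  have hιs : ∀ i ∈ S, ∃ t, ι t = i := fun i hi => ⟨eqv.symm ⟨i, hi⟩, by simp [hι]⟩
  obtain ⟨t0, ht0⟩ := hιs y (hS (mem_insert_self _ _))
  have hdet := m8_B_det k ι hιi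
  have hinv : (m8_B k ι)⁻¹ * m8_B k ι = 1 :=
    Matrix.nonsing_inv_mul _ (isUnit_iff_ne_zero.2 hdet)
  set c : Fin (n + 1) → Gen k := fun s => (m8_B k ι)⁻¹ t0 s with hc
  have heval : ∀ t, MvPolynomial.eval (hp n (gen k (ι t)))
      (∑ s, MvPolynomial.C (c s) * MvPolynomial.X s) = if t0 = t then 1 else 0 := by
    intro t
    rw [map_sum]
    have h1 := congrFun (congrFun hinv t0) t
    rw [Matrix.mul_apply, Matrix.one_apply] at h1
    rw [← h1]
    refine sum_congr rfl fun s _ => ?_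
    rw [map_mul, MvPolynomial.eval_C, MvPolynomial.eval_X]
    rfl
  refine ⟨∑ s, MvPolynomial.C (c s) * MvPolynomial.X s, ?_, ?_, ?_⟩
  · apply MvPolynomial.IsHomogeneous.sum
    intro s _
    have := (MvPolynomial.isHomogeneous_C (Fin (n + 1)) (c s)).mul
      (MvPolynomial.isHomogeneous_X (Gen k) s)
    simpa using this
  · intro i hi
    obtain ⟨t, ht⟩ := hιs i (hS (mem_insert_of_mem hi))
    rw [← ht, heval, if_neg]
    intro h
    apply hy
    rw [← ht0, h, ht]
    exact hi
  · rw [← ht0, heval, if_pos rfl]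
    exact one_ne_zero

end Pool.Agent.Helper98.UAH
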