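import Pool.Agent.Helper98.UAH.Defs3

/-! Powers of the ideal of a point are primary. -/

namespace Pool.Agent.Helper98.UAH

open Pool.Agent.Helper46.EAH Finset

theorem Primary_aux {K : Type*} [Field K] (A B : MvPolynomial ℕ K) (a : ℕ)
    (hA : MvPolynomial.constantCoeff A ≠ 0)
    (h : ∀ x : ℕ →₀ ℕ, Finsupp.degree x < a → (A * B).coeff x = 0) :
    ∀ (d : ℕ) (x : ℕ →₀ ℕ), Finsupp.degree x = d → d < a → B.coeff x = 0 := by
  classical
  intro d
  induction d using Nat.strong_induction_on with
  | _ d ih =>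
    intro x hx hda
    have h1 := h x (by omega)
    rw [MvPolynomial.coeff_mul] at h1
    rw [Finset.sum_eq_single_of_mem (0, x)] at h1
    · rcases mul_eq_zero.1 h1 with h2 | h2
      · exact absurd h2 hA
      · exact h2
    · exact HasAntidiagonal.mem_antidiagonal.2 (zero_add x)
    · rintro ⟨u, v⟩ huv hne
      replace huv := HasAntidiagonal.mem_antidiagonal.1 huv
      simp only at huv
      have hu : u ≠ 0 := by
        rintro rfl
        apply hne
        rw [zero_add] at huv
        rw [huv]
      have h3 : Finsupp.degree u + Finsupp.degree v = Finsupp.degree x := by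
        rw [← huv, map_add]
      have h4 : Finsupp.degree u ≠ 0 := by
        intro h5
        exact hu ((Finsupp.degree_eq_zero_iff u).1 h5)
      have h6 := ih (Finsupp.degree v) (by omega) v rfl (by omega)
      simp only
      rw [h6, mul_zero]

theorem mul_mem_pt {K : Type*} [Field K] {n : ℕ} (Q : Fin (n+1) → K) (hQ : Q 0 ≠ 0)
    (F g : MvPolynomial (Fin (n+1)) K) (s t a : ℕ) (hF : F.IsHomogeneous s)
    (hg : g.IsHomogeneous t) (hFQ : MvPolynomial.eval Q F ≠ 0) (hta : t < a)
    (h : F * g ∈ ptI Q ^ a) : g = 0 := by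
  have h1 := psi_mem Q a _ h
  rw [MvPolynomial.mem_pow_idealOfVars_iff', map_mul] at h1
  have h2 : MvPolynomial.constantCoeff (psi Q F) ≠ 0 := by
    rw [cc_psi]
    exact hFQ
  have h3 := Primary_aux (psi Q F) (psi Q g) a h2 h1
  obtain ⟨v, hv⟩ : g ∈ LinearMap.range (polL K n t) := by
    rw [range_polL]
    exact hg
  have h4 : g = pol n t (ext0 v) := hv.symm
  have h5 : MvPolynomial.C (Q 0) ^ t * pol n t (ext0 v) = 0 := by
    rw [pol_expand]
    refine Finset.sum_eq_zero fun α hα => ?_
    rw [← psi_pol_coeff t Q (ext0 v) α hα, ← h4]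
    have h6 : sz n α ≤ t := by
      rw [mem_Box] at hα
      exact hα
    rw [h3 (sz n α) (fs n α) (fs_degree n α) (by omega), map_zero, zero_mul]
  rw [h4]
  rcases mul_eq_zero.1 h5 with h7 | h7
  · exfalso
    rw [← map_pow] at h7
    have h8 := MvPolynomial.C_injective _ _ (h7.trans (map_zero _).symm)
    exact pow_ne_zero t hQ h8
  · exact h7

end Pool.Agent.Helper98.UAH
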