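import Pool.Agent.Helper98.UAH.Defs3
import Pool.Agent.Helper98.UAH.Avoid
import Pool.Agent.Helper98.UAH.Primary

/-! Uniform postulation in all dimensions: module M23, one generic fat point of each
multiplicity. -/

namespace Pool.Agent.Helper98.UAH

open Pool.Agent.Helper46.EAH Finset

/-- the points of group `g` -/
def blk2_grp (μ : ℕ → ℕ) (n : ℕ) (Y : Finset ℕ) (g : ℕ) : Finset ℕ :=
  Y.filter (fun i => (μ i - 1) / n = g)

lemma blk2_grp_card (μ : ℕ → ℕ) (n : ℕ) (hn : 1 ≤ n) (Y : Finset ℕ) (g : ℕ)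
    (h1 : ∀ i ∈ Y, 1 ≤ μ i) (h2 : ∀ i ∈ Y, ∀ j ∈ Y, μ i = μ j → i = j) :
    (blk2_grp μ n Y g).card ≤ n := by
  have h : (blk2_grp μ n Y g).card ≤ (Finset.Ico (g * n) (g * n + n)).card := by
    refine Finset.card_le_card_of_injOn (fun i => μ i - 1) ?_ ?_
    · intro i hi
      rw [Finset.mem_coe, blk2_grp, Finset.mem_filter] at hi
      rw [Finset.mem_coe, Finset.mem_Ico]
      have h3 := Nat.div_add_mod (μ i - 1) n
      have h4 := Nat.mod_lt (μ i - 1) (by omega : 0 < n)
      rw [hi.2] at h3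
      have h5 : n * g = g * n := Nat.mul_comm _ _
      constructor <;> simp only <;> omega
    · intro i hi j hj hij
      rw [Finset.mem_coe, blk2_grp, Finset.mem_filter] at hi hj
      simp only at hij
      have := h1 i hi.1
      have := h1 j hj.1
      exact h2 i hi.1 j hj.1 (by omega)
  rw [Nat.card_Ico] at h
  omega

lemma blk2_sum (n c : ℕ) : 2 * ∑ g ∈ range c, (g + 1) * n = n * (c * (c + 1)) := by
  induction c with
  | zero => simp
  | succ c ih =>
    rw [Finset.sum_range_succ, mul_add, ih]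
    ring

/-- the auxiliary form -/
lemma blk2_form (k : Type) [Field k] (n c m : ℕ) (hn : 1 ≤ n) (hc : m ≤ n * c)
    (μ : ℕ → ℕ) (Y : Finset ℕ) (y : ℕ) (hy : y ∉ Y) (h1 : ∀ i ∈ Y, 1 ≤ μ i ∧ μ i ≤ m)
    (h2 : ∀ i ∈ Y, ∀ j ∈ Y, μ i = μ j → i = j) :
    ∃ F : MvPolynomial (Fin (n+1)) (Gen k), F.IsHomogeneous (∑ g ∈ range c, (g + 1) * n) ∧
      (∀ i ∈ Y, F ∈ ptI (hp n (gen k i)) ^ μ i) ∧
      MvPolynomial.eval (hp n (gen k y)) F ≠ 0 := by
  classical
  have hl : ∀ g : ℕ, ∃ l : MvPolynomial (Fin (n+1)) (Gen k), l.IsHomogeneous 1 ∧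
      (∀ i ∈ blk2_grp μ n Y g, MvPolynomial.eval (hp n (gen k i)) l = 0) ∧
      MvPolynomial.eval (hp n (gen k y)) l ≠ 0 := by
    intro g
    refine lin_avoid k n (blk2_grp μ n Y g)
      (blk2_grp_card μ n hn Y g (fun i hi => (h1 i hi).1) h2) y ?_
    intro h
    rw [blk2_grp, Finset.mem_filter] at h
    exact hy h.1
  choose l hl1 hl2 hl3 using hl
  refine ⟨∏ g ∈ range c, l g ^ ((g + 1) * n), ?_, ?_, ?_⟩
  · refine MvPolynomial.IsHomogeneous.prod _ _ _ fun g _ => ?_
    have := (hl1 g).pow ((g + 1) * n)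
    rwa [one_mul] at this
  · intro i hi
    set g := (μ i - 1) / n with hg
    have h3 := h1 i hi
    have h4 : g < c := by
      rw [hg, Nat.div_lt_iff_lt_mul (by omega)]
      have : n * c = c * n := Nat.mul_comm _ _
      omega
    have h5 : μ i ≤ (g + 1) * n := by
      have h6 := Nat.div_add_mod (μ i - 1) n
      have h7 := Nat.mod_lt (μ i - 1) (by omega : 0 < n)
      rw [← hg] at h6
      have h8 : (g + 1) * n = n * g + n := by ring
      omega
    have h6 : l g ∈ ptI (hp n (gen k i)) := by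
      refine Ideal.subset_span ⟨⟨1, hl1 g⟩, hl2 g i ?_⟩
      rw [blk2_grp, Finset.mem_filter]
      exact ⟨hi, hg.symm⟩
    have h7 : l g ^ ((g + 1) * n) ∈ ptI (hp n (gen k i)) ^ μ i :=
      Ideal.pow_le_pow_right h5 (Ideal.pow_mem_pow h6 _)
    rw [← Finset.mul_prod_erase _ _ (Finset.mem_range.2 h4)]
    exact Ideal.mul_mem_right _ _ h7
  · rw [map_prod]
    refine Finset.prod_ne_zero_iff.2 fun g _ => ?_
    rw [map_pow]
    exact pow_ne_zero _ (hl3 g)

/-- adding one point -/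
lemma blk2_step (k : Type) [Field k] (n c e m : ℕ) (hn : 1 ≤ n) (hc : m ≤ n * c)
    (he : n * (c * (c + 1)) + 2 * m ≤ 2 * e + 2)
    (μ : ℕ → ℕ) (Y : Finset ℕ) (y : ℕ) (hy : y ∉ Y) (h1 : ∀ i ∈ Y, 1 ≤ μ i ∧ μ i ≤ m)
    (h2 : ∀ i ∈ Y, ∀ j ∈ Y, μ i = μ j → i = j) (hy1 : 1 ≤ μ y) (hym : μ y ≤ m) :
    Module.finrank (Gen k) (WS k n e μ (insert y Y)) + N n (μ y) ≤
      Module.finrank (Gen k) (WS k n e μ Y) := by
  classical
  obtain ⟨F, hF1, hF2, hF3⟩ := blk2_form k n c m hn hc μ Y y hy h1 h2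
  have hs := blk2_sum n c
  set s := ∑ g ∈ range c, (g + 1) * n with hsdef
  set q := e + 1 - s - μ y with hq
  have hqe : q + s + (μ y - 1) = e := by omega
  set G : MvPolynomial (Fin (n+1)) (Gen k) := MvPolynomial.X 0 ^ q * F with hG
  have hGh : G.IsHomogeneous (q + s) := by
    have := (MvPolynomial.isHomogeneous_X (Gen k) (0 : Fin (n+1))).pow q
    rw [one_mul] at this
    exact this.mul hF1
  have hG2 : ∀ i ∈ Y, G ∈ ptI (hp n (gen k i)) ^ μ i := fun i hi =>
    Ideal.mul_mem_left _ _ (hF2 i hi)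
  have hG3 : MvPolynomial.eval (hp n (gen k y)) G ≠ 0 := by
    rw [hG, map_mul, map_pow, MvPolynomial.eval_X]
    have : hp n (gen k y) 0 = 1 := rfl
    rw [this, one_pow, one_mul]
    exact hF3
  have hG0 : G ≠ 0 := by
    rintro h
    rw [h, map_zero] at hG3
    exact hG3 rfl
  set L : Submodule (Gen k) (MvPolynomial (Fin (n+1)) (Gen k)) :=
    (MvPolynomial.homogeneousSubmodule (Fin (n+1)) (Gen k) (μ y - 1)).map
      (LinearMap.mulLeft (Gen k) G) with hL
  set U' := (WS k n e μ Y).map (polL (Gen k) n e) with hU'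
  set U := (WS k n e μ (insert y Y)).map (polL (Gen k) n e) with hU
  have hUU : U ≤ U' := Submodule.map_mono (WS_anti (Finset.subset_insert _ _))
  have hLU : L ≤ U' := by
    rintro _ ⟨g, hg, rfl⟩
    rw [SetLike.mem_coe, MvPolynomial.mem_homogeneousSubmodule] at hg
    rw [LinearMap.mulLeft_apply]
    have h3 : (G * g).IsHomogeneous e := by
      have := hGh.mul hg
      rwa [hqe] at this
    have h4 : G * g ∈ LinearMap.range (polL (Gen k) n e) := by
      rw [range_polL, MvPolynomial.mem_homogeneousSubmodule]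
      exact h3
    obtain ⟨w, hw⟩ := h4
    refine ⟨w, ?_, hw⟩
    rw [SetLike.mem_coe]
    unfold WS
    rw [Submodule.mem_iInf]
    intro i
    rw [Submodule.mem_iInf]
    intro hi
    rw [mem_PS_iff, hw]
    exact Ideal.mul_mem_right _ _ (hG2 i hi)
  have hLU0 : U ⊓ L = ⊥ := by
    rw [Submodule.eq_bot_iff]
    rintro _ ⟨⟨w, hw, hw2⟩, ⟨g, hg, rfl⟩⟩
    rw [SetLike.mem_coe, MvPolynomial.mem_homogeneousSubmodule] at hg
    rw [LinearMap.mulLeft_apply] at hw2 ⊢
    rw [SetLike.mem_coe] at hw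
    unfold WS at hw
    rw [Submodule.mem_iInf] at hw
    have h3 := hw y
    rw [Submodule.mem_iInf] at h3
    have h4 := h3 (Finset.mem_insert_self _ _)
    rw [mem_PS_iff, hw2] at h4
    have h0 : hp n (gen k y) 0 ≠ 0 := by
      have : hp n (gen k y) 0 = 1 := rfl
      rw [this]
      exact one_ne_zero
    rw [mul_mem_pt (hp n (gen k y)) h0 G g (q + s) (μ y - 1) (μ y) hGh hg hG3 (by omega) h4,
      mul_zero]
  have hfU : Module.finrank (Gen k) U = Module.finrank (Gen k) (WS k n e μ (insert y Y)) :=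
    (Submodule.equivMapOfInjective _ (polL_inj n e) _).finrank_eq.symm
  have hfU' : Module.finrank (Gen k) U' = Module.finrank (Gen k) (WS k n e μ Y) :=
    (Submodule.equivMapOfInjective _ (polL_inj n e) _).finrank_eq.symm
  have hGi : Function.Injective (LinearMap.mulLeft (Gen k) G) :=
    mul_right_injective₀ hG0
  have hfL : Module.finrank (Gen k) L = N n (μ y) := by
    rw [← (Submodule.equivMapOfInjective _ hGi _).finrank_eq, finrank_homog, card_Box]
    congr 1
    omega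
  have key := Submodule.finrank_sup_add_finrank_inf_eq U L
  have h5 : Module.finrank (Gen k) (U ⊔ L : Submodule _ _) ≤ Module.finrank (Gen k) U' :=
    Submodule.finrank_mono (sup_le hUU hLU)
  rw [hLU0, finrank_bot, add_zero, hfU, hfL] at key
  rw [hfU'] at h5
  omega

theorem blk2 (k : Type) [Field k] (n c e m : ℕ) (hn : 1 ≤ n) (hc : m ≤ n * c)
    (he : n * (c * (c + 1)) + 2 * m ≤ 2 * e + 2) : BlkH k n m e := by
  classical
  intro μ Y
  induction Y using Finset.induction_on with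
  | empty =>
    intro _ _
    rw [Finset.sum_empty, add_zero, ← finrank_Bx (Gen k) n e]
    exact Submodule.finrank_le _
  | insert y Y hy ih =>
    intro h1 h2
    have h3 := ih (fun i hi => h1 i (Finset.mem_insert_of_mem hi))
      (fun i hi j hj => h2 i (Finset.mem_insert_of_mem hi) j (Finset.mem_insert_of_mem hj))
    have h4 := blk2_step k n c e m hn hc he μ Y y hy
      (fun i hi => h1 i (Finset.mem_insert_of_mem hi))
      (fun i hi j hj => h2 i (Finset.mem_insert_of_mem hi) j (Finset.mem_insert_of_mem hj))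
      (h1 y (Finset.mem_insert_self _ _)).1 (h1 y (Finset.mem_insert_self _ _)).2
    rw [Finset.sum_insert hy]
    omega

end Pool.Agent.Helper98.UAH
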