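import Pool.Agent.Helper98.UAH.Defs

/-! Uniform postulation, module M4: jets as powers of the ideal of a point, and substitutions. -/

set_option autoImplicit false

namespace Pool.Agent.Helper98.UAH

open Pool.Agent.Helper46.EAH Finset

lemma m4_row {K : Type*} [Field K] (n e : ℕ) (P : ℕ → K) (α a : E n) :
    row e (hp n P) α a = cw n P α a := by
  unfold row
  have h0 : hp n P 0 = 1 := rfl
  rw [h0, one_pow, one_mul]
  refine cw_congr n _ _ (fun i hi => ?_) α a
  unfold pv
  rw [dif_pos (by omega)]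
  rfl

theorem mem_PS_iff {K : Type*} [Field K] (n e : ℕ) (P : ℕ → K) (a : ℕ) (v : Bx n e → K) :
    v ∈ PS n e P a ↔ polL K n e v ∈ ptI (hp n P) ^ a := by
  have h0 : hp n P 0 ≠ 0 := one_ne_zero
  have e1 : polL K n e v = pol n e (ext0 v) := rfl
  rw [e1, pol_mem_iff e a (hp n P) h0 (ext0 v), mem_PS]
  refine forall_congr' fun α => forall_congr' fun _ => ?_
  unfold Phi
  have : ∑ x ∈ Box n e, row e (hp n P) α x * ext0 v x
      = ∑ x ∈ Box n e, cw n P α x * ext0 v x :=
    Finset.sum_congr rfl fun x _ => by rw [m4_row]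
  rw [this]

lemma m4_eval {K : Type*} [Field K] {n : ℕ} (M : Matrix (Fin (n+1)) (Fin (n+1)) K)
    (P : Fin (n+1) → K) (f : MvPolynomial (Fin (n+1)) K) :
    MvPolynomial.eval P (subst M f) = MvPolynomial.eval (fun s => ∑ t, M s t * P t) f := by
  unfold subst
  induction f using MvPolynomial.induction_on with
  | C c => simp
  | add p q hp hq => rw [map_add, map_add, map_add, hp, hq]
  | mul_X p s hp =>
    rw [map_mul, map_mul, map_mul, hp, MvPolynomial.aeval_X, MvPolynomial.eval_X]
    congr 1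
    simp

lemma m4_homog {K : Type*} [Field K] {n : ℕ} (M : Matrix (Fin (n+1)) (Fin (n+1)) K)
    (f : MvPolynomial (Fin (n+1)) K) (d : ℕ) (hf : f.IsHomogeneous d) :
    (subst M f).IsHomogeneous d := by
  unfold subst
  have h := hf.aeval (n := 1) (fun s => ∑ t, MvPolynomial.C (M s t) * MvPolynomial.X t)
    (fun s => by
      refine MvPolynomial.IsHomogeneous.sum _ _ _ fun t _ => ?_
      have := (MvPolynomial.isHomogeneous_C (Fin (n+1)) (M s t)).mul
        (MvPolynomial.isHomogeneous_X K t)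
      rwa [zero_add] at this)
  rwa [one_mul] at h

lemma m4_scale {K : Type*} [Field K] {n : ℕ} (Q : Fin (n+1) → K) (r : K)
    (g : MvPolynomial (Fin (n+1)) K) (d : ℕ) (hd : g.IsHomogeneous d) :
    MvPolynomial.eval (fun s => r * Q s) g = r ^ d * MvPolynomial.eval Q g := by
  rw [MvPolynomial.eval_eq', MvPolynomial.eval_eq', Finset.mul_sum]
  refine Finset.sum_congr rfl fun x hx => ?_
  have h1 : ∑ i, x i = d := by
    have h2 := hd (MvPolynomial.mem_support_iff.1 hx)
    rw [← h2, Finsupp.weight_apply, Finsupp.sum_fintype]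
    · simp
    · simp
  rw [← h1, ← Finset.prod_pow_eq_pow_sum]
  simp only [mul_pow, Finset.prod_mul_distrib]
  ring

theorem subst_mem {K : Type*} [Field K] {n : ℕ} (M : Matrix (Fin (n+1)) (Fin (n+1)) K)
    (P Q : Fin (n+1) → K) (r : K) (hr : r ≠ 0) (h : ∀ s, ∑ t, M s t * P t = r * Q s) (a : ℕ)
    (f : MvPolynomial (Fin (n+1)) K) (hf : f ∈ ptI Q ^ a) : subst M f ∈ ptI P ^ a := by
  have h1 : ptI Q ≤ Ideal.comap (subst M) (ptI P) := by
    unfold ptI
    rw [Ideal.span_le]
    rintro g ⟨⟨d, hd⟩, hg⟩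
    refine Ideal.subset_span ⟨⟨d, m4_homog M g d hd⟩, ?_⟩
    rw [m4_eval]
    have e1 : (fun s => ∑ t, M s t * P t) = fun s => r * Q s := funext h
    rw [e1]
    have e2 : MvPolynomial.eval (fun s => r * Q s) g = r ^ d * MvPolynomial.eval Q g := by
      exact m4_scale Q r g d hd
    rw [e2, hg, mul_zero]
  have h2 : ptI Q ^ a ≤ Ideal.comap (subst M) (ptI P ^ a) :=
    (Ideal.pow_right_mono h1 a).trans (Ideal.le_comap_pow _ a)
  exact h2 hf

end Pool.Agent.Helper98.UAH
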