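import Pool.Agent.Helper98.UAH.Proc
import Pool.Agent.Helper98.UAH.Subst

/-! Uniform postulation in all dimensions: definitions. -/

namespace Pool.Agent.Helper98.UAH

open Pool.Agent.Helper46.EAH Finset

/-- the ratio `1 + m/n` -/
noncomputable def xr (n m : ℕ) : ℝ := ((n:ℝ) + m) / n

/-- number of superfluous conditions needed on the hyperplane -/
def W0f (n m : ℕ) : ℕ := 2 * (N (n+1) m * N (n+1) m) + 1

/-- loss of the over-determined process -/
def ov (n m W0 W1 b e : ℕ) : ℕ := W1 + (n+m) * N n (b+1) + (e - b) * (W0 + N n m)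

/-- one generic point of each multiplicity imposes independent conditions -/
def BlkH (k : Type) [Field k] (n m e : ℕ) : Prop :=
  ∀ (μ : ℕ → ℕ) (Y : Finset ℕ), (∀ i ∈ Y, 1 ≤ μ i ∧ μ i ≤ m) →
    (∀ i ∈ Y, ∀ j ∈ Y, μ i = μ j → i = j) →
    Module.finrank (Gen k) (WS k n e μ Y) + ∑ i ∈ Y, N n (μ i) ≤ N n (e+1)

end Pool.Agent.Helper98.UAH
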