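import Pool.Agent.Helper98.UAH.Defs3

/-! Uniform postulation in all dimensions: base inequalities. -/

namespace Pool.Agent.Helper98.UAH

open Pool.Agent.Helper46.EAH Finset

theorem nv_a (n m : ℕ) : n.factorial * N n m ≤ (n + m) ^ n := by
  rcases Nat.eq_zero_or_pos m with h | h
  · rw [h, N_zero, mul_zero]
    exact Nat.zero_le _
  · unfold N
    rw [if_neg (by omega), ← Nat.descFactorial_eq_factorial_mul_choose]
    exact (Nat.descFactorial_le_pow _ _).trans (Nat.pow_le_pow_left (by omega) _)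

theorem nv_low (n e : ℕ) : (e + 1) ^ n ≤ n.factorial * N n (e+1) :=
  pow_le_N n (e+1) (by omega)

theorem nv_fact (n : ℕ) : n ^ n ≤ 3 ^ n * n.factorial := by
  have h1 : ∀ n : ℕ, (n+1)^n ≤ 3 * n^n := by
    intro n
    rcases Nat.eq_zero_or_pos n with h | h
    · subst h
      norm_num
    · have h2 : ((1:ℝ) + 1/n)^n ≤ 3 := by
        have h3 : (1:ℝ) + 1/n ≤ Real.exp (1/n) := by
          have := Real.add_one_le_exp (1/(n:ℝ))
          linarith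
        have h4 : ((1:ℝ) + 1/n)^n ≤ (Real.exp (1/n))^n :=
          pow_le_pow_left₀ (by positivity) h3 _
        rw [← Real.exp_nat_mul, mul_one_div, div_self (by positivity)] at h4
        have h5 := Real.exp_one_lt_d9
        linarith
      have h6 : ((n:ℝ)+1)^n ≤ 3 * (n:ℝ)^n := by
        have h7 : (n:ℝ) + 1 = n * (1 + 1/n) := by field_simp
        rw [h7, mul_pow]
        have h8 : (0:ℝ) ≤ (n:ℝ)^n := by positivity
        nlinarith
      exact_mod_cast h6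
  induction n with
  | zero => simp
  | succ n ih =>
    calc (n+1)^(n+1) = (n+1)^n * (n+1) := pow_succ _ _
      _ ≤ 3 * n^n * (n+1) := Nat.mul_le_mul_right _ (h1 n)
      _ ≤ 3 * (3^n * n.factorial) * (n+1) :=
        Nat.mul_le_mul_right _ (Nat.mul_le_mul_left _ ih)
      _ = 3^(n+1) * (n+1).factorial := by rw [Nat.factorial_succ]; ring

theorem nv_x (n m : ℕ) (hn : 1 ≤ n) : 1 ≤ xr n m ∧ (m:ℝ) ≤ n * xr n m ∧
    (n:ℝ) + m = n * xr n m := by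
  have h1 : (0:ℝ) < n := by exact_mod_cast hn
  have h2 : (n:ℝ) * xr n m = n + m := by
    unfold xr
    field_simp
  refine ⟨?_, ?_, h2.symm⟩
  · unfold xr
    rw [le_div_iff₀ h1]
    have : (0:ℝ) ≤ m := by positivity
    linarith
  · rw [h2]
    linarith

/-- main device: from bounds of products by factorials to bounds by powers -/
lemma nv_main (n e j : ℕ) (v y c p : ℝ) (hn : 1 ≤ n) (hv : 0 ≤ v) (hve : n * v ≤ e + 1)
    (hc : 0 ≤ c) (hy : 0 ≤ y)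
    (h : (n.factorial : ℝ)^(j+1) * p ≤ c * ((n:ℝ)^(j+1) * y)^n) :
    p * v ^ n ≤ c * ((3:ℝ)^j * y)^n * N n (e+1) := by
  have hf : (0:ℝ) < n.factorial := by exact_mod_cast Nat.factorial_pos n
  have hn0 : (0:ℝ) < n := by exact_mod_cast hn
  have hV : ((n:ℝ) * v)^n ≤ n.factorial * N n (e+1) := by
    refine (pow_le_pow_left₀ (by positivity) hve n).trans ?_
    exact_mod_cast nv_low n e
  have h3 : ((n:ℝ)^n) ≤ 3^n * n.factorial := by exact_mod_cast nv_fact n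
  have h4 : (((n:ℝ)^n))^j ≤ (3^n * n.factorial)^j := pow_le_pow_left₀ (by positivity) h3 j
  -- multiply everything by n^n * f^(j+1)
  have hpos : (0:ℝ) < (n:ℝ)^n * (n.factorial : ℝ)^(j+1) := by positivity
  refine le_of_mul_le_mul_left ?_ hpos
  have h5 : (n:ℝ)^n * (n.factorial : ℝ)^(j+1) * (p * v^n)
      = (n.factorial : ℝ)^(j+1) * p * ((n:ℝ) * v)^n := by
    rw [mul_pow]
    ring
  rw [h5]
  have hnv : (0:ℝ) ≤ ((n:ℝ) * v)^n := by positivity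
  have hN0 : (0:ℝ) ≤ (N n (e+1) : ℝ) := by positivity
  calc (n.factorial : ℝ)^(j+1) * p * ((n:ℝ) * v)^n
      ≤ c * ((n:ℝ)^(j+1) * y)^n * (n.factorial * N n (e+1)) := by
        apply mul_le_mul h hV hnv (by positivity)
    _ = (((n:ℝ)^n)^j * (c * y^n * (n:ℝ)^n * (n.factorial * N n (e+1)))) := by
        rw [mul_pow, ← pow_mul, ← pow_mul]
        ring
    _ ≤ ((3^n * n.factorial)^j * (c * y^n * (n:ℝ)^n * (n.factorial * N n (e+1)))) := by
        apply mul_le_mul_of_nonneg_right h4 (by positivity)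
    _ = (n:ℝ)^n * (n.factorial : ℝ)^(j+1) * (c * ((3:ℝ)^j * y)^n * N n (e+1)) := by
        rw [mul_pow, mul_pow, ← pow_mul, ← pow_mul]
        ring

lemma nv_aR (n m : ℕ) (hn : 1 ≤ n) : (n.factorial : ℝ) * N n m ≤ (n * xr n m)^n := by
  rw [← (nv_x n m hn).2.2]
  exact_mod_cast nv_a n m

/-- growth, one factor -/
theorem nv_K0 (n m e : ℕ) (v : ℝ) (hn : 1 ≤ n) (hv : 0 ≤ v) (hve : n * v ≤ e + 1) :
    (N n m : ℝ) * v ^ n ≤ xr n m ^ n * N n (e+1) := by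
  have hx := (nv_x n m hn).1
  have h := nv_main n e 0 v (xr n m) 1 (N n m) hn hv hve zero_le_one (by linarith) (by
    have := nv_aR n m hn
    simpa using this)
  simpa using h

theorem nv_K1 (n m e : ℕ) (v : ℝ) (hn : 1 ≤ n) (hv : 0 ≤ v) (hve : n * v ≤ e + 1) :
    (N n m : ℝ) ^ 2 * v ^ n ≤ (3 * xr n m ^ 2) ^ n * N n (e+1) := by
  have hx := (nv_x n m hn).1
  have hx0 : 0 ≤ xr n m := by linarith
  have h := nv_main n e 1 v (xr n m ^ 2) 1 ((N n m : ℝ)^2) hn hv hve zero_le_one (by positivity) (by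
    have h1 := nv_aR n m hn
    have h2 := pow_le_pow_left₀ (by positivity) h1 2
    calc (n.factorial : ℝ)^(1+1) * (N n m : ℝ)^2 = ((n.factorial : ℝ) * N n m)^2 := by ring
      _ ≤ ((n * xr n m)^n)^2 := h2
      _ = 1 * ((n:ℝ)^(1+1) * xr n m ^ 2)^n := by rw [← mul_pow, ← pow_mul, ← pow_mul]; ring)
  simpa using h

theorem nv_K2 (n m e : ℕ) (v : ℝ) (hn : 1 ≤ n) (hv : 0 ≤ v) (hve : n * v ≤ e + 1) :
    (N n m : ℝ) ^ 3 * v ^ n ≤ (9 * xr n m ^ 3) ^ n * N n (e+1) := by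
  have hx := (nv_x n m hn).1
  have hx0 : 0 ≤ xr n m := by linarith
  have h := nv_main n e 2 v (xr n m ^ 3) 1 ((N n m : ℝ)^3) hn hv hve zero_le_one (by positivity) (by
    have h1 := nv_aR n m hn
    have h2 := pow_le_pow_left₀ (by positivity) h1 3
    calc (n.factorial : ℝ)^(2+1) * (N n m : ℝ)^3 = ((n.factorial : ℝ) * N n m)^3 := by ring
      _ ≤ ((n * xr n m)^n)^3 := h2
      _ = 1 * ((n:ℝ)^(2+1) * xr n m ^ 3)^n := by rw [← mul_pow, ← pow_mul, ← pow_mul]; ring)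
  have h9 : (3:ℝ)^2 = 9 := by norm_num
  rw [h9, one_mul] at h
  exact h

lemma nv_x3 (n m : ℕ) (hn : 1 ≤ n) (hm : 1 ≤ m) : (n:ℝ) + 2 ≤ n * xr n m ^ 3 := by
  obtain ⟨h1, h2, h3⟩ := nv_x n m hn
  have hn0 : (1:ℝ) ≤ n := by exact_mod_cast hn
  have hm0 : (1:ℝ) ≤ m := by exact_mod_cast hm
  obtain ⟨x, hx⟩ : ∃ x, x = xr n m := ⟨_, rfl⟩
  rw [← hx] at h1 h3 ⊢
  have h4 : (n:ℝ) + 1 ≤ n * x := by linarith
  have h5 : x ^ 3 = x * x * x := by ring
  have h6 : (n:ℝ) * x * 1 ≤ n * x * x := by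
    apply mul_le_mul_of_nonneg_left h1
    nlinarith
  have h7 : (n:ℝ) * (x - 1) ^ 2 ≥ 0 := by positivity
  have h8 : (n:ℝ) * (x - 1) ^ 2 * (x + 2) ≥ 0 := by
    apply mul_nonneg h7
    linarith
  nlinarith

theorem nv_K3 (n m b e : ℕ) (v : ℝ) (hn : 1 ≤ n) (hm : 1 ≤ m) (hv : 0 ≤ v)
    (hve : n * v ≤ e + 1) (hb : (b:ℝ) ≤ 9 * n * xr n m ^ 3 + 1) :
    (N n (b+1) : ℝ) * v ^ n ≤ (10 * xr n m ^ 3) ^ n * N n (e+1) := by
  have hx := (nv_x n m hn).1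
  have hx0 : 0 ≤ xr n m := by linarith
  have hx3 := nv_x3 n m hn hm
  have h := nv_main n e 0 v (10 * xr n m ^ 3) 1 (N n (b+1)) hn hv hve zero_le_one
    (by positivity) (by
    have h1 : (n.factorial : ℝ) * N n (b+1) ≤ ((n:ℝ) + (b+1))^n := by exact_mod_cast nv_a n (b+1)
    have h2 : ((n:ℝ) + (b+1))^n ≤ ((n:ℝ) * (10 * xr n m ^ 3))^n := by
      apply pow_le_pow_left₀ (by positivity)
      nlinarith
    have h3 := h1.trans h2
    simpa using h3)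
  simpa using h

lemma nv_B (n m b : ℕ) (hn : 1 ≤ n) (hm : 1 ≤ m) (hb : (b:ℝ) ≤ 9 * n * xr n m ^ 3 + 1) :
    (n:ℝ) + (b+m-1:ℕ) ≤ n * (10 * xr n m ^ 3) := by
  obtain ⟨h1, h2, h3⟩ := nv_x n m hn
  have hn0 : (1:ℝ) ≤ n := by exact_mod_cast hn
  have h4 : ((b + m - 1 : ℕ) : ℝ) = b + m - 1 := by
    rw [Nat.cast_sub (by omega)]
    push_cast
    ring
  rw [h4]
  have h5 : (n:ℝ) * xr n m ≤ n * xr n m ^ 3 := by
    apply mul_le_mul_of_nonneg_left _ (by linarith)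
    calc xr n m = xr n m ^ 1 := (pow_one _).symm
      _ ≤ xr n m ^ 3 := pow_le_pow_right₀ h1 (by omega)
  nlinarith

theorem nv_Bm (n m b : ℕ) (hn : 1 ≤ n) (hm : 1 ≤ m) (hb : (b:ℝ) ≤ 9 * n * xr n m ^ 3 + 1) :
    (N (n+1) (b+m-1) : ℝ) ≤ 10 * xr n m ^ 3 * N n (b+m-1) := by
  have hn0 : (1:ℝ) ≤ n := by exact_mod_cast hn
  have hx := (nv_x n m hn).1
  have hB := nv_B n m b hn hm hb
  have h1 : ((n:ℝ) + 1) * N (n+1) (b+m-1) = (((b+m-1:ℕ):ℝ) + n) * N n (b+m-1) := by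
    exact_mod_cast N_dim n (b+m-1)
  have hN0 : (0:ℝ) ≤ (N n (b+m-1) : ℝ) := by positivity
  have hx3 : (1:ℝ) ≤ xr n m ^ 3 := one_le_pow₀ hx
  have h2 : ((n:ℝ) + 1) * N (n+1) (b+m-1) ≤ (n + 1) * (10 * xr n m ^ 3 * N n (b+m-1)) := by
    rw [h1]
    calc (((b+m-1:ℕ):ℝ) + n) * N n (b+m-1) ≤ (n * (10 * xr n m ^ 3)) * N n (b+m-1) := by
          apply mul_le_mul_of_nonneg_right _ hN0
          linarith
      _ ≤ (n + 1) * (10 * xr n m ^ 3 * N n (b+m-1)) := by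
          have : (0:ℝ) ≤ 10 * xr n m ^ 3 * N n (b+m-1) := by positivity
          nlinarith
  exact le_of_mul_le_mul_left h2 (by positivity)

theorem nv_K4 (n m b e : ℕ) (v : ℝ) (hn : 1 ≤ n) (hm : 1 ≤ m) (hv : 0 ≤ v)
    (hve : n * v ≤ e + 1) (hb : (b:ℝ) ≤ 9 * n * xr n m ^ 3 + 1) :
    (N (n+1) (b+m-1) : ℝ) * v ^ n ≤ 10 * xr n m ^ 3 * (10 * xr n m ^ 3) ^ n * N n (e+1) := by
  have hx := (nv_x n m hn).1
  have hx0 : 0 ≤ xr n m := by linarith
  have hB := nv_B n m b hn hm hb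
  have h := nv_main n e 0 v (10 * xr n m ^ 3) 1 (N n (b+m-1)) hn hv hve zero_le_one
    (by positivity) (by
    have h1 : (n.factorial : ℝ) * N n (b+m-1) ≤ ((n:ℝ) + (b+m-1:ℕ))^n := by
      exact_mod_cast nv_a n (b+m-1)
    have h2 : ((n:ℝ) + (b+m-1:ℕ))^n ≤ ((n:ℝ) * (10 * xr n m ^ 3))^n :=
      pow_le_pow_left₀ (by positivity) hB n
    have h3 := h1.trans h2
    simpa using h3)
  rw [pow_zero, one_mul, one_mul] at h
  have h4 := nv_Bm n m b hn hm hb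
  calc (N (n+1) (b+m-1) : ℝ) * v ^ n ≤ 10 * xr n m ^ 3 * N n (b+m-1) * v ^ n :=
        mul_le_mul_of_nonneg_right h4 (by positivity)
    _ = 10 * xr n m ^ 3 * (N n (b+m-1) * v ^ n) := by ring
    _ ≤ 10 * xr n m ^ 3 * ((10 * xr n m ^ 3) ^ n * N n (e+1)) :=
        mul_le_mul_of_nonneg_left h (by positivity)
    _ = _ := by ring

theorem nv_K5 (n m b e : ℕ) (v : ℝ) (hn : 1 ≤ n) (hm : 1 ≤ m) (hv : 0 ≤ v)
    (hve : n * v ≤ e + 1) (hb : (b:ℝ) ≤ 9 * n * xr n m ^ 3 + 1) :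
    (N (n+1) (b+m-1) : ℝ) * N n m * v ^ n ≤
      10 * xr n m ^ 3 * (30 * xr n m ^ 4) ^ n * N n (e+1) := by
  have hx := (nv_x n m hn).1
  have hx0 : 0 ≤ xr n m := by linarith
  have hB := nv_B n m b hn hm hb
  have h := nv_main n e 1 v (10 * xr n m ^ 4) 1 ((N n (b+m-1) : ℝ) * N n m) hn hv hve zero_le_one
    (by positivity) (by
    have h1 : (n.factorial : ℝ) * N n (b+m-1) ≤ ((n:ℝ) + (b+m-1:ℕ))^n := by
      exact_mod_cast nv_a n (b+m-1)
    have h2 : ((n:ℝ) + (b+m-1:ℕ))^n ≤ ((n:ℝ) * (10 * xr n m ^ 3))^n :=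
      pow_le_pow_left₀ (by positivity) hB n
    have h3 := h1.trans h2
    have h4 := nv_aR n m hn
    calc (n.factorial : ℝ)^(1+1) * ((N n (b+m-1) : ℝ) * N n m)
        = (n.factorial * N n (b+m-1)) * (n.factorial * N n m) := by ring
      _ ≤ ((n:ℝ) * (10 * xr n m ^ 3))^n * (n * xr n m)^n :=
          mul_le_mul h3 h4 (by positivity) (by positivity)
      _ = 1 * ((n:ℝ)^(1+1) * (10 * xr n m ^ 4))^n := by rw [← mul_pow]; ring)
  have h9 : (3:ℝ)^1 * (10 * xr n m ^ 4) = 30 * xr n m ^ 4 := by ring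
  rw [h9, one_mul] at h
  have h4 := nv_Bm n m b hn hm hb
  calc (N (n+1) (b+m-1) : ℝ) * N n m * v ^ n
      ≤ 10 * xr n m ^ 3 * N n (b+m-1) * N n m * v ^ n := by
        apply mul_le_mul_of_nonneg_right _ (by positivity)
        exact mul_le_mul_of_nonneg_right h4 (by positivity)
    _ = 10 * xr n m ^ 3 * (N n (b+m-1) * N n m * v ^ n) := by ring
    _ ≤ 10 * xr n m ^ 3 * ((30 * xr n m ^ 4) ^ n * N n (e+1)) :=
        mul_le_mul_of_nonneg_left h (by positivity)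
    _ = _ := by ring

theorem nv_A (n m : ℕ) (hn : 1 ≤ n) : (N (n+1) m : ℝ) ≤ xr n m * N n m := by
  have hn0 : (1:ℝ) ≤ n := by exact_mod_cast hn
  obtain ⟨hx, -, h3⟩ := nv_x n m hn
  have h1 : ((n:ℝ) + 1) * N (n+1) m = ((m:ℝ) + n) * N n m := by exact_mod_cast N_dim n m
  have hN0 : (0:ℝ) ≤ (N n m : ℝ) := by positivity
  have h2 : ((n:ℝ) + 1) * N (n+1) m ≤ (n + 1) * (xr n m * N n m) := by
    rw [h1, add_comm (m:ℝ), h3]
    have : 0 ≤ xr n m * N n m := mul_nonneg (by linarith) hN0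
    nlinarith
  exact le_of_mul_le_mul_left h2 (by positivity)

theorem nv_A1 (n m : ℕ) (hn : 1 ≤ n) : (N (n+2) m : ℝ) ≤ xr n m ^ 2 * N n m := by
  have hn0 : (1:ℝ) ≤ n := by exact_mod_cast hn
  obtain ⟨hx, -, h3⟩ := nv_x n m hn
  have h1 : ((n:ℝ) + 1 + 1) * N (n+2) m = ((m:ℝ) + (n + 1)) * N (n+1) m := by
    exact_mod_cast N_dim (n+1) m
  have hN0 : (0:ℝ) ≤ (N (n+1) m : ℝ) := by positivity
  have h2 : ((n:ℝ) + 1 + 1) * N (n+2) m ≤ (n + 1 + 1) * (xr n m * N (n+1) m) := by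
    rw [h1]
    have h4 : (m:ℝ) + (n + 1) ≤ (n + 1 + 1) * xr n m := by nlinarith
    calc ((m:ℝ) + (n + 1)) * N (n+1) m ≤ (n + 1 + 1) * xr n m * N (n+1) m :=
          mul_le_mul_of_nonneg_right h4 hN0
      _ = _ := by ring
  have h5 := le_of_mul_le_mul_left h2 (by positivity)
  have h6 := nv_A n m hn
  calc (N (n+2) m : ℝ) ≤ xr n m * N (n+1) m := h5
    _ ≤ xr n m * (xr n m * N n m) := mul_le_mul_of_nonneg_left h6 (by linarith)
    _ = _ := by ring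

/-- the drop of the ratio absorbs `Z` -/
theorem nv_slack (n m e Z : ℕ) (hn : 1 ≤ n) (hm : 1 ≤ m) (he : 2 * m ≤ e + 1)
    (h : 2 * m * Z ≤ N n (e+1)) :
    (m - 1) * N n (e+2) + (m - 1 + n) * Z ≤ (m - 1 + n) * N n (e+1) :=
  slack n m e Z hn hm (by omega) h

end Pool.Agent.Helper98.UAH
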