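import Pool.Agent.Helper98.UAH.NumV0

/-! Uniform postulation in all dimensions: module M25. -/

namespace Pool.Agent.Helper98.UAH

open Pool.Agent.Helper46.EAH Finset

lemma numV2_geo (c : ℝ) (hc0 : 0 ≤ c) (hc : c ≤ 16 / 25) (n : ℕ) (hn : 4 ≤ n) :
    (n : ℝ) ^ 2 * c ^ n ≤ 16 * c ^ 4 := by
  induction n, hn using Nat.le_induction with
  | base => norm_num
  | succ n hn ih =>
    have h4 : (4 : ℝ) ≤ n := by exact_mod_cast hn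
    have h1 : ((n + 1 : ℕ) : ℝ) ^ 2 * c ≤ (n : ℝ) ^ 2 := by
      push_cast
      nlinarith [sq_nonneg ((n : ℝ) - 4)]
    have h2 : 0 ≤ c ^ n := pow_nonneg hc0 n
    calc ((n + 1 : ℕ) : ℝ) ^ 2 * c ^ (n + 1) = (((n + 1 : ℕ) : ℝ) ^ 2 * c) * c ^ n := by ring
      _ ≤ (n : ℝ) ^ 2 * c ^ n := mul_le_mul_of_nonneg_right h1 h2
      _ ≤ _ := ih

/-- removing powers of `x` -/
lemma numV2_pow (x : ℝ) (hx : 1 ≤ x) (c : ℝ) (hc : 0 ≤ c) (j n : ℕ) (hn : 4 ≤ n) :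
    (c / x ^ j) ^ n * x ^ (4 * j) ≤ c ^ n := by
  have hx0 : 0 < x := by linarith
  rw [div_pow, ← pow_mul, div_mul_eq_mul_div, div_le_iff₀ (by positivity)]
  have h1 : x ^ (4 * j) ≤ x ^ (j * n) := pow_le_pow_right₀ hx (by nlinarith)
  exact mul_le_mul_of_nonneg_left h1 (pow_nonneg hc n)

lemma numV2_div (n : ℕ) (T V v r s : ℝ) (hv : 0 < v) (hV : 0 ≤ V) (hr : 0 ≤ r)
    (hrs : r ≤ s * v) (h : T * v ^ n ≤ r ^ n * V) : T ≤ s ^ n * V := by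
  have h1 : r ^ n ≤ (s * v) ^ n := pow_le_pow_left₀ hr hrs n
  have h2 : T * v ^ n ≤ (s ^ n * V) * v ^ n := by
    calc T * v ^ n ≤ r ^ n * V := h
      _ ≤ (s * v) ^ n * V := mul_le_mul_of_nonneg_right h1 hV
      _ = _ := by rw [mul_pow]; ring
  exact le_of_mul_le_mul_right h2 (pow_pos hv n)

lemma numV2_B1 (n : ℕ) (a V v x : ℝ) (hx0 : 0 < x) (hV0 : 0 ≤ V) (hv0 : 0 < v)
    (hv40 : 40 * x ^ 4 ≤ v) (K1 : a ^ 2 * v ^ n ≤ (3 * x ^ 2) ^ n * V) :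
    a ^ 2 ≤ (3 / 40 / x ^ 2) ^ n * V := by
  refine numV2_div n _ V v _ _ hv0 hV0 (by positivity) ?_ K1
  have : 3 / 40 / x ^ 2 * (40 * x ^ 4) ≤ 3 / 40 / x ^ 2 * v :=
    mul_le_mul_of_nonneg_left hv40 (by positivity)
  refine le_trans (le_of_eq ?_) this
  field_simp

lemma numV2_B1' (k : ℕ) (a V v x : ℝ) (hx0 : 0 < x) (hV0 : 0 ≤ V) (hv0 : 0 < v)
    (hv40 : 40 * x ^ 4 ≤ v) (K1 : a ^ 2 * v ^ (k + 1) ≤ (3 * x ^ 2) ^ (k + 1) * V) :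
    v * a ^ 2 ≤ 40 * x ^ 4 * ((3 / 40 / x ^ 2) ^ (k + 1) * V) := by
  have h1 : (3 * x ^ 2) ^ k ≤ (3 / 40 / x ^ 2 * v) ^ k := by
    refine pow_le_pow_left₀ (by positivity) ?_ k
    have : 3 / 40 / x ^ 2 * (40 * x ^ 4) ≤ 3 / 40 / x ^ 2 * v :=
      mul_le_mul_of_nonneg_left hv40 (by positivity)
    refine le_trans (le_of_eq ?_) this
    field_simp
  have h2 : a ^ 2 * v ^ (k + 1) ≤ (3 * x ^ 2) * ((3 / 40 / x ^ 2 * v) ^ k * V) := by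
    calc a ^ 2 * v ^ (k + 1) ≤ (3 * x ^ 2) ^ (k + 1) * V := K1
      _ = (3 * x ^ 2) * ((3 * x ^ 2) ^ k * V) := by ring
      _ ≤ _ := mul_le_mul_of_nonneg_left (mul_le_mul_of_nonneg_right h1 hV0) (by positivity)
  have h3 : (v * a ^ 2) * v ^ k ≤ (40 * x ^ 4 * ((3 / 40 / x ^ 2) ^ (k + 1) * V)) * v ^ k := by
    have e0 : 40 * x ^ 4 * (3 / 40 / x ^ 2) = 3 * x ^ 2 := by field_simp
    calc (v * a ^ 2) * v ^ k = a ^ 2 * v ^ (k + 1) := by ring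
      _ ≤ (3 * x ^ 2) * ((3 / 40 / x ^ 2 * v) ^ k * V) := h2
      _ = (40 * x ^ 4 * (3 / 40 / x ^ 2)) * ((3 / 40 / x ^ 2 * v) ^ k * V) := by rw [e0]
      _ = _ := by
        rw [mul_pow, pow_succ (3 / 40 / x ^ 2) k]
        ring
  exact le_of_mul_le_mul_right h3 (pow_pos hv0 k)

lemma numV2_B2 (n : ℕ) (a V v x : ℝ) (hx0 : 0 < x) (hV0 : 0 ≤ V) (hv0 : 0 < v)
    (hv40 : 40 * x ^ 4 ≤ v) (K2 : a ^ 3 * v ^ n ≤ (9 * x ^ 3) ^ n * V) :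
    a ^ 3 ≤ (9 / 40 / x ^ 1) ^ n * V := by
  refine numV2_div n _ V v _ _ hv0 hV0 (by positivity) ?_ K2
  have : 9 / 40 / x ^ 1 * (40 * x ^ 4) ≤ 9 / 40 / x ^ 1 * v :=
    mul_le_mul_of_nonneg_left hv40 (by positivity)
  refine le_trans (le_of_eq ?_) this
  field_simp

lemma numV2_B3 (n : ℕ) (c V v x : ℝ) (hx0 : 0 < x) (hV0 : 0 ≤ V) (hv0 : 0 < v)
    (hv40 : 40 * x ^ 4 ≤ v) (K3 : c * v ^ n ≤ (10 * x ^ 3) ^ n * V) :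
    c ≤ (1 / 4 / x ^ 1) ^ n * V := by
  refine numV2_div n _ V v _ _ hv0 hV0 (by positivity) ?_ K3
  have : 1 / 4 / x ^ 1 * (40 * x ^ 4) ≤ 1 / 4 / x ^ 1 * v :=
    mul_le_mul_of_nonneg_left hv40 (by positivity)
  refine le_trans (le_of_eq ?_) this
  field_simp
  norm_num

lemma numV2_c (n : ℕ) (hn : 4 ≤ n) (x : ℝ) (hx1 : 1 ≤ x) :
    (n : ℝ) ^ 2 * ((3 / 40 / x ^ 2) ^ n * x ^ 8) ≤ 0.00051 ∧
    (n : ℝ) ^ 2 * ((9 / 40 / x ^ 1) ^ n * x ^ 4) ≤ 0.0411 ∧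
    (n : ℝ) ^ 2 * ((1 / 4 / x ^ 1) ^ n * x ^ 4) ≤ 0.0625 := by
  have G1 := numV2_geo (3 / 40) (by norm_num) (by norm_num) n hn
  have G2 := numV2_geo (9 / 40) (by norm_num) (by norm_num) n hn
  have G3 := numV2_geo (1 / 4) (by norm_num) (by norm_num) n hn
  have P1 := numV2_pow x hx1 (3 / 40) (by norm_num) 2 n hn
  have P2 := numV2_pow x hx1 (9 / 40) (by norm_num) 1 n hn
  have P3 := numV2_pow x hx1 (1 / 4) (by norm_num) 1 n hn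
  have hn2 : (0 : ℝ) ≤ (n : ℝ) ^ 2 := by positivity
  refine ⟨?_, ?_, ?_⟩
  · exact (mul_le_mul_of_nonneg_left P1 hn2).trans (G1.trans (by norm_num))
  · exact (mul_le_mul_of_nonneg_left P2 hn2).trans (G2.trans (by norm_num))
  · exact (mul_le_mul_of_nonneg_left P3 hn2).trans (G3.trans (by norm_num))

lemma numV2_e1 (n x a V t1 : ℝ) (hn : n ≤ n ^ 2 / 4) (hn0 : 0 < n) (hx1 : 1 ≤ x)
    (hV : 0 ≤ V) (_ : 0 ≤ t1) (B1 : a ^ 2 ≤ t1 * V) (c1 : n ^ 2 * (t1 * x ^ 8) ≤ 0.00051) :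
    2 * (n * x) * (x ^ 2 * a ^ 2) ≤ 0.0003 * V := by
  have hx0 : 0 < x := by linarith
  have h38 : x ^ 3 ≤ x ^ 8 := pow_le_pow_right₀ hx1 (by norm_num)
  calc 2 * (n * x) * (x ^ 2 * a ^ 2) = (2 * n) * x ^ 3 * a ^ 2 := by ring
    _ ≤ (2 * (n ^ 2 / 4)) * x ^ 8 * (t1 * V) :=
        mul_le_mul (mul_le_mul (by linarith) h38 (by positivity) (by positivity)) B1
          (by positivity) (by positivity)
    _ = (n ^ 2 * (t1 * x ^ 8)) / 2 * V := by ring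
    _ ≤ 0.0003 * V := mul_le_mul_of_nonneg_right (by linarith) hV

lemma numV2_e2 (n x a V t1 : ℝ) (hn : n ≤ n ^ 2 / 4) (hn0 : 0 < n) (hx1 : 1 ≤ x)
    (hV : 0 ≤ V) (_ : 0 ≤ t1) (B1 : a ^ 2 ≤ t1 * V) (c1 : n ^ 2 * (t1 * x ^ 8) ≤ 0.00051) :
    2 * (n * x) * (3 * x ^ 4 * a ^ 2) ≤ 0.001 * V := by
  have hx0 : 0 < x := by linarith
  have h38 : x ^ 5 ≤ x ^ 8 := pow_le_pow_right₀ hx1 (by norm_num)
  calc 2 * (n * x) * (3 * x ^ 4 * a ^ 2) = (6 * n) * x ^ 5 * a ^ 2 := by ring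
    _ ≤ (6 * (n ^ 2 / 4)) * x ^ 8 * (t1 * V) :=
        mul_le_mul (mul_le_mul (by linarith) h38 (by positivity) (by positivity)) B1
          (by positivity) (by positivity)
    _ = (n ^ 2 * (t1 * x ^ 8)) * (3 / 2) * V := by ring
    _ ≤ 0.001 * V := mul_le_mul_of_nonneg_right (by linarith) hV

lemma numV2_e3 (n x c V t3 : ℝ) (hn0 : 0 < n) (hx1 : 1 ≤ x) (hc : 0 ≤ c)
    (hV : 0 ≤ V) (t30 : 0 ≤ t3) (B3 : c ≤ t3 * V) (c3 : n ^ 2 * (t3 * x ^ 4) ≤ 0.0625) :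
    2 * (n * x) * (n * x * c) ≤ 0.125 * V := by
  have hx0 : 0 < x := by linarith
  have h38 : x ^ 2 ≤ x ^ 4 := pow_le_pow_right₀ hx1 (by norm_num)
  calc 2 * (n * x) * (n * x * c) = (2 * n ^ 2) * x ^ 2 * c := by ring
    _ ≤ (2 * n ^ 2) * x ^ 4 * (t3 * V) :=
        mul_le_mul (mul_le_mul le_rfl h38 (by positivity) (by positivity)) B3
          hc (by positivity)
    _ = (n ^ 2 * (t3 * x ^ 4)) * 2 * V := by ring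
    _ ≤ 0.125 * V := mul_le_mul_of_nonneg_right (by linarith) hV

lemma numV2_e4 (n x a v V t1 : ℝ) (hn0 : 0 < n) (hx1 : 1 ≤ x) (hv : 0 < v)
    (hV : 0 ≤ V) (_ : 0 ≤ t1) (B1 : v * a ^ 2 ≤ 40 * x ^ 4 * (t1 * V))
    (c1 : n ^ 2 * (t1 * x ^ 8) ≤ 0.00051) :
    2 * (n * x) * ((n * v) * (4 * x ^ 2 * a ^ 2)) ≤ 0.17 * V := by
  have hx0 : 0 < x := by linarith
  have h38 : x ^ 7 ≤ x ^ 8 := pow_le_pow_right₀ hx1 (by norm_num)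
  calc 2 * (n * x) * ((n * v) * (4 * x ^ 2 * a ^ 2)) = (8 * n ^ 2 * x ^ 3) * (v * a ^ 2) := by
        ring
    _ ≤ (8 * n ^ 2 * x ^ 3) * (40 * x ^ 4 * (t1 * V)) :=
        mul_le_mul_of_nonneg_left B1 (by positivity)
    _ = (320 * n ^ 2 * (t1 * V)) * x ^ 7 := by ring
    _ ≤ (320 * n ^ 2 * (t1 * V)) * x ^ 8 :=
        mul_le_mul_of_nonneg_left h38 (by positivity)
    _ = (n ^ 2 * (t1 * x ^ 8)) * 320 * V := by ring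
    _ ≤ 0.17 * V := mul_le_mul_of_nonneg_right (by linarith) hV

lemma numV2_e5 (n x a V t2 : ℝ) (hn : n ≤ n ^ 2 / 4) (hn0 : 0 < n) (hx1 : 1 ≤ x)
    (ha : 0 ≤ a) (hV : 0 ≤ V) (t20 : 0 ≤ t2) (B2 : a ^ 3 ≤ t2 * V)
    (c2 : n ^ 2 * (t2 * x ^ 4) ≤ 0.0411) :
    2 * (n * x) * (2 * x ^ 2 * a ^ 3) ≤ 0.05 * V := by
  have hx0 : 0 < x := by linarith
  have h38 : x ^ 3 ≤ x ^ 4 := pow_le_pow_right₀ hx1 (by norm_num)
  calc 2 * (n * x) * (2 * x ^ 2 * a ^ 3) = (4 * n) * x ^ 3 * a ^ 3 := by ring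
    _ ≤ (4 * (n ^ 2 / 4)) * x ^ 4 * (t2 * V) :=
        mul_le_mul (mul_le_mul (by linarith) h38 (by positivity) (by positivity)) B2
          (by positivity) (by positivity)
    _ = (n ^ 2 * (t2 * x ^ 4)) * V := by ring
    _ ≤ 0.05 * V := mul_le_mul_of_nonneg_right (by linarith) hV

lemma numV2_key (n m x a v V c Z : ℝ) (hm : m ≤ n * x) (hm0 : 0 ≤ m) (hZ : Z ≤ x ^ 2 * a ^ 2 +
      (3 * x ^ 4 * a ^ 2 + n * x * c + (n * v) * (4 * x ^ 2 * a ^ 2)) + 2 * x ^ 2 * a ^ 3)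
    (hn0 : 0 < n) (hx : 0 < x) (ha : 0 ≤ a) (hc : 0 ≤ c) (hv : 0 < v) (hV : 0 ≤ V)
    (e1 : 2 * (n * x) * (x ^ 2 * a ^ 2) ≤ 0.0003 * V)
    (e2 : 2 * (n * x) * (3 * x ^ 4 * a ^ 2) ≤ 0.001 * V)
    (e3 : 2 * (n * x) * (n * x * c) ≤ 0.125 * V)
    (e4 : 2 * (n * x) * ((n * v) * (4 * x ^ 2 * a ^ 2)) ≤ 0.17 * V)
    (e5 : 2 * (n * x) * (2 * x ^ 2 * a ^ 3) ≤ 0.05 * V) :
    2 * m * Z ≤ V := by
  have hpos : 0 ≤ x ^ 2 * a ^ 2 +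
      (3 * x ^ 4 * a ^ 2 + n * x * c + (n * v) * (4 * x ^ 2 * a ^ 2)) + 2 * x ^ 2 * a ^ 3 := by
    positivity
  calc 2 * m * Z ≤ 2 * m * (x ^ 2 * a ^ 2 +
      (3 * x ^ 4 * a ^ 2 + n * x * c + (n * v) * (4 * x ^ 2 * a ^ 2)) + 2 * x ^ 2 * a ^ 3) :=
        mul_le_mul_of_nonneg_left hZ (by positivity)
    _ ≤ 2 * (n * x) * (x ^ 2 * a ^ 2 +
      (3 * x ^ 4 * a ^ 2 + n * x * c + (n * v) * (4 * x ^ 2 * a ^ 2)) + 2 * x ^ 2 * a ^ 3) :=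
        mul_le_mul_of_nonneg_right (by linarith) hpos
    _ = 2 * (n * x) * (x ^ 2 * a ^ 2) + (2 * (n * x) * (3 * x ^ 4 * a ^ 2) +
          2 * (n * x) * (n * x * c) + 2 * (n * x) * ((n * v) * (4 * x ^ 2 * a ^ 2))) +
          2 * (n * x) * (2 * x ^ 2 * a ^ 3) := by ring
    _ ≤ V := by linarith

lemma numV2_Wf (n m : ℕ) (x a : ℝ) (hx1 : 1 ≤ x) (ha : a = (N n m : ℝ))
    (hA : (N (n+1) m : ℝ) ≤ x * a) (hA1 : (N (n+2) m : ℝ) ≤ x ^ 2 * a) (ha1 : 1 ≤ a) :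
    ((Wf n m : ℕ) : ℝ) ≤ x ^ 2 * a ^ 2 ∧ ((W1f n m : ℕ) : ℝ) ≤ 3 * x ^ 4 * a ^ 2 ∧
    ((W0f n m : ℕ) : ℝ) + a ≤ 4 * x ^ 2 * a ^ 2 := by
  have hA0 : (0 : ℝ) ≤ (N (n+1) m : ℝ) := Nat.cast_nonneg _
  have hA10 : (0 : ℝ) ≤ (N (n+2) m : ℝ) := Nat.cast_nonneg _
  have hx0 : 0 < x := by linarith
  have hx2 : 1 ≤ x ^ 2 := one_le_pow₀ hx1
  have hx4 : 1 ≤ x ^ 4 := one_le_pow₀ hx1
  have ha2 : a ≤ a ^ 2 := by nlinarith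
  have ha21 : 1 ≤ a ^ 2 := one_le_pow₀ ha1
  have q1 : a ^ 2 ≤ x ^ 2 * a ^ 2 := by nlinarith
  have q2 : a ^ 2 ≤ x ^ 4 * a ^ 2 := by nlinarith
  have hs : (N (n+1) m : ℝ) * (N (n+1) m : ℝ) ≤ x ^ 2 * a ^ 2 :=
    (mul_le_mul hA hA hA0 (by positivity)).trans (le_of_eq (by ring))
  have hs1 : (N (n+2) m : ℝ) * (N (n+2) m : ℝ) ≤ x ^ 4 * a ^ 2 :=
    (mul_le_mul hA1 hA1 hA10 (by positivity)).trans (le_of_eq (by ring))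
  refine ⟨?_, ?_, ?_⟩
  · unfold Wf
    push_cast
    nlinarith
  · unfold W1f
    push_cast
    nlinarith
  · unfold W0f
    push_cast
    nlinarith

lemma numV2_wa (W x a : ℝ) (hx1 : 1 ≤ x) (ha1 : 1 ≤ a) (hWf : W ≤ x ^ 2 * a ^ 2) :
    (W + a) * a ≤ 2 * x ^ 2 * a ^ 3 := by
  have h2 : 1 ≤ x ^ 2 := one_le_pow₀ hx1
  have h3 : a ≤ a ^ 2 := by nlinarith
  have h4 : a ^ 2 ≤ x ^ 2 * a ^ 2 := by
    have := mul_le_mul_of_nonneg_right h2 (sq_nonneg a)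
    linarith
  have h5 : W + a ≤ 2 * x ^ 2 * a ^ 2 := by linarith
  calc (W + a) * a ≤ (2 * x ^ 2 * a ^ 2) * a :=
        mul_le_mul_of_nonneg_right h5 (by linarith)
    _ = _ := by ring

lemma numV2_ov (n m b e : ℕ) (x v : ℝ) (hnm : (n : ℝ) + m = n * x) (hn0 : (0 : ℝ) < n)
    (hnv : (n : ℝ) * v = e + 1)
    (hW1 : ((W1f n m : ℕ) : ℝ) ≤ 3 * x ^ 4 * (N n m : ℝ) ^ 2)
    (hW0 : ((W0f n m : ℕ) : ℝ) + (N n m : ℝ) ≤ 4 * x ^ 2 * (N n m : ℝ) ^ 2) (hv0 : 0 < v) :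
    ((ov n m (W0f n m) (W1f n m) b e : ℕ) : ℝ) ≤
      3 * x ^ 4 * (N n m : ℝ) ^ 2 + n * x * (N n (b+1) : ℝ) +
        (n * v) * (4 * x ^ 2 * (N n m : ℝ) ^ 2) := by
  unfold ov
  push_cast
  have h1 : ((e - b : ℕ) : ℝ) ≤ n * v := by
    have : ((e - b : ℕ) : ℝ) ≤ e := by exact_mod_cast Nat.sub_le e b
    linarith
  have h2 : ((e - b : ℕ) : ℝ) * (((W0f n m : ℕ) : ℝ) + (N n m : ℝ)) ≤
      (n * v) * (4 * x ^ 2 * (N n m : ℝ) ^ 2) :=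
    mul_le_mul h1 hW0 (by positivity) (by positivity)
  rw [hnm]
  linarith

theorem numV2 (n m b E1 e : ℕ) (hn : 4 ≤ n) (hm : 2 ≤ m) (hb : (b:ℝ) ≤ 9 * n * xr n m ^ 3 + 1)
    (hE : 40 * n * xr n m ^ 4 ≤ (E1:ℝ)) (he : E1 ≤ e) :
    (m - 1) * N n (e+2) + (m - 1 + n) * (Wf n m + ov n m (W0f n m) (W1f n m) b e +
      (Wf n m + N n m) * N n m) ≤ (m - 1 + n) * N n (e+1) := by
  obtain ⟨hx1, hmx, hnm⟩ := nv_x n m (by omega)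
  have hA := nv_A n m (by omega)
  have hA1 := nv_A1 n m (by omega)
  set v : ℝ := ((e : ℝ) + 1) / n with hv
  have hn4 : (4 : ℝ) ≤ n := by exact_mod_cast hn
  have hn0 : (0 : ℝ) < n := by linarith
  have hnv : (n : ℝ) * v = e + 1 := by rw [hv]; field_simp
  have heE : (E1 : ℝ) ≤ e := by exact_mod_cast he
  have hx0 : 0 < xr n m := by linarith
  have hx4 : 1 ≤ xr n m ^ 4 := one_le_pow₀ hx1
  have hv40 : 40 * xr n m ^ 4 ≤ v := by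
    rw [hv, le_div_iff₀ hn0]
    linarith
  have hv0 : 0 < v := by linarith
  have K1 := nv_K1 n m e v (by omega) hv0.le hnv.le
  have K2 := nv_K2 n m e v (by omega) hv0.le hnv.le
  have K3 := nv_K3 n m b e v (by omega) (by omega) hv0.le hnv.le hb
  have hm2 : (2 : ℝ) ≤ m := by exact_mod_cast hm
  have h2m : 2 * m ≤ e + 1 := by
    have : (2 * m : ℝ) ≤ e + 1 := by
      have hxx4 : xr n m ≤ xr n m ^ 4 := by
        calc xr n m = xr n m ^ 1 := (pow_one _).symm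
          _ ≤ xr n m ^ 4 := pow_le_pow_right₀ hx1 (by norm_num)
      have h1 : 40 * (n : ℝ) * xr n m ^ 4 ≤ e := hE.trans heE
      have h2 : (n : ℝ) * xr n m ≤ n * xr n m ^ 4 := mul_le_mul_of_nonneg_left hxx4 hn0.le
      have h3 : 0 ≤ (n : ℝ) * xr n m ^ 4 := by positivity
      linarith
    exact_mod_cast this
  have ha1 : (1 : ℝ) ≤ (N n m : ℝ) := by exact_mod_cast N_pos (by omega)
  obtain ⟨hWf, hW1, hW0⟩ := numV2_Wf n m (xr n m) (N n m : ℝ) hx1 rfl hA hA1 ha1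
  obtain ⟨c1, c2, c3⟩ := numV2_c n hn (xr n m) hx1
  have hV0 : (0 : ℝ) ≤ (N n (e+1) : ℝ) := Nat.cast_nonneg _
  have hc0 : (0 : ℝ) ≤ (N n (b+1) : ℝ) := Nat.cast_nonneg _
  have B1 := numV2_B1 n _ _ v _ hx0 hV0 hv0 hv40 K1
  have B2 := numV2_B2 n _ _ v _ hx0 hV0 hv0 hv40 K2
  have B3 := numV2_B3 n _ _ v _ hx0 hV0 hv0 hv40 K3
  have B1' : v * (N n m : ℝ) ^ 2 ≤ 40 * xr n m ^ 4 * ((3 / 40 / xr n m ^ 2) ^ n *
      (N n (e+1) : ℝ)) := by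
    obtain ⟨k, hk⟩ : ∃ k, n = k + 1 := ⟨n - 1, by omega⟩
    have K1' : (N n m : ℝ) ^ 2 * v ^ (k + 1) ≤ (3 * xr n m ^ 2) ^ (k + 1) * N n (e+1) := by
      rw [← hk]; exact K1
    have := numV2_B1' k _ _ v _ hx0 hV0 hv0 hv40 K1'
    rw [← hk] at this
    exact this
  have hnn : (n : ℝ) ≤ (n : ℝ) ^ 2 / 4 := by nlinarith
  have ha0 : (0 : ℝ) ≤ (N n m : ℝ) := by linarith
  have e1 := numV2_e1 n (xr n m) (N n m) _ _ hnn hn0 hx1 hV0 (by positivity) B1 c1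
  have e2 := numV2_e2 n (xr n m) (N n m) _ _ hnn hn0 hx1 hV0 (by positivity) B1 c1
  have e3 := numV2_e3 n (xr n m) _ _ _ hn0 hx1 hc0 hV0 (by positivity) B3 c3
  have e4 := numV2_e4 n (xr n m) (N n m) v _ _ hn0 hx1 hv0 hV0 (by positivity) B1' c1
  have e5 := numV2_e5 n (xr n m) (N n m) _ _ hnn hn0 hx1 ha0 hV0 (by positivity) B2 c2
  have hov := numV2_ov n m b e (xr n m) v hnm hn0 hnv hW1 hW0 hv0
  have hZ : (((Wf n m + ov n m (W0f n m) (W1f n m) b e + (Wf n m + N n m) * N n m : ℕ)) : ℝ) ≤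
      xr n m ^ 2 * (N n m : ℝ) ^ 2 + (3 * xr n m ^ 4 * (N n m : ℝ) ^ 2 +
        n * xr n m * (N n (b+1) : ℝ) + (n * v) * (4 * xr n m ^ 2 * (N n m : ℝ) ^ 2)) +
        2 * xr n m ^ 2 * (N n m : ℝ) ^ 3 := by
    rw [Nat.cast_add, Nat.cast_add, Nat.cast_mul, Nat.cast_add]
    exact add_le_add (add_le_add hWf hov) (numV2_wa _ _ _ hx1 ha1 hWf)
  have key := numV2_key n m (xr n m) (N n m) v _ _ _ hmx (by linarith) hZ hn0 hx0 ha0 hc0 hv0 hV0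
    e1 e2 e3 e4 e5
  apply nv_slack n m e _ (by omega) (by omega) h2m
  exact_mod_cast key

end Pool.Agent.Helper98.UAH
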