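import Pool.Agent.Helper98.UAH.NumV0

/-! Module M26: numerical inequality for the auxiliary degree. -/

namespace Pool.Agent.Helper98.UAH

open Pool.Agent.Helper46.EAH Finset

theorem m26_N_pos (n m : ℕ) (hm : 1 ≤ m) : 1 ≤ N n m := by
  obtain ⟨k, rfl⟩ : ∃ k, m = k + 1 := ⟨m - 1, by omega⟩
  rw [N_succ]
  exact Nat.choose_pos (by omega)

/-- dividing by `v ^ n`. -/
theorem m26_div {T V c w v : ℝ} {n : ℕ} (hv : 0 < v) (hV : 0 ≤ V) (h : T * v ^ n ≤ w * V)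
    (hw : w ≤ c * v ^ n) : T ≤ c * V := by
  have hvn : 0 < v ^ n := pow_pos hv n
  have h1 : T * v ^ n ≤ (c * V) * v ^ n := by
    calc T * v ^ n ≤ w * V := h
      _ ≤ (c * v ^ n) * V := mul_le_mul_of_nonneg_right hw hV
      _ = (c * V) * v ^ n := by ring
  exact le_of_mul_le_mul_right h1 hvn

theorem m26_p1 (x v : ℝ) (n : ℕ) (hx : 1 ≤ x) (hv : 40 * x ^ 4 ≤ v) :
    5 / 2 * n * x ^ 3 * (9 * x ^ 3) ^ n ≤ 1 / 10 * n * v * v ^ n := by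
  have h34 : x ^ 3 ≤ x ^ 4 := pow_le_pow_right₀ hx (by norm_num)
  have hx3 : 0 ≤ x ^ 3 := by positivity
  have h1 : (9 * x ^ 3) ^ n ≤ v ^ n :=
    pow_le_pow_left₀ (by positivity) (le_trans (by linarith) hv) n
  have h2 : 5 / 2 * x ^ 3 ≤ 1 / 10 * v := by linarith
  have h3 : 5 / 2 * x ^ 3 * (9 * x ^ 3) ^ n ≤ 1 / 10 * v * v ^ n :=
    mul_le_mul h2 h1 (by positivity) (by linarith)
  have hn0 : (0 : ℝ) ≤ n := Nat.cast_nonneg n
  calc 5 / 2 * n * x ^ 3 * (9 * x ^ 3) ^ n = n * (5 / 2 * x ^ 3 * (9 * x ^ 3) ^ n) := by ring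
    _ ≤ n * (1 / 10 * v * v ^ n) := mul_le_mul_of_nonneg_left h3 hn0
    _ = _ := by ring

theorem m26_p2 (x v : ℝ) (n : ℕ) (hx : 1 ≤ x) (hv : 40 * x ^ 4 ≤ v) :
    5 / 4 * n * (10 * x ^ 3 * (10 * x ^ 3) ^ n) ≤ 1 / 2 * n * v * v ^ n := by
  have h34 : x ^ 3 ≤ x ^ 4 := pow_le_pow_right₀ hx (by norm_num)
  have hx3 : 0 ≤ x ^ 3 := by positivity
  have h1 : (10 * x ^ 3) ^ n ≤ v ^ n :=
    pow_le_pow_left₀ (by positivity) (le_trans (by linarith) hv) n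
  have h2 : 5 / 4 * (10 * x ^ 3) ≤ 1 / 2 * v := by linarith
  have h3 : 5 / 4 * (10 * x ^ 3) * (10 * x ^ 3) ^ n ≤ 1 / 2 * v * v ^ n :=
    mul_le_mul h2 h1 (by positivity) (by linarith)
  have hn0 : (0 : ℝ) ≤ n := Nat.cast_nonneg n
  calc 5 / 4 * n * (10 * x ^ 3 * (10 * x ^ 3) ^ n)
      = n * (5 / 4 * (10 * x ^ 3) * (10 * x ^ 3) ^ n) := by ring
    _ ≤ n * (1 / 2 * v * v ^ n) := mul_le_mul_of_nonneg_left h3 hn0
    _ = _ := by ring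

theorem m26_p3 (x v : ℝ) (n : ℕ) (hn : 4 ≤ n) (hx : 1 ≤ x) (hv : 40 * x ^ 4 ≤ v) :
    5 / 2 * n ^ 2 * v * x ^ 2 * (3 * x ^ 2) ^ n ≤ 3 / 10 * n * v * v ^ n := by
  have hv0 : 0 < v := lt_of_lt_of_le (by positivity) hv
  have h1 : (40 * x ^ 4) ^ n ≤ v ^ n := pow_le_pow_left₀ (by positivity) hv n
  have h2 : (40 * x ^ 4) ^ n = (3 * x ^ 2) ^ n * ((40 / 3) ^ n * (x ^ 2) ^ n) := by
    rw [← mul_pow, ← mul_pow]
    congr 1
    ring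
  have h3 : 10 * (n : ℝ) ≤ (40 / 3 : ℝ) ^ n := by
    clear h1 h2
    induction n, hn using Nat.le_induction with
    | base => norm_num
    | succ k hk ih =>
      rw [pow_succ]
      push_cast
      have : (4 : ℝ) ≤ k := by exact_mod_cast hk
      nlinarith
  have h4 : x ^ 2 ≤ (x ^ 2) ^ n := by
    rw [← pow_mul]
    exact pow_le_pow_right₀ hx (by omega)
  have h5 : 10 * (n : ℝ) * x ^ 2 ≤ (40 / 3) ^ n * (x ^ 2) ^ n :=
    mul_le_mul h3 h4 (by positivity) (by positivity)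
  have h6 : 0 ≤ (3 * x ^ 2) ^ n := by positivity
  have h7 : 10 * (n : ℝ) * x ^ 2 * (3 * x ^ 2) ^ n ≤ v ^ n := by
    calc 10 * (n : ℝ) * x ^ 2 * (3 * x ^ 2) ^ n
        ≤ ((40 / 3) ^ n * (x ^ 2) ^ n) * (3 * x ^ 2) ^ n := mul_le_mul_of_nonneg_right h5 h6
      _ = (40 * x ^ 4) ^ n := by rw [h2]; ring
      _ ≤ v ^ n := h1
  have hn0 : (0 : ℝ) ≤ n := Nat.cast_nonneg n
  have hvn : 0 < v ^ n := pow_pos hv0 n
  calc 5 / 2 * (n : ℝ) ^ 2 * v * x ^ 2 * (3 * x ^ 2) ^ n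
      = 1 / 4 * n * v * (10 * (n : ℝ) * x ^ 2 * (3 * x ^ 2) ^ n) := by ring
    _ ≤ 1 / 4 * n * v * v ^ n := mul_le_mul_of_nonneg_left h7 (by positivity)
    _ ≤ 3 / 10 * n * v * v ^ n := by
        have : 0 ≤ n * v * v ^ n := by positivity
        nlinarith

theorem numV3 (n m b E1 e : ℕ) (hn : 4 ≤ n) (hm : 2 ≤ m) (hb : (b:ℝ) ≤ 9 * n * xr n m ^ 3 + 1)
    (hE : 40 * n * xr n m ^ 4 ≤ (E1:ℝ)) (he : E1 + 1 ≤ e) :
    (n+1) * ((Wf n m + N n m) * N (n+1) m) + (n+1) * zg n m (Wf n m) b e +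
      (n+m) * N n (e+1) ≤ (n+e+1) * N n (e+1) := by
  have hn1 : 1 ≤ n := by omega
  have hm1 : 1 ≤ m := by omega
  have hnR : (0 : ℝ) < n := by exact_mod_cast (by omega : 0 < n)
  have hn4 : (4 : ℝ) ≤ n := by exact_mod_cast hn
  obtain ⟨hx, hmx, -⟩ := nv_x n m hn1
  set x := xr n m with hxdef
  set v : ℝ := ((e : ℝ) + 1) / n with hvdef
  have hnv : (n : ℝ) * v = e + 1 := by rw [hvdef]; field_simp
  have hEe : (E1 : ℝ) + 1 ≤ e := by exact_mod_cast he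
  have hv : 40 * x ^ 4 ≤ v := by
    rw [hvdef, le_div_iff₀ hnR]
    nlinarith
  have hv0 : 0 < v := lt_of_lt_of_le (by positivity) hv
  set V : ℝ := (N n (e+1) : ℝ) with hV
  set a : ℝ := (N n m : ℝ) with ha
  set A : ℝ := (N (n+1) m : ℝ) with hAdef
  have hV0 : 0 ≤ V := Nat.cast_nonneg _
  have ha1 : 1 ≤ a := by rw [ha]; exact_mod_cast m26_N_pos n m hm1
  have hA : A ≤ x * a := by
    have := nv_A n m hn1
    rwa [← hxdef, ← ha, ← hAdef] at this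
  have hA0 : (0 : ℝ) ≤ A := Nat.cast_nonneg _
  have hW : (Wf n m : ℝ) ≤ x ^ 2 * a ^ 2 := by
    unfold Wf
    push_cast
    rw [← hAdef]
    nlinarith
  have hWa : (Wf n m : ℝ) + a ≤ 2 * x ^ 2 * a ^ 2 := by
    have h1 : a ≤ x ^ 2 * a ^ 2 := by
      have h2 : 1 ≤ x ^ 2 := one_le_pow₀ hx
      nlinarith
    linarith
  have hW0 : (0 : ℝ) ≤ (Wf n m : ℝ) := Nat.cast_nonneg _
  have hn54 : (n : ℝ) + 1 ≤ 5 / 4 * n := by linarith
  -- the three terms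
  have t1 : 5 / 2 * n * x ^ 3 * a ^ 3 ≤ 1 / 10 * n * v * V := by
    have h1 := nv_K2 n m e v hn1 hv0.le hnv.le
    apply m26_div hv0 hV0 (w := 5 / 2 * n * x ^ 3 * (9 * x ^ 3) ^ n) _ (m26_p1 x v n hx hv)
    calc 5 / 2 * n * x ^ 3 * a ^ 3 * v ^ n = 5 / 2 * n * x ^ 3 * (a ^ 3 * v ^ n) := by ring
      _ ≤ 5 / 2 * n * x ^ 3 * ((9 * x ^ 3) ^ n * V) :=
          mul_le_mul_of_nonneg_left h1 (by positivity)
      _ = _ := by ring
  have t2 : 5 / 4 * n * (N (n+1) (b+m-1) : ℝ) ≤ 1 / 2 * n * v * V := by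
    have h1 := nv_K4 n m b e v hn1 hm1 hv0.le hnv.le hb
    apply m26_div hv0 hV0 (w := 5 / 4 * n * (10 * x ^ 3 * (10 * x ^ 3) ^ n)) _
      (m26_p2 x v n hx hv)
    calc 5 / 4 * n * (N (n+1) (b+m-1) : ℝ) * v ^ n
        = 5 / 4 * n * ((N (n+1) (b+m-1) : ℝ) * v ^ n) := by ring
      _ ≤ 5 / 4 * n * (10 * x ^ 3 * (10 * x ^ 3) ^ n * V) :=
          mul_le_mul_of_nonneg_left h1 (by positivity)
      _ = _ := by ring
  have t3 : 5 / 2 * n ^ 2 * v * x ^ 2 * a ^ 2 ≤ 3 / 10 * n * v * V := by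
    have h1 := nv_K1 n m e v hn1 hv0.le hnv.le
    apply m26_div hv0 hV0 (w := 5 / 2 * n ^ 2 * v * x ^ 2 * (3 * x ^ 2) ^ n) _
      (m26_p3 x v n hn hx hv)
    calc 5 / 2 * n ^ 2 * v * x ^ 2 * a ^ 2 * v ^ n
        = 5 / 2 * n ^ 2 * v * x ^ 2 * (a ^ 2 * v ^ n) := by ring
      _ ≤ 5 / 2 * n ^ 2 * v * x ^ 2 * ((3 * x ^ 2) ^ n * V) :=
          mul_le_mul_of_nonneg_left h1 (by positivity)
      _ = _ := by ring
  have hsub : ((e + 2 - (b + m) : ℕ) : ℝ) ≤ n * v := by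
    rw [hnv]
    exact_mod_cast (by omega : e + 2 - (b + m) ≤ e + 1)
  have s1 : ((n : ℝ) + 1) * (((Wf n m : ℝ) + a) * A) ≤ 5 / 2 * n * x ^ 3 * a ^ 3 := by
    calc ((n : ℝ) + 1) * (((Wf n m : ℝ) + a) * A)
        ≤ (5 / 4 * n) * ((2 * x ^ 2 * a ^ 2) * (x * a)) := by
          apply mul_le_mul hn54 _ (by positivity) (by positivity)
          exact mul_le_mul hWa hA hA0 (by positivity)
      _ = _ := by ring
  have hN0 : (0 : ℝ) ≤ (N (n+1) (b+m-1) : ℝ) := Nat.cast_nonneg _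
  have s2 : ((n : ℝ) + 1) * (N (n+1) (b+m-1) : ℝ) ≤ 5 / 4 * n * (N (n+1) (b+m-1) : ℝ) :=
    mul_le_mul_of_nonneg_right hn54 hN0
  have s3 : ((n : ℝ) + 1) * (((e + 2 - (b + m) : ℕ) : ℝ) * ((Wf n m : ℝ) + a)) ≤
      5 / 2 * n ^ 2 * v * x ^ 2 * a ^ 2 := by
    calc ((n : ℝ) + 1) * (((e + 2 - (b + m) : ℕ) : ℝ) * ((Wf n m : ℝ) + a))
        ≤ (5 / 4 * n) * ((n * v) * (2 * x ^ 2 * a ^ 2)) := by
          apply mul_le_mul hn54 _ (by positivity) (by positivity)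
          exact mul_le_mul hsub hWa (by linarith) (by positivity)
      _ = _ := by ring
  have hmv : (m : ℝ) ≤ 1 / 40 * (n * v) := by
    have h1 : x ≤ x ^ 4 := by
      have := pow_le_pow_right₀ hx (by norm_num : 1 ≤ 4)
      rwa [pow_one] at this
    have h2 : x ≤ 1 / 40 * v := by linarith
    calc (m : ℝ) ≤ n * x := hmx
      _ ≤ n * (1 / 40 * v) := mul_le_mul_of_nonneg_left h2 hnR.le
      _ = _ := by ring
  have hfin : (((n+1) * ((Wf n m + N n m) * N (n+1) m) + (n+1) * zg n m (Wf n m) b e +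
      (n+m) * N n (e+1) : ℕ) : ℝ) ≤ (((n+e+1) * N n (e+1) : ℕ) : ℝ) := by
    unfold zg
    push_cast
    rw [← ha, ← hAdef, ← hV]
    have e1 : ((n : ℝ) + e + 1) * V = (n + m) * V + (n * v - m) * V := by
      rw [hnv]; ring
    have e2 : ((n : ℝ) + 1) * ((N (n+1) (b+m-1) : ℝ) +
        ((e + 2 - (b + m) : ℕ) : ℝ) * ((Wf n m : ℝ) + a)) =
        ((n : ℝ) + 1) * (N (n+1) (b+m-1) : ℝ) +
        ((n : ℝ) + 1) * (((e + 2 - (b + m) : ℕ) : ℝ) * ((Wf n m : ℝ) + a)) := by ring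
    have e3 : 39 / 40 * (n * v) * V ≤ (n * v - m) * V :=
      mul_le_mul_of_nonneg_right (by linarith) hV0
    have e4 : 0 ≤ n * v * V := by positivity
    rw [e1, e2]
    nlinarith
  exact_mod_cast hfin

end Pool.Agent.Helper98.UAH
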