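import Pool.Agent.Helper98.UAH.NumV0

/-! Module M27: numerical inequality for the final degree. -/

namespace Pool.Agent.Helper98.UAH

open Pool.Agent.Helper46.EAH Finset

theorem m27_N_pos (n m : ℕ) (hm : 1 ≤ m) : 1 ≤ N n m := by
  obtain ⟨k, rfl⟩ : ∃ k, m = k + 1 := ⟨m - 1, by omega⟩
  rw [N_succ]
  exact Nat.choose_pos (by omega)

/-- dividing by `v ^ n`. -/
theorem m27_div {T V c w v : ℝ} {n : ℕ} (hv : 0 < v) (hV : 0 ≤ V) (h : T * v ^ n ≤ w * V)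
    (hw : w ≤ c * v ^ n) : T ≤ c * V := by
  have hvn : 0 < v ^ n := pow_pos hv n
  have h1 : T * v ^ n ≤ (c * V) * v ^ n := by
    calc T * v ^ n ≤ w * V := h
      _ ≤ (c * v ^ n) * V := mul_le_mul_of_nonneg_right hw hV
      _ = (c * V) * v ^ n := by ring
  exact le_of_mul_le_mul_right h1 hvn

theorem m27_p1 (x v : ℝ) (n : ℕ) (hn : 4 ≤ n) (hx : 1 ≤ x) (hv : 64 * x ^ 5 ≤ v) :
    10 * x ^ 3 * (30 * x ^ 4) ^ n ≤ 49 / 100 * v ^ n := by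
  have h1 : (64 * x ^ 5) ^ n ≤ v ^ n := pow_le_pow_left₀ (by positivity) hv n
  have h2 : (64 * x ^ 5) ^ n = (30 * x ^ 4) ^ n * (32 / 15 * x) ^ n := by
    rw [← mul_pow]
    congr 1
    ring
  have h3 : (32 / 15 * x) ^ 4 ≤ (32 / 15 * x) ^ n :=
    pow_le_pow_right₀ (by linarith) hn
  have h4 : 10 * x ^ 3 ≤ 49 / 100 * (32 / 15 * x) ^ 4 := by
    have hx3 : 0 ≤ x ^ 3 := by positivity
    have e : 49 / 100 * (32 / 15 * x) ^ 4 = (49 / 100 * (32 / 15) ^ 4) * x * x ^ 3 := by ring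
    rw [e]
    have : (10 : ℝ) ≤ (49 / 100 * (32 / 15) ^ 4) * x := by nlinarith
    nlinarith
  have h5 : 10 * x ^ 3 ≤ 49 / 100 * (32 / 15 * x) ^ n := by linarith
  have h6 : 0 ≤ (30 * x ^ 4) ^ n := by positivity
  calc 10 * x ^ 3 * (30 * x ^ 4) ^ n ≤ (49 / 100 * (32 / 15 * x) ^ n) * (30 * x ^ 4) ^ n :=
        mul_le_mul_of_nonneg_right h5 h6
    _ = 49 / 100 * (64 * x ^ 5) ^ n := by rw [h2]; ring
    _ ≤ 49 / 100 * v ^ n := by linarith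

theorem m27_p2 (x v : ℝ) (n : ℕ) (hn : 4 ≤ n) (hx : 1 ≤ x) (hv : 64 * x ^ 5 ≤ v) :
    2 * n * x ^ 2 * v * (9 * x ^ 3) ^ n ≤ 3 / 10 * v ^ n := by
  obtain ⟨k, rfl⟩ : ∃ k, n = k + 1 := ⟨n - 1, by omega⟩
  have hk : 3 ≤ k := by omega
  have hv0 : 0 < v := lt_of_lt_of_le (by positivity) hv
  have h1 : (64 * x ^ 5) ^ k ≤ v ^ k := pow_le_pow_left₀ (by positivity) hv k
  have h2 : (64 * x ^ 5) ^ k = (9 * x ^ 3) ^ k * ((64 / 9) ^ k * (x ^ 2) ^ k) := by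
    rw [← mul_pow, ← mul_pow]
    congr 1
    ring
  have h3 : 60 * ((k : ℝ) + 1) ≤ (64 / 9 : ℝ) ^ k := by
    clear h1 h2 hn
    induction k, hk using Nat.le_induction with
    | base => norm_num
    | succ k hk ih =>
      rw [pow_succ]
      push_cast
      have : (0 : ℝ) ≤ k := Nat.cast_nonneg k
      nlinarith
  have h4 : x ^ 5 ≤ (x ^ 2) ^ k := by
    rw [← pow_mul]
    exact pow_le_pow_right₀ hx (by omega)
  have h5 : 60 * ((k : ℝ) + 1) * x ^ 5 ≤ (64 / 9) ^ k * (x ^ 2) ^ k :=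
    mul_le_mul h3 h4 (by positivity) (by positivity)
  have h6 : 0 ≤ (9 * x ^ 3) ^ k := by positivity
  have h7 : 60 * ((k : ℝ) + 1) * x ^ 5 * (9 * x ^ 3) ^ k ≤ v ^ k := by
    calc 60 * ((k : ℝ) + 1) * x ^ 5 * (9 * x ^ 3) ^ k
        ≤ ((64 / 9) ^ k * (x ^ 2) ^ k) * (9 * x ^ 3) ^ k := mul_le_mul_of_nonneg_right h5 h6
      _ = (64 * x ^ 5) ^ k := by rw [h2]; ring
      _ ≤ v ^ k := h1
  calc 2 * ((k + 1 : ℕ) : ℝ) * x ^ 2 * v * (9 * x ^ 3) ^ (k + 1)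
      = 3 / 10 * v * (60 * ((k : ℝ) + 1) * x ^ 5 * (9 * x ^ 3) ^ k) := by
        push_cast
        rw [pow_succ]
        ring
    _ ≤ 3 / 10 * v * v ^ k := mul_le_mul_of_nonneg_left h7 (by positivity)
    _ = 3 / 10 * v ^ (k + 1) := by rw [pow_succ]; ring

theorem m27_p3 (x v : ℝ) (n : ℕ) (hn : 4 ≤ n) (hx : 1 ≤ x) (hv : 64 * x ^ 5 ≤ v) :
    x ^ 2 * (3 * x ^ 2) ^ n ≤ 1 / 10 * v ^ n := by
  have h1 : (64 * x ^ 5) ^ n ≤ v ^ n := pow_le_pow_left₀ (by positivity) hv n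
  have h2 : (64 * x ^ 5) ^ n = (3 * x ^ 2) ^ n * (64 / 3 * x ^ 3) ^ n := by
    rw [← mul_pow]
    congr 1
    ring
  have hx3 : 1 ≤ x ^ 3 := one_le_pow₀ hx
  have h3 : 64 / 3 * x ^ 3 ≤ (64 / 3 * x ^ 3) ^ n := by
    have := pow_le_pow_right₀ (a := 64 / 3 * x ^ 3) (by linarith) (by omega : 1 ≤ n)
    rwa [pow_one] at this
  have h4 : x ^ 2 ≤ x ^ 3 := pow_le_pow_right₀ hx (by norm_num)
  have h5 : x ^ 2 ≤ 1 / 10 * (64 / 3 * x ^ 3) ^ n := by nlinarith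
  have h6 : 0 ≤ (3 * x ^ 2) ^ n := by positivity
  calc x ^ 2 * (3 * x ^ 2) ^ n ≤ (1 / 10 * (64 / 3 * x ^ 3) ^ n) * (3 * x ^ 2) ^ n :=
        mul_le_mul_of_nonneg_right h5 h6
    _ = 1 / 10 * (64 * x ^ 5) ^ n := by rw [h2]; ring
    _ ≤ 1 / 10 * v ^ n := by linarith

theorem numV4 (n m b D e : ℕ) (hn : 4 ≤ n) (hm : 2 ≤ m) (hb : (b:ℝ) ≤ 9 * n * xr n m ^ 3 + 1)
    (hD : 64 * n * xr n m ^ 5 ≤ (D:ℝ)) (he : D ≤ e) :
    zg n m (Wf n m) b e * N n m + Wf n m ≤ N n (e+1) := by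
  have hn1 : 1 ≤ n := by omega
  have hm1 : 1 ≤ m := by omega
  have hnR : (0 : ℝ) < n := by exact_mod_cast (by omega : 0 < n)
  obtain ⟨hx, -, -⟩ := nv_x n m hn1
  set x := xr n m with hxdef
  set v : ℝ := ((e : ℝ) + 1) / n with hvdef
  have hnv : (n : ℝ) * v = e + 1 := by rw [hvdef]; field_simp
  have hDe : (D : ℝ) ≤ e := by exact_mod_cast he
  have hv : 64 * x ^ 5 ≤ v := by
    rw [hvdef, le_div_iff₀ hnR]
    nlinarith
  have hv0 : 0 < v := lt_of_lt_of_le (by positivity) hv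
  set V : ℝ := (N n (e+1) : ℝ) with hV
  set a : ℝ := (N n m : ℝ) with ha
  have hV0 : 0 ≤ V := Nat.cast_nonneg _
  have ha1 : 1 ≤ a := by rw [ha]; exact_mod_cast m27_N_pos n m hm1
  have hA := nv_A n m hn1
  rw [← hxdef, ← ha] at hA
  have hA0 : (0 : ℝ) ≤ (N (n+1) m : ℝ) := Nat.cast_nonneg _
  have hW : (Wf n m : ℝ) ≤ x ^ 2 * a ^ 2 := by
    unfold Wf
    push_cast
    nlinarith
  have hWa : (Wf n m : ℝ) + a ≤ 2 * x ^ 2 * a ^ 2 := by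
    have h1 : a ≤ x ^ 2 * a ^ 2 := by
      have h2 : 1 ≤ x ^ 2 := one_le_pow₀ hx
      nlinarith
    linarith
  have hW0 : (0 : ℝ) ≤ (Wf n m : ℝ) := Nat.cast_nonneg _
  -- the three terms
  have t1 : (N (n+1) (b+m-1) : ℝ) * a ≤ 49 / 100 * V := by
    have h1 := nv_K5 n m b e v hn1 hm1 hv0.le hnv.le hb
    exact m27_div hv0 hV0 h1 (m27_p1 x v n hn hx hv)
  have t2 : 2 * n * x ^ 2 * v * a ^ 3 ≤ 3 / 10 * V := by
    have h1 := nv_K2 n m e v hn1 hv0.le hnv.le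
    apply m27_div hv0 hV0 (w := 2 * n * x ^ 2 * v * (9 * x ^ 3) ^ n) _ (m27_p2 x v n hn hx hv)
    calc 2 * n * x ^ 2 * v * a ^ 3 * v ^ n = 2 * n * x ^ 2 * v * (a ^ 3 * v ^ n) := by ring
      _ ≤ 2 * n * x ^ 2 * v * ((9 * x ^ 3) ^ n * V) :=
          mul_le_mul_of_nonneg_left h1 (by positivity)
      _ = _ := by ring
  have t3 : x ^ 2 * a ^ 2 ≤ 1 / 10 * V := by
    have h1 := nv_K1 n m e v hn1 hv0.le hnv.le
    apply m27_div hv0 hV0 (w := x ^ 2 * (3 * x ^ 2) ^ n) _ (m27_p3 x v n hn hx hv)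
    calc x ^ 2 * a ^ 2 * v ^ n = x ^ 2 * (a ^ 2 * v ^ n) := by ring
      _ ≤ x ^ 2 * ((3 * x ^ 2) ^ n * V) := mul_le_mul_of_nonneg_left h1 (by positivity)
      _ = _ := by ring
  have hsub : ((e + 2 - (b + m) : ℕ) : ℝ) ≤ n * v := by
    rw [hnv]
    exact_mod_cast (by omega : e + 2 - (b + m) ≤ e + 1)
  have hmid : ((e + 2 - (b + m) : ℕ) : ℝ) * ((Wf n m : ℝ) + a) * a ≤
      2 * n * x ^ 2 * v * a ^ 3 := by
    calc ((e + 2 - (b + m) : ℕ) : ℝ) * ((Wf n m : ℝ) + a) * a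
        ≤ (n * v) * (2 * x ^ 2 * a ^ 2) * a := by
          apply mul_le_mul_of_nonneg_right _ (by linarith)
          exact mul_le_mul hsub hWa (by linarith) (by positivity)
      _ = _ := by ring
  have hfin : ((zg n m (Wf n m) b e * N n m + Wf n m : ℕ) : ℝ) ≤ V := by
    unfold zg
    push_cast
    rw [← ha]
    have : ((N (n+1) (b+m-1) : ℝ) + ((e + 2 - (b + m) : ℕ) : ℝ) * ((Wf n m : ℝ) + a)) * a +
        (Wf n m : ℝ) = (N (n+1) (b+m-1) : ℝ) * a +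
        ((e + 2 - (b + m) : ℕ) : ℝ) * ((Wf n m : ℝ) + a) * a + (Wf n m : ℝ) := by ring
    rw [this]
    linarith
  rw [hV] at hfin
  exact_mod_cast hfin

end Pool.Agent.Helper98.UAH
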