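import Pool.Agent.Helper98.UAH.NumV0

/-! Uniform postulation in all dimensions, module M28. -/

namespace Pool.Agent.Helper98.UAH

open Pool.Agent.Helper46.EAH Finset

/-- `10 n (15/32)^n ≤ 2` for `n ≥ 4` -/
lemma numV5_p1 (n : ℕ) (hn : 4 ≤ n) : 10 * (n : ℝ) * (15 / 32) ^ n ≤ 2 := by
  induction n, hn using Nat.le_induction with
  | base => norm_num
  | succ n hn ih =>
    have hn4 : (4 : ℝ) ≤ n := by exact_mod_cast hn
    have h1 : (0 : ℝ) < (15 / 32) ^ n := by positivity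
    push_cast
    rw [pow_succ]
    nlinarith [mul_pos h1 (by linarith : (0 : ℝ) < n)]

lemma numV5_p2 (n : ℕ) (hn : 4 ≤ n) : 4 * (n : ℝ) ^ 2 * (9 / 64) ^ n ≤ 1 / 20 := by
  induction n, hn using Nat.le_induction with
  | base => norm_num
  | succ n hn ih =>
    have hn4 : (4 : ℝ) ≤ n := by exact_mod_cast hn
    have h1 : (0 : ℝ) < (9 / 64) ^ n := by positivity
    push_cast
    have h2 : ((n : ℝ) + 1) ^ 2 ≤ 64 / 9 * (n : ℝ) ^ 2 := by nlinarith
    have h3 : 4 * ((n : ℝ) + 1) ^ 2 * (9 / 64) ^ (n + 1) =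
        (4 * (9 / 64) ^ n) * ((9 / 64) * ((n : ℝ) + 1) ^ 2) := by ring
    have h4 : 4 * (n : ℝ) ^ 2 * (9 / 64) ^ n = (4 * (9 / 64) ^ n) * (n : ℝ) ^ 2 := by ring
    rw [h3]
    rw [h4] at ih
    refine le_trans (mul_le_mul_of_nonneg_left ?_ (by positivity)) ih
    linarith

theorem numV5 (n m b D e : ℕ) (hn : 4 ≤ n) (hm : 2 ≤ m) (hb : (b:ℝ) ≤ 9 * n * xr n m ^ 3 + 1)
    (hD : 64 * n * xr n m ^ 5 ≤ (D:ℝ)) (he : D ≤ e) :
    (m * N (n+1) m + 1) * zg n m (Wf n m) b e ≤ N (n+1) (e+1) := by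
  have hn1 : 1 ≤ n := by omega
  have hm1 : 1 ≤ m := by omega
  obtain ⟨hx1, hmx, hnm⟩ := nv_x n m hn1
  have hA := nv_A n m hn1
  have hn4 : (4 : ℝ) ≤ n := by exact_mod_cast hn
  have hn0 : (0 : ℝ) < n := by linarith
  set x : ℝ := xr n m with hx
  set v : ℝ := ((e : ℝ) + 1) / n with hv
  have hnv : (n : ℝ) * v = e + 1 := by rw [hv]; field_simp
  have hDe : (D : ℝ) ≤ e := by exact_mod_cast he
  have hv64 : 64 * x ^ 5 ≤ v := by
    rw [hv, le_div_iff₀ hn0]
    nlinarith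
  have hx5 : 1 ≤ x ^ 5 := one_le_pow₀ hx1
  have hv0 : 0 < v := by linarith
  have hx0 : 0 < x := by linarith
  have hK5 := nv_K5 n m b e v hn1 hm1 hv0.le hnv.le hb
  have hK2 := nv_K2 n m e v hn1 hv0.le hnv.le
  have ha1 : (1 : ℝ) ≤ N n m := by exact_mod_cast N_pos hm1
  set a : ℝ := (N n m : ℝ) with ha
  set V : ℝ := (N n (e+1) : ℝ) with hV
  set B : ℝ := (N (n+1) (b+m-1) : ℝ) with hB
  set A : ℝ := (N (n+1) m : ℝ) with hAA
  have hV0 : 0 < V := by
    have : 1 ≤ N n (e+1) := N_pos (by omega)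
    rw [hV]
    exact_mod_cast this
  have hB0 : 0 ≤ B := by positivity
  have hA0 : 0 ≤ A := by positivity
  have hvn : 0 < v ^ n := by positivity
  -- first product
  have q1 : B * a * x ≤ 10 * (15 / 32) ^ n * V := by
    have h1 : (30 * x ^ 4) ^ n * x ^ n ≤ (15 / 32) ^ n * v ^ n := by
      rw [← mul_pow, ← mul_pow]
      apply pow_le_pow_left₀ (by positivity)
      have e1 : 30 * x ^ 4 * x = 30 * x ^ 5 := by ring
      rw [e1]
      linarith
    have h2 : B * a * v ^ n * x ^ n ≤ 10 * x ^ 3 * ((15 / 32) ^ n * v ^ n) * V := by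
      calc B * a * v ^ n * x ^ n ≤ (10 * x ^ 3 * (30 * x ^ 4) ^ n * V) * x ^ n :=
            mul_le_mul_of_nonneg_right hK5 (by positivity)
        _ = 10 * x ^ 3 * ((30 * x ^ 4) ^ n * x ^ n) * V := by ring
        _ ≤ _ := by
            apply mul_le_mul_of_nonneg_right _ hV0.le
            exact mul_le_mul_of_nonneg_left h1 (by positivity)
    have h3 : x ^ 4 ≤ x ^ n := pow_le_pow_right₀ hx1 hn
    have h4 : B * a * x ^ 4 * v ^ n ≤ (10 * x ^ 3 * (15 / 32) ^ n * V) * v ^ n := by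
      calc B * a * x ^ 4 * v ^ n = (B * a * v ^ n) * x ^ 4 := by ring
        _ ≤ (B * a * v ^ n) * x ^ n := mul_le_mul_of_nonneg_left h3 (by positivity)
        _ ≤ 10 * x ^ 3 * ((15 / 32) ^ n * v ^ n) * V := h2
        _ = _ := by ring
    have h5 := le_of_mul_le_mul_right h4 hvn
    have h6 : (B * a * x) * x ^ 3 ≤ (10 * (15 / 32) ^ n * V) * x ^ 3 := by
      calc (B * a * x) * x ^ 3 = B * a * x ^ 4 := by ring
        _ ≤ 10 * x ^ 3 * (15 / 32) ^ n * V := h5
        _ = _ := by ring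
    exact le_of_mul_le_mul_right h6 (by positivity)
  have q2 : a ^ 3 * x ^ 4 ≤ (9 / 64) ^ n * V := by
    have h1 : (9 * x ^ 3) ^ n * (x ^ 2) ^ n ≤ (9 / 64) ^ n * v ^ n := by
      rw [← mul_pow, ← mul_pow]
      apply pow_le_pow_left₀ (by positivity)
      have e1 : 9 * x ^ 3 * x ^ 2 = 9 * x ^ 5 := by ring
      rw [e1]
      linarith
    have h3 : x ^ 4 ≤ (x ^ 2) ^ n := by
      rw [← pow_mul]
      exact pow_le_pow_right₀ hx1 (by omega)
    have h4 : (a ^ 3 * x ^ 4) * v ^ n ≤ ((9 / 64) ^ n * V) * v ^ n := by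
      calc (a ^ 3 * x ^ 4) * v ^ n = (a ^ 3 * v ^ n) * x ^ 4 := by ring
        _ ≤ (a ^ 3 * v ^ n) * (x ^ 2) ^ n := mul_le_mul_of_nonneg_left h3 (by positivity)
        _ ≤ ((9 * x ^ 3) ^ n * V) * (x ^ 2) ^ n :=
            mul_le_mul_of_nonneg_right hK2 (by positivity)
        _ = ((9 * x ^ 3) ^ n * (x ^ 2) ^ n) * V := by ring
        _ ≤ ((9 / 64) ^ n * v ^ n) * V := mul_le_mul_of_nonneg_right h1 hV0.le
        _ = _ := by ring
    exact le_of_mul_le_mul_right h4 hvn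
  -- first factor
  have f1 : (m : ℝ) * A + 1 ≤ n * x ^ 2 * a := by
    have h1 : (m : ℝ) * A ≤ m * (x * a) := mul_le_mul_of_nonneg_left hA (by positivity)
    have h2 : (m : ℝ) = n * x - n := by linarith
    have h3 : 1 ≤ n * (x * a) := by nlinarith [mul_le_mul hx1 ha1 zero_le_one hx0.le]
    have h4 : (m : ℝ) * (x * a) = n * x ^ 2 * a - n * (x * a) := by rw [h2]; ring
    linarith
  have f2 : ((zg n m (Wf n m) b e : ℕ) : ℝ) ≤ B + (e + 2) * (2 * x ^ 2 * a ^ 2) := by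
    unfold zg
    push_cast
    have h1 : ((e + 2 - (b + m) : ℕ) : ℝ) ≤ e + 2 := by
      have : e + 2 - (b + m) ≤ e + 2 := Nat.sub_le _ _
      exact_mod_cast this
    have h2 : (Wf n m : ℝ) + a ≤ 2 * x ^ 2 * a ^ 2 := by
      unfold Wf
      push_cast
      have h3 : A * A ≤ (x * a) * (x * a) := mul_le_mul hA hA hA0 (by positivity)
      have h4 : a ≤ a ^ 2 := by nlinarith
      have h5 : a ^ 2 ≤ x ^ 2 * a ^ 2 := le_mul_of_one_le_left (by positivity) (one_le_pow₀ hx1)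
      have h7 : (x * a) * (x * a) = x ^ 2 * a ^ 2 := by ring
      rw [h7] at h3
      linarith
    have h0 : (0 : ℝ) ≤ (Wf n m : ℝ) + a := by positivity
    have h6 := mul_le_mul h1 h2 h0 (by positivity)
    linarith
  -- combination
  have hp1 := numV5_p1 n hn
  have hp2 := numV5_p2 n hn
  have t1 : n * x ^ 2 * a * B ≤ 2 * x * V := by
    calc n * x ^ 2 * a * B = n * x * (B * a * x) := by ring
      _ ≤ n * x * (10 * (15 / 32) ^ n * V) := mul_le_mul_of_nonneg_left q1 (by positivity)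
      _ = (10 * n * (15 / 32) ^ n) * (x * V) := by ring
      _ ≤ 2 * (x * V) := mul_le_mul_of_nonneg_right hp1 (by positivity)
      _ = _ := by ring
  have hxv : 64 * x ≤ v := by
    have : x ≤ x ^ 5 := le_self_pow₀ hx1 (by norm_num)
    linarith
  have t1' : n * x ^ 2 * a * B ≤ 1 / 32 * (v * V) := by
    refine t1.trans ?_
    have h1 := mul_le_mul_of_nonneg_right hxv hV0.le
    have h2 : 64 * x * V = 32 * (2 * x * V) := by ring
    linarith
  have t2 : n * x ^ 2 * a * ((e + 2) * (2 * x ^ 2 * a ^ 2)) ≤ 1 / 20 * (v * V) := by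
    have h1 : (e : ℝ) + 2 ≤ 2 * (n * v) := by
      rw [hnv]
      have : (0 : ℝ) ≤ e := by positivity
      linarith
    calc n * x ^ 2 * a * ((e + 2) * (2 * x ^ 2 * a ^ 2)) = 2 * n * (e + 2) * (a ^ 3 * x ^ 4) := by
          ring
      _ ≤ 2 * n * (e + 2) * ((9 / 64) ^ n * V) := mul_le_mul_of_nonneg_left q2 (by positivity)
      _ ≤ 2 * n * (2 * (n * v)) * ((9 / 64) ^ n * V) := by
          apply mul_le_mul_of_nonneg_right _ (by positivity)
          exact mul_le_mul_of_nonneg_left h1 (by positivity)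
      _ = (4 * n ^ 2 * (9 / 64) ^ n) * (v * V) := by ring
      _ ≤ 1 / 20 * (v * V) := mul_le_mul_of_nonneg_right hp2 (by positivity)
  have hL : (((m * N (n+1) m + 1) * zg n m (Wf n m) b e : ℕ) : ℝ) ≤ 1 / 12 * (v * V) := by
    push_cast
    have h1 : ((m : ℝ) * A + 1) * (zg n m (Wf n m) b e : ℝ) ≤
        (n * x ^ 2 * a) * (B + (e + 2) * (2 * x ^ 2 * a ^ 2)) :=
      mul_le_mul f1 f2 (by positivity) (by positivity)
    have h2 : (n * x ^ 2 * a) * (B + (e + 2) * (2 * x ^ 2 * a ^ 2)) =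
        n * x ^ 2 * a * B + n * x ^ 2 * a * ((e + 2) * (2 * x ^ 2 * a ^ 2)) := by ring
    have h3 : 0 ≤ v * V := by positivity
    linarith
  have hdim := N_dim n (e+1)
  have hdimR : ((n : ℝ) + 1) * (N (n+1) (e+1) : ℝ) = (e + 1 + n) * V := by
    rw [hV]
    exact_mod_cast hdim
  have hfin : ((n : ℝ) + 1) * (((m * N (n+1) m + 1) * zg n m (Wf n m) b e : ℕ) : ℝ) ≤
      (n + 1) * (N (n+1) (e+1) : ℝ) := by
    rw [hdimR]
    have h1 : ((n : ℝ) + 1) * (((m * N (n+1) m + 1) * zg n m (Wf n m) b e : ℕ) : ℝ) ≤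
        (n + 1) * (1 / 12 * (v * V)) := mul_le_mul_of_nonneg_left hL (by positivity)
    have h2 : (e : ℝ) + 1 + n = n * v + n := by linarith
    rw [h2]
    have h3 : 0 ≤ v * V := by positivity
    have h4 : ((n : ℝ) + 1) / 12 * (v * V) ≤ n * (v * V) :=
      mul_le_mul_of_nonneg_right (by linarith) h3
    have h5 : 0 ≤ n * V := by positivity
    have h6 : ((n : ℝ) + 1) * (1 / 12 * (v * V)) = ((n : ℝ) + 1) / 12 * (v * V) := by ring
    have h7 : ((n : ℝ) * v + n) * V = n * (v * V) + n * V := by ring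
    rw [h7]
    rw [h6] at h1
    linarith
  have := le_of_mul_le_mul_left hfin (by positivity)
  exact_mod_cast this

end Pool.Agent.Helper98.UAH
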