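import Pool.Agent.Helper98.UAH.NumV0

/-! Uniform postulation in all dimensions: module M24 (numV7, numV8). -/

namespace Pool.Agent.Helper98.UAH

open Pool.Agent.Helper46.EAH Finset

theorem numV7_pow (n : ℕ) (hn : 4 ≤ n) : 8 * n ≤ 3 ^ n := by
  induction n, hn using Nat.le_induction with
  | base => norm_num
  | succ n hn ih =>
    rw [pow_succ]
    omega

theorem numV7_base (n m b e : ℕ) (hn : 4 ≤ n) (hm : 2 ≤ m) (hb : 9 * n * xr n m ^ 3 ≤ (b:ℝ))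
    (he : b ≤ e) : 2 * m * (W0f n m + N n m) ≤ N n (e+1) := by
  obtain ⟨hx1, hmx, -⟩ := nv_x n m (by omega)
  set x : ℝ := xr n m with hx
  have ha1 : 1 ≤ N n m := N_pos (by omega)
  have ha : (1:ℝ) ≤ (N n m : ℝ) := by exact_mod_cast ha1
  have hA := nv_A n m (by omega)
  have hnR : (0:ℝ) ≤ (n:ℝ) := Nat.cast_nonneg n
  have heR : (b:ℝ) ≤ (e:ℝ) := by exact_mod_cast he
  have hx0 : 0 ≤ x := by linarith
  have h1 := nv_K1 n m e (9 * x ^ 3) (by omega) (by positivity) (by nlinarith [hb, heR])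
  rw [← hx] at h1 hA
  have h2 : (9 * x ^ 3) ^ n = (3 * x ^ 2) ^ n * (3 * x) ^ n := by
    rw [← mul_pow]
    congr 1
    ring
  have h3 : (0:ℝ) < (3 * x ^ 2) ^ n := by positivity
  have h4 : (N n m : ℝ) ^ 2 * (3 * x) ^ n ≤ N n (e+1) := by
    have h5 : (3 * x ^ 2) ^ n * ((N n m : ℝ) ^ 2 * (3 * x) ^ n) ≤
        (3 * x ^ 2) ^ n * N n (e+1) := by
      calc (3 * x ^ 2) ^ n * ((N n m : ℝ) ^ 2 * (3 * x) ^ n)
          = (N n m : ℝ) ^ 2 * (9 * x ^ 3) ^ n := by rw [h2]; ring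
        _ ≤ _ := h1
    exact le_of_mul_le_mul_left h5 h3
  have h6 : (8:ℝ) * n * x ^ 3 ≤ (3 * x) ^ n := by
    rw [mul_pow]
    have h7 : (8:ℝ) * n ≤ 3 ^ n := by exact_mod_cast numV7_pow n hn
    have h8 : x ^ 3 ≤ x ^ n := pow_le_pow_right₀ hx1 (by omega)
    exact mul_le_mul h7 h8 (by positivity) (by positivity)
  have h9 : (W0f n m : ℝ) = 2 * ((N (n+1) m : ℝ) * N (n+1) m) + 1 := by
    unfold W0f
    push_cast
    ring
  have h10 : (W0f n m : ℝ) + N n m ≤ 4 * x ^ 2 * (N n m : ℝ) ^ 2 := by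
    rw [h9]
    have hA0 : (0:ℝ) ≤ (N (n+1) m : ℝ) := Nat.cast_nonneg _
    have e1 : (N (n+1) m : ℝ) * N (n+1) m ≤ (x * N n m) * (x * N n m) :=
      mul_le_mul hA hA hA0 (by positivity)
    have e2 : (1:ℝ) ≤ x * N n m := by nlinarith
    have e3 : (N n m : ℝ) ≤ x * N n m := by nlinarith
    nlinarith
  have h11 : (2:ℝ) * m * ((W0f n m : ℝ) + N n m) ≤ N n (e+1) := by
    calc (2:ℝ) * m * ((W0f n m : ℝ) + N n m) ≤ 2 * m * (4 * x ^ 2 * (N n m : ℝ) ^ 2) := by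
          gcongr
      _ ≤ 2 * (n * x) * (4 * x ^ 2 * (N n m : ℝ) ^ 2) := by gcongr
      _ = (N n m : ℝ) ^ 2 * (8 * n * x ^ 3) := by ring
      _ ≤ (N n m : ℝ) ^ 2 * (3 * x) ^ n := by gcongr
      _ ≤ _ := h4
  exact_mod_cast h11

theorem numV7_e (n m b e : ℕ) (hn : 4 ≤ n) (hb : 9 * n * xr n m ^ 3 ≤ (b:ℝ))
    (he : b ≤ e) : 9 * (n + m) ≤ e := by
  obtain ⟨hx1, -, hnm⟩ := nv_x n m (by omega)
  have heR : (b:ℝ) ≤ (e:ℝ) := by exact_mod_cast he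
  have h1 : xr n m ≤ xr n m ^ 3 := by
    calc xr n m = xr n m ^ 1 := (pow_one _).symm
      _ ≤ xr n m ^ 3 := pow_le_pow_right₀ hx1 (by norm_num)
  have h2 : (9:ℝ) * (n + m) ≤ e := by
    calc (9:ℝ) * (n + m) = 9 * n * xr n m := by rw [hnm]; ring
      _ ≤ 9 * n * xr n m ^ 3 := by gcongr
      _ ≤ _ := hb.trans heR
  exact_mod_cast h2

theorem numV7 (n m b e : ℕ) (hn : 4 ≤ n) (hm : 2 ≤ m) (hb : 9 * n * xr n m ^ 3 ≤ (b:ℝ))
    (he : b ≤ e) :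
    (m - 1) * N n (e+2) + (m - 1 + n) * (W0f n m + N n m) ≤ (m - 1 + n) * N n (e+1) := by
  have h1 := numV7_e n m b e hn hb he
  exact nv_slack n m e _ (by omega) (by omega) (by omega) (numV7_base n m b e hn hm hb he)

theorem numV8 (n m b e : ℕ) (hn : 4 ≤ n) (hm : 2 ≤ m) (hb : 9 * n * xr n m ^ 3 ≤ (b:ℝ))
    (he : b ≤ e) :
    (n + m) * (W0f n m + N n m) + (n + m) * N n (e+2) < (n + e + 2) * N n (e+2) := by
  have h1 := numV7_e n m b e hn hb he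
  have h2 := numV7_base n m b e hn hm hb he
  have h3 : N n (e+1) ≤ N n (e+2) := N_mono (by omega)
  have ha1 : 1 ≤ N n m := N_pos (by omega)
  obtain ⟨j, hj⟩ : ∃ j, e + 2 = m + (n + m) + j := ⟨e + 2 - (m + (n + m)), by omega⟩
  have h4 : W0f n m + N n m < N n (e+2) := by
    have h5 : 2 * 2 * (W0f n m + N n m) ≤ 2 * m * (W0f n m + N n m) :=
      Nat.mul_le_mul_right _ (by omega)
    omega
  have h6 : n + e + 2 = (n + m) + (n + m) + j := by omega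
  have h7 : (n + m) * (W0f n m + N n m) < (n + m) * N n (e+2) :=
    Nat.mul_lt_mul_of_pos_left h4 (by omega)
  have h8 : 0 ≤ j * N n (e+2) := Nat.zero_le _
  have h9 : (n + e + 2) * N n (e+2) = (n + m) * N n (e+2) + (n + m) * N n (e+2) +
      j * N n (e+2) := by
    rw [h6]
    ring
  rw [h9]
  linarith

end Pool.Agent.Helper98.UAH
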