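import Mathlib
import Pool.Agent.Helper98.UAH.Defs3

/-! The Horace process with gaps filled by simple traces, in small dimension: the residual of the
last step is treated by an over-determined process. -/

namespace Pool.Agent.Helper98.UAH

open Pool.Agent.Helper46.EAH Finset

/-- the hypotheses of the process -/
structure HypV (k : Type) [Field k] (n m W W0 W1 b E1 D : ℕ) : Prop where
  hn : 1 ≤ n
  hm : 2 ≤ m
  hb : m ≤ b
  hE1 : b + m ≤ E1 + 1
  hE1' : b ≤ E1 - 1
  hD : E1 + m ≤ D + 1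
  ap2 : ∀ e, b ≤ e → ∀ (S : Finset ℕ) (μ : ℕ → ℕ), (∀ i ∈ S, μ i ≤ m) →
    W ≤ (S.filter (fun i => μ i = 1)).card → N n (e+1) ≤ ∑ i ∈ S, N n (μ i) → TInj k n e S μ
  ap0 : ∀ e, b ≤ e → ∀ (S : Finset ℕ) (μ : ℕ → ℕ), (∀ i ∈ S, μ i ≤ m) →
    N n (e+1) + W0 ≤ ∑ i ∈ S, N n (μ i) → TInj k n e S μ
  ap1 : ∀ e, b ≤ e → ∀ (S : Finset ℕ) (μ : ℕ → ℕ), (∀ i ∈ S, μ i ≤ m) →
    N (n+1) (e+1) + W1 ≤ ∑ i ∈ S, N (n+1) (μ i) → TInj k (n+1) e S μ
  c1 : ∀ e, b ≤ e → (m - 1) * N n (e+2) + (m - 1 + n) * W ≤ (m - 1 + n) * N n (e+1)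
  c7 : ∀ e, b ≤ e → (m - 1) * N n (e+2) + (m - 1 + n) * (W0 + N n m) ≤ (m - 1 + n) * N n (e+1)
  c8 : ∀ e, b ≤ e → (n + m) * (W0 + N n m) + (n + m) * N n (e+2) < (n + e + 2) * N n (e+2)
  c2 : ∀ e, E1 ≤ e → (m - 1) * N n (e+2) + (m - 1 + n) * (W + ov n m W0 W1 b e +
    (W + N n m) * N n m) ≤ (m - 1 + n) * N n (e+1)
  c3 : ∀ e, E1 + 1 ≤ e → (n+1) * ((W + N n m) * N (n+1) m) + (n+1) * zg n m W b e +
    (n+m) * N n (e+1) ≤ (n+e+1) * N n (e+1)
  c4 : ∀ e, D ≤ e → zg n m W b e * N n m + W ≤ N n (e+1)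
  c5 : ∀ e, D ≤ e → (m * N (n+1) m + 1) * zg n m W b e ≤ N (n+1) (e+1)

variable {k : Type} [Field k] {n m W W0 W1 b E1 D : ℕ}

section basics

variable {e : ℕ} {S : Finset ℕ} {σ : ℕ → St} {F1 F2 : Finset ℕ} {ν : ℕ}

lemma HypV.tinj (H : HypV k n m W W0 W1 b E1 D) (he : b ≤ e + 1) (hok : ∀ i ∈ S, Ok m (σ i))
    (hv : Valid S σ F1 F2 ν) (Z : Finset ℕ) (hZS : Z ⊆ S)
    (hZ : ∀ i ∈ Z, tr (σ i) (chf σ F1 F2 ν i) = 1) (hW : W ≤ Z.card)
    (hs : heads n S σ + ws n F1 σ + F2.card * N n ν = N n (e+2)) :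
    TInj k n (e+1) S (fun i => tr (σ i) (chf σ F1 F2 ν i)) := by
  refine H.ap2 (e+1) (by omega) S _ (fun i hi => tr_le m _ _ (hok i hi) (chf_le' hv i)) ?_ ?_
  · refine hW.trans (card_le_card fun i hi => ?_)
    rw [mem_filter]
    exact ⟨hZS hi, hZ i hi⟩
  · rw [tr_sum n hv, hs]

end basics

theorem HypV.S0 (H : HypV k n m W W0 W1 b E1 D) : ∀ (l e : ℕ) (S : Finset ℕ) (σ : ℕ → St),
    (∀ i ∈ S, Ok m (σ i)) → Uf S σ = ∅ → (∀ i ∈ S, ∀ L, σ i = .H L → L l = 0) →
    (l = 0 ∨ heads n S σ + W ≤ N n (e+1)) → N (n+1) (e+1) ≤ total m n S σ →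
    b + l ≤ e + 1 → SInj k n e S σ := by
  intro l
  induction l with
  | zero =>
    intro e S σ hok hU hL _ ht he
    apply kill_X
    have h1 := total_le' m n S σ hok
    have h2 : heads n S σ = 0 := by
      rw [heads, sum_eq_zero_iff]
      intro i hi
      match hσ : σ i with
      | .H L =>
        simp only [hd]
        rw [hL i hi L hσ, N_zero]
      | .F μ => rfl
    rw [h2, hU] at h1
    simp only [ws, sum_empty, add_zero, mul_zero, zero_add] at h1
    omega
  | succ l ih =>
    intro e S σ hok hU hL hh ht he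
    have hm := H.hm
    have hb := H.hb
    obtain ⟨e, rfl⟩ := Nat.exists_eq_add_of_le' (show 1 ≤ e by omega)
    have h12 : e + 1 + 1 = e + 2 := rfl
    have hh' : heads n S σ + W ≤ N n (e+1+1) := by
      rcases hh with h | h
      · omega
      · exact h
    have hX := fill_avail S σ hok (show m ≤ e + 1 + 1 by omega) ht
    rw [hU] at hX
    simp only [ws, sum_empty, add_zero] at hX
    obtain ⟨Y, hY, hYc⟩ := exists_subset_card_eq
      (show N n (e+1+1) - heads n S σ ≤ (Xf S σ).card by omega)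
    have hv : Valid S σ Y ∅ 1 := Valid.of_empty (fun i hi => Xf_fm (hY hi))
    have hsum : heads n S σ + ws n Y σ + (∅ : Finset ℕ).card * N n 1 = N n (e+2) := by
      rw [ws_Y hY, hYc, card_empty, zero_mul]
      rw [h12] at *
      omega
    refine nxs_step k hv (H.tinj (by omega) hok hv Y (hY.trans (filter_subset _ _))
      (fun i hi => tr_X hi (hY hi)) (by omega) hsum) ?_
    refine ih e S _ (nxs_ok hok) ?_ ?_ ?_ ?_ (by omega)
    · rw [Uf_nxs hv, hU]
      exact empty_sdiff _
    · intro i hi L hσL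
      match hσ : σ i with
      | .H L' =>
        rw [nxs, hσ] at hσL
        simp only [nx, St.H.injEq] at hσL
        rw [← hσL]
        exact hL i hi L' hσ
      | .F μ =>
        rw [nxs, hσ] at hσL
        simp only [nx] at hσL
        split_ifs at hσL with h0
        simp only [St.H.injEq] at hσL
        have h3 : i ∈ Y := by
          by_contra hcon
          apply h0
          rw [chf, if_neg hcon, if_neg (notMem_empty i)]
        have h4 := (mem_filter.1 (hY h3)).2
        rw [hσ] at h4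
        simp only [fm] at h4
        have h5 : chf σ Y ∅ 1 i = 1 := by rw [chf, if_pos h3, hσ]; exact h4
        rw [← hσL, h5, h4]
        simp only [rest]
        rw [if_neg (by omega)]
        omega
    · rcases Nat.eq_zero_or_pos l with h0 | h0
      · exact Or.inl h0
      · right
        refine next_heads W H.hn hok hv hsum.le ?_
        rw [card_empty, zero_mul, add_zero]
        exact H.c1 e (by omega)
    · exact next_total 0 hok hv hsum.le ht

theorem HypV.Few (H : HypV k n m W W0 W1 b E1 D) (e : ℕ) (S : Finset ℕ) (σ : ℕ → St)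
    (hok : ∀ i ∈ S, Ok m (σ i)) (hh : heads n S σ + ws n (Uf S σ) σ + W ≤ N n (e+1))
    (ht : N (n+1) (e+1) ≤ total m n S σ) (he : b + m ≤ e + 1) :
    SInj k n e S σ := by
  have hm := H.hm
  have hb := H.hb
  obtain ⟨e, rfl⟩ := Nat.exists_eq_add_of_le' (show 1 ≤ e by omega)
  have h12 : e + 1 + 1 = e + 2 := rfl
  have hX := fill_avail S σ hok (show m ≤ e + 1 + 1 by omega) ht
  obtain ⟨Y, hY, hYc⟩ := exists_subset_card_eq
    (show N n (e+1+1) - heads n S σ - ws n (Uf S σ) σ ≤ (Xf S σ).card by omega)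
  have hdis : Disjoint (Uf S σ) Y := disjoint_of_subset_right hY Uf_Xf
  have hv : Valid S σ (Uf S σ ∪ Y) ∅ 1 := Valid.of_empty (fun i hi => by
    rcases mem_union.1 hi with h | h
    · exact Uf_fm h
    · exact Xf_fm (hY h))
  have hsum : heads n S σ + ws n (Uf S σ ∪ Y) σ + (∅ : Finset ℕ).card * N n 1 = N n (e+2) := by
    rw [ws_union hdis, ws_Y hY, hYc, card_empty, zero_mul]
    rw [h12] at *
    omega
  refine nxs_step k hv (H.tinj (by omega) hok hv Y (hY.trans (filter_subset _ _))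
    (fun i hi => tr_X (mem_union_right _ hi) (hY hi)) (by omega) hsum) ?_
  refine H.S0 (m-1) e S _ (nxs_ok hok) ?_ ?_ ?_ ?_ (by omega)
  · rw [Uf_nxs hv, union_empty, sdiff_eq_empty_iff_subset]
    exact subset_union_left
  · intro i hi L hσL
    match hσ : σ i with
    | .H L' =>
      rw [nxs, hσ] at hσL
      simp only [nx, St.H.injEq] at hσL
      rw [← hσL]
      have h1 := hok i hi
      rw [hσ] at h1
      have h2 := ok_m h1
      have h3 : m - 1 + 1 = m := by omega
      change L' (m - 1 + 1) = 0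
      rw [h3]
      exact h2
    | .F μ =>
      have hμ : μ ≤ m := by
        have h1 := hok i hi
        rw [hσ] at h1
        exact h1
      rw [nxs, hσ] at hσL
      simp only [nx] at hσL
      split_ifs at hσL with h0
      simp only [St.H.injEq] at hσL
      have h3 : i ∈ Uf S σ ∪ Y := by
        by_contra hcon
        apply h0
        rw [chf, if_neg hcon, if_neg (notMem_empty i)]
      have h5 : chf σ (Uf S σ ∪ Y) ∅ 1 i = μ := by rw [chf, if_pos h3, hσ]; rfl
      rw [← hσL, h5]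
      simp only [rest]
      rw [if_neg (by omega)]
      omega
  · right
    refine next_heads W H.hn hok hv hsum.le ?_
    rw [card_empty, zero_mul, add_zero]
    exact H.c1 e (by omega)
  · exact next_total 0 hok hv hsum.le ht

theorem HypV.Bii (H : HypV k n m W W0 W1 b E1 D) (e : ℕ) (he : b + m - 2 ≤ e) :
    ∀ (S : Finset ℕ) (σ : ℕ → St), (∀ i ∈ S, Ok m (σ i)) →
    heads n S σ + W ≤ N n (e+1) → N (n+1) (e+1) ≤ total m n S σ →
    zg n m W b e ≤ (Xf S σ).card → SInj k n e S σ := by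
  have hm := H.hm
  induction e, he using Nat.le_induction with
  | base =>
    intro S σ hok hh ht hX
    apply kill_X
    refine le_trans ?_ hX
    unfold zg
    rw [show b + m - 2 + 1 = b + m - 1 by omega]
    exact Nat.le_add_right _ _
  | succ e he ih =>
    intro S σ hok hh ht hX
    have h12 : e + 1 + 1 = e + 2 := rfl
    rw [h12] at hh
    obtain ⟨F, hFU, -, hFs, hFm⟩ := greedy (Uf S σ) ∅ (fun i => N n (fm (σ i)))
      (N n (e+2) - heads n S σ - W) (empty_subset _) (by simp)
    change ws n F σ ≤ _ at hFs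
    by_cases hex : Uf S σ \ F = ∅
    · have hFU' : F = Uf S σ := Subset.antisymm hFU (sdiff_eq_empty_iff_subset.1 hex)
      rw [hFU'] at hFs
      exact H.Few (e+1) S σ hok (by rw [h12]; omega) ht (by omega)
    · obtain ⟨i, hi⟩ := nonempty_iff_ne_empty.2 hex
      have h1 := hFm i hi
      change _ < ws n F σ + _ at h1
      have h2 : N n (fm (σ i)) ≤ N n m :=
        N_mono (fm_le (hok i (mem_filter.1 (mem_sdiff.1 hi).1).1))
      have hw := zg_succ n m W b e (by omega)
      rw [h12] at ht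
      obtain ⟨Y, hY, hYc⟩ := exists_subset_card_eq
        (show N n (e+2) - heads n S σ - ws n F σ ≤ (Xf S σ).card by omega)
      have hdis : Disjoint F Y := disjoint_of_subset_left hFU (disjoint_of_subset_right hY Uf_Xf)
      have hv : Valid S σ (F ∪ Y) ∅ 1 := Valid.of_empty (fun i hi => by
        rcases mem_union.1 hi with h | h
        · exact Uf_fm (hFU h)
        · exact Xf_fm (hY h))
      have hsum : heads n S σ + ws n (F ∪ Y) σ + (∅ : Finset ℕ).card * N n 1 = N n (e+2) := by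
        rw [ws_union hdis, ws_Y hY, hYc, card_empty, zero_mul]
        omega
      refine nxs_step k hv (H.tinj (by omega) hok hv Y (hY.trans (filter_subset _ _))
        (fun i hi => tr_X (mem_union_right _ hi) (hY hi)) (by omega) hsum) ?_
      refine ih _ _ (nxs_ok hok) ?_ (next_total 0 hok hv hsum.le ht) ?_
      · refine next_heads W H.hn hok hv hsum.le ?_
        rw [card_empty, zero_mul, add_zero]
        exact H.c1 e (by omega)
      · rw [Xf_nxs hv, union_empty]
        have h4 : Xf S σ \ (F ∪ Y) = Xf S σ \ Y := by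
          ext j
          rw [mem_sdiff, mem_sdiff, mem_union]
          constructor
          · rintro ⟨h5, h6⟩
            exact ⟨h5, fun h7 => h6 (Or.inr h7)⟩
          · rintro ⟨h5, h6⟩
            refine ⟨h5, fun h7 => ?_⟩
            rcases h7 with h7 | h7
            · exact (disjoint_left.1 Uf_Xf) (hFU h7) h5
            · exact h6 h7
        rw [h4, card_sdiff_of_subset hY]
        omega

/-- a move exists as long as there are few simple points -/
lemma HypV.move (H : HypV k n m W W0 W1 b E1 D) {e : ℕ} {S : Finset ℕ} {σ : ℕ → St}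
    (hok : ∀ i ∈ S, Ok m (σ i)) (Q : Finset ℕ) (hQU : Q ⊆ Uf S σ)
    (hQ : heads n S σ + ws n Q σ + W ≤ N n (e+2)) (he : E1 ≤ e)
    (ht : N (n+1) (e+2) ≤ total m n S σ) (hX : (Xf S σ).card < zg n m W b (e+1)) :
    ∃ F1 F2, Valid S σ F1 F2 1 ∧ Q ⊆ F1 ∧ F1 ⊆ Uf S σ ∧ F2 ⊆ Uf S σ ∧ W ≤ F2.card ∧
      F2.card ≤ W + N n m ∧ heads n S σ + ws n F1 σ + F2.card * N n 1 = N n (e+2) := by
  obtain ⟨F, hFU, hQF, hFs, hFm⟩ := greedy (Uf S σ) Q (fun i => N n (fm (σ i)))
    (N n (e+2) - heads n S σ - W) hQU (by change ws n Q σ ≤ _; omega)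
  change ws n F σ ≤ _ at hFs
  have hK : W + N n m ≤ (Uf S σ \ F).card := by
    by_contra hcon
    push Not at hcon
    have h1 := total_fill (n := n) S σ hok F hFU
    have h2 : (n + 1) * N (n+1) (e+2) ≤ (n + 1) * total m n S σ := Nat.mul_le_mul_left _ ht
    rw [N_dim] at h2
    have h3 := H.c3 (e+1) (by omega)
    have h4 : ∑ i ∈ Uf S σ \ F, N (n+1) (fm (σ i)) ≤ (W + N n m) * N (n+1) m := by
      refine le_trans ?_ (Nat.mul_le_mul_right _ hcon.le)
      rw [← smul_eq_mul, ← sum_const]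
      exact sum_le_sum fun i hi => N_mono (fm_le (hok i (mem_filter.1 (mem_sdiff.1 hi).1).1))
    have h5 := Nat.mul_le_mul_left (n + 1) h4
    have h6 : (n + m) * (heads n S σ + ws n F σ) ≤ (n + m) * N n (e+2) :=
      Nat.mul_le_mul_left _ (by omega)
    have h7 : (n + 1) * (Xf S σ).card < (n + 1) * zg n m W b (e+1) :=
      Nat.mul_lt_mul_of_pos_left hX (by omega)
    have h8 : (e + 2 + n) * N n (e+2) = (n + (e+1) + 1) * N n (e+1+1) := by
      congr 1
      omega
    have h9 : N n (e+1+1) = N n (e+2) := rfl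
    rw [h9] at h3 h8
    omega
  have hne : (Uf S σ \ F).Nonempty := card_pos.1 (by
    have := N_pos (n := n) (show 1 ≤ m by have := H.hm; omega)
    omega)
  obtain ⟨i, hi⟩ := hne
  have h1 := hFm i hi
  change _ < ws n F σ + _ at h1
  have h2 : N n (fm (σ i)) ≤ N n m := N_mono (fm_le (hok i (mem_filter.1 (mem_sdiff.1 hi).1).1))
  obtain ⟨F2, hF2, hF2c⟩ := exists_subset_card_eq
    (show N n (e+2) - heads n S σ - ws n F σ ≤ (Uf S σ \ F).card by omega)
  have hv : Valid S σ F F2 1 := ⟨fun j hj => Uf_fm (hFU hj), fun j hj =>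
    Uf_fm (mem_sdiff.1 (hF2 hj)).1, le_rfl,
    disjoint_left.2 fun j hj hj2 => (mem_sdiff.1 (hF2 hj2)).2 hj⟩
  refine ⟨F, F2, hv, hQF, hFU, hF2.trans sdiff_subset, by omega, by omega, ?_⟩
  rw [hF2c, N_one, mul_one]
  omega

/-- consequences of a move -/
lemma HypV.after (H : HypV k n m W W0 W1 b E1 D) {e : ℕ} {S : Finset ℕ} {σ : ℕ → St} {F1 F2 : Finset ℕ}
    (hok : ∀ i ∈ S, Ok m (σ i)) (he : E1 ≤ e) (hv : Valid S σ F1 F2 1)
    (hF2 : F2.card ≤ W + N n m)
    (hs : heads n S σ + ws n F1 σ + F2.card * N n 1 = N n (e+2)) :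
    heads n S (nxs σ F1 F2 1) + (W + ov n m W0 W1 b e) ≤ N n (e+1) := by
  refine next_heads _ H.hn hok hv hs.le (le_trans ?_ (H.c2 e he))
  refine Nat.add_le_add_left (Nat.mul_le_mul_left _ (Nat.add_le_add_left ?_ _)) _
  exact Nat.mul_le_mul_right _ hF2

lemma HypV.do_move (H : HypV k n m W W0 W1 b E1 D) {e : ℕ} {S : Finset ℕ} {σ : ℕ → St} {F1 F2 : Finset ℕ}
    (hok : ∀ i ∈ S, Ok m (σ i)) (he : E1 ≤ e) (hv : Valid S σ F1 F2 1)
    (hF2 : W ≤ F2.card)
    (hs : heads n S σ + ws n F1 σ + F2.card * N n 1 = N n (e+2))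
    (hres : SInj k n e S (nxs σ F1 F2 1)) : SInj k n (e+1) S σ := by
  have hm := H.hm
  have hE1' := H.hE1'
  exact nxs_step k hv (H.tinj (by omega) hok hv F2 (fun i hi => (hv.h2 i hi).1)
    (fun i hi => tr_F2 hv hi) hF2 hs) hres

lemma ov_mono (n m W0 W1 b : ℕ) {e e' : ℕ} (h : e ≤ e') :
    ov n m W0 W1 b e ≤ ov n m W0 W1 b e' := by
  unfold ov
  exact Nat.add_le_add_left (Nat.mul_le_mul_right _ (by omega)) _

lemma ov_succ (n m W0 W1 b e : ℕ) (he : b ≤ e) :
    ov n m W0 W1 b (e+1) = ov n m W0 W1 b e + (W0 + N n m) := by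
  unfold ov
  have : e + 1 - b = (e - b) + 1 := by omega
  rw [this]
  ring

/-- the conditions of the free points -/
lemma sum_free (S : Finset ℕ) (σ : ℕ → St) :
    ∑ i ∈ S, N (n+1) (fm (σ i)) = ∑ i ∈ S.filter (fun i => 1 ≤ fm (σ i)), N (n+1) (fm (σ i)) := by
  rw [sum_filter]
  refine sum_congr rfl fun i _ => ?_
  by_cases h4 : 1 ≤ fm (σ i)
  · rw [if_pos h4]
  · rw [if_neg h4, show fm (σ i) = 0 by omega, N_zero]

/-- over-determined systems are injective -/
theorem HypV.Over (H : HypV k n m W W0 W1 b E1 D) (e : ℕ) (he : b ≤ e) :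
    ∀ (S : Finset ℕ) (σ : ℕ → St), (∀ i ∈ S, Ok m (σ i)) →
    heads n S σ ≤ N n (e+1) → N (n+1) (e+1) + ov n m W0 W1 b e ≤ total m n S σ →
    SInj k n e S σ := by
  have hm := H.hm
  have hn := H.hn
  induction e, he using Nat.le_induction with
  | base =>
    intro S σ hok hh ht
    have h1 := total_dim (n := n) S σ hok
    rw [sum_free] at h1
    have h2 : (n + 1) * (N (n+1) (b+1) + ov n m W0 W1 b b) ≤ (n + 1) * total m n S σ :=
      Nat.mul_le_mul_left _ ht
    have h3 : ov n m W0 W1 b b = W1 + (n+m) * N n (b+1) := by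
      unfold ov
      rw [Nat.sub_self, zero_mul, add_zero]
    rw [h3] at h2
    have h4 : (n + m) * heads n S σ ≤ (n + m) * N n (b+1) := Nat.mul_le_mul_left _ hh
    have h5 : (n + 1) * (N (n+1) (b+1) + (W1 + (n+m) * N n (b+1))) =
        (n + 1) * (N (n+1) (b+1) + W1) + (n + 1) * ((n+m) * N n (b+1)) := by ring
    rw [h5] at h2
    have h6 : 1 * ((n+m) * N n (b+1)) ≤ (n + 1) * ((n+m) * N n (b+1)) :=
      Nat.mul_le_mul_right _ (by omega)
    have h7 : (n + 1) * (N (n+1) (b+1) + W1) ≤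
        (n + 1) * ∑ i ∈ S.filter (fun i => 1 ≤ fm (σ i)), N (n+1) (fm (σ i)) := by omega
    have h8 := H.ap1 b le_rfl (S.filter (fun i => 1 ≤ fm (σ i)))
      (fun i => fm (σ i)) (fun i hi => fm_le (hok i (mem_filter.1 hi).1))
      (Nat.le_of_mul_le_mul_left h7 (by omega))
    rw [TInj_succ_iff] at h8
    intro c hc
    refine h8 c fun i hi => ?_
    have h9 : Cond n b (gen k i) (σ i) c := hc i (mem_filter.1 hi).1
    have h10 : 1 ≤ fm (σ i) := (mem_filter.1 hi).2
    change Cond n b (gen k i) (.F (fm (σ i))) c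
    match hσ : σ i with
    | .H L => rw [hσ] at h10; simp [fm] at h10
    | .F μ =>
      rw [hσ] at h9
      exact h9
  | succ e he ih =>
    intro S σ hok hh ht
    have h12 : e + 1 + 1 = e + 2 := rfl
    rw [h12] at hh ht
    have hc7 := H.c7 e he
    have hc8 := H.c8 e he
    obtain ⟨F, hFU, -, hFs, hFm⟩ := greedy (S.filter (fun i => 1 ≤ fm (σ i))) ∅
      (fun i => N n (fm (σ i)))
      (N n (e+2) + (W0 + N n m) - heads n S σ) (empty_subset _) (by simp)
    change ws n F σ ≤ _ at hFs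
    have hv : Valid S σ F ∅ 1 := Valid.of_empty (fun i hi =>
      ⟨(mem_filter.1 (hFU hi)).1, (mem_filter.1 (hFU hi)).2⟩)
    by_cases hex : S.filter (fun i => 1 ≤ fm (σ i)) \ F = ∅
    · exfalso
      have hFe : F = S.filter (fun i => 1 ≤ fm (σ i)) :=
        Subset.antisymm hFU (sdiff_eq_empty_iff_subset.1 hex)
      have h1 := total_dim (n := n) S σ hok
      rw [sum_free, ← hFe] at h1
      have h2 : (n + 1) * ∑ i ∈ F, N (n+1) (fm (σ i)) ≤ (n + m) * ws n F σ := by
        rw [ws, mul_sum, mul_sum]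
        exact sum_le_sum fun i hi => dim_le _ (fm_le (hok i (mem_filter.1 (hFU hi)).1))
      have h3 : (n + 1) * N (n+1) (e+2) ≤ (n + 1) * total m n S σ :=
        Nat.mul_le_mul_left _ (by omega)
      rw [N_dim] at h3
      have h4 : (n + m) * (heads n S σ + ws n F σ) ≤ (n + m) * (N n (e+2) + (W0 + N n m)) :=
        Nat.mul_le_mul_left _ (by omega)
      have h5 : (e + 2 + n) * N n (e+2) = (n + e + 2) * N n (e+2) := by
        congr 1
        omega
      rw [h5] at h3
      rw [mul_add, mul_add (n + m) (N n (e+2))] at h4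
      omega
    · obtain ⟨i, hi⟩ := nonempty_iff_ne_empty.2 hex
      have h1 := hFm i hi
      change _ < ws n F σ + _ at h1
      have h2 : N n (fm (σ i)) ≤ N n m :=
        N_mono (fm_le (hok i (mem_filter.1 (mem_sdiff.1 hi).1).1))
      have h3 : N n (e+2) + W0 ≤ heads n S σ + ws n F σ + (∅ : Finset ℕ).card * N n 1 := by
        rw [card_empty, zero_mul, add_zero]
        omega
      have htr : TInj k n (e+1) S (fun i => tr (σ i) (chf σ F ∅ 1 i)) := by
        refine H.ap0 (e+1) (by omega) S _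
          (fun i hi => tr_le m _ _ (hok i hi) (chf_le' hv i)) ?_
        rw [tr_sum n hv]
        exact h3
      refine nxs_step k hv htr ?_
      have h4 := nxs_heads (m := m) hn hok hv
      have h5 := nxs_total (m := m) (n := n) hok hv
      rw [card_empty, zero_mul, add_zero] at h3 h4 h5
      refine ih _ _ (nxs_ok hok) ?_ ?_
      · have h6 : heads n S σ + ws n F σ ≤ N n (e+2) + (W0 + N n m) := by omega
        have h7 := Nat.mul_le_mul_left (m - 1) h6
        have h8 : (m - 1 + n) * heads n S (nxs σ F ∅ 1) ≤ (m - 1 + n) * N n (e+1) := by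
          refine le_trans ?_ hc7
          rw [mul_add (m - 1) (N n (e+2))] at h7
          have h9 : (m - 1) * (W0 + N n m) ≤ (m - 1 + n) * (W0 + N n m) :=
            Nat.mul_le_mul_right _ (by omega)
          simp only [zero_mul, mul_zero, add_zero] at h4
          omega
        exact Nat.le_of_mul_le_mul_left h8 (by omega)
      · have h6 : N (n+1) (e+2) = N (n+1) (e+1) + N n (e+2) := N_rec n (e+1)
        rw [ov_succ n m W0 W1 b e he] at ht
        omega

theorem HypV.Mk (H : HypV k n m W W0 W1 b E1 D) : ∀ (κ e : ℕ) (S : Finset ℕ) (σ : ℕ → St) (Q : Finset ℕ),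
    (∀ i ∈ S, Ok m (σ i)) → Q ⊆ S → (∀ i ∈ Q, ∃ L, σ i = .H L ∧ ∀ j, L j = κ + 1 - j) →
    zg n m W b e ≤ Q.card → heads n S σ + (W + ov n m W0 W1 b e) ≤ N n (e+1) →
    N (n+1) (e+1) ≤ total m n S σ → E1 + κ ≤ e → SInj k n e S σ := by
  intro κ
  have hn := H.hn
  have hm := H.hm
  have hb := H.hb
  have hE1 := H.hE1
  have hE1' := H.hE1'
  have hD := H.hD
  induction κ with
  | zero =>
    intro e S σ Q hok hQS hQ hQc hh ht he
    obtain ⟨e, rfl⟩ := Nat.exists_eq_add_of_le' (show 1 ≤ e by omega)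
    have h12 : e + 1 + 1 = e + 2 := rfl
    rw [h12] at hh ht
    obtain ⟨Q', hdis, hQ'c⟩ := exists_fresh S Q.card
    have hwQ : ∀ i ∈ Q, wt m n (σ i) = 1 := by
      intro i hi
      obtain ⟨L, hL, hLj⟩ := hQ i hi
      rw [hL]
      simp only [wt]
      obtain ⟨m', rfl⟩ := Nat.exists_eq_add_of_le' (show 1 ≤ m by omega)
      rw [sum_range_succ', hLj 0, zero_add, Nat.sub_zero, N_one]
      have : ∑ j ∈ range m', N n (L (j+1)) = 0 := by
        refine sum_eq_zero fun j _ => ?_
        rw [hLj (j+1), show 0 + 1 - (j+1) = 0 by omega, N_zero]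
      omega
    have hhQ : ∀ i ∈ Q, hd n (σ i) = 1 := by
      intro i hi
      obtain ⟨L, hL, hLj⟩ := hQ i hi
      rw [hL]
      simp only [hd]
      rw [hLj 0, zero_add, Nat.sub_zero, N_one]
    have htot : total m n (S \ Q) σ + Q.card = total m n S σ := by
      rw [total, total, ← sum_sdiff hQS, card_eq_sum_ones]
      congr 1
      exact sum_congr rfl fun i hi => (hwQ i hi).symm
    have hhd : heads n (S \ Q) σ + Q.card = heads n S σ := by
      rw [heads, heads, ← sum_sdiff hQS, card_eq_sum_ones]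
      congr 1
      exact sum_congr rfl fun i hi => (hhQ i hi).symm
    have hokQ : ∀ i ∈ S \ Q, Ok m (σ i) := fun i hi => hok i (mem_sdiff.1 hi).1
    refine endgame n e S σ Q Q' (fun i hi => ?_) hQS hQ'c.le ?_ ?_
    · obtain ⟨L, hL, hLj⟩ := hQ i hi
      exact ⟨L, hL, by rw [hLj 0]⟩
    · -- replace the points of `Q` by general simple points
      have hne : ∀ i ∈ S \ Q, i ∉ Q' := fun i hi hi' =>
        (disjoint_left.1 hdis) (mem_sdiff.1 hi).1 hi'
      have hdis' : Disjoint (S \ Q) Q' := disjoint_left.2 hne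
      have hA1 : total m n ((S \ Q) ∪ Q') (fun i => if i ∈ Q' then .F 1 else σ i)
          = total m n S σ := by
        rw [← htot, total, sum_union hdis', total]
        congr 1
        · exact sum_congr rfl fun i hi => by rw [if_neg (hne i hi)]
        · rw [← hQ'c, card_eq_sum_ones]
          refine sum_congr rfl fun i hi => ?_
          rw [if_pos hi]
          simp only [wt, N_one]
      have hA2 : heads n ((S \ Q) ∪ Q') (fun i => if i ∈ Q' then .F 1 else σ i)
          = heads n (S \ Q) σ := by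
        rw [heads, sum_union hdis', heads]
        have h0 : ∑ i ∈ Q', hd n ((fun i => if i ∈ Q' then St.F 1 else σ i) i) = 0 := by
          refine sum_eq_zero fun i hi => ?_
          simp only [if_pos hi, hd]
        rw [h0, add_zero]
        exact sum_congr rfl fun i hi => by rw [if_neg (hne i hi)]
      refine H.Bii (e+1) (by omega) _ _ ?_ ?_ ?_ ?_
      · intro i hi
        by_cases hiQ : i ∈ Q'
        · simp only [if_pos hiQ]
          exact (show 1 ≤ m by omega)
        · simp only [if_neg hiQ]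
          rcases mem_union.1 hi with h | h
          · exact hokQ i h
          · exact absurd h hiQ
      · rw [hA2, h12]
        omega
      · rw [hA1, h12]
        exact ht
      · refine hQc.trans ?_
        rw [← hQ'c]
        refine card_le_card fun i hi => ?_
        rw [Xf, mem_filter]
        refine ⟨mem_union_right _ hi, ?_⟩
        simp only [if_pos hi]
        rfl
    · -- the residual is over-determined
      have hv : Valid (S \ Q) σ ∅ ∅ 1 := Valid.of_empty (fun i hi => absurd hi (notMem_empty i))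
      have hst : (fun i => nx (σ i) 0) = nxs σ ∅ ∅ 1 := by
        funext i
        rw [nxs, chf, if_neg (notMem_empty i), if_neg (notMem_empty i)]
      rw [hst]
      have h0 : ws n (∅ : Finset ℕ) σ = 0 := by simp [ws]
      have h1 := nxs_total (m := m) (n := n) hokQ hv
      rw [h0, card_empty, zero_mul, add_zero, add_zero] at h1
      have h2 : N (n+1) (e+2) = N (n+1) (e+1) + N n (e+2) := N_rec n (e+1)
      have h4 := ov_mono n m W0 W1 b (Nat.le_succ e)
      have h3 := next_heads (e := e) 0 hn hokQ hv (by rw [h0, card_empty, zero_mul]; omega) (by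
        rw [card_empty, zero_mul, add_zero, mul_zero, add_zero]
        have := H.c1 e (by omega)
        omega)
      have h5 : e.succ = e + 1 := rfl
      rw [h5] at h4
      refine H.Over e (by omega) _ _ (nxs_ok hokQ) (by omega) ?_
      omega
  | succ κ ih =>
    intro e S σ Q hok hQS hQ hQc hh ht he
    by_cases hX : zg n m W b e ≤ (Xf S σ).card
    · exact H.Bii e (by omega) S σ hok (by omega) ht hX
    push Not at hX
    obtain ⟨e, rfl⟩ := Nat.exists_eq_add_of_le' (show 1 ≤ e by omega)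
    have h12 : e + 1 + 1 = e + 2 := rfl
    rw [h12] at hh ht
    obtain ⟨F1, F2, hv, -, hF1, hF2, hF2W, hF2c, hsum⟩ := H.move (e := e) hok ∅ (empty_subset _)
      (by simp only [ws, sum_empty]; omega) (by omega) ht hX
    refine H.do_move hok (by omega) hv hF2W hsum ?_
    refine ih e S _ Q (nxs_ok hok) hQS ?_ ((zg_mono n m W b (Nat.le_succ e)).trans hQc)
      (H.after hok (by omega) hv hF2c hsum) (next_total 0 hok hv hsum.le ht) (by omega)
    intro i hi
    obtain ⟨L, hL, hLj⟩ := hQ i hi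
    refine ⟨fun j => L (j+1), ?_, fun j => ?_⟩
    · rw [nxs, hL]
      rfl
    · change L (j+1) = κ + 1 - j
      rw [hLj (j+1)]
      omega

theorem HypV.ex (H : HypV k n m W W0 W1 b E1 D) : EX k (n+1) m D := by
  intro e he S μ hμ hs
  rw [TInj_succ_iff]
  have hn := H.hn
  have hm := H.hm
  have hb := H.hb
  have hE1 := H.hE1
  have hE1' := H.hE1'
  have hD := H.hD
  have hc4 := H.c4 e (by omega)
  have hok : ∀ i ∈ S, Ok m (St.F (μ i)) := hμ
  by_cases hX : zg n m W b e ≤ (Xf S (fun i => St.F (μ i))).card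
  · refine H.Bii e (by omega) S _ hok ?_ hs hX
    rw [heads_init]
    omega
  push Not at hX
  -- pigeonhole
  have hpig : ∃ μ0, 2 ≤ μ0 ∧ μ0 ≤ m ∧ zg n m W b e ≤ (S.filter (fun i => μ i = μ0)).card := by
    by_contra hcon
    push Not at hcon
    have h1 : ∑ i ∈ Uf S (fun i => St.F (μ i)), N (n+1) (μ i) ≤
        m * zg n m W b e * N (n+1) m := by
      have h2 : Uf S (fun i => St.F (μ i)) ⊆
          (Icc 2 m).biUnion (fun μ0 => S.filter (fun i => μ i = μ0)) := by
        intro i hi
        have h3 := mem_filter.1 hi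
        have h4 : 2 ≤ μ i := h3.2
        rw [mem_biUnion]
        exact ⟨μ i, mem_Icc.2 ⟨h4, hμ i h3.1⟩, mem_filter.2 ⟨h3.1, rfl⟩⟩
      have h5 : (Uf S (fun i => St.F (μ i))).card ≤ m * zg n m W b e := by
        refine (card_le_card h2).trans (card_biUnion_le.trans ?_)
        calc ∑ μ0 ∈ Icc 2 m, (S.filter (fun i => μ i = μ0)).card
            ≤ ∑ _μ0 ∈ Icc 2 m, zg n m W b e := by
              refine sum_le_sum fun μ0 hμ0 => ?_
              rw [mem_Icc] at hμ0
              exact (hcon μ0 hμ0.1 hμ0.2).le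
          _ = (Icc 2 m).card * zg n m W b e := by rw [sum_const, smul_eq_mul]
          _ ≤ m * zg n m W b e := Nat.mul_le_mul_right _ (by rw [Nat.card_Icc]; omega)
      calc ∑ i ∈ Uf S (fun i => St.F (μ i)), N (n+1) (μ i)
          ≤ ∑ _i ∈ Uf S (fun i => St.F (μ i)), N (n+1) m :=
            sum_le_sum fun i hi => N_mono (hμ i (mem_filter.1 hi).1)
        _ = (Uf S (fun i => St.F (μ i))).card * N (n+1) m := by rw [sum_const, smul_eq_mul]
        _ ≤ m * zg n m W b e * N (n+1) m := Nat.mul_le_mul_right _ h5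
    have h6 := total_le m n S (fun i => St.F (μ i)) hok
    rw [heads_init, total_init] at h6
    simp only [fm] at h6
    have h7 := H.c5 e (by omega)
    have h8 : (m * N (n+1) m + 1) * zg n m W b e = m * zg n m W b e * N (n+1) m + zg n m W b e := by
      ring
    omega
  obtain ⟨μ0, hμ2, hμm, hcard⟩ := hpig
  obtain ⟨Q, hQ, hQc⟩ := exists_subset_card_eq hcard
  obtain ⟨e, rfl⟩ := Nat.exists_eq_add_of_le' (show 1 ≤ e by omega)
  have h12 : e + 1 + 1 = e + 2 := rfl
  rw [h12] at hs hc4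
  have hQU : Q ⊆ Uf S (fun i => St.F (μ i)) := by
    intro i hi
    have h3 := mem_filter.1 (hQ hi)
    refine mem_filter.2 ⟨h3.1, ?_⟩
    change 2 ≤ μ i
    omega
  have hQh : heads n S (fun i => St.F (μ i)) + ws n Q (fun i => St.F (μ i)) + W ≤ N n (e+2) := by
    rw [heads_init, zero_add]
    have h1 := ws_le m n Q (fun i => St.F (μ i)) (fun i hi => hμ i (mem_filter.1 (hQ hi)).1)
    rw [hQc] at h1
    omega
  obtain ⟨F1, F2, hv, hQF, hF1, hF2, hF2W, hF2c, hsum⟩ := H.move (e := e) hok Q hQU hQh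
    (by omega) hs hX
  refine H.do_move hok (by omega) hv hF2W hsum ?_
  refine H.Mk (μ0 - 2) e S _ Q (nxs_ok hok) ?_ ?_ ?_ (H.after hok (by omega) hv hF2c hsum)
    (next_total 0 hok hv hsum.le hs) (by omega)
  · exact fun i hi => (mem_filter.1 (hQ hi)).1
  · intro i hi
    have h3 := (mem_filter.1 (hQ hi)).2
    refine ⟨rest μ0 μ0, ?_, fun j => ?_⟩
    · rw [nxs, chf, if_pos (hQF hi)]
      simp only [nx, fm]
      rw [if_neg (by omega), h3]
    · simp only [rest]
      rw [if_neg (by omega)]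
      omega
  · rw [hQc]
    exact zg_mono n m W b (Nat.le_succ e)

end Pool.Agent.Helper98.UAH
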