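import Mathlib
import Pool.Agent.Helper98.UAH.Proc2
import Pool.Agent.Helper98.UAH.Low2
import Pool.Agent.Helper98.UAH.Blk2
import Pool.Agent.Helper98.UAH.NumV0
import Pool.Agent.Helper98.UAH.NumV7
import Pool.Agent.Helper98.UAH.NumV2
import Pool.Agent.Helper98.UAH.NumV3
import Pool.Agent.Helper98.UAH.NumV4
import Pool.Agent.Helper98.UAH.NumV5

/-! Uniform postulation in all dimensions: the third instance of the process. -/

namespace Pool.Agent.Helper98.UAH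

open Pool.Agent.Helper46.EAH Finset

/-- independence of one point of each type, in degrees at least `n + 3m + m^2/n` -/
lemma blk_nat (k : Type) [Field k] (n m e : ℕ) (hn : 1 ≤ n)
    (he : 2 * n ^ 2 + 5 * n * m + m ^ 2 ≤ 2 * n * (e + 1)) : BlkH k n m e := by
  refine blk2 k n (m / n + 1) e m hn ?_ ?_
  · have := Nat.lt_mul_div_succ m (show 0 < n by omega)
    exact this.le
  · obtain ⟨c, hc⟩ : ∃ c, c = m / n := ⟨_, rfl⟩
    rw [← hc]
    have h1 : n * c ≤ m := hc ▸ Nat.mul_div_le m n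
    have h2 : n * (n * ((c + 1) * (c + 1 + 1)) + 2 * m) ≤ n * (2 * e + 2) := by
      have h3 : n * (n * ((c + 1) * (c + 1 + 1)) + 2 * m) =
          (n * c) * (n * c) + 3 * n * (n * c) + 2 * n ^ 2 + 2 * n * m := by ring
      rw [h3]
      have h4 : (n * c) * (n * c) ≤ m * m := Nat.mul_le_mul h1 h1
      have h5 : 3 * n * (n * c) ≤ 3 * n * m := Nat.mul_le_mul_left _ h1
      calc (n * c) * (n * c) + 3 * n * (n * c) + 2 * n ^ 2 + 2 * n * m
          ≤ m * m + 3 * n * m + 2 * n ^ 2 + 2 * n * m := by omega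
        _ = 2 * n ^ 2 + 5 * n * m + m ^ 2 := by ring
        _ ≤ 2 * n * (e + 1) := he
        _ = n * (2 * e + 2) := by ring
    exact Nat.le_of_mul_le_mul_left h2 (by omega)

lemma blk_real (k : Type) [Field k] (n m e : ℕ) (hn : 1 ≤ n) (hm : 1 ≤ m)
    (he : 9 * n * xr n m ^ 3 ≤ (e:ℝ)) : BlkH k n m e ∧ BlkH k (n+1) m e := by
  obtain ⟨h1, h2, h3⟩ := nv_x n m hn
  have hn0 : (1:ℝ) ≤ n := by exact_mod_cast hn
  have hm0 : (1:ℝ) ≤ m := by exact_mod_cast hm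
  obtain ⟨x, hx⟩ : ∃ x, x = xr n m := ⟨_, rfl⟩
  rw [← hx] at h1 h2 h3 he
  have hx2 : x * n ≤ x ^ 2 * n := by nlinarith
  have hx3 : x ^ 2 * n ≤ x ^ 3 * n := by
    have : x ^ 2 * 1 ≤ x ^ 2 * x := mul_le_mul_of_nonneg_left h1 (by positivity)
    nlinarith
  have hn1 : (n:ℝ) ≤ x * n := by nlinarith
  have hm' : (m:ℝ) ≤ x * n := by linarith
  -- (m/n) (n x) etc.
  have hmm : (m:ℝ) * m ≤ (x * n) * (x * n) := mul_le_mul hm' hm' (by linarith) (by positivity)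
  constructor
  · refine blk_nat k n m e hn ?_
    have h : (2 * (n:ℝ) ^ 2 + 5 * n * m + m ^ 2) ≤ 2 * n * (e + 1) := by
      have e1 : (n:ℝ) ^ 2 ≤ n * (x * n) := by nlinarith
      have e2 : (n:ℝ) * m ≤ n * (x * n) := by nlinarith
      have e3 : (m:ℝ) ^ 2 ≤ n * (x ^ 2 * n) := by nlinarith
      have e4 : (n:ℝ) * (x * n) ≤ n * (x ^ 3 * n) := by nlinarith
      have e5 : (n:ℝ) * (x ^ 2 * n) ≤ n * (x ^ 3 * n) := by nlinarith
      have e6 : (n:ℝ) * (9 * n * x ^ 3) ≤ n * e := by nlinarith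
      nlinarith
    exact_mod_cast h
  · refine blk_nat k (n+1) m e (by omega) ?_
    have h : (2 * ((n:ℝ)+1) ^ 2 + 5 * (n+1) * m + m ^ 2) ≤ 2 * (n+1) * (e + 1) := by
      have e0 : (n:ℝ) + 1 ≤ 2 * (x * n) := by linarith
      have e1 : ((n:ℝ)+1) ^ 2 ≤ (n+1) * (2 * (x * n)) := by nlinarith
      have e2 : ((n:ℝ)+1) * m ≤ (n+1) * (x * n) := by nlinarith
      have e3 : (m:ℝ) ^ 2 ≤ (n+1) * (x ^ 2 * n) := by
        have : (m:ℝ) ^ 2 ≤ n * (x ^ 2 * n) := by nlinarith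
        have h0 : 0 ≤ x ^ 2 * n := by positivity
        nlinarith
      have e4 : ((n:ℝ)+1) * (x * n) ≤ (n+1) * (x ^ 3 * n) := by nlinarith
      have e5 : ((n:ℝ)+1) * (x ^ 2 * n) ≤ (n+1) * (x ^ 3 * n) := by nlinarith
      have e6 : ((n:ℝ)+1) * (9 * n * x ^ 3) ≤ (n+1) * e := by nlinarith
      nlinarith
    exact_mod_cast h

/-- all dimensions at least five -/
theorem ex_III (k : Type) [Field k] [CharZero k] (n m D : ℕ) (hn : 4 ≤ n) (hm : 2 ≤ m)
    (hD : 64 * n * xr n m ^ 5 ≤ (D:ℝ)) : EX k (n+1) m D := by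
  obtain ⟨h1, h2, h3⟩ := nv_x n m (by omega)
  have hn0 : (4:ℝ) ≤ n := by exact_mod_cast hn
  have hm0 : (2:ℝ) ≤ m := by exact_mod_cast hm
  obtain ⟨x, hx⟩ : ∃ x, x = xr n m := ⟨_, rfl⟩
  rw [← hx] at h1 h2 h3
  obtain ⟨b, hb, hb'⟩ : ∃ b : ℕ, 9 * n * x ^ 3 ≤ b ∧ (b:ℝ) ≤ 9 * n * x ^ 3 + 1 :=
    ⟨⌈9 * n * x ^ 3⌉₊, Nat.le_ceil _, (Nat.ceil_lt_add_one (by positivity)).le⟩
  obtain ⟨E1, hE, hE'⟩ : ∃ E1 : ℕ, 40 * n * x ^ 4 ≤ E1 ∧ (E1:ℝ) ≤ 40 * n * x ^ 4 + 1 :=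
    ⟨⌈40 * n * x ^ 4⌉₊, Nat.le_ceil _, (Nat.ceil_lt_add_one (by positivity)).le⟩
  have p1 : (n:ℝ) ≤ n * x := by nlinarith
  have p2 : (n:ℝ) * x ≤ n * x ^ 3 := by
    have : x * 1 ≤ x * x ^ 2 := mul_le_mul_of_nonneg_left (one_le_pow₀ h1) (by linarith)
    nlinarith
  have p3 : (n:ℝ) * x ^ 3 ≤ n * x ^ 4 := by
    have : x ^ 3 * 1 ≤ x ^ 3 * x := mul_le_mul_of_nonneg_left h1 (by positivity)
    nlinarith
  have p4 : (n:ℝ) * x ^ 4 ≤ n * x ^ 5 := by
    have : x ^ 4 * 1 ≤ x ^ 4 * x := mul_le_mul_of_nonneg_left h1 (by positivity)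
    nlinarith
  rw [← hx] at hD
  have hmb : m ≤ b := by
    have : (m:ℝ) ≤ b := by linarith
    exact_mod_cast this
  have hbE : b + m ≤ E1 + 1 := by
    have : (b:ℝ) + m ≤ E1 + 1 := by linarith
    exact_mod_cast this
  have hbE' : b + 1 ≤ E1 := by
    have : (b:ℝ) + 1 ≤ E1 := by linarith
    exact_mod_cast this
  have hED : E1 + m ≤ D + 1 := by
    have : (E1:ℝ) + m ≤ D + 1 := by linarith
    exact_mod_cast this
  have hbe : ∀ e, b ≤ e → 9 * n * xr n m ^ 3 ≤ (e:ℝ) := by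
    intro e he
    have : (b:ℝ) ≤ e := by exact_mod_cast he
    rw [← hx]
    linarith
  rw [hx] at hb hb' hE hD
  have H : HypV k n m (Wf n m) (W0f n m) (W1f n m) b E1 D :=
    { hn := by omega
      hm := hm
      hb := hmb
      hE1 := hbE
      hE1' := by omega
      hD := hED
      ap2 := fun e he S μ hμ hW hs => ap2_gen k n m e (by omega) (by omega)
        (blk_real k n m e (by omega) (by omega) (hbe e he)).1 S μ hμ hW hs
      ap0 := fun e he S μ hμ hs => ap1_gen k n m e (by omega) (by omega)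
        (blk_real k n m e (by omega) (by omega) (hbe e he)).1 S μ hμ hs
      ap1 := fun e he S μ hμ hs => ap1_gen k (n+1) m e (by omega) (by omega)
        (blk_real k n m e (by omega) (by omega) (hbe e he)).2 S μ hμ hs
      c1 := fun e he => by
        refine le_trans (Nat.add_le_add_left (Nat.mul_le_mul_left _ ?_) _)
          (numV7 n m b e hn hm hb he)
        unfold Wf W0f
        omega
      c7 := fun e he => numV7 n m b e hn hm hb he
      c8 := fun e he => numV8 n m b e hn hm hb he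
      c2 := fun e he => numV2 n m b E1 e hn hm hb' hE he
      c3 := fun e he => numV3 n m b E1 e hn hm hb' hE he
      c4 := fun e he => numV4 n m b D e hn hm hb' hD he
      c5 := fun e he => numV5 n m b D e hn hm hb' hD he }
  exact H.ex

/-- all dimensions at least five, not exceeding twice the multiplicity -/
theorem ex_IIIa (k : Type) [Field k] [CharZero k] (n m D : ℕ) (hn : 5 ≤ n) (hm : 1 ≤ m)
    (hnm : n ≤ 2 * m) (hD : 512 * m * (1 + (m:ℝ) / n) ^ 4 ≤ (D:ℝ)) : EX k n m D := by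
  obtain ⟨n, rfl⟩ := Nat.exists_eq_add_of_le' (show 1 ≤ n by omega)
  refine ex_III k n m D (by omega) (by omega) (le_trans ?_ hD)
  obtain ⟨h1, h2, h3⟩ := nv_x n m (by omega)
  have hn0 : (4:ℝ) ≤ n := by exact_mod_cast (show 4 ≤ n by omega)
  have hm0 : (1:ℝ) ≤ m := by exact_mod_cast hm
  have hnm' : (n:ℝ) + 1 ≤ 2 * m := by exact_mod_cast hnm
  obtain ⟨y, hy⟩ : ∃ y, y = 1 + (m:ℝ) / ((n+1:ℕ):ℝ) := ⟨_, rfl⟩
  rw [← hy]
  have hy1 : ((n:ℝ) + 1) * y = n + 1 + m := by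
    rw [hy]
    push_cast
    field_simp
  have hxy : xr n m ≤ 5 / 4 * y := by
    have h4 : (n:ℝ) * (n + 1) * xr n m ≤ n * (n + 1) * (5 / 4 * y) := by
      calc (n:ℝ) * (n + 1) * xr n m = (n + 1) * (n * xr n m) := by ring
        _ = (n + 1) * (n + m) := by rw [h3]
        _ ≤ 5 / 4 * n * (n + 1 + m) := by nlinarith
        _ = 5 / 4 * n * ((n + 1) * y) := by rw [hy1]
        _ = n * (n + 1) * (5 / 4 * y) := by ring
    exact le_of_mul_le_mul_left h4 (by positivity)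
  have hy0 : 0 ≤ y := by
    rw [hy]
    positivity
  have h5 : xr n m ^ 4 ≤ (5 / 4 * y) ^ 4 := pow_le_pow_left₀ (by linarith) hxy 4
  calc 64 * n * xr n m ^ 5 = 64 * (n * xr n m) * xr n m ^ 4 := by ring
    _ = 64 * (n + m) * xr n m ^ 4 := by rw [h3]
    _ ≤ 64 * (3 * m) * xr n m ^ 4 := by
        apply mul_le_mul_of_nonneg_right _ (by positivity)
        linarith
    _ ≤ 64 * (3 * m) * (5 / 4 * y) ^ 4 := mul_le_mul_of_nonneg_left h5 (by positivity)
    _ = 1875 / 4 * m * y ^ 4 := by ring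
    _ ≤ 512 * m * y ^ 4 := by
        apply mul_le_mul_of_nonneg_right _ (by positivity)
        nlinarith

end Pool.Agent.Helper98.UAH
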