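import Pool.Agent.Helper98.UAH.Defs
import Pool.Agent.Helper98.UAH.Subst

/-! Uniform postulation: independent fat points at linearly independent vectors. -/

namespace Pool.Agent.Helper98.UAH

open Pool.Agent.Helper46.EAH Finset

/-- weight of an exponent away from the coordinate `t` -/
def m8_wt {n : ℕ} (t : Fin (n+1)) (g : Fin (n+1) →₀ ℕ) : ℕ :=
  ∑ s, (if s = t then 0 else 1) * g s

/-- rescaling the coordinates other than `t` -/
noncomputable def m8_T {K : Type*} [Field K] {n : ℕ} (t : Fin (n+1)) :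
    MvPolynomial (Fin (n+1)) K →ₐ[K] Polynomial (MvPolynomial (Fin (n+1)) K) :=
  MvPolynomial.aeval fun s => Polynomial.X ^ (if s = t then 0 else 1) *
    Polynomial.C (MvPolynomial.X s)

lemma m8_T_monomial {K : Type*} [Field K] {n : ℕ} (t : Fin (n+1)) (g : Fin (n+1) →₀ ℕ) (a : K) :
    m8_T t (MvPolynomial.monomial g a) =
      Polynomial.monomial (m8_wt t g) (MvPolynomial.monomial g a) := by
  unfold m8_T
  rw [MvPolynomial.aeval_monomial, Finsupp.prod_fintype _ _ (fun i => pow_zero _)]
  have h1 : ∀ s, (Polynomial.X ^ (if s = t then 0 else 1) *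
      Polynomial.C (MvPolynomial.X s) : Polynomial (MvPolynomial (Fin (n+1)) K)) ^ g s =
      Polynomial.X ^ ((if s = t then 0 else 1) * g s) * Polynomial.C (MvPolynomial.X s ^ g s) := by
    intro s
    rw [mul_pow, ← pow_mul, map_pow]
  rw [Finset.prod_congr rfl fun s _ => h1 s, prod_mul_distrib, prod_pow_eq_pow_sum, ← map_prod]
  rw [MvPolynomial.monomial_eq, Finsupp.prod_fintype _ _ (fun i => pow_zero _)]
  rw [← Polynomial.C_mul_X_pow_eq_monomial, map_mul]
  rw [Polynomial.algebraMap_apply, MvPolynomial.algebraMap_eq]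
  unfold m8_wt
  ring

lemma m8_T_coeff {K : Type*} [Field K] {n : ℕ} (t : Fin (n+1)) (f : MvPolynomial (Fin (n+1)) K)
    (g : Fin (n+1) →₀ ℕ) :
    MvPolynomial.coeff g ((m8_T t f).coeff (m8_wt t g)) = MvPolynomial.coeff g f := by
  classical
  induction f using MvPolynomial.induction_on' with
  | monomial u a =>
    rw [m8_T_monomial, Polynomial.coeff_monomial]
    by_cases h : u = g
    · rw [h, if_pos rfl]
    · have h2 : MvPolynomial.coeff g (MvPolynomial.monomial u a : MvPolynomial (Fin (n+1)) K) = 0 := by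
        rw [MvPolynomial.coeff_monomial, if_neg h]
      rw [h2]
      split_ifs
      · exact h2
      · exact MvPolynomial.coeff_zero _
  | add p q hp hq =>
    rw [map_add, Polynomial.coeff_add, MvPolynomial.coeff_add, MvPolynomial.coeff_add, hp, hq]

/-- Homogeneous polynomials at multiples of one element. -/
lemma m8_homog {K : Type*} [Field K] {n : ℕ} (u : Fin (n+1) → K) (e : ℕ)
    (f l : MvPolynomial (Fin (n+1)) K) (hf : f.IsHomogeneous e) :
    MvPolynomial.aeval (fun i => MvPolynomial.C (u i) * l) f =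
      MvPolynomial.C (MvPolynomial.eval u f) * l ^ e := by
  rw [MvPolynomial.aeval_def, MvPolynomial.eval₂_eq', MvPolynomial.eval_eq', map_sum, sum_mul]
  refine sum_congr rfl fun d hd => ?_
  have hdeg : ∑ i, d i = e := by
    have h2 := hf (MvPolynomial.mem_support_iff.1 hd)
    rw [← h2, ← Finsupp.degree_eq_sum]
    exact DFunLike.congr_fun Finsupp.degree_eq_weight_one d
  have h3 : ∏ i, (MvPolynomial.C (u i) * l) ^ d i =
      MvPolynomial.C (∏ i, u i ^ d i) * l ^ e := by
    have h4 : ∀ i, (MvPolynomial.C (u i) * l) ^ d i = MvPolynomial.C (u i ^ d i) * l ^ d i := by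
      intro i
      rw [mul_pow, map_pow]
    rw [Finset.prod_congr rfl fun i _ => h4 i, prod_mul_distrib, ← map_prod,
      prod_pow_eq_pow_sum, hdeg]
  rw [h3, map_mul, MvPolynomial.algebraMap_eq]
  ring

/-- unit vector -/
def m8_unit (K : Type*) [Field K] {n : ℕ} (t : Fin (n+1)) : Fin (n+1) → K :=
  fun s => if s = t then 1 else 0

lemma m8_ptI {K : Type*} [Field K] {n : ℕ} (t : Fin (n+1)) (a : ℕ)
    (f : MvPolynomial (Fin (n+1)) K) (hf : f ∈ ptI (m8_unit K t) ^ a) :
    Polynomial.X ^ a ∣ m8_T t f := by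
  have h1 : ptI (m8_unit K t) ≤ Ideal.comap (m8_T t) (Ideal.span {Polynomial.X}) := by
    unfold ptI
    rw [Ideal.span_le]
    rintro g ⟨⟨d, hd⟩, hg⟩
    change m8_T t g ∈ Ideal.span {Polynomial.X}
    rw [Ideal.mem_span_singleton, Polynomial.X_dvd_iff, Polynomial.coeff_zero_eq_eval_zero]
    have h2 : (m8_T t g).eval 0 = MvPolynomial.aeval
        (fun i => MvPolynomial.C (m8_unit K t i) * MvPolynomial.X t) g := by
      have h : (Polynomial.evalRingHom (0 : MvPolynomial (Fin (n+1)) K)).comp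
          (m8_T t).toRingHom = (MvPolynomial.aeval (R := K)
        (fun i => (MvPolynomial.C (m8_unit K t i) * MvPolynomial.X t :
          MvPolynomial (Fin (n+1)) K))).toRingHom := by
        refine MvPolynomial.ringHom_ext ?_ ?_
        · intro a
          change (m8_T t (MvPolynomial.C a)).eval 0 = MvPolynomial.aeval _ (MvPolynomial.C a)
          unfold m8_T
          rw [MvPolynomial.algHom_C, MvPolynomial.algHom_C]
          rw [Polynomial.algebraMap_apply, Polynomial.eval_C]
        · intro i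
          change (m8_T t (MvPolynomial.X i)).eval 0 = MvPolynomial.aeval _ (MvPolynomial.X i)
          unfold m8_T m8_unit
          rw [MvPolynomial.aeval_X, MvPolynomial.aeval_X]
          by_cases hi : i = t
          · rw [if_pos hi, if_pos hi, pow_zero, one_mul, Polynomial.eval_C, map_one, one_mul, hi]
          · rw [if_neg hi, if_neg hi, pow_one, Polynomial.eval_mul, Polynomial.eval_X, zero_mul,
              map_zero, zero_mul]
      exact RingHom.congr_fun h g
    rw [h2, m8_homog _ d g _ hd, hg, map_zero, zero_mul]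
  have h2 : ptI (m8_unit K t) ^ a ≤ Ideal.comap (m8_T t) (Ideal.span {Polynomial.X} ^ a) :=
    (Ideal.pow_right_mono h1 a).trans (Ideal.le_comap_pow _ a)
  have h3 : m8_T t f ∈ (Ideal.span {Polynomial.X} ^ a :
      Ideal (Polynomial (MvPolynomial (Fin (n+1)) K))) := h2 hf
  rw [Ideal.span_singleton_pow, Ideal.mem_span_singleton] at h3
  exact h3

/-- Forms vanishing to order `a` at a coordinate point have no monomials of small weight. -/
lemma m8_coeff_zero {K : Type*} [Field K] {n : ℕ} (t : Fin (n+1)) (a : ℕ)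
    (f : MvPolynomial (Fin (n+1)) K) (hf : f ∈ ptI (m8_unit K t) ^ a)
    (g : Fin (n+1) →₀ ℕ) (hg : m8_wt t g < a) : MvPolynomial.coeff g f = 0 := by
  rw [← m8_T_coeff t f g]
  have h := (Polynomial.X_pow_dvd_iff.1 (m8_ptI t a f hf)) _ hg
  rw [h, MvPolynomial.coeff_zero]

/-- coordinate matrix of points given by an injection -/
noncomputable def m8_A (k : Type) [Field k] {n : ℕ} (ι : Fin (n+1) → ℕ) :
    Matrix (Fin (n+1)) (Fin (n+1)) (MvPolynomial (ℕ × ℕ) k) :=
  fun s t => (Fin.cons 1 (fun j : Fin n => MvPolynomial.X (ι t, (j : ℕ))) :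
    Fin (n+1) → MvPolynomial (ℕ × ℕ) k) s

lemma m8_A_det (k : Type) [Field k] {n : ℕ} (ι : Fin (n+1) → ℕ) (hι : Function.Injective ι) :
    (m8_A k ι).det ≠ 0 := by
  classical
  intro h
  -- the special position
  let x : ℕ × ℕ → k := fun p => if h : p.2 < n then
    (if p.1 = ι (Fin.succ ⟨p.2, h⟩) then 1 else 0) else 0
  have h1 := congrArg (MvPolynomial.eval x) h
  rw [map_zero, RingHom.map_det] at h1
  have h2 : (MvPolynomial.eval x).mapMatrix (m8_A k ι) =
      fun s t => if s = 0 then 1 else if t = s then 1 else 0 := by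
    funext s t
    rw [RingHom.mapMatrix_apply, Matrix.map_apply]
    unfold m8_A
    refine Fin.cases ?_ (fun j => ?_) s
    · simp
    · rw [Fin.cons_succ, MvPolynomial.eval_X, if_neg (Fin.succ_ne_zero j)]
      simp only [x, Fin.is_lt, dif_pos, Fin.eta]
      by_cases h3 : t = j.succ
      · rw [if_pos h3, if_pos (by rw [h3])]
      · rw [if_neg h3, if_neg (fun h4 => h3 (hι h4))]
  rw [h2, Matrix.det_of_isUpperTriangular] at h1
  · rw [prod_eq_one] at h1
    · exact one_ne_zero h1
    · intro i _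
      rw [if_pos rfl]
      split_ifs <;> rfl
  · intro i j hij
    change (if i = 0 then (1:k) else if j = i then 1 else 0) = 0
    have h3 : j < i := hij
    have h4 : i ≠ 0 := by
      rintro rfl
      exact absurd h3 (Fin.not_lt_zero j)
    rw [if_neg h4, if_neg (ne_of_lt h3)]

/-- matrix of generic points -/
noncomputable def m8_B (k : Type) [Field k] {n : ℕ} (ι : Fin (n+1) → ℕ) :
    Matrix (Fin (n+1)) (Fin (n+1)) (Gen k) :=
  fun s t => hp n (gen k (ι t)) s

lemma m8_B_det (k : Type) [Field k] {n : ℕ} (ι : Fin (n+1) → ℕ) (hι : Function.Injective ι) :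
    (m8_B k ι).det ≠ 0 := by
  have h1 : m8_B k ι = (algebraMap (MvPolynomial (ℕ × ℕ) k) (Gen k)).mapMatrix (m8_A k ι) := by
    funext s t
    rw [RingHom.mapMatrix_apply, Matrix.map_apply]
    unfold m8_B m8_A hp gen
    refine Fin.cases ?_ (fun j => ?_) s
    · rw [Fin.cons_zero, Fin.cons_zero, map_one]
    · rw [Fin.cons_succ, Fin.cons_succ]
  rw [h1, ← RingHom.map_det]
  intro h2
  apply m8_A_det k ι hι
  exact (map_eq_zero_iff _ (IsFractionRing.injective (MvPolynomial (ℕ × ℕ) k) (Gen k))).1 h2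

/-- Invertible substitutions are injective. -/
lemma m8_subst_inj {K : Type*} [Field K] {n : ℕ} (M : Matrix (Fin (n+1)) (Fin (n+1)) K)
    (hM : M.det ≠ 0) (f : MvPolynomial (Fin (n+1)) K) (hf : subst M f = 0) : f = 0 := by
  have h1 : ∀ (A B : Matrix (Fin (n+1)) (Fin (n+1)) K) (g : MvPolynomial (Fin (n+1)) K),
      subst B (subst A g) = subst (A * B) g := by
    intro A B g
    have h : ((subst B).comp (subst A)) = subst (A * B) := by
      refine MvPolynomial.algHom_ext fun s => ?_
      rw [AlgHom.comp_apply]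
      unfold subst
      rw [MvPolynomial.aeval_X, MvPolynomial.aeval_X, map_sum]
      simp only [map_mul, MvPolynomial.aeval_X, MvPolynomial.algHom_C, MvPolynomial.algebraMap_eq,
        Matrix.mul_apply, map_sum, sum_mul, mul_sum]
      rw [sum_comm]
      refine sum_congr rfl fun t _ => sum_congr rfl fun r _ => ?_
      ring
    exact DFunLike.congr_fun h g
  have h2 : subst (1 : Matrix (Fin (n+1)) (Fin (n+1)) K) f = f := by
    have h : subst (1 : Matrix (Fin (n+1)) (Fin (n+1)) K) = AlgHom.id K _ := by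
      refine MvPolynomial.algHom_ext fun s => ?_
      unfold subst
      rw [MvPolynomial.aeval_X, AlgHom.id_apply]
      rw [sum_eq_single_of_mem s (mem_univ s)]
      · rw [Matrix.one_apply_eq, map_one, one_mul]
      · intro t _ hts
        rw [Matrix.one_apply_ne (Ne.symm hts), map_zero, zero_mul]
    rw [h, AlgHom.id_apply]
  rw [← h2, ← Matrix.mul_nonsing_inv M (isUnit_iff_ne_zero.2 hM), ← h1, hf, map_zero]

lemma m8_card (n d : ℕ) :
    ((univ : Finset (Fin (n+1))).finsuppAntidiag d).card = N n (d+1) := by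
  rw [Finset.card_finsuppAntidiag_nat_eq_choose, Finset.card_univ, Fintype.card_fin, N_succ]
  have : n + 1 + d - 1 = n + d := by omega
  rw [this, ← Nat.choose_symm_of_eq_add (n := n + d) (a := n) (b := d) rfl]

/-- exponents excluded by a fat coordinate point -/
noncomputable def m8_bad {n : ℕ} (e a : ℕ) (t : Fin (n+1)) : Finset (Fin (n+1) →₀ ℕ) :=
  ((univ : Finset (Fin (n+1))).finsuppAntidiag (a-1)).map
    (addRightEmbedding (Finsupp.single t (e+1-a)))

lemma m8_bad_card {n : ℕ} (e a : ℕ) (ha : 1 ≤ a) (t : Fin (n+1)) :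
    (m8_bad e a t).card = N n a := by
  unfold m8_bad
  rw [card_map, m8_card, Nat.sub_add_cancel ha]

lemma m8_wt_add {n : ℕ} (t : Fin (n+1)) (g : Fin (n+1) →₀ ℕ) : m8_wt t g + g t = ∑ s, g s := by
  unfold m8_wt
  rw [← add_sum_erase univ (fun s => g s) (mem_univ t),
    ← add_sum_erase univ (fun s => (if s = t then 0 else 1) * g s) (mem_univ t), if_pos rfl,
    zero_mul, zero_add, add_comm]
  congr 1
  refine sum_congr rfl fun s hs => ?_
  rw [if_neg (ne_of_mem_erase hs), one_mul]

lemma m8_bad_wt {n : ℕ} (e a : ℕ) (ha : 1 ≤ a) (hae : a ≤ e + 1) (t : Fin (n+1))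
    (g : Fin (n+1) →₀ ℕ) (hg : g ∈ m8_bad e a t) :
    m8_wt t g < a ∧ g ∈ (univ : Finset (Fin (n+1))).finsuppAntidiag e := by
  unfold m8_bad at hg
  rw [mem_map] at hg
  obtain ⟨g', hg', rfl⟩ := hg
  rw [mem_finsuppAntidiag] at hg' ⊢
  have h1 : ∑ s, (g' + Finsupp.single t (e+1-a)) s = e := by
    have h2 : ∀ s, (g' + Finsupp.single t (e+1-a)) s = g' s + Finsupp.single t (e+1-a) s :=
      fun s => rfl
    rw [Finset.sum_congr rfl fun s _ => h2 s, sum_add_distrib]
    have h3 : ∑ s, (Finsupp.single t (e+1-a) : Fin (n+1) →₀ ℕ) s = e + 1 - a := by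
      rw [sum_eq_single_of_mem t (mem_univ t)]
      · rw [Finsupp.single_eq_same]
      · intro s _ hs
        rw [Finsupp.single_eq_of_ne hs]
    have h4 : ∑ s, g' s = a - 1 := hg'.1
    rw [h3, h4]
    omega
  have h5 := m8_wt_add t (g' + Finsupp.single t (e+1-a))
  have h6 : (g' + Finsupp.single t (e+1-a)) t = g' t + (e + 1 - a) := by
    rw [Finsupp.add_apply, Finsupp.single_eq_same]
  refine ⟨?_, h1, subset_univ _⟩
  change m8_wt t (g' + Finsupp.single t (e+1-a)) < a
  rw [h1, h6] at h5
  omega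

lemma m8_bad_disj {n : ℕ} (e a b : ℕ) (ha : 1 ≤ a) (hae : a ≤ e + 1) (hb : 1 ≤ b)
    (hbe : b ≤ e + 1) (hab : a + b ≤ e + 1) (t s : Fin (n+1)) (hts : t ≠ s) :
    Disjoint (m8_bad e a t) (m8_bad e b s) := by
  rw [Finset.disjoint_left]
  intro g h1 h2
  obtain ⟨h3, h4⟩ := m8_bad_wt e a ha hae t g h1
  obtain ⟨h5, _⟩ := m8_bad_wt e b hb hbe s g h2
  rw [mem_finsuppAntidiag] at h4
  have h6 : ∑ s, g s = e := h4.1
  have h7 := m8_wt_add t g
  have h8 := m8_wt_add s g
  have h9 : g t + g s ≤ ∑ r, g r := by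
    rw [← add_sum_erase univ (fun s => g s) (mem_univ t)]
    have : s ∈ univ.erase t := mem_erase.2 ⟨hts.symm, mem_univ s⟩
    have := single_le_sum (f := fun r => g r) (fun _ _ => Nat.zero_le _) this
    change g t + g s ≤ g t + ∑ x ∈ univ.erase t, g x
    exact Nat.add_le_add_left this _
  omega

theorem blk (k : Type) [Field k] (n m e : ℕ) (hmn : m ≤ n + 1) (he : 2 * m ≤ e + 2)
    (μ : ℕ → ℕ) (Y : Finset ℕ) (hY : ∀ i ∈ Y, 1 ≤ μ i ∧ μ i ≤ m)
    (hinj : ∀ i ∈ Y, ∀ j ∈ Y, μ i = μ j → i = j) :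
    Module.finrank (Gen k) (WS k n e μ Y) + ∑ i ∈ Y, N n (μ i) ≤ N n (e+1) := by
  classical
  -- choose an injection whose range contains `Y`
  have hcard : Y.card ≤ n + 1 := by
    have h1 : Y.card ≤ (Icc 1 m).card :=
      card_le_card_of_injOn μ (fun i hi => mem_Icc.2 (hY i hi)) (fun i hi j hj h => hinj i hi j hj h)
    rw [Nat.card_Icc] at h1
    omega
  obtain ⟨Y', hYY', hY'⟩ := Infinite.exists_superset_card_eq Y (n+1) hcard
  let ι : Fin (n+1) → ℕ := fun t => Y'.orderEmbOfFin hY' t
  have hι : Function.Injective ι := (Y'.orderEmbOfFin hY').injective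
  have hsurj : ∀ i ∈ Y, ∃ t, ι t = i := by
    intro i hi
    have h1 : i ∈ Set.range (Y'.orderEmbOfFin hY') := by
      rw [Finset.range_orderEmbOfFin]
      exact hYY' hi
    exact h1
  let Tt : Finset (Fin (n+1)) := univ.filter (fun t => ι t ∈ Y)
  have hTt : Y = Tt.image ι := by
    ext i
    rw [mem_image]
    constructor
    · intro hi
      obtain ⟨t, ht⟩ := hsurj i hi
      exact ⟨t, mem_filter.2 ⟨mem_univ _, by rw [ht]; exact hi⟩, ht⟩
    · rintro ⟨t, ht, rfl⟩
      exact (mem_filter.1 ht).2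
  have hYT : ∀ t ∈ Tt, ι t ∈ Y := fun t ht => (mem_filter.1 ht).2
  have hsum : ∑ i ∈ Y, N n (μ i) = ∑ t ∈ Tt, N n (μ (ι t)) := by
    rw [hTt, sum_image (fun a _ b _ h => hι h)]
  -- the excluded exponents
  let bad : Finset (Fin (n+1) →₀ ℕ) := Tt.biUnion (fun t => m8_bad e (μ (ι t)) t)
  have hle : ∀ t ∈ Tt, 1 ≤ μ (ι t) ∧ μ (ι t) ≤ e + 1 := by
    intro t ht
    have := hY _ (hYT t ht)
    omega
  have hbadc : bad.card = ∑ t ∈ Tt, N n (μ (ι t)) := by
    rw [card_biUnion]
    · exact sum_congr rfl fun t ht => m8_bad_card e _ (hle t ht).1 t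
    · intro t ht s hs hts
      refine m8_bad_disj e _ _ (hle t ht).1 (hle t ht).2 (hle s hs).1 (hle s hs).2 ?_ t s hts
      have h1 := hY _ (hYT t ht)
      have h2 := hY _ (hYT s hs)
      have h3 : μ (ι t) ≠ μ (ι s) := fun h => hts (hι (hinj _ (hYT t ht) _ (hYT s hs) h))
      omega
  let AD : Finset (Fin (n+1) →₀ ℕ) := (univ : Finset (Fin (n+1))).finsuppAntidiag e
  have hsub : bad ⊆ AD := by
    intro g hg
    obtain ⟨t, ht, hg⟩ := mem_biUnion.1 hg
    exact (m8_bad_wt e _ (hle t ht).1 (hle t ht).2 t g hg).2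
  -- the coefficient map
  let L : WS k n e μ Y →ₗ[Gen k] ({g // g ∈ AD \ bad} → Gen k) :=
    { toFun := fun v g => MvPolynomial.coeff g.1 (subst (m8_B k ι) (polL (Gen k) n e v.1))
      map_add' := by
        intro v w
        funext g
        rw [Submodule.coe_add, map_add, map_add, MvPolynomial.coeff_add, Pi.add_apply]
      map_smul' := by
        intro c v
        funext g
        rw [Submodule.coe_smul, map_smul, map_smul, MvPolynomial.coeff_smul, RingHom.id_apply,
          Pi.smul_apply] }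
  have hL : Function.Injective L := by
    rw [← LinearMap.ker_eq_bot, LinearMap.ker_eq_bot']
    intro v hv
    have h0 : subst (m8_B k ι) (polL (Gen k) n e v.1) = 0 := by
      refine MvPolynomial.ext _ _ fun g => ?_
      rw [MvPolynomial.coeff_zero]
      by_cases hg : g ∈ AD
      · by_cases hb : g ∈ bad
        · obtain ⟨t, ht, hg2⟩ := mem_biUnion.1 hb
          refine m8_coeff_zero t (μ (ι t)) _ ?_ g
            (m8_bad_wt e _ (hle t ht).1 (hle t ht).2 t g hg2).1
          refine subst_mem (m8_B k ι) (m8_unit (Gen k) t) (hp n (gen k (ι t))) 1 one_ne_zero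
            ?_ _ _ ?_
          · intro s
            unfold m8_unit m8_B
            rw [one_mul]
            simp
          · exact (mem_PS_iff n e (gen k (ι t)) (μ (ι t)) v.1).1
              (mem_PS.2 (mem_WS.1 v.2 (ι t) (hYT t ht)))
        · exact congrFun hv ⟨g, mem_sdiff.2 ⟨hg, hb⟩⟩
      · have h2 : (subst (m8_B k ι) (polL (Gen k) n e v.1)).IsHomogeneous e :=
          m4_homog _ _ _ (pol_homog n e _)
        by_contra h3
        apply hg
        rw [mem_finsuppAntidiag]
        refine ⟨?_, subset_univ _⟩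
        have h4 := h2 h3
        rw [← h4]
        exact ((Finsupp.degree_eq_sum g).symm.trans
          (DFunLike.congr_fun Finsupp.degree_eq_weight_one g))
    have h1 := m8_subst_inj (m8_B k ι) (m8_B_det k ι hι) _ h0
    have h2 : v.1 = 0 := by
      apply polL_inj n e
      rw [h1, map_zero]
    exact Subtype.ext h2
  have h1 := LinearMap.finrank_le_finrank_of_injective hL
  rw [Module.finrank_fintype_fun_eq_card, Fintype.card_coe, card_sdiff_of_subset hsub, hbadc,
    ← hsum] at h1
  have h2 : AD.card = N n (e+1) := m8_card n e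
  have h3 := card_le_card hsub
  rw [hbadc, ← hsum, h2] at h3
  rw [h2] at h1
  omega

end Pool.Agent.Helper98.UAH
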