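import Pool.Agent.Helper98.UAH.Defs

/-! Uniform postulation, module M7: a nonzero vector of top degree. -/

namespace Pool.Agent.Helper98.UAH

open Pool.Agent.Helper46.EAH Finset Polynomial

theorem ext_Phi_bound {K : Type*} [CommSemiring K] (n D D' : ℕ) (hD : D ≤ D') (P : ℕ → K) (α : E n)
    (c : E n → K) (hc : ∀ x, D < sz n x → c x = 0) : Phi n D' P α c = Phi n D P α c := by
  unfold Phi
  symm
  refine sum_subset (fun x hx => ?_) fun x _ hx => ?_
  · rw [mem_Box] at hx ⊢
    omega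
  · rw [mem_Box] at hx
    rw [hc x (by omega), mul_zero]

theorem ext_step {K : Type*} [Field K] (n d m : ℕ) (P : ℕ → K) (c c' : E (n+1) → K)
    (hc : ∀ x : E (n+1), d < sz (n+1) x → c x = 0)
    (h0 : ∀ a : E n, c' ((0, a) : E (n+1)) = 0)
    (h1 : ∀ (j : ℕ) (a : E n), c' ((j+1, a) : E (n+1)) = c ((j, a) : E (n+1)))
    (h : ∀ α : E (n+1), sz (n+1) α < m → Phi (n+1) (d+1) P α c = 0) :
    ∀ α : E (n+1), sz (n+1) α < m → Phi (n+1) (d+1) P α c' = 0 := by
  have hgp : ∀ α : E n, gp n (d+1) P α c' = X * gp n (d+1) P α c := by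
    intro α
    rw [gp_succ]
    have e0 : Phi n (d+1) P α (fun a => c' ((0, a) : E (n+1))) = 0 :=
      Phi_zero _ _ _ _ _ fun a _ => h0 a
    have e1 : (fun a : E (n+1) => c' ((a.1 + 1, a.2) : E (n+1))) = c := by
      funext a
      obtain ⟨j, a⟩ := a
      exact h1 j a
    rw [e0, e1, C_0, zero_add]
    congr 1
    ext j
    rw [gp_coeff, gp_coeff]
    have hc' : ∀ (D : ℕ), d ≤ D + j → ∀ x : E n, D < sz n x → c ((j, x) : E (n+1)) = 0 := by
      intro D hD x hx
      refine hc _ ?_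
      change d < j + sz n x
      omega
    by_cases h2 : j ≤ d
    · rw [if_pos h2, if_pos (by omega)]
      exact (ext_Phi_bound n (d - j) (d + 1 - j) (by omega) P α _ (hc' _ (by omega))).symm
    · rw [if_neg h2]
      split_ifs with h3
      · symm
        refine Phi_zero _ _ _ _ _ fun x _ => hc _ ?_
        change d < j + sz n x
        omega
      · rfl
  intro α hα
  obtain ⟨s, α⟩ := α
  have hα' : s + sz n α < m := hα
  have h3 : ∀ t < m - sz n α, Phi (n+1) (d+1) P ((t, α) : E (n+1)) c = 0 := by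
    intro t ht
    refine h _ ?_
    change t + sz n α < m
    omega
  have h4 := (Phi_succ_forall_iff n (d+1) P α c (m - sz n α)).1 h3
  have h5 : (X - C (P n)) ^ (m - sz n α) ∣ gp n (d+1) P α c' := by
    rw [hgp]
    exact Dvd.dvd.mul_left h4 X
  exact (Phi_succ_forall_iff n (d+1) P α c' (m - sz n α)).2 h5 s (by omega)

theorem exists_top (k : Type) [Field k] (n e : ℕ) (hn : 1 ≤ n) (μ : ℕ → ℕ) (S : Finset ℕ)
    (h : WS k n e μ S ≠ ⊥) :
    ∃ v ∈ WS k n e μ S, ∃ x : Bx n e, sz n x.1 = e ∧ v x ≠ 0 := by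
  obtain ⟨n, rfl⟩ : ∃ n', n = n' + 1 := ⟨n - 1, by omega⟩
  have key : ∀ s : ℕ, ∀ v ∈ WS k (n+1) e μ S, (∃ x : Bx (n+1) e, sz (n+1) x.1 + s = e ∧ v x ≠ 0) →
      ∃ v ∈ WS k (n+1) e μ S, ∃ x : Bx (n+1) e, sz (n+1) x.1 = e ∧ v x ≠ 0 := by
    intro s
    induction s with
    | zero =>
      intro v hv hx
      exact ⟨v, hv, by simpa using hx⟩
    | succ s ih =>
      intro v hv ⟨x, hx, hvx⟩
      by_cases htop : ∃ y : Bx (n+1) e, sz (n+1) y.1 = e ∧ v y ≠ 0
      · exact ⟨v, hv, htop⟩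
      · push Not at htop
        obtain ⟨d, rfl⟩ : ∃ d, e = d + 1 := ⟨e - 1, by omega⟩
        let c : E (n+1) → Gen k := ext0 v
        have hc : ∀ y : E (n+1), d < sz (n+1) y → c y = 0 := by
          intro y hy
          change (if h : y ∈ Box (n+1) (d+1) then v ⟨y, h⟩ else 0) = 0
          split_ifs with hb
          · refine htop ⟨y, hb⟩ ?_
            have := (mem_Box (n+1) (d+1) y).1 hb
            change sz (n+1) y = d + 1
            omega
          · rfl
        let c' : E (n+1) → Gen k := fun y => if y.1 = 0 then 0 else c ((y.1 - 1, y.2) : E (n+1))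
        have h0 : ∀ a : E n, c' ((0, a) : E (n+1)) = 0 := fun a => if_pos rfl
        have h1 : ∀ (j : ℕ) (a : E n), c' ((j+1, a) : E (n+1)) = c ((j, a) : E (n+1)) :=
          fun j a => if_neg (Nat.succ_ne_zero j)
        let w : Bx (n+1) (d+1) → Gen k := fun y => c' y.1
        have hwc : ∀ y ∈ Box (n+1) (d+1), (ext0 w : E (n+1) → Gen k) y = c' y :=
          fun y hy => ext0_restrict c' y hy
        have hw : w ∈ WS k (n+1) (d+1) μ S := by
          rw [mem_WS] at hv ⊢
          intro i hi α hα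
          rw [Phi_congr (n+1) (d+1) (gen k i) (gen k i) (fun _ _ => rfl) α (ext0 w) c' hwc]
          exact ext_step n d (μ i) (gen k i) c c' hc h0 h1 (hv i hi) α hα
        refine ih w hw ?_
        obtain ⟨⟨j, a⟩, hb⟩ := x
        have hsz : j + sz n a + (s + 1) = d + 1 := hx
        have hb' : ((j+1, a) : E (n+1)) ∈ Box (n+1) (d+1) :=
          (mem_Box (n+1) (d+1) ((j+1, a) : E (n+1))).2 (by
            change j + 1 + sz n a ≤ d + 1
            omega)
        have hcv : c ((j, a) : E (n+1)) = v ⟨((j, a) : E (n+1)), hb⟩ := dif_pos hb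
        refine ⟨⟨((j+1, a) : E (n+1)), hb'⟩, ?_, ?_⟩
        · change j + 1 + sz n a + s = d + 1
          omega
        · change c' ((j+1, a) : E (n+1)) ≠ 0
          rw [h1, hcv]
          exact hvx
  obtain ⟨v, hv, hv0⟩ := Submodule.exists_mem_ne_zero_of_ne_bot h
  obtain ⟨x, hx⟩ := Function.ne_iff.1 hv0
  have hxe := (mem_Box (n+1) e x.1).1 x.2
  exact key (e - sz (n+1) x.1) v hv ⟨x, by omega, hx⟩

end Pool.Agent.Helper98.UAH
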