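import Pool.Agent.Helper98.UAH.Defs

/-! Uniform postulation: a subspace containing all substitutions of a form is everything. -/

namespace Pool.Agent.Helper98.UAH

open Pool.Agent.Helper46.EAH Finset

/-- The leading part of the form is nonzero. -/
lemma m6_psi0 {K : Type*} [Field K] (n e : ℕ) (v : Bx n e → K)
    (htop : ∃ x : Bx n e, sz n x.1 = e ∧ v x ≠ 0) :
    psi (fun _ : Fin (n+1) => (0 : K)) (polL K n e v) ≠ 0 := by
  obtain ⟨x, hx, hv⟩ := htop
  intro h0
  have h1 := psi_pol_coeff e (fun _ : Fin (n+1) => (0 : K)) (ext0 v) x.1 x.2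
  have h2 : psi (fun _ : Fin (n+1) => (0 : K)) (pol n e (ext0 v)) = 0 := h0
  rw [h2, MvPolynomial.coeff_zero] at h1
  have hpv : pv (fun _ : Fin (n+1) => (0 : K)) = fun _ => 0 := by
    funext i
    unfold pv
    split_ifs <;> rfl
  rw [sum_eq_single_of_mem x.1 x.2] at h1
  · unfold row at h1
    rw [hpv, pol_inj.cw_zero_self, hx, Nat.sub_self, pow_zero, one_mul, one_mul] at h1
    unfold ext0 at h1
    rw [dif_pos x.2] at h1
    exact hv h1.symm
  · intro a _ hne
    unfold row
    rw [hpv, pol_inj.cw_zero_ne n x.1 a (Ne.symm hne), mul_zero, zero_mul]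

/-- A nonzero polynomial has a nonzero value at a point over the small field. -/
lemma m6_exists_ne {k K : Type*} [Field k] [CharZero k] [Field K] [Algebra k K] {σ : Type*}
    (g : MvPolynomial σ K) (hg : g ≠ 0) :
    ∃ u : σ → k, MvPolynomial.eval (fun i => algebraMap k K (u i)) g ≠ 0 := by
  by_contra hcon
  push Not at hcon
  apply hg
  have : Infinite k := CharZero.infinite k
  refine MvPolynomial.funext_set (fun _ => Set.range (algebraMap k K))
    (fun _ => Set.infinite_range_of_injective (algebraMap k K).injective) ?_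
  intro x hx
  have h1 : ∀ i, ∃ y : k, algebraMap k K y = x i := fun i => hx i (Set.mem_univ i)
  choose u hu using h1
  have h2 : (fun i => algebraMap k K (u i)) = x := funext hu
  rw [map_zero, ← h2]
  exact hcon u

lemma m6_exists_u {k K : Type*} [Field k] [CharZero k] [Field K] [Algebra k K]
    (n e : ℕ) (v : Bx n e → K) (htop : ∃ x : Bx n e, sz n x.1 = e ∧ v x ≠ 0) :
    ∃ u : Fin (n+1) → k, u 0 = 0 ∧
      MvPolynomial.eval (fun i => algebraMap k K (u i)) (polL K n e v) ≠ 0 := by
  obtain ⟨u, hu⟩ := m6_exists_ne (k := k) _ (m6_psi0 n e v htop)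
  refine ⟨Fin.cons 0 (fun j : Fin n => u j), rfl, ?_⟩
  unfold psi at hu
  rw [Pool.Agent.Helper45.Gr.eval_aeval_mv] at hu
  have h1 : (fun i : Fin (n+1) => MvPolynomial.eval (fun i => algebraMap k K (u i))
      (Fin.cases (motive := fun _ => MvPolynomial ℕ K)
        (MvPolynomial.C ((fun _ : Fin (n+1) => (0 : K)) 0))
        (fun j : Fin n => MvPolynomial.C ((fun _ : Fin (n+1) => (0 : K)) j.succ) +
          MvPolynomial.X (j : ℕ)) i)) =
      fun i => algebraMap k K ((Fin.cons 0 (fun j : Fin n => u j) : Fin (n+1) → k) i) := by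
    funext i
    refine Fin.cases ?_ (fun j => ?_) i
    · simp
    · simp
  rw [h1] at hu
  exact hu

/-- The matrices of the curve. -/
def m6_M {k : Type*} [Field k] {n : ℕ} (u l : Fin (n+1) → k) (s : k) :
    Matrix (Fin (n+1)) (Fin (n+1)) k :=
  fun i t => (if t = i then (if i = 0 then s else s ^ 2) else 0) + u i * l t

lemma m6_det {k : Type*} [Field k] {n : ℕ} (u l : Fin (n+1) → k) (hu : u 0 = 0) (s : k)
    (hs : s ≠ 0) (hs2 : s ^ 2 + ∑ i, l i * u i ≠ 0) : (m6_M u l s).det ≠ 0 := by
  classical
  intro h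
  obtain ⟨x, hx0, hx⟩ := Matrix.exists_mulVec_eq_zero_iff.2 h
  apply hx0
  have h1 : ∀ i, (if i = 0 then s else s ^ 2) * x i + u i * ∑ t, l t * x t = 0 := by
    intro i
    have h2 := congrFun hx i
    unfold Matrix.mulVec dotProduct m6_M at h2
    rw [Pi.zero_apply] at h2
    rw [← h2, mul_sum]
    have h3 : ∀ t, ((if t = i then (if i = 0 then s else s ^ 2) else 0) + u i * l t) * x t =
        (if t = i then (if i = 0 then s else s ^ 2) * x t else 0) + u i * (l t * x t) := by
      intro t
      split_ifs <;> ring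
    rw [Finset.sum_congr rfl fun t _ => h3 t, sum_add_distrib, Finset.sum_ite_eq' univ i]
    rw [if_pos (mem_univ i)]
  have hx00 : x 0 = 0 := by
    have h2 := h1 0
    rw [if_pos rfl, hu, zero_mul, add_zero] at h2
    exact (mul_eq_zero.1 h2).resolve_left hs
  have h2 : ∀ i, s ^ 2 * x i + u i * ∑ t, l t * x t = 0 := by
    intro i
    by_cases hi : i = 0
    · rw [hi, hx00, hu]; ring
    · have := h1 i
      rwa [if_neg hi] at this
  have h3 : (s ^ 2 + ∑ i, l i * u i) * ∑ t, l t * x t = 0 := by
    have h4 : ∑ i, l i * (s ^ 2 * x i + u i * ∑ t, l t * x t) = 0 :=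
      sum_eq_zero fun i _ => by rw [h2 i, mul_zero]
    have h5 : ∀ i, l i * (s ^ 2 * x i + u i * ∑ t, l t * x t) =
        s ^ 2 * (l i * x i) + (l i * u i) * ∑ t, l t * x t := by
      intro i; ring
    rw [Finset.sum_congr rfl fun i _ => h5 i, sum_add_distrib, ← mul_sum, ← sum_mul] at h4
    rw [← h4]; ring
  have h4 : ∑ t, l t * x t = 0 := (mul_eq_zero.1 h3).resolve_left hs2
  funext i
  have h5 := h2 i
  rw [h4, mul_zero, add_zero] at h5
  exact (mul_eq_zero.1 h5).resolve_left (pow_ne_zero 2 hs)

lemma m6_infinite {k : Type*} [Field k] [CharZero k] (c : k) :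
    {s : k | s ≠ 0 ∧ s ^ 2 + c ≠ 0}.Infinite := by
  have : Infinite k := CharZero.infinite k
  have hp : (Polynomial.X * (Polynomial.X ^ 2 + Polynomial.C c) : Polynomial k) ≠ 0 := by
    refine mul_ne_zero Polynomial.X_ne_zero ?_
    exact (Polynomial.monic_X_pow_add_C c two_ne_zero).ne_zero
  have h1 := (Polynomial.finite_setOfPred_isRoot hp).infinite_compl
  refine h1.mono fun s hs => ?_
  have h2 : ¬ (s * (s ^ 2 + c) = 0) := by
    intro h3
    apply hs
    change Polynomial.eval s _ = 0
    simpa using h3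
  exact mul_ne_zero_iff.1 h2

/-- The polynomial curve. -/
noncomputable def m6_w {K : Type*} [Field K] {n : ℕ} (u l : Fin (n+1) → K) :
    MvPolynomial (Fin (n+1)) K →ₐ[K] Polynomial (MvPolynomial (Fin (n+1)) K) :=
  MvPolynomial.aeval fun i => (if i = 0 then Polynomial.X else Polynomial.X ^ 2) *
      Polynomial.C (MvPolynomial.X i) +
    Polynomial.C (MvPolynomial.C (u i) * Pool.Agent.Helper45.linForm l)

lemma m6_w_eval {K : Type*} [Field K] {n : ℕ} (u l : Fin (n+1) → K) (s : K)
    (f : MvPolynomial (Fin (n+1)) K) :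
    (m6_w u l f).eval (MvPolynomial.C s) = subst (m6_M u l s) f := by
  have h : (Polynomial.evalRingHom (MvPolynomial.C s : MvPolynomial (Fin (n+1)) K)).comp
      (m6_w u l).toRingHom = (subst (m6_M u l s)).toRingHom := by
    refine MvPolynomial.ringHom_ext ?_ ?_
    · intro a
      change (m6_w u l (MvPolynomial.C a)).eval _ = subst _ (MvPolynomial.C a)
      unfold m6_w subst
      rw [MvPolynomial.algHom_C, MvPolynomial.algHom_C]
      rw [Polynomial.algebraMap_apply, Polynomial.eval_C]
    · intro i
      change (m6_w u l (MvPolynomial.X i)).eval _ = subst _ (MvPolynomial.X i)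
      unfold m6_w subst
      rw [MvPolynomial.aeval_X, MvPolynomial.aeval_X]
      unfold m6_M Pool.Agent.Helper45.linForm
      rw [Polynomial.eval_add, Polynomial.eval_mul, Polynomial.eval_C, Polynomial.eval_C]
      have h3 : ∀ t : Fin (n+1), MvPolynomial.C ((if t = i then (if i = 0 then s else s ^ 2) else 0)
          + u i * l t) * (MvPolynomial.X t : MvPolynomial (Fin (n+1)) K) =
          (if t = i then MvPolynomial.C (if i = 0 then s else s ^ 2) * MvPolynomial.X t else 0) +
            MvPolynomial.C (u i) * (MvPolynomial.C (l t) * MvPolynomial.X t) := by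
        intro t
        rw [map_add, map_mul, add_mul, mul_assoc]
        congr 1
        split_ifs <;> simp
      rw [Finset.sum_congr rfl fun t _ => h3 t, sum_add_distrib, Finset.sum_ite_eq' univ i,
        if_pos (mem_univ i), mul_sum]
      congr 2
      by_cases hi : i = 0
      · rw [if_pos hi, if_pos hi, Polynomial.eval_X]
      · rw [if_neg hi, if_neg hi, Polynomial.eval_pow, Polynomial.eval_X, map_pow]
  exact RingHom.congr_fun h f

lemma m6_w_coeff {K : Type*} [Field K] {n : ℕ} (u l : Fin (n+1) → K) (e : ℕ)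
    (f : MvPolynomial (Fin (n+1)) K) (hf : f.IsHomogeneous e) :
    (m6_w u l f).coeff 0 =
      MvPolynomial.C (MvPolynomial.eval u f) * Pool.Agent.Helper45.linForm l ^ e := by
  rw [Polynomial.coeff_zero_eq_eval_zero]
  have h0 := m6_w_eval u l 0 f
  rw [map_zero] at h0
  rw [h0]
  unfold subst
  have h1 : ∀ i, ∑ t, MvPolynomial.C (m6_M u l 0 i t) * MvPolynomial.X t =
      MvPolynomial.C (u i) * Pool.Agent.Helper45.linForm l := by
    intro i
    unfold m6_M Pool.Agent.Helper45.linForm
    rw [mul_sum]
    refine sum_congr rfl fun t _ => ?_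
    have : (if t = i then (if i = 0 then (0:K) else 0 ^ 2) else 0) = 0 := by
      split_ifs <;> simp
    rw [this, zero_add, map_mul, mul_assoc]
  simp only [h1]
  rw [MvPolynomial.aeval_def, MvPolynomial.eval₂_eq', MvPolynomial.eval_eq', map_sum, sum_mul]
  refine sum_congr rfl fun d hd => ?_
  have hdeg : ∑ i, d i = e := by
    have h2 := hf (MvPolynomial.mem_support_iff.1 hd)
    rw [← h2, ← Finsupp.degree_eq_sum]
    exact DFunLike.congr_fun Finsupp.degree_eq_weight_one d
  have h3 : ∏ i, (MvPolynomial.C (u i) * Pool.Agent.Helper45.linForm l) ^ d i =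
      MvPolynomial.C (∏ i, u i ^ d i) * Pool.Agent.Helper45.linForm l ^ e := by
    have h4 : ∀ i, (MvPolynomial.C (u i) * Pool.Agent.Helper45.linForm l) ^ d i =
        MvPolynomial.C (u i ^ d i) * Pool.Agent.Helper45.linForm l ^ d i := by
      intro i
      rw [mul_pow, map_pow]
    rw [Finset.prod_congr rfl fun i _ => h4 i, prod_mul_distrib, ← map_prod,
      prod_pow_eq_pow_sum, hdeg]
  rw [h3, map_mul, MvPolynomial.algebraMap_eq]
  ring

theorem top_of_comp (k : Type) [Field k] [CharZero k] (n e : ℕ) (hn : 1 ≤ n)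
    (Z : Submodule (Gen k) (Bx n e → Gen k)) (v : Bx n e → Gen k)
    (htop : ∃ x : Bx n e, sz n x.1 = e ∧ v x ≠ 0)
    (h : ∀ M : Matrix (Fin (n+1)) (Fin (n+1)) k, (∀ j, j ≠ 0 → M 0 j = 0) → M.det ≠ 0 →
      ∃ w ∈ Z, polL (Gen k) n e w = subst (M.map (algebraMap k (Gen k))) (polL (Gen k) n e v)) :
    Z = ⊤ := by
  classical
  obtain ⟨u, hu0, hu⟩ := m6_exists_u (k := k) (K := Gen k) n e v htop
  set f := polL (Gen k) n e v with hf
  have hfh : f.IsHomogeneous e := pol_homog n e _
  set φ := algebraMap k (Gen k) with hφ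
  -- the powers of the linear forms over `k`
  have h1 : ∀ l : Fin (n+1) → k,
      Pool.Agent.Helper45.linForm (fun i => φ (l i)) ^ e ∈ Z.map (polL (Gen k) n e) := by
    intro l
    have h2 := Pool.Agent.Helper45.Gr.coeff_zero_mem (Z.map (polL (Gen k) n e))
      (m6_w (fun i => φ (u i)) (fun i => φ (l i)) f) (by
        refine ((m6_infinite (∑ i, l i * u i)).image φ.injective.injOn).mono ?_
        rintro _ ⟨s, ⟨hs1, hs2⟩, rfl⟩
        have h3 : (m6_w (fun i => φ (u i)) (fun i => φ (l i)) f).eval
            (algebraMap (Gen k) (MvPolynomial (Fin (n+1)) (Gen k)) (φ s)) =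
            subst ((m6_M u l s).map φ) f := by
          have h4 := m6_w_eval (fun i => φ (u i)) (fun i => φ (l i)) (φ s) f
          refine h4.trans ?_
          congr 1
          congr 1
          funext i t
          unfold m6_M
          rw [Matrix.map_apply, map_add, map_mul]
          congr 1
          split_ifs
          · rfl
          · exact (map_pow _ _ _).symm
          · exact (map_zero _).symm
        change (m6_w (fun i => φ (u i)) (fun i => φ (l i)) f).eval
            (algebraMap (Gen k) (MvPolynomial (Fin (n+1)) (Gen k)) (φ s)) ∈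
            Z.map (polL (Gen k) n e)
        rw [h3]
        obtain ⟨w, hw, hw2⟩ := h (m6_M u l s) (by
          intro j hj
          unfold m6_M
          rw [if_neg hj, hu0, zero_mul, add_zero]) (m6_det u l hu0 s hs1 hs2)
        rw [← hw2]
        exact Submodule.mem_map_of_mem hw)
    rw [m6_w_coeff _ _ e f hfh] at h2
    have h3 := Submodule.smul_mem _ (MvPolynomial.eval (fun i => φ (u i)) f)⁻¹ h2
    rw [MvPolynomial.smul_eq_C_mul, ← mul_assoc, ← map_mul, inv_mul_cancel₀ hu, map_one,
      one_mul] at h3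
    exact h3
  -- the subspace over `k`
  let U : Submodule k (MvPolynomial (Fin (n+1)) k) :=
    { carrier := {p | MvPolynomial.map φ p ∈ Z.map (polL (Gen k) n e)}
      add_mem' := by
        intro a b ha hb
        change MvPolynomial.map φ (a + b) ∈ Z.map (polL (Gen k) n e)
        rw [map_add]
        exact Submodule.add_mem _ ha hb
      zero_mem' := by
        change MvPolynomial.map φ 0 ∈ Z.map (polL (Gen k) n e)
        rw [map_zero]
        exact Submodule.zero_mem _
      smul_mem' := by
        intro c a ha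
        change MvPolynomial.map φ (c • a) ∈ Z.map (polL (Gen k) n e)
        rw [MvPolynomial.smul_eq_C_mul, map_mul, MvPolynomial.map_C, ← MvPolynomial.smul_eq_C_mul]
        exact Submodule.smul_mem _ _ ha }
  have h2 : MvPolynomial.homogeneousSubmodule (Fin (n+1)) k e ≤ U := by
    refine Pool.Agent.Helper45.Gr.homog_le_of_open (D := e) 1 one_ne_zero U fun l _ => ?_
    change MvPolynomial.map φ (Pool.Agent.Helper45.linForm l ^ e) ∈ Z.map (polL (Gen k) n e)
    have h3 : MvPolynomial.map φ (Pool.Agent.Helper45.linForm l ^ e) =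
        Pool.Agent.Helper45.linForm (fun i => φ (l i)) ^ e := by
      unfold Pool.Agent.Helper45.linForm
      rw [map_pow, map_sum]
      congr 1
      refine sum_congr rfl fun s _ => ?_
      rw [map_mul, MvPolynomial.map_C, MvPolynomial.map_X]
    rw [h3]
    exact h1 l
  have h3 : MvPolynomial.homogeneousSubmodule (Fin (n+1)) (Gen k) e ≤
      Z.map (polL (Gen k) n e) := by
    intro p hp
    rw [← MvPolynomial.support_sum_monomial_coeff p]
    refine Submodule.sum_mem _ fun d hd => ?_
    have hdeg := hp (MvPolynomial.mem_support_iff.1 hd)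
    have h4 : (MvPolynomial.monomial d (MvPolynomial.coeff d p) :
        MvPolynomial (Fin (n+1)) (Gen k)) =
        (MvPolynomial.coeff d p) • MvPolynomial.map φ (MvPolynomial.monomial d 1) := by
      rw [MvPolynomial.map_monomial, map_one, MvPolynomial.smul_monomial, smul_eq_mul, mul_one]
    rw [h4]
    refine Submodule.smul_mem _ _ (h2 ?_)
    exact MvPolynomial.isHomogeneous_monomial _ (by
      rw [← hdeg]
      exact DFunLike.congr_fun Finsupp.degree_eq_weight_one d)
  rw [← range_polL, ← Submodule.map_top] at h3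
  exact top_unique ((Submodule.map_le_map_iff_of_injective (polL_inj n e) _ _).1 h3)

end Pool.Agent.Helper98.UAH
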