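import Pool.Agent.Helper98.UAH.Comp
import Pool.Agent.Helper98.UAH.Top
import Pool.Agent.Helper98.UAH.ExTop

/-! The key step of the collapse argument. -/

namespace Pool.Agent.Helper98.UAH

open Pool.Agent.Helper46.EAH Finset

theorem key (k : Type) [Field k] [CharZero k] (n e : ℕ) (hn : 1 ≤ n) (μ : ℕ → ℕ)
    (S'' S Y : Finset ℕ) (h1 : Disjoint S'' S) (h2 : Disjoint S'' Y)
    (hle : WS k n e μ S'' ≤ WS k n e μ S ⊔ WS k n e μ Y) (hne : WS k n e μ S'' ≠ ⊥) :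
    WS k n e μ S ⊔ WS k n e μ Y = ⊤ := by
  obtain ⟨v, hv, hx⟩ := exists_top k n e hn μ S'' hne
  exact top_of_comp k n e hn _ v hx fun M hM hdet =>
    comp_mem k n e μ S'' S Y h1 h2 hle M hM hdet v hv

end Pool.Agent.Helper98.UAH
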