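import Pool.Agent.Helper98.UAH.Defs

/-! Uniform postulation: dependence on the types only. -/

namespace Pool.Agent.Helper98.UAH

open Pool.Agent.Helper46.EAH Finset

/-- an equivalence between two finite sets with the same numbers of elements of each type -/
lemma m2_equiv (μ : ℕ → ℕ) (S S' : Finset ℕ)
    (h : ∀ t, (S.filter (fun i => μ i = t)).card = (S'.filter (fun i => μ i = t)).card) :
    ∃ e : S ≃ S', ∀ i : S, μ (e i).1 = μ i.1 := by
  classical
  have hf : ∀ t, Nonempty ({x : S // μ x.1 = t} ≃ {x : S' // μ x.1 = t}) := by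
    intro t
    refine ⟨Fintype.equivOfCardEq ?_⟩
    have aux : ∀ R : Finset ℕ, Fintype.card {x : R // μ x.1 = t} =
        (R.filter (fun i => μ i = t)).card := by
      intro R
      rw [Fintype.card_subtype]
      have : (Finset.univ.filter (fun x : R => μ x.1 = t)).map ⟨Subtype.val, Subtype.val_injective⟩ =
          R.filter (fun i => μ i = t) := by
        ext i
        simp only [Finset.mem_map, Finset.mem_filter, Finset.mem_univ, true_and,
          Function.Embedding.coeFn_mk]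
        constructor
        · rintro ⟨a, ha, rfl⟩
          exact ⟨a.2, ha⟩
        · rintro ⟨h1, h2⟩
          exact ⟨⟨i, h1⟩, h2, rfl⟩
      rw [← this, Finset.card_map]
    rw [aux, aux, h]
  have f : ∀ t, {x : S // μ x.1 = t} ≃ {x : S' // μ x.1 = t} := fun t => (hf t).some
  let e : S ≃ S' := ((Equiv.sigmaFiberEquiv (fun x : S => μ x.1)).symm.trans
    (Equiv.sigmaCongrRight f)).trans (Equiv.sigmaFiberEquiv (fun x : S' => μ x.1))
  refine ⟨e, fun i => ?_⟩
  have h1 : e i = (f (μ i.1) ⟨i, rfl⟩).1 := rfl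
  rw [h1]
  exact (f (μ i.1) ⟨i, rfl⟩).2

lemma m2_perm (μ : ℕ → ℕ) (S S' : Finset ℕ)
    (h : ∀ t, (S.filter (fun i => μ i = t)).card = (S'.filter (fun i => μ i = t)).card) :
    ∃ π : Equiv.Perm ℕ, (∀ i ∈ S, π i ∈ S') ∧ (∀ i ∈ S, μ (π i) = μ i) ∧
      ∀ i ∈ S', ∃ j ∈ S, π j = i := by
  classical
  obtain ⟨e, he⟩ := m2_equiv μ S S' h
  let U : Finset ℕ := S ∪ S'
  let a : {x : U // x.1 ∈ S} ≃ S :=
    { toFun := fun x => ⟨x.1.1, x.2⟩
      invFun := fun x => ⟨⟨x.1, Finset.mem_union_left _ x.2⟩, x.2⟩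
      left_inv := fun x => rfl
      right_inv := fun x => rfl }
  let b : {x : U // x.1 ∈ S'} ≃ S' :=
    { toFun := fun x => ⟨x.1.1, x.2⟩
      invFun := fun x => ⟨⟨x.1, Finset.mem_union_right _ x.2⟩, x.2⟩
      left_inv := fun x => rfl
      right_inv := fun x => rfl }
  let e' : {x : U // x.1 ∈ S} ≃ {x : U // x.1 ∈ S'} := (a.trans e).trans b.symm
  let σ : Equiv.Perm U := e'.extendSubtype
  let π : Equiv.Perm ℕ := Equiv.Perm.ofSubtype (p := fun x => x ∈ U) σ
  have hπ : ∀ i (hi : i ∈ S), π i = (e ⟨i, hi⟩).1 := by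
    intro i hi
    have hU : i ∈ U := Finset.mem_union_left _ hi
    have h1 : π i = (σ ⟨i, hU⟩ : U).1 := by
      have := Equiv.Perm.ofSubtype_apply_coe (p := fun x => x ∈ U) σ ⟨i, hU⟩
      exact this
    rw [h1]
    have h2 : σ ⟨i, hU⟩ = (e' ⟨⟨i, hU⟩, hi⟩).1 :=
      Equiv.extendSubtype_apply_of_mem e' ⟨i, hU⟩ hi
    rw [h2]
    rfl
  refine ⟨π, ?_, ?_, ?_⟩
  · intro i hi
    rw [hπ i hi]
    exact (e ⟨i, hi⟩).2
  · intro i hi
    rw [hπ i hi]
    exact he ⟨i, hi⟩
  · intro i hi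
    refine ⟨(e.symm ⟨i, hi⟩).1, (e.symm ⟨i, hi⟩).2, ?_⟩
    rw [hπ _ (e.symm ⟨i, hi⟩).2]
    simp

/-- the automorphism given by a permutation of the points -/
lemma m2_aut (k : Type) [Field k] (π : Equiv.Perm ℕ) :
    ∃ θ : Gen k ≃+* Gen k, ∀ i j, θ (gen k i j) = gen k (π i) j := by
  let r : MvPolynomial (ℕ × ℕ) k ≃ₐ[k] MvPolynomial (ℕ × ℕ) k :=
    MvPolynomial.renameEquiv k (Equiv.prodCongr π (Equiv.refl ℕ))
  refine ⟨IsFractionRing.ringEquivOfRingEquiv r.toRingEquiv, fun i j => ?_⟩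
  unfold gen
  rw [IsFractionRing.ringEquivOfRingEquiv_algebraMap]
  congr 1
  exact MvPolynomial.rename_X _ _

lemma m2_ext0 {K : Type*} [Field K] {n e : ℕ} (θ : K ≃+* K) (v : Bx n e → K) :
    (ext0 (fun x => θ (v x)) : E n → K) = fun x => θ (ext0 v x) := by
  funext x
  unfold ext0
  split_ifs
  · rfl
  · rw [map_zero]

lemma m2_PS {K : Type*} [Field K] {n e : ℕ} (θ : K ≃+* K) (P Q : ℕ → K)
    (h : ∀ j, θ (P j) = Q j) (a : ℕ) (v : Bx n e → K) :
    v ∈ PS n e P a ↔ (fun x => θ (v x)) ∈ PS n e Q a := by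
  rw [mem_PS, mem_PS]
  have key : ∀ α, Phi n e Q α (ext0 (fun x => θ (v x))) = θ (Phi n e P α (ext0 v)) := by
    intro α
    have h1 := Phi_map (θ : K →+* K) n e P α (ext0 v)
    have h2 : (fun j => (θ : K →+* K) (P j)) = Q := funext h
    rw [h2] at h1
    rw [m2_ext0]
    exact h1.symm
  refine forall_congr' fun α => ?_
  refine forall_congr' fun _ => ?_
  rw [key]
  simp

theorem sym (k : Type) [Field k] (n e : ℕ) (μ : ℕ → ℕ) (S S' : Finset ℕ)
    (h : ∀ t, (S.filter (fun i => μ i = t)).card = (S'.filter (fun i => μ i = t)).card) :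
    Module.finrank (Gen k) (WS k n e μ S) = Module.finrank (Gen k) (WS k n e μ S') := by
  obtain ⟨π, h1, h2, h3⟩ := m2_perm μ S S' h
  obtain ⟨θ, hθ⟩ := m2_aut k π
  have key : ∀ v : Bx n e → Gen k, v ∈ WS k n e μ S ↔ (fun x => θ (v x)) ∈ WS k n e μ S' := by
    intro v
    have aux : ∀ (R : Finset ℕ) (w : Bx n e → Gen k),
        w ∈ WS k n e μ R ↔ ∀ i ∈ R, w ∈ PS n e (gen k i) (μ i) := by
      intro R w
      unfold WS
      simp only [Submodule.mem_iInf]
    rw [aux, aux]
    constructor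
    · intro hv i hi
      obtain ⟨j, hj, rfl⟩ := h3 i hi
      rw [h2 j hj]
      exact (m2_PS θ (gen k j) (gen k (π j)) (hθ j) (μ j) v).1 (hv j hj)
    · intro hv i hi
      have := hv (π i) (h1 i hi)
      rw [h2 i hi] at this
      exact (m2_PS θ (gen k i) (gen k (π i)) (hθ i) (μ i) v).2 this
  let j : WS k n e μ S ≃+ WS k n e μ S' :=
    { toFun := fun v => ⟨fun x => θ (v.1 x), (key v.1).1 v.2⟩
      invFun := fun w => ⟨fun x => θ.symm (w.1 x), (key _).2 (by
        have : (fun x => θ (θ.symm (w.1 x))) = w.1 := by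
          funext x
          simp
        rw [this]
        exact w.2)⟩
      left_inv := by
        intro v
        apply Subtype.ext
        funext x
        simp
      right_inv := by
        intro v
        apply Subtype.ext
        funext x
        simp
      map_add' := by
        intro v w
        apply Subtype.ext
        funext x
        simp }
  have hr := rank_eq_of_equiv_equiv (R := Gen k) (R' := Gen k) (fun x => θ x) j θ.bijective (by
    intro r m
    apply Subtype.ext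
    funext x
    simp [j])
  unfold Module.finrank
  rw [hr]

end Pool.Agent.Helper98.UAH
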