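import Pool.Agent.Helper98.UAH.Growth
import Pool.Agent.Helper98.UAH.Sym
import Pool.Agent.Helper98.UAH.Blk
import Pool.Agent.Helper98.UAH.Drop
import Pool.Agent.Helper98.UAH.Key

/-! Uniform postulation: bounds in low degree. -/

namespace Pool.Agent.Helper98.UAH

open Pool.Agent.Helper46.EAH Finset

/-- sum of the numbers of conditions of all types -/
lemma m10_sum_N (n m : ℕ) : ∑ t ∈ Icc 1 m, N n t = N (n+1) m := by
  induction m with
  | zero => simp [N_zero]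
  | succ m ih =>
    rw [Finset.sum_Icc_succ_top (by omega), ih, N_rec]

/-- sum over fibres -/
lemma m10_sum_fiber (μ a : ℕ → ℕ) (T S : Finset ℕ) (h : ∀ i ∈ S, μ i ∈ T) :
    ∑ i ∈ S, a (μ i) = ∑ t ∈ T, (S.filter (fun i => μ i = t)).card * a t := by
  rw [← Finset.sum_fiberwise_of_maps_to h]
  refine sum_congr rfl fun t _ => ?_
  rw [← smul_eq_mul, ← sum_const]
  refine sum_congr rfl fun i hi => ?_
  rw [(mem_filter.1 hi).2]

lemma m10_WS_congr (k : Type) [Field k] (n e : ℕ) (μ μ' : ℕ → ℕ) (S : Finset ℕ)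
    (h : ∀ i ∈ S, μ i = μ' i) : WS k n e μ S = WS k n e μ' S := by
  ext v
  rw [mem_WS, mem_WS]
  constructor
  · intro h1 i hi α hα
    exact h1 i hi α (by have := h i hi; omega)
  · intro h1 i hi α hα
    exact h1 i hi α (by have := h i hi; omega)

/-- points of multiplicity zero impose no conditions -/
lemma m10_WS_pos (k : Type) [Field k] (n e : ℕ) (μ : ℕ → ℕ) (S : Finset ℕ) :
    WS k n e μ (S.filter (fun i => 1 ≤ μ i)) = WS k n e μ S := by
  ext v
  rw [mem_WS, mem_WS]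
  constructor
  · intro h1 i hi α hα
    exact h1 i (mem_filter.2 ⟨hi, by omega⟩) α hα
  · intro h1 i hi α hα
    exact h1 i (mem_filter.1 hi).1 α hα

lemma m10_growth (k : Type) [Field k] [CharZero k] (n m e : ℕ) (hn : 1 ≤ n)
    (hmn : m ≤ n + 1) (he : 2 * m ≤ e + 2) (μ : ℕ → ℕ)
    (hinf : ∀ t ∈ Icc 1 m, {i | μ i = t}.Infinite) (T : Finset ℕ) (hT : T ⊆ Icc 1 m)
    (X : Finset ℕ) (hXT : ∀ i ∈ X, μ i ∈ T)
    (hX : N n (e+1) < Module.finrank (Gen k) (WS k n e μ X) + ∑ i ∈ X, N n (μ i)) :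
    2 * Module.finrank (Gen k) (WS k n e μ X) ≤
        (∑ t ∈ T, N n t) * (∑ t ∈ T, N n t - 1) ∧
      ∀ X' : Finset ℕ, X ⊆ X' → (∀ i ∈ X', μ i ∈ T) →
        (∀ t ∈ T, ∑ t ∈ T, N n t ≤ ((X' \ X).filter (fun i => μ i = t)).card) →
        WS k n e μ X' = ⊥ := by
  refine growth μ T (fun t ht => hinf t (hT ht)) (N n) (fun i => PS n e (gen k i) (μ i))
    (fun i _ => cod n e (gen k i) (μ i)) (fun S S' h => sym k n e μ S S' h) ?_
    (fun S'' S Y h1 h2 _ hle hne => key k n e hn μ S'' S Y h1 h2 hle hne) X hXT ?_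
  · intro Y hY
    have h1 : ∀ i ∈ Y, 1 ≤ μ i ∧ μ i ≤ m := fun i hi => mem_Icc.1 (hT (hY.1 i hi))
    have h2 : ∀ i ∈ Y, ∀ j ∈ Y, μ i = μ j → i = j := by
      intro i hi j hj hij
      have h3 := hY.2 (μ i) (hY.1 i hi)
      exact Finset.card_le_one.1 h3.le i (mem_filter.2 ⟨hi, rfl⟩) j (mem_filter.2 ⟨hj, hij.symm⟩)
    have h3 := blk k n m e hmn he μ Y h1 h2
    have h4 : ∑ i ∈ Y, N n (μ i) = ∑ t ∈ T, N n t := by
      rw [m10_sum_fiber μ (N n) T Y hY.1]
      refine sum_congr rfl fun t ht => ?_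
      rw [hY.2 t ht, one_mul]
    rw [finrank_Bx, ← h4]
    exact h3
  · rw [finrank_Bx]
    exact hX

/-- change the multiplicities outside `S` so that every type is infinite -/
lemma m10_ext (m : ℕ) (hm : 1 ≤ m) (S : Finset ℕ) (μ : ℕ → ℕ) :
    ∃ μ' : ℕ → ℕ, (∀ i ∈ S, μ' i = μ i) ∧ ∀ t ∈ Icc 1 m, {i | μ' i = t}.Infinite := by
  classical
  refine ⟨fun i => if i ∈ S then μ i else i % m + 1, fun i hi => if_pos hi, fun t ht => ?_⟩
  rw [mem_Icc] at ht
  obtain ⟨M, hM⟩ : ∃ M : ℕ, ∀ i ∈ S, i < M :=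
    ⟨S.sup id + 1, fun i hi => Nat.lt_succ_of_le (Finset.le_sup (f := id) hi)⟩
  refine Set.infinite_of_injective_forall_mem (f := fun j : ℕ => m * (M + j) + (t - 1)) ?_ ?_
  · intro a b hab
    have h1 : m * (M + a) = m * (M + b) := by simpa using hab
    have h2 := Nat.eq_of_mul_eq_mul_left (by omega) h1
    omega
  · intro j
    have hge : M ≤ m * (M + j) + (t - 1) := by
      have : 1 * (M + j) ≤ m * (M + j) := Nat.mul_le_mul_right _ hm
      omega
    have hnot : m * (M + j) + (t - 1) ∉ S := fun h => by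
      have := hM _ h
      omega
    show (if m * (M + j) + (t - 1) ∈ S then μ (m * (M + j) + (t - 1))
      else (m * (M + j) + (t - 1)) % m + 1) = t
    rw [if_neg hnot, Nat.mul_add_mod, Nat.mod_eq_of_lt (by omega)]
    omega

theorem ap2_low (k : Type) [Field k] [CharZero k] (n m e : ℕ) (hn : 1 ≤ n) (hm : 1 ≤ m)
    (hmn : m ≤ n + 1) (he : 2 * m ≤ e + 2) (S : Finset ℕ) (μ : ℕ → ℕ) (hμ : ∀ i ∈ S, μ i ≤ m)
    (hW : Wf n m ≤ (S.filter (fun i => μ i = 1)).card)
    (hs : N n (e+1) ≤ ∑ i ∈ S, N n (μ i)) : TInj k n e S μ := by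
  classical
  rw [tinj_iff]
  obtain ⟨μ', hμ', hinf⟩ := m10_ext m hm S μ
  rw [m10_WS_congr k n e μ μ' S (fun i hi => (hμ' i hi).symm), ← m10_WS_pos]
  have hsum : ∑ i ∈ S, N n (μ i) = ∑ i ∈ S.filter (fun i => 1 ≤ μ' i), N n (μ' i) := by
    rw [sum_filter]
    refine sum_congr rfl fun i hi => ?_
    rw [hμ' i hi]
    split_ifs with h
    · rfl
    · have : μ i = 0 := by omega
      rw [this, N_zero]
  rw [hsum] at hs
  set A := N (n+1) m with hA
  have hWf : Wf n m = A * A := rfl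
  rw [hWf] at hW
  obtain ⟨Q, hQS, hQcard⟩ := Finset.exists_subset_card_eq hW
  set Sp := S.filter (fun i => 1 ≤ μ' i) with hS
  have hQ1 : ∀ i ∈ Q, i ∈ S ∧ μ' i = 1 := by
    intro i hi
    have h1 := mem_filter.1 (hQS hi)
    exact ⟨h1.1, by rw [hμ' i h1.1]; exact h1.2⟩
  have hQsub : Q ⊆ Sp := by
    intro i hi
    have h1 := hQ1 i hi
    exact mem_filter.2 ⟨h1.1, by omega⟩
  set X := Sp \ Q with hX
  have hXQ : X ∪ Q = Sp := sdiff_union_of_subset hQsub
  have hdisj : Disjoint X Q := sdiff_disjoint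
  have hXT : ∀ i ∈ X, μ' i ∈ Icc 1 m := by
    intro i hi
    have h1 := mem_filter.1 (mem_sdiff.1 hi).1
    have h2 := hμ i h1.1
    rw [← hμ' i h1.1] at h2
    exact mem_Icc.2 ⟨h1.2, h2⟩
  have hsumX : ∑ i ∈ Sp, N n (μ' i) = ∑ i ∈ X, N n (μ' i) + Q.card := by
    rw [← hXQ, sum_union hdisj]
    congr 1
    rw [card_eq_sum_ones]
    refine sum_congr rfl fun i hi => ?_
    rw [(hQ1 i hi).2, N_one]
  have hfin : Module.finrank (Gen k) (WS k n e μ' X) ≤ Q.card := by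
    by_cases hdef : N n (e+1) < Module.finrank (Gen k) (WS k n e μ' X) + ∑ i ∈ X, N n (μ' i)
    · have h1 := (m10_growth k n m e hn hmn he μ' hinf (Icc 1 m) (Subset.refl _) X hXT hdef).1
      rw [m10_sum_N, ← hA] at h1
      rw [hQcard]
      have h2 : A * (A - 1) ≤ A * A := Nat.mul_le_mul_left _ (Nat.sub_le _ _)
      omega
    · omega
  have hdrop := simple_drop k n e hn μ' X Q hdisj (fun i hi => (hQ1 i hi).2)
  rw [hXQ] at hdrop
  rw [← Submodule.finrank_eq_zero (R := Gen k)]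
  omega

theorem ap1_low (k : Type) [Field k] [CharZero k] (n m e : ℕ) (hn : 1 ≤ n) (hm : 1 ≤ m)
    (hmn : m ≤ n + 1) (he : 2 * m ≤ e + 2) (S : Finset ℕ) (μ : ℕ → ℕ) (hμ : ∀ i ∈ S, μ i ≤ m)
    (hs : N n (e+1) + (2 * (N (n+1) m * N (n+1) m) + 1) ≤ ∑ i ∈ S, N n (μ i)) :
    TInj k n e S μ := by
  classical
  rw [tinj_iff]
  obtain ⟨μ', hμ', hinf⟩ := m10_ext m hm S μ
  rw [m10_WS_congr k n e μ μ' S (fun i hi => (hμ' i hi).symm)]
  have hsum : ∑ i ∈ S, N n (μ i) = ∑ i ∈ S, N n (μ' i) :=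
    sum_congr rfl fun i hi => by rw [hμ' i hi]
  rw [hsum] at hs
  have hμm : ∀ i ∈ S, μ' i ≤ m := fun i hi => by rw [hμ' i hi]; exact hμ i hi
  set A := N (n+1) m with hA
  set T := (Icc 1 m).filter (fun t => A ≤ (S.filter (fun i => μ' i = t)).card) with hT
  have hTsub : T ⊆ Icc 1 m := filter_subset _ _
  have hAT : ∑ t ∈ T, N n t ≤ A := by
    rw [hA, ← m10_sum_N]
    exact sum_le_sum_of_subset hTsub
  set S' := S.filter (fun i => μ' i ∈ T) with hS'
  -- the points of the other types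
  have hother : ∑ i ∈ S.filter (fun i => μ' i ∉ T), N n (μ' i) ≤ A * A := by
    have h1 : ∑ i ∈ S.filter (fun i => μ' i ∉ T), N n (μ' i) =
        ∑ t ∈ (range (m+1)).filter (fun t => t ∉ T),
          ((S.filter (fun i => μ' i ∉ T)).filter (fun i => μ' i = t)).card * N n t := by
      apply m10_sum_fiber
      intro i hi
      have h2 := mem_filter.1 hi
      have h3 := hμm i h2.1
      exact mem_filter.2 ⟨mem_range.2 (by omega), h2.2⟩
    rw [h1]
    have h4 : ∀ t ∈ (range (m+1)).filter (fun t => t ∉ T),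
        ((S.filter (fun i => μ' i ∉ T)).filter (fun i => μ' i = t)).card * N n t ≤ A * N n t := by
      intro t ht
      have h5 := mem_filter.1 ht
      by_cases ht0 : t = 0
      · rw [ht0, N_zero]; simp
      · apply Nat.mul_le_mul_right
        by_contra hcon
        push Not at hcon
        apply h5.2
        rw [hT, mem_filter]
        refine ⟨mem_Icc.2 ⟨by omega, by have := mem_range.1 h5.1; omega⟩, ?_⟩
        refine hcon.le.trans (card_le_card ?_)
        intro i hi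
        rw [mem_filter, mem_filter] at hi
        exact mem_filter.2 ⟨hi.1.1, hi.2⟩
    calc _ ≤ ∑ t ∈ (range (m+1)).filter (fun t => t ∉ T), A * N n t := sum_le_sum h4
      _ ≤ ∑ t ∈ range (m+1), A * N n t := sum_le_sum_of_subset (filter_subset _ _)
      _ = A * ∑ t ∈ range (m+1), N n t := by rw [mul_sum]
      _ = A * A := by
          congr 1
          rw [hA, ← m10_sum_N, Finset.sum_range_succ', N_zero, add_zero, range_eq_Ico,
            Finset.sum_Ico_add' (fun x => N n x) 0 m 1]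
          rfl
  have hsplit : ∑ i ∈ S, N n (μ' i) =
      ∑ i ∈ S', N n (μ' i) + ∑ i ∈ S.filter (fun i => μ' i ∉ T), N n (μ' i) := by
    rw [hS']
    exact (sum_filter_add_sum_filter_not _ _ _).symm
  -- `A` points of each type in `T`
  have hB : ∀ t : ℕ, ∃ Bt : Finset ℕ, t ∈ T →
      (Bt ⊆ S.filter (fun i => μ' i = t) ∧ Bt.card = A) := by
    intro t
    by_cases ht : t ∈ T
    · obtain ⟨Bt, h1, h2⟩ := Finset.exists_subset_card_eq (mem_filter.1 ht).2
      exact ⟨Bt, fun _ => ⟨h1, h2⟩⟩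
    · exact ⟨∅, fun h => absurd h ht⟩
  choose B hB using hB
  set BB := T.biUnion B with hBB
  have hBB1 : ∀ i ∈ BB, i ∈ S ∧ μ' i ∈ T ∧ i ∈ B (μ' i) := by
    intro i hi
    rw [hBB, mem_biUnion] at hi
    obtain ⟨t, ht, hi⟩ := hi
    have h1 := mem_filter.1 ((hB t ht).1 hi)
    rw [h1.2]
    exact ⟨h1.1, ht, hi⟩
  have hBBt : ∀ t ∈ T, BB.filter (fun i => μ' i = t) = B t := by
    intro t ht
    ext i
    rw [mem_filter]
    constructor
    · rintro ⟨h1, h2⟩
      have h3 := (hBB1 i h1).2.2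
      rwa [h2] at h3
    · intro h1
      exact ⟨mem_biUnion.2 ⟨t, ht, h1⟩, (mem_filter.1 ((hB t ht).1 h1)).2⟩
  have hBBS : BB ⊆ S' := fun i hi => mem_filter.2 ⟨(hBB1 i hi).1, (hBB1 i hi).2.1⟩
  have hBBsum : ∑ i ∈ BB, N n (μ' i) ≤ A * A := by
    rw [m10_sum_fiber μ' (N n) T BB (fun i hi => (hBB1 i hi).2.1)]
    have h1 : ∀ t ∈ T, (BB.filter (fun i => μ' i = t)).card * N n t = A * N n t := by
      intro t ht
      rw [hBBt t ht, (hB t ht).2]
    rw [sum_congr rfl h1, ← mul_sum]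
    exact Nat.mul_le_mul_left _ hAT
  set X := S' \ BB with hX
  have hXBB : ∑ i ∈ X, N n (μ' i) + ∑ i ∈ BB, N n (μ' i) = ∑ i ∈ S', N n (μ' i) :=
    sum_sdiff hBBS
  have hS'T : ∀ i ∈ S', μ' i ∈ T := fun i hi => (mem_filter.1 hi).2
  have hdef : N n (e+1) < Module.finrank (Gen k) (WS k n e μ' X) + ∑ i ∈ X, N n (μ' i) := by
    omega
  have hfin := (m10_growth k n m e hn hmn he μ' hinf T hTsub X
    (fun i hi => hS'T i (mem_sdiff.1 hi).1) hdef).2 S' sdiff_subset hS'T ?_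
  · exact eq_bot_iff.2 (hfin ▸ WS_anti (filter_subset _ _))
  · intro t ht
    have h1 : S' \ X = BB := by
      rw [hX, sdiff_sdiff_right_self]
      exact inf_eq_right.2 hBBS
    rw [h1, hBBt t ht, (hB t ht).2]
    exact hAT

end Pool.Agent.Helper98.UAH
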