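import Pool.Agent.Helper98.UAH.NumBase

/-! Uniform postulation, module M13: numerics for `n` at least `2m`, first part. -/

set_option autoImplicit false

namespace Pool.Agent.Helper98.UAH

open Pool.Agent.Helper46.EAH Finset

/-- growth with a rational ratio -/
lemma m13_gr (n m x e p q : ℕ) (hm : 0 < m) (hn : 2 * m ≤ n) (hxe : x ≤ e)
    (h : p * (x + 2 * m) ≤ q * (e + 2 * m)) :
    p ^ (2 * m) * N n (x+1) ≤ q ^ (2 * m) * N n (e+1) := by
  have h1 := nb_growth n m x e hn hxe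
  have hv : 0 < (e + 2 * m) ^ (2 * m) := Nat.pow_pos (by omega)
  refine Nat.le_of_mul_le_mul_left ?_ hv
  calc (e + 2 * m) ^ (2 * m) * (p ^ (2 * m) * N n (x+1))
      = p ^ (2 * m) * ((e + 2 * m) ^ (2 * m) * N n (x+1)) := by ring
    _ ≤ p ^ (2 * m) * ((x + 2 * m) ^ (2 * m) * N n (e+1)) := Nat.mul_le_mul_left _ h1
    _ = (p * (x + 2 * m)) ^ (2 * m) * N n (e+1) := by rw [mul_pow]; ring
    _ ≤ (q * (e + 2 * m)) ^ (2 * m) * N n (e+1) :=
        Nat.mul_le_mul_right _ (Nat.pow_le_pow_left h _)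
    _ = (e + 2 * m) ^ (2 * m) * (q ^ (2 * m) * N n (e+1)) := by rw [mul_pow]; ring

lemma m13_bern (a b k : ℕ) : a ^ (k+1) + (k+1) * b * a ^ k ≤ (a + b) ^ (k+1) := by
  induction k with
  | zero => simp
  | succ k ih =>
    calc a ^ (k+1+1) + (k+1+1) * b * a ^ (k+1)
        ≤ (a + b) * (a ^ (k+1) + (k+1) * b * a ^ k) := by
          have : (a + b) * (a ^ (k+1) + (k+1) * b * a ^ k) =
              a ^ (k+1+1) + (k+1+1) * b * a ^ (k+1) + (k+1) * b * b * a ^ k := by ring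
          rw [this]
          exact Nat.le_add_right _ _
      _ ≤ (a + b) * (a + b) ^ (k+1) := Nat.mul_le_mul_left _ ih
      _ = (a + b) ^ (k+1+1) := by ring

/-- the square bound -/
lemma m13_sq (n m e : ℕ) (hm : 2 ≤ m) (hn : 2 * m ≤ n) (he : 6 * m ≤ e) :
    8 * N n m ^ 2 ≤ N n (e+1) := by
  obtain ⟨t, rfl⟩ : ∃ t, m = t + 1 := ⟨m - 1, by omega⟩
  have h1 := nb_sq n t
  have h2 := m13_gr n (t+1) (2*t) e (8 * (t+1)) (4 * t + 2) (by omega) hn (by omega) (by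
    have : 2 * t + 2 * (t + 1) = 4 * t + 2 := by ring
    rw [this, mul_comm]
    exact Nat.mul_le_mul_left _ (by omega))
  have h3 : 8 * 4 ^ t * (4 * t + 2) ^ (2 * (t+1)) ≤ (8 * (t+1)) ^ (2 * (t+1)) := by
    have e1 : (8 * (t+1)) ^ (2 * (t+1)) = 4 * 4 ^ t * ((4 * t + 2) + 2) ^ (2 * t + 1 + 1) := by
      have : 8 * (t + 1) = 2 * ((4 * t + 2) + 2) := by ring
      rw [this, mul_pow]
      have e2 : 2 ^ (2 * (t+1)) = 4 * 4 ^ t := by
        rw [pow_mul]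
        norm_num
        ring
      rw [e2]
      congr 1
    rw [e1]
    have h4 := m13_bern (4 * t + 2) 2 (2 * t + 1)
    have h5 : 2 * (4 * t + 2) ^ (2 * t + 1 + 1) ≤ ((4 * t + 2) + 2) ^ (2 * t + 1 + 1) := by
      refine le_trans ?_ h4
      have : (4 * t + 2) ^ (2 * t + 1 + 1) ≤ (2 * t + 1 + 1) * 2 * (4 * t + 2) ^ (2 * t + 1) := by
        rw [pow_succ, mul_comm]
        exact Nat.mul_le_mul_right _ (by omega)
      omega
    have e3 : 2 * (t+1) = 2 * t + 1 + 1 := by ring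
    rw [e3]
    calc 8 * 4 ^ t * (4 * t + 2) ^ (2 * t + 1 + 1)
        = 4 * 4 ^ t * (2 * (4 * t + 2) ^ (2 * t + 1 + 1)) := by ring
      _ ≤ 4 * 4 ^ t * ((4 * t + 2) + 2) ^ (2 * t + 1 + 1) := Nat.mul_le_mul_left _ h5
  have hpos : 0 < (4 * t + 2) ^ (2 * (t+1)) := Nat.pow_pos (by omega)
  refine Nat.le_of_mul_le_mul_left ?_ hpos
  calc (4 * t + 2) ^ (2 * (t+1)) * (8 * N n (t+1) ^ 2)
      ≤ (4 * t + 2) ^ (2 * (t+1)) * (8 * (4 ^ t * N n (2*t+1))) :=
        Nat.mul_le_mul_left _ (Nat.mul_le_mul_left _ h1)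
    _ = (8 * 4 ^ t * (4 * t + 2) ^ (2 * (t+1))) * N n (2*t+1) := by ring
    _ ≤ (8 * (t+1)) ^ (2 * (t+1)) * N n (2*t+1) := Nat.mul_le_mul_right _ h3
    _ ≤ (4 * t + 2) ^ (2 * (t+1)) * N n (e+1) := h2

lemma m13_pow (t : ℕ) (ht : 1 ≤ t) : 370 * 27 ^ t ≤ 100 ^ (t + 1) := by
  induction t, ht using Nat.le_induction with
  | base => norm_num
  | succ t ht ih =>
    calc 370 * 27 ^ (t+1) = (370 * 27 ^ t) * 27 := by ring
      _ ≤ 100 ^ (t+1) * 100 := Nat.mul_le_mul ih (by norm_num)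
      _ = 100 ^ (t+1+1) := by ring

lemma m13_hundred (n m x e : ℕ) (hm : 2 ≤ m) (hn : 2 * m ≤ n) (hx : x ≤ 3 * m)
    (he : 48 * m ≤ e) : 100 ^ m * N n (x+1) ≤ N n (e+1) := by
  have h := m13_gr n m x e 10 1 (by omega) hn (by omega) (by omega)
  rw [one_pow, one_mul, pow_mul] at h
  norm_num at h
  exact h

/-- the cube bound -/
lemma m13_cube (n m e : ℕ) (hm : 2 ≤ m) (hn : 2 * m ≤ n) (he : 48 * m ≤ e) :
    370 * N n m ^ 3 ≤ N n (e+1) := by
  obtain ⟨t, rfl⟩ : ∃ t, m = t + 1 := ⟨m - 1, by omega⟩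
  have h1 := nb_cube n t
  have h2 := m13_hundred n (t+1) (3*t) e hm hn (by omega) he
  calc 370 * N n (t+1) ^ 3 ≤ 370 * (27 ^ t * N n (3*t+1)) := Nat.mul_le_mul_left _ h1
    _ = (370 * 27 ^ t) * N n (3*t+1) := by ring
    _ ≤ 100 ^ (t+1) * N n (3*t+1) := Nat.mul_le_mul_right _ (m13_pow t (by omega))
    _ ≤ N n (e+1) := h2

theorem numD1 (n m e : ℕ) (hm : 2 ≤ m) (hn : 2 * m ≤ n) (he : 6 * m ≤ e) :
    (m - 1) * N n (e+2) + (m - 1 + n) * Wf n m ≤ (m - 1 + n) * N n (e+1) := by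
  have h1 : (e + 1 + n) * N n (e+1) = (e+1) * N n (e+2) := N_ratio n (e+1)
  have h2 := m13_sq n m e hm hn he
  have h3 := nb_Wf n m (by omega) hn
  obtain ⟨t, rfl⟩ : ∃ t, m = t + 1 := ⟨m - 1, by omega⟩
  simp only [Nat.add_sub_cancel]
  obtain ⟨s, rfl⟩ : ∃ s, e = s + t := ⟨e - t, by omega⟩
  set G := N n (s + t + 1)
  set G1 := N n (s + t + 2)
  set W := Wf n (t+1)
  set a := N n (t+1)
  have h4 : 32 * W ≤ 9 * G := by omega
  -- it is enough to compare after multiplication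
  have h5 : 10 * ((t + n) * (s + t + 1)) ≤ 18 * (n * (s + 1)) := by
    have g1 : 2 * (t + n) ≤ 3 * n := by omega
    have g2 : 5 * (s + t + 1) ≤ 6 * (s + 1) := by omega
    have := Nat.mul_le_mul g1 g2
    calc 10 * ((t + n) * (s + t + 1)) = 2 * (t + n) * (5 * (s + t + 1)) := by ring
      _ ≤ 3 * n * (6 * (s + 1)) := this
      _ = 18 * (n * (s + 1)) := by ring
  have h6 : (t + n) * (s + t + 1) * W ≤ n * (s + 1) * G := by
    have g1 : 320 * ((t + n) * (s + t + 1) * W) ≤ 162 * (n * (s + 1) * G) := by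
      calc 320 * ((t + n) * (s + t + 1) * W) = (10 * ((t + n) * (s + t + 1))) * (32 * W) := by ring
        _ ≤ (18 * (n * (s + 1))) * (9 * G) := Nat.mul_le_mul h5 h4
        _ = 162 * (n * (s + 1) * G) := by ring
    omega
  have hpos : 0 < s + t + 1 := by omega
  refine Nat.le_of_mul_le_mul_left ?_ hpos
  calc (s + t + 1) * (t * G1 + (t + n) * W)
      = t * ((s + t + 1) * G1) + (t + n) * (s + t + 1) * W := by ring
    _ = t * ((s + t + 1 + n) * G) + (t + n) * (s + t + 1) * W := by rw [← h1]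
    _ ≤ t * ((s + t + 1 + n) * G) + n * (s + 1) * G := Nat.add_le_add_left h6 _
    _ = (s + t + 1) * ((t + n) * G) := by ring

/-- the bound for `K a` -/
lemma m13_Ka (n m e : ℕ) (hm : 2 ≤ m) (hn : 2 * m ≤ n) (he : 48 * m ≤ e) :
    1480 * ((Wf n m + N n m) * N n m) ≤ 13 * N n (e+1) := by
  have h1 := nb_K n m (by omega) hn
  have h2 := m13_cube n m e hm hn he
  calc 1480 * ((Wf n m + N n m) * N n m) = 370 * (4 * (Wf n m + N n m)) * N n m := by ring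
    _ ≤ 370 * (13 * N n m ^ 2) * N n m :=
        Nat.mul_le_mul_right _ (Nat.mul_le_mul_left _ h1)
    _ = 13 * (370 * N n m ^ 3) := by ring
    _ ≤ 13 * N n (e+1) := Nat.mul_le_mul_left _ h2

theorem numD2 (n m e : ℕ) (hm : 2 ≤ m) (hn : 2 * m ≤ n) (he : 48 * m ≤ e) :
    2 * (m - 1) * N n (e+2) + 2 * (m - 1 + n) * ((Wf n m + N n m) * N n m) ≤
      (m - 1 + n) * N n (e+1) := by
  have h1 : (e + 1 + n) * N n (e+1) = (e+1) * N n (e+2) := N_ratio n (e+1)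
  have h2 := m13_Ka n m e hm hn he
  obtain ⟨t, rfl⟩ : ∃ t, m = t + 1 := ⟨m - 1, by omega⟩
  simp only [Nat.add_sub_cancel]
  set G := N n (e + 1)
  set G1 := N n (e + 2)
  set Ka := (Wf n (t+1) + N n (t+1)) * N n (t+1)
  -- 2 (t+n)(e+1) Ka + 2 t (e+1+n) G <= (t+n)(e+1) G
  have h5 : 2 * (t + n) ≤ 3 * n := by omega
  have h6 : 48 * t ≤ e + 1 := by omega
  have h7 : 1480 * (2 * (t + n) * ((e+1) * Ka)) ≤ 39 * (n * (e+1) * G) := by
    calc 1480 * (2 * (t + n) * ((e+1) * Ka)) = (2 * (t + n)) * (e+1) * (1480 * Ka) := by ring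
      _ ≤ (3 * n) * (e+1) * (13 * G) :=
          Nat.mul_le_mul (Nat.mul_le_mul_right _ h5) h2
      _ = 39 * (n * (e+1) * G) := by ring
  have h8 : 24 * (2 * t * ((e+1+n) * G)) ≤ (24 * t * (e+1) + 24 * t * (e + 1) + n * (e+1)) * G := by
    have g1 : 48 * t * n ≤ (e+1) * n := Nat.mul_le_mul_right _ h6
    calc 24 * (2 * t * ((e+1+n) * G)) = (48 * t * (e+1) + 48 * t * n) * G := by ring
      _ ≤ (48 * t * (e+1) + (e+1) * n) * G := Nat.mul_le_mul_right _ (Nat.add_le_add_left g1 _)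
      _ = (24 * t * (e+1) + 24 * t * (e + 1) + n * (e+1)) * G := by ring
  have h9 : 2 * t * ((e+1) * G) ≤ n * (e+1) * G := by
    calc 2 * t * ((e+1) * G) = (2 * t) * ((e+1) * G) := by ring
      _ ≤ n * ((e+1) * G) := Nat.mul_le_mul_right _ (by omega)
      _ = n * (e+1) * G := by ring
  have hpos : 0 < e + 1 := by omega
  refine Nat.le_of_mul_le_mul_left ?_ hpos
  have e1 : (e + 1) * (2 * t * G1 + 2 * (t + n) * Ka) =
      2 * t * ((e + 1 + n) * G) + 2 * (t + n) * ((e+1) * Ka) := by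
    rw [h1]; ring
  have e2 : (e + 1) * ((t + n) * G) = t * ((e+1) * G) + n * (e+1) * G := by ring
  rw [e1, e2]
  have e3 : (24 * t * (e+1) + 24 * t * (e + 1) + n * (e+1)) * G =
      24 * (2 * t * ((e+1) * G)) + n * (e+1) * G := by ring
  rw [e3] at h8
  have e4 : 2 * t * ((e+1) * G) = 2 * (t * ((e+1) * G)) := by ring
  rw [e4] at h8 h9
  generalize 2 * t * ((e+1+n) * G) = A at *
  generalize t * ((e+1) * G) = B at *
  generalize n * (e+1) * G = C at *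
  generalize 2 * (t + n) * ((e+1) * Ka) = D at *
  omega

theorem numD6 (n m e : ℕ) (hm : 2 ≤ m) (hn : 2 * m ≤ n) (he : 48 * m ≤ e) :
    2 * (n+1) * W1f n m + (n+m) * N n (e+1) ≤ 2 * (n+1) * N n (e+1) := by
  have h1 := nb_W1f n m (by omega) hn
  have h2 := m13_cube n m e hm hn he
  have ha := nb_a n m hm
  set G := N n (e+1)
  set a := N n m
  have h3 : a ^ 2 ≤ a ^ 3 := Nat.pow_le_pow_right (by omega) (by norm_num)
  have h4 : 8 * W1f n m ≤ G := by omega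
  obtain ⟨r, hr⟩ : ∃ r, n = m + r := ⟨n - m, by omega⟩
  have h5 : 2 * (n+1) * W1f n m ≤ (r + 2) * G := by
    have g1 : 8 * (2 * (n+1) * W1f n m) ≤ 2 * (n+1) * G := by
      calc 8 * (2 * (n+1) * W1f n m) = 2 * (n+1) * (8 * W1f n m) := by ring
        _ ≤ 2 * (n+1) * G := Nat.mul_le_mul_left _ h4
    have g2 : 2 * (n+1) * G ≤ 8 * ((r + 2) * G) := by
      calc 2 * (n+1) * G ≤ (8 * (r + 2)) * G := Nat.mul_le_mul_right _ (by omega)
        _ = 8 * ((r + 2) * G) := by ring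
    omega
  calc 2 * (n+1) * W1f n m + (n+m) * G ≤ (r + 2) * G + (n+m) * G := Nat.add_le_add_right h5 _
    _ = (r + 2 + (n + m)) * G := by ring
    _ = 2 * (n+1) * G := by congr 1; omega

end Pool.Agent.Helper98.UAH
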