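import Pool.Agent.Helper98.UAH.NumC

/-! Uniform postulation, module M14: numerics for `n` at least `2m`, second part. -/

set_option autoImplicit false

namespace Pool.Agent.Helper98.UAH

open Pool.Agent.Helper46.EAH Finset

lemma m14_first (n m e : ℕ) (hm : 2 ≤ m) (hn : 2 * m ≤ n) (he : 48 * m + 1 ≤ e) :
    900 * ((n+1) * N (n+1) (7*m-1)) ≤ 7 * m * N n (e+1) := by
  have h1 := N_dim n (7*m-1)
  have h2 := N_ratio n (7*m-1)
  have h3 : 7 * m - 1 + 1 = 7 * m := by omega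
  rw [h3] at h2
  have h4 := m13_gr n m (7*m-1) e 50 9 (by omega) hn (by omega) (by omega)
  rw [h3] at h4
  have h5 : 30 ^ m * N n (7*m) ≤ N n (e+1) := by
    have hpos : 0 < 81 ^ m := Nat.pow_pos (by norm_num)
    refine Nat.le_of_mul_le_mul_left ?_ hpos
    have e1 : 50 ^ (2*m) = 2500 ^ m := by rw [pow_mul]; norm_num
    have e2 : 9 ^ (2*m) = 81 ^ m := by rw [pow_mul]; norm_num
    rw [e1, e2] at h4
    calc 81 ^ m * (30 ^ m * N n (7*m)) = (81 * 30) ^ m * N n (7*m) := by rw [mul_pow]; ring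
      _ ≤ 2500 ^ m * N n (7*m) := Nat.mul_le_mul_right _ (Nat.pow_le_pow_left (by norm_num) _)
      _ ≤ 81 ^ m * N n (e+1) := h4
  have h6 : 900 ≤ 30 ^ m := by
    calc 900 = 30 ^ 2 := by norm_num
      _ ≤ 30 ^ m := Nat.pow_le_pow_right (by norm_num) hm
  calc 900 * ((n+1) * N (n+1) (7*m-1)) = 900 * ((7*m-1) * N n (7*m)) := by rw [h1, h2]
    _ = (7*m-1) * (900 * N n (7*m)) := by ring
    _ ≤ (7*m) * (30 ^ m * N n (7*m)) :=
        Nat.mul_le_mul (by omega) (Nat.mul_le_mul_right _ h6)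
    _ ≤ (7*m) * N n (e+1) := Nat.mul_le_mul_left _ h5

lemma m14_KA (n m e : ℕ) (hm : 2 ≤ m) (hn : 2 * m ≤ n) (he : 48 * m + 1 ≤ e) :
    2960 * ((n+1) * ((Wf n m + N n m) * N (n+1) m)) ≤ 39 * (3 * m) * N n (e+1) := by
  have hA := nb_A n m (by omega) hn
  have hK := nb_K n m (by omega) hn
  have hc := nb_cube n (m-1)
  have hm1 : m - 1 + 1 = m := by omega
  rw [hm1] at hc
  have h2 := m13_hundred n m (3*(m-1)+1) e hm hn (by omega) (by omega)
  have h3 := N_ratio n (3*(m-1)+1)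
  have hp := m13_pow (m-1) (by omega)
  rw [hm1] at hp
  set G := N n (e+1)
  set a := N n m
  set K := Wf n m + a
  set A := N (n+1) m
  set g1 := N n (3*(m-1)+1+1)
  set g0 := N n (3*(m-1)+1)
  -- (n+1) g0 <= 3 m g1
  have h4 : (n+1) * g0 ≤ 3 * m * g1 := by
    calc (n+1) * g0 ≤ (3*(m-1)+1+n) * g0 := Nat.mul_le_mul_right _ (by omega)
      _ = (3*(m-1)+1) * g1 := h3
      _ ≤ 3 * m * g1 := Nat.mul_le_mul_right _ (by omega)
  have h5 : 370 * ((n+1) * a ^ 3) ≤ 3 * m * G := by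
    calc 370 * ((n+1) * a ^ 3) ≤ 370 * ((n+1) * (27 ^ (m-1) * g0)) :=
          Nat.mul_le_mul_left _ (Nat.mul_le_mul_left _ hc)
      _ = 370 * 27 ^ (m-1) * ((n+1) * g0) := by ring
      _ ≤ 100 ^ m * (3 * m * g1) := Nat.mul_le_mul hp h4
      _ = 3 * m * (100 ^ m * g1) := by ring
      _ ≤ 3 * m * G := Nat.mul_le_mul_left _ h2
  have h6 : 8 * (K * A) ≤ 39 * a ^ 3 := by
    calc 8 * (K * A) = (4 * K) * (2 * A) := by ring
      _ ≤ (13 * a ^ 2) * (3 * a) := Nat.mul_le_mul hK hA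
      _ = 39 * a ^ 3 := by ring
  calc 2960 * ((n+1) * (K * A)) = 370 * ((n+1) * (8 * (K * A))) := by ring
    _ ≤ 370 * ((n+1) * (39 * a ^ 3)) := Nat.mul_le_mul_left _ (Nat.mul_le_mul_left _ h6)
    _ = 39 * (370 * ((n+1) * a ^ 3)) := by ring
    _ ≤ 39 * (3 * m * G) := Nat.mul_le_mul_left _ h5
    _ = 39 * (3 * m) * G := by ring

theorem numD3 (n m e : ℕ) (hm : 2 ≤ m) (hn : 2 * m ≤ n) (he : 48 * m + 1 ≤ e) :
    (n+1) * ((Wf n m + N n m) * N (n+1) m) + (n+1) * zg n m (Wf n m) (6*m) e +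
      (n+m) * N n (e+1) ≤ (n+e+1) * N n (e+1) := by
  have h1 := m14_first n m e hm hn he
  have h2 := m14_KA n m e hm hn he
  have h3 := m13_Ka n m e hm hn (by omega)
  have ha := nb_a n m hm
  unfold zg
  have e1 : 6 * m + m - 1 = 7 * m - 1 := by omega
  have e2 : e + 2 - (6 * m + m) = e + 2 - 7 * m := by omega
  rw [e1, e2]
  obtain ⟨s, hs⟩ : ∃ s, e + 1 = m + s := ⟨e + 1 - m, by omega⟩
  set G := N n (e+1)
  set a := N n m
  set K := Wf n m + a
  set T1 := (n+1) * N (n+1) (7*m-1)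
  set T3 := (n+1) * (K * N (n+1) m)
  -- second term
  have h4 : 1480 * ((n+1) * ((e + 2 - 7 * m) * K)) ≤ 13 * s * G := by
    calc 1480 * ((n+1) * ((e + 2 - 7 * m) * K)) ≤ 1480 * (a * (s * K)) := by
          refine Nat.mul_le_mul_left _ (Nat.mul_le_mul ha (Nat.mul_le_mul_right _ ?_))
          omega
      _ = s * (1480 * (K * a)) := by ring
      _ ≤ s * (13 * G) := Nat.mul_le_mul_left _ h3
      _ = 13 * s * G := by ring
  have h5 : 40 * m ≤ s := by omega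
  have h6 : 40 * (m * G) ≤ s * G := by
    rw [← mul_assoc]
    exact Nat.mul_le_mul_right _ h5
  have e3 : (n+1) * (N (n+1) (7*m-1) + (e + 2 - 7 * m) * K) =
      T1 + (n+1) * ((e + 2 - 7 * m) * K) := by ring
  have e4 : (n+e+1) * G = (n + m) * G + s * G := by
    have : n + e + 1 = n + m + s := by omega
    rw [this]; ring
  rw [e3, e4]
  have e5 : 7 * m * G = 7 * (m * G) := by ring
  have e6 : 39 * (3 * m) * G = 117 * (m * G) := by ring
  have e7 : 13 * s * G = 13 * (s * G) := by ring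
  rw [e5] at h1
  rw [e6] at h2
  rw [e7] at h4
  generalize (n+1) * ((e + 2 - 7 * m) * K) = T2 at *
  generalize m * G = M at *
  generalize s * G = Sg at *
  omega

end Pool.Agent.Helper98.UAH
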