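import Pool.Agent.Helper98.UAH.NumC

/-! Uniform postulation, module M15: numerics for `n` at least `2m`, third part. -/

set_option autoImplicit false

namespace Pool.Agent.Helper98.UAH

open Pool.Agent.Helper46.EAH Finset

lemma m15_pow1 (t : ℕ) (ht : 1 ≤ t) :
    700 * 8 ^ (8*t+6) * 25 ^ (t+1) ≤ 18 * 7 ^ (7*t+6) * 1089 ^ (t+1) := by
  induction t, ht using Nat.le_induction with
  | base => norm_num
  | succ t ht ih =>
    calc 700 * 8 ^ (8*(t+1)+6) * 25 ^ (t+1+1)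
        = (700 * 8 ^ (8*t+6) * 25 ^ (t+1)) * (8 ^ 8 * 25) := by ring
      _ ≤ (18 * 7 ^ (7*t+6) * 1089 ^ (t+1)) * (7 ^ 7 * 1089) :=
          Nat.mul_le_mul ih (by norm_num)
      _ = 18 * 7 ^ (7*(t+1)+6) * 1089 ^ (t+1+1) := by ring

lemma m15_pow2 (t : ℕ) (ht : 1 ≤ t) :
    500 * (t+1) * 27 ^ t * 5 ^ (2*t+1) ≤ 12 * 66 ^ (2*t+1) := by
  induction t, ht using Nat.le_induction with
  | base => norm_num
  | succ t ht ih =>
    calc 500 * (t+1+1) * 27 ^ (t+1) * 5 ^ (2*(t+1)+1)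
        ≤ 500 * (2 * (t+1)) * 27 ^ (t+1) * 5 ^ (2*(t+1)+1) := by
          refine Nat.mul_le_mul_right _ (Nat.mul_le_mul_right _ (Nat.mul_le_mul_left _ (by omega)))
      _ = (500 * (t+1) * 27 ^ t * 5 ^ (2*t+1)) * (2 * 27 * 25) := by ring
      _ ≤ (12 * 66 ^ (2*t+1)) * (66 ^ 2) := Nat.mul_le_mul ih (by norm_num)
      _ = 12 * 66 ^ (2*(t+1)+1) := by ring

lemma m15_pow3 (t : ℕ) (ht : 1 ≤ t) :
    5000 * (t+1) ^ 2 * 27 ^ t * 5 ^ (2*t+1) ≤ 236 * 66 ^ (2*t+1) := by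
  induction t, ht using Nat.le_induction with
  | base => norm_num
  | succ t ht ih =>
    calc 5000 * (t+1+1) ^ 2 * 27 ^ (t+1) * 5 ^ (2*(t+1)+1)
        ≤ 5000 * (2 * (t+1)) ^ 2 * 27 ^ (t+1) * 5 ^ (2*(t+1)+1) := by
          refine Nat.mul_le_mul_right _ (Nat.mul_le_mul_right _ (Nat.mul_le_mul_left _
            (Nat.pow_le_pow_left (by omega) _)))
      _ = (5000 * (t+1) ^ 2 * 27 ^ t * 5 ^ (2*t+1)) * (4 * 27 * 25) := by ring
      _ ≤ (236 * 66 ^ (2*t+1)) * (66 ^ 2) := Nat.mul_le_mul ih (by norm_num)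
      _ = 236 * 66 ^ (2*(t+1)+1) := by ring

lemma m15_pow4 (t : ℕ) (ht : 1 ≤ t) :
    100 * (t+1) * 8 ^ (8*t+5) * 25 ^ (t+1) ≤ 5 * 7 ^ (7*t+5) * 1089 ^ (t+1) := by
  induction t, ht using Nat.le_induction with
  | base => norm_num
  | succ t ht ih =>
    calc 100 * (t+1+1) * 8 ^ (8*(t+1)+5) * 25 ^ (t+1+1)
        = (t + 2) * (100 * 8 ^ (8*t+5) * 25 ^ (t+1) * (8 ^ 8 * 25)) := by ring
      _ ≤ (t + 2) * (100 * 8 ^ (8*t+5) * 25 ^ (t+1) * (8 ^ 8 * 25)) := le_rfl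
      _ = ((t + 2) * (8 ^ 8 * 25)) * (100 * 8 ^ (8*t+5) * 25 ^ (t+1)) := by ring
      _ ≤ ((t + 1) * (7 ^ 7 * 1089)) * (100 * 8 ^ (8*t+5) * 25 ^ (t+1)) := by
          refine Nat.mul_le_mul_right _ ?_
          norm_num
          omega
      _ = (100 * (t+1) * 8 ^ (8*t+5) * 25 ^ (t+1)) * (7 ^ 7 * 1089) := by ring
      _ ≤ (5 * 7 ^ (7*t+5) * 1089 ^ (t+1)) * (7 ^ 7 * 1089) := Nat.mul_le_mul_right _ ih
      _ = 5 * 7 ^ (7*(t+1)+5) * 1089 ^ (t+1+1) := by ring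

/-- growth with ratio `33 / 5` -/
lemma m15_gr (n m x e : ℕ) (hm : 2 ≤ m) (hn : 2 * m ≤ n) (hx : x ≤ 8 * m) (he : 64 * m ≤ e) :
    1089 ^ m * N n (x+1) ≤ 25 ^ m * N n (e+1) := by
  have h := m13_gr n m x e 33 5 (by omega) hn (by omega) (by omega)
  have e1 : 33 ^ (2*m) = 1089 ^ m := by rw [pow_mul]; norm_num
  have e2 : 5 ^ (2*m) = 25 ^ m := by rw [pow_mul]; norm_num
  rwa [e1, e2] at h

/-- `e a^3` -/
lemma m15_ea3 (n t e c q : ℕ) (hn : 2 * (t+1) ≤ n) (he : 64 * (t+1) ≤ e)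
    (hc : c * (5 * (t+1)) * 27 ^ t * 5 ^ (2*t+1) ≤ q * 66 ^ (2*t+1)) :
    c * (e * N n (t+1) ^ 3) ≤ q * N n (e+1) := by
  have h1 := nb_cube n t
  have h2 := nb_growth n (t+1) (3*t) e hn (by omega)
  have e1 : 3 * t + 2 * (t + 1) = 5 * t + 2 := by ring
  rw [e1] at h2
  have hpos : 0 < (e + 2 * (t+1)) ^ (2*t+1) := Nat.pow_pos (by omega)
  have h3 : (5 * t + 2) ^ (2 * (t+1)) ≤ (5 * (t+1)) * (5 * (t+1)) ^ (2*t+1) := by
    have e2 : 2 * (t+1) = (2*t+1) + 1 := by ring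
    rw [e2, pow_succ, mul_comm]
    exact Nat.mul_le_mul (by omega) (Nat.pow_le_pow_left (by omega) _)
  have h4 : (66 * (t+1)) ^ (2*t+1) ≤ (e + 2 * (t+1)) ^ (2*t+1) :=
    Nat.pow_le_pow_left (by omega) _
  refine Nat.le_of_mul_le_mul_left ?_ hpos
  calc (e + 2 * (t+1)) ^ (2*t+1) * (c * (e * N n (t+1) ^ 3))
      ≤ (e + 2 * (t+1)) ^ (2*t+1) * (c * ((e + 2 * (t+1)) * (27 ^ t * N n (3*t+1)))) := by
        refine Nat.mul_le_mul_left _ (Nat.mul_le_mul_left _ (Nat.mul_le_mul (by omega) h1))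
    _ = c * 27 ^ t * ((e + 2 * (t+1)) ^ (2 * (t+1)) * N n (3*t+1)) := by
        have e2 : 2 * (t+1) = (2*t+1) + 1 := by ring
        rw [e2, pow_succ]
        ring
    _ ≤ c * 27 ^ t * ((5 * t + 2) ^ (2 * (t+1)) * N n (e+1)) := Nat.mul_le_mul_left _ h2
    _ ≤ c * 27 ^ t * (((5 * (t+1)) * (5 * (t+1)) ^ (2*t+1)) * N n (e+1)) :=
        Nat.mul_le_mul_left _ (Nat.mul_le_mul_right _ h3)
    _ = (c * (5 * (t+1)) * 27 ^ t * 5 ^ (2*t+1)) * (t+1) ^ (2*t+1) * N n (e+1) := by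
        rw [mul_pow]; ring
    _ ≤ (q * 66 ^ (2*t+1)) * (t+1) ^ (2*t+1) * N n (e+1) :=
        Nat.mul_le_mul_right _ (Nat.mul_le_mul_right _ hc)
    _ = (66 * (t+1)) ^ (2*t+1) * (q * N n (e+1)) := by rw [mul_pow]; ring
    _ ≤ (e + 2 * (t+1)) ^ (2*t+1) * (q * N n (e+1)) := Nat.mul_le_mul_right _ h4

lemma m15_T1 (n t e : ℕ) (ht : 1 ≤ t) (hn : 2 * (t+1) ≤ n) (he : 64 * (t+1) ≤ e) :
    100 * (N (n+1) (7*t+6) * N n (t+1)) ≤ 9 * N n (e+1) := by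
  have h1 := N_dim n (7*t+6)
  have h2 := N_ratio n (7*t+6)
  have h3 : 2 * N (n+1) (7*t+6) ≤ 7 * N n (7*t+6+1) := by
    have hpos : 0 < n + 1 := by omega
    refine Nat.le_of_mul_le_mul_left ?_ hpos
    calc (n+1) * (2 * N (n+1) (7*t+6)) = 2 * ((n+1) * N (n+1) (7*t+6)) := by ring
      _ = 2 * ((7*t+6) * N n (7*t+6+1)) := by rw [h1, h2]
      _ = (2 * (7*t+6)) * N n (7*t+6+1) := by ring
      _ ≤ (7 * (n+1)) * N n (7*t+6+1) := Nat.mul_le_mul_right _ (by omega)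
      _ = (n+1) * (7 * N n (7*t+6+1)) := by ring
  have h4 := nb_prod n (7*t+6) t
  have e1 : 7*t+6+t = 8*t+6 := by ring
  rw [e1] at h4
  have h5 : (8*t+6).choose (7*t+6) = (8*t+6).choose t := by
    rw [← e1]
    exact Nat.choose_symm_add
  rw [h5] at h4
  have h6 := nb_choose (8*t+6) t (by omega)
  have e2 : 8*t+6-t = 7*t+6 := by omega
  rw [e2] at h6
  have h7 := m15_gr n (t+1) (8*t+6) e (by omega) hn (by omega) he
  have h8 := m15_pow1 t ht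
  have hpos : 0 < 2 * (7 ^ (7*t+6) * 1089 ^ (t+1)) := by positivity
  refine Nat.le_of_mul_le_mul_left ?_ hpos
  calc 2 * (7 ^ (7*t+6) * 1089 ^ (t+1)) * (100 * (N (n+1) (7*t+6) * N n (t+1)))
      = 100 * (7 ^ (7*t+6) * 1089 ^ (t+1)) * ((2 * N (n+1) (7*t+6)) * N n (t+1)) := by ring
    _ ≤ 100 * (7 ^ (7*t+6) * 1089 ^ (t+1)) * ((7 * N n (7*t+6+1)) * N n (t+1)) :=
        Nat.mul_le_mul_left _ (Nat.mul_le_mul_right _ h3)
    _ = 700 * (7 ^ (7*t+6) * 1089 ^ (t+1)) * (N n (7*t+6+1) * N n (t+1)) := by ring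
    _ ≤ 700 * (7 ^ (7*t+6) * 1089 ^ (t+1)) * ((8*t+6).choose t * N n (8*t+6+1)) :=
        Nat.mul_le_mul_left _ h4
    _ = 700 * ((8*t+6).choose t * 7 ^ (7*t+6)) * (1089 ^ (t+1) * N n (8*t+6+1)) := by ring
    _ ≤ 700 * 8 ^ (8*t+6) * (25 ^ (t+1) * N n (e+1)) :=
        Nat.mul_le_mul (Nat.mul_le_mul_left _ h6) h7
    _ = (700 * 8 ^ (8*t+6) * 25 ^ (t+1)) * N n (e+1) := by ring
    _ ≤ (18 * 7 ^ (7*t+6) * 1089 ^ (t+1)) * N n (e+1) := Nat.mul_le_mul_right _ h8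
    _ = 2 * (7 ^ (7*t+6) * 1089 ^ (t+1)) * (9 * N n (e+1)) := by ring

theorem numD4 (n m e : ℕ) (hm : 2 ≤ m) (hn : 2 * m ≤ n) (he : 64 * m ≤ e) :
    zg n m (Wf n m) (6*m) e * N n m + Wf n m ≤ N n (e+1) := by
  obtain ⟨t, rfl⟩ : ∃ t, m = t + 1 := ⟨m - 1, by omega⟩
  have h1 := m15_T1 n t e (by omega) hn he
  have h2 := m15_ea3 n t e 100 12 hn he (by
    have := m15_pow2 t (by omega)
    calc 100 * (5 * (t+1)) * 27 ^ t * 5 ^ (2*t+1)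
        = 500 * (t+1) * 27 ^ t * 5 ^ (2*t+1) := by ring
      _ ≤ _ := this)
  have h3 := m13_cube n (t+1) e hm hn (by omega)
  have h4 := nb_Wf n (t+1) (by omega) hn
  have h5 := nb_K n (t+1) (by omega) hn
  have ha := nb_a n (t+1) hm
  unfold zg
  have e1 : 6 * (t+1) + (t+1) - 1 = 7 * t + 6 := by omega
  rw [e1]
  set a := N n (t+1)
  set W := Wf n (t+1)
  set G := N n (e+1)
  have h6 : a ^ 2 ≤ a ^ 3 := Nat.pow_le_pow_right (by omega) (by norm_num)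
  have h7 : 4 * ((e + 2 - (6 * (t+1) + (t+1))) * (W + a) * a) ≤ 13 * (e * a ^ 3) := by
    calc 4 * ((e + 2 - (6 * (t+1) + (t+1))) * (W + a) * a)
        = (e + 2 - (6 * (t+1) + (t+1))) * (4 * (W + a)) * a := by ring
      _ ≤ e * (13 * a ^ 2) * a := Nat.mul_le_mul_right _ (Nat.mul_le_mul (by omega) h5)
      _ = 13 * (e * a ^ 3) := by ring
  rw [add_mul]
  generalize (e + 2 - (6 * (t+1) + (t+1))) * (W + a) * a = T2 at *
  generalize N (n+1) (7*t+6) * a = T1 at *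
  generalize e * a ^ 3 = Q at *
  omega

lemma m15_T1' (n t e : ℕ) (ht : 1 ≤ t) (hn : 2 * (t+1) ≤ n) (he : 64 * (t+1) ≤ e) :
    100 * ((t+1) * (N n (7*t+5+1) * N n (t+1))) ≤ 5 * N n (e+1) := by
  have h4 := nb_prod n (7*t+5) t
  have e1 : 7*t+5+t = 8*t+5 := by ring
  rw [e1] at h4
  have h5 : (8*t+5).choose (7*t+5) = (8*t+5).choose t := by
    rw [← e1]
    exact Nat.choose_symm_add
  rw [h5] at h4
  have h6 := nb_choose (8*t+5) t (by omega)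
  have e2 : 8*t+5-t = 7*t+5 := by omega
  rw [e2] at h6
  have h7 := m15_gr n (t+1) (8*t+5) e (by omega) hn (by omega) he
  have h8 := m15_pow4 t ht
  have hpos : 0 < 7 ^ (7*t+5) * 1089 ^ (t+1) := by positivity
  refine Nat.le_of_mul_le_mul_left ?_ hpos
  calc 7 ^ (7*t+5) * 1089 ^ (t+1) * (100 * ((t+1) * (N n (7*t+5+1) * N n (t+1))))
      ≤ 7 ^ (7*t+5) * 1089 ^ (t+1) * (100 * ((t+1) * ((8*t+5).choose t * N n (8*t+5+1)))) :=
        Nat.mul_le_mul_left _ (Nat.mul_le_mul_left _ (Nat.mul_le_mul_left _ h4))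
    _ = 100 * (t+1) * ((8*t+5).choose t * 7 ^ (7*t+5)) * (1089 ^ (t+1) * N n (8*t+5+1)) := by
        ring
    _ ≤ 100 * (t+1) * 8 ^ (8*t+5) * (25 ^ (t+1) * N n (e+1)) :=
        Nat.mul_le_mul (Nat.mul_le_mul_left _ h6) h7
    _ = (100 * (t+1) * 8 ^ (8*t+5) * 25 ^ (t+1)) * N n (e+1) := by ring
    _ ≤ (5 * 7 ^ (7*t+5) * 1089 ^ (t+1)) * N n (e+1) := Nat.mul_le_mul_right _ h8
    _ = 7 ^ (7*t+5) * 1089 ^ (t+1) * (5 * N n (e+1)) := by ring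

theorem numD5 (n m e : ℕ) (hm : 2 ≤ m) (hn : 2 * m ≤ n) (he : 64 * m ≤ e) :
    (m * N (n+1) m + 1) * zg n m (Wf n m) (6*m) e ≤ N (n+1) (e+1) := by
  obtain ⟨t, rfl⟩ : ∃ t, m = t + 1 := ⟨m - 1, by omega⟩
  have h1 := m15_T1' (n+1) t e (by omega) (by omega) he
  have h2 := m15_ea3 (n+1) t e (1000 * (t+1)) 236 (by omega) he (by
    have := m15_pow3 t (by omega)
    calc 1000 * (t+1) * (5 * (t+1)) * 27 ^ t * 5 ^ (2*t+1)
        = 5000 * (t+1) ^ 2 * 27 ^ t * 5 ^ (2*t+1) := by ring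
      _ ≤ _ := this)
  have h5 := nb_K n (t+1) (by omega) hn
  have hA := nb_a (n+1) (t+1) hm
  have hd := N_dim n (t+1)
  unfold zg
  have e1 : 6 * (t+1) + (t+1) - 1 = 7 * t + 5 + 1 := by omega
  rw [e1]
  set a := N n (t+1)
  set W := Wf n (t+1)
  set A := N (n+1) (t+1)
  set G := N (n+1) (e+1)
  set B := N (n+1) (7*t+5+1)
  have h3 : a ≤ A := by
    have hpos : 0 < n + 1 := by omega
    refine Nat.le_of_mul_le_mul_left ?_ hpos
    rw [hd]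
    exact Nat.mul_le_mul_right _ (by omega)
  have h4 : 4 * (W + a) ≤ 13 * A ^ 2 :=
    h5.trans (Nat.mul_le_mul_left _ (Nat.pow_le_pow_left h3 _))
  have h7 : 4 * ((t+1) * A * ((e + 2 - (6 * (t+1) + (t+1))) * (W + a))) ≤
      13 * ((t+1) * (e * A ^ 3)) := by
    calc 4 * ((t+1) * A * ((e + 2 - (6 * (t+1) + (t+1))) * (W + a)))
        = (t+1) * A * ((e + 2 - (6 * (t+1) + (t+1))) * (4 * (W + a))) := by ring
      _ ≤ (t+1) * A * (e * (13 * A ^ 2)) :=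
          Nat.mul_le_mul_left _ (Nat.mul_le_mul (by omega) h4)
      _ = 13 * ((t+1) * (e * A ^ 3)) := by ring
  have h8 : 12 * ((t+1) * A + 1) ≤ 13 * ((t+1) * A) := by
    have : 2 * 6 ≤ (t+1) * A := Nat.mul_le_mul hm (by omega)
    omega
  have h9 : 12 * (((t+1) * A + 1) * (B + (e + 2 - (6 * (t+1) + (t+1))) * (W + a))) ≤
      13 * ((t+1) * (B * A) + (t+1) * A * ((e + 2 - (6 * (t+1) + (t+1))) * (W + a))) := by
    calc 12 * (((t+1) * A + 1) * (B + (e + 2 - (6 * (t+1) + (t+1))) * (W + a)))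
        = (12 * ((t+1) * A + 1)) * (B + (e + 2 - (6 * (t+1) + (t+1))) * (W + a)) := by ring
      _ ≤ (13 * ((t+1) * A)) * (B + (e + 2 - (6 * (t+1) + (t+1))) * (W + a)) :=
          Nat.mul_le_mul_right _ h8
      _ = _ := by ring
  have e3 : 1000 * (t+1) * (e * A ^ 3) = 1000 * ((t+1) * (e * A ^ 3)) := by ring
  rw [e3] at h2
  generalize ((t+1) * A + 1) * (B + (e + 2 - (6 * (t+1) + (t+1))) * (W + a)) = R at *
  generalize (t+1) * A * ((e + 2 - (6 * (t+1) + (t+1))) * (W + a)) = T2 at *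
  generalize (t+1) * (B * A) = T1 at *
  generalize (t+1) * (e * A ^ 3) = Q at *
  omega

end Pool.Agent.Helper98.UAH
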