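import Pool.Agent.Helper98.UAH.NumT

/-! Uniform postulation: numerics for n at least 27^m, second part. -/

namespace Pool.Agent.Helper98.UAH

open Pool.Agent.Helper46.EAH Finset

lemma nt_c_aux (k : ℕ) : 4 * (k + 3) * (4 * (k + 1) + 1).factorial ≤
    27 ^ (k + 2) * ((3 * (k + 1)).factorial * (k + 1).factorial) := by
  induction k with
  | zero => decide
  | succ k ih =>
    have h1 : (4 * (k + 1 + 1) + 1).factorial =
        (4 * k + 9) * (4 * k + 8) * (4 * k + 7) * (4 * k + 6) * (4 * (k + 1) + 1).factorial := by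
      rw [show 4 * (k + 1 + 1) + 1 = 4 * (k + 1) + 1 + 1 + 1 + 1 + 1 by ring, Nat.factorial_succ,
        Nat.factorial_succ, Nat.factorial_succ, Nat.factorial_succ]
      ring
    have h2 : (3 * (k + 1 + 1)).factorial =
        (3 * k + 6) * (3 * k + 5) * (3 * k + 4) * (3 * (k + 1)).factorial := by
      rw [show 3 * (k + 1 + 1) = 3 * (k + 1) + 1 + 1 + 1 by ring, Nat.factorial_succ,
        Nat.factorial_succ, Nat.factorial_succ]
      ring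
    have h3 : (k + 1 + 1).factorial = (k + 2) * (k + 1).factorial := Nat.factorial_succ (k + 1)
    rw [h1, h2, h3]
    have h4 : (k + 4) * ((4 * k + 9) * (4 * k + 8) * (4 * k + 7) * (4 * k + 6)) ≤
        27 * (k + 3) * ((3 * k + 6) * (3 * k + 5) * (3 * k + 4) * (k + 2)) := by
      ring_nf
      nlinarith [pow_pos (show 0 < k + 1 by omega) 2, Nat.zero_le (k ^ 2), Nat.zero_le (k ^ 3),
        Nat.zero_le (k ^ 4), Nat.zero_le (k ^ 5)]
    have h5 : (k + 3) * (4 * (k + 1 + 3) * ((4 * k + 9) * (4 * k + 8) * (4 * k + 7) * (4 * k + 6) *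
        (4 * (k + 1) + 1).factorial)) ≤ (k + 3) * (27 ^ (k + 1 + 2) * ((3 * k + 6) * (3 * k + 5) *
        (3 * k + 4) * (3 * (k + 1)).factorial * ((k + 2) * (k + 1).factorial))) := by
      calc (k + 3) * (4 * (k + 1 + 3) * ((4 * k + 9) * (4 * k + 8) * (4 * k + 7) * (4 * k + 6) *
            (4 * (k + 1) + 1).factorial))
          = ((k + 4) * ((4 * k + 9) * (4 * k + 8) * (4 * k + 7) * (4 * k + 6))) *
            (4 * (k + 3) * (4 * (k + 1) + 1).factorial) := by ring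
        _ ≤ (27 * (k + 3) * ((3 * k + 6) * (3 * k + 5) * (3 * k + 4) * (k + 2))) *
            (27 ^ (k + 2) * ((3 * (k + 1)).factorial * (k + 1).factorial)) := Nat.mul_le_mul h4 ih
        _ = _ := by ring
    exact Nat.le_of_mul_le_mul_left h5 (by omega)

lemma nt_c (m : ℕ) (hm : 2 ≤ m) :
    4 * (m + 1) * ((3 * m - 2) * (4 * m - 3).choose (3 * m - 2)) ≤ 27 ^ m := by
  obtain ⟨k, rfl⟩ := Nat.exists_eq_add_of_le' hm
  have h := nt_c_aux k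
  rw [show 3 * (k + 2) - 2 = 3 * (k + 1) + 1 by omega,
    show 4 * (k + 2) - 3 = 4 * (k + 1) + 1 by omega]
  have h1 : (4 * (k + 1) + 1).choose (3 * (k + 1) + 1) * (3 * (k + 1) + 1).factorial *
      (k + 1).factorial = (4 * (k + 1) + 1).factorial := by
    have := Nat.choose_mul_factorial_mul_factorial (show 3 * (k + 1) + 1 ≤ 4 * (k + 1) + 1 by omega)
    rwa [show 4 * (k + 1) + 1 - (3 * (k + 1) + 1) = k + 1 by omega] at this
  rw [Nat.factorial_succ (3 * (k + 1))] at h1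
  have h2 : ((3 * (k + 1)).factorial * (k + 1).factorial) *
      (4 * (k + 2 + 1) * ((3 * (k + 1) + 1) * (4 * (k + 1) + 1).choose (3 * (k + 1) + 1))) ≤
      ((3 * (k + 1)).factorial * (k + 1).factorial) * 27 ^ (k + 2) := by
    calc ((3 * (k + 1)).factorial * (k + 1).factorial) *
        (4 * (k + 2 + 1) * ((3 * (k + 1) + 1) * (4 * (k + 1) + 1).choose (3 * (k + 1) + 1)))
        = 4 * (k + 3) * ((4 * (k + 1) + 1).choose (3 * (k + 1) + 1) *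
          ((3 * (k + 1) + 1) * (3 * (k + 1)).factorial) * (k + 1).factorial) := by ring
      _ = 4 * (k + 3) * (4 * (k + 1) + 1).factorial := by rw [h1]
      _ ≤ 27 ^ (k + 2) * ((3 * (k + 1)).factorial * (k + 1).factorial) := h
      _ = _ := by ring
  exact Nat.le_of_mul_le_mul_left h2
    (Nat.mul_pos (Nat.factorial_pos _) (Nat.factorial_pos _))

/-- `(n+1) N (n+1) (3m-2) = (3m-2) N n (3m-1)` -/
lemma nt_b1 (n m : ℕ) (hm : 1 ≤ m) :
    (n + 1) * N (n+1) (3*m-2) = (3 * m - 2) * N n (3*m-1) := by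
  rw [N_dim, N_ratio, show 3 * m - 2 + 1 = 3 * m - 1 by omega]

/-- `(3m-1) N n (3m) = (n+3m-1) N n (3m-1)` -/
lemma nt_b2 (n m : ℕ) (hm : 1 ≤ m) :
    (3 * m - 1) * N n (3*m) = (3 * m - 1 + n) * N n (3*m-1) := by
  rw [N_ratio, show 3 * m - 1 + 1 = 3 * m by omega]

lemma nt_c3 (m : ℕ) (hm : 2 ≤ m) : ((3 * m - 1 : ℕ) : ℝ) = 3 * m - 1 ∧
    ((3 * m - 2 : ℕ) : ℝ) = 3 * m - 2 := by
  constructor
  · rw [Nat.cast_sub (by omega)]
    push_cast
    ring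
  · rw [Nat.cast_sub (by omega)]
    push_cast
    ring

/-- large degree: more than cubic -/
lemma nt_cu3 (n m : ℕ) (hm : 2 ≤ m) (hn : 27 ^ m ≤ n) :
    26 * n * (N n m : ℝ) ^ 3 ≤ 3 * m * N n (3*m) := by
  obtain ⟨h2, h81, h162, h324⟩ := nt_n n m hm hn
  have h1 : 26 * (N n m : ℝ) ^ 3 ≤ N n (3*m-1) := by exact_mod_cast nt_cube n m hm hn
  have h3 : ((3 * m - 1 : ℕ) : ℝ) * N n (3*m) = (((3 * m - 1 : ℕ) : ℝ) + n) * N n (3*m-1) := by
    exact_mod_cast nt_b2 n m (by omega)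
  rw [(nt_c3 m hm).1] at h3
  have h4 : (0:ℝ) ≤ N n (3*m) := by positivity
  have h5 : (n:ℝ) * (26 * (N n m : ℝ) ^ 3) ≤ n * N n (3*m-1) :=
    mul_le_mul_of_nonneg_left h1 (by positivity)
  have h6 : (0:ℝ) ≤ N n (3*m-1) := by positivity
  nlinarith

lemma nt_zf (n m e : ℕ) (he : 3 * m ≤ e + 3) : (zf n m (Wf n m) e : ℝ) =
    N (n+1) (3*m-2) + ((e:ℝ) + 3 - 3 * m) * ((Wf n m : ℝ) + N n m) := by
  unfold zf
  push_cast [Nat.cast_sub he]
  ring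

theorem numT3 (n m e : ℕ) (hm : 2 ≤ m) (hn : 27 ^ m ≤ n) (he : 3 * m ≤ e + 1) :
    (n+1) * ((Wf n m + N n m) * N (n+1) m) + (n+1) * zf n m (Wf n m) e + (n+m) * N n (e+1) ≤
      (n+e+1) * N n (e+1) := by
  obtain ⟨h2, h81, h162, h324⟩ := nt_n n m hm hn
  obtain ⟨-, hW, -⟩ := nt_data n m hm hn
  have hA := nt_A n m hm hn
  have ha := nt_a1 n m hm
  have hV3 := nt_cu_le n m e hm hn (by omega)
  have hcu := nt_cu3 n m hm hn
  have hVm : (N n (3*m) : ℝ) ≤ N n (e+1) := by exact_mod_cast N_mono he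
  have heR : 3 * (m:ℝ) ≤ e + 1 := by exact_mod_cast he
  suffices h : ((n:ℝ)+1) * ((Wf n m + N n m) * N (n+1) m) + (n+1) * zf n m (Wf n m) e +
      (n+m) * N n (e+1) ≤ (n+e+1) * N n (e+1) by
    exact_mod_cast h
  rw [nt_zf n m e (by omega)]
  have hb1 : ((n:ℝ) + 1) * N (n+1) (3*m-2) = ((3 * m - 2 : ℕ) : ℝ) * N n (3*m-1) := by
    exact_mod_cast nt_b1 n m (by omega)
  have hb2 : ((3 * m - 1 : ℕ) : ℝ) * N n (3*m) = (((3 * m - 1 : ℕ) : ℝ) + n) * N n (3*m-1) := by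
    exact_mod_cast nt_b2 n m (by omega)
  rw [(nt_c3 m hm).1] at hb2
  rw [(nt_c3 m hm).2] at hb1
  obtain ⟨V, hVe⟩ : ∃ V : ℝ, V = N n (e+1) := ⟨_, rfl⟩
  obtain ⟨a, hae⟩ : ∃ a : ℝ, a = N n m := ⟨_, rfl⟩
  obtain ⟨A, hAe⟩ : ∃ A : ℝ, A = N (n+1) m := ⟨_, rfl⟩
  obtain ⟨K, hKe⟩ : ∃ K : ℝ, K = (Wf n m : ℝ) + N n m := ⟨_, rfl⟩
  obtain ⟨B, hBe⟩ : ∃ B : ℝ, B = N (n+1) (3*m-2) := ⟨_, rfl⟩
  obtain ⟨C, hCe⟩ : ∃ C : ℝ, C = N n (3*m-1) := ⟨_, rfl⟩
  obtain ⟨D, hDe⟩ : ∃ D : ℝ, D = N n (3*m) := ⟨_, rfl⟩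
  rw [← hVe, ← hKe, ← hAe, ← hBe]
  rw [← hBe, ← hCe] at hb1
  rw [← hCe, ← hDe] at hb2
  rw [← hVe, ← hDe] at hVm
  rw [← hDe, ← hae] at hcu
  rw [← hVe, ← hae] at hV3
  rw [← hKe, ← hae] at hW
  rw [← hAe, ← hae] at hA
  rw [← hae] at ha
  have ha0 : 0 ≤ a := by linarith
  have hA0 : 0 ≤ A := by rw [hAe]; positivity
  have hK0 : 0 ≤ K := by rw [hKe]; positivity
  have hB0 : 0 ≤ B := by rw [hBe]; positivity
  have hC0 : 0 ≤ C := by rw [hCe]; positivity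
  have hD0 : 0 ≤ D := by rw [hDe]; positivity
  have hV0 : 0 ≤ V := by linarith
  have ha3 : 0 ≤ a ^ 3 := by positivity
  -- the first term
  have t1 : ((n:ℝ) + 1) * (K * A) ≤ 12 / 100 * m * V := by
    have e1 : K * A ≤ (102 / 100 * a ^ 2) * (163 / 162 * a) :=
      mul_le_mul hW (by linarith) hA0 (by positivity)
    have e2 : K * A ≤ 1027 / 1000 * a ^ 3 := by nlinarith
    have e3 : ((n:ℝ) + 1) * (K * A) ≤ (325 / 324 * n) * (1027 / 1000 * a ^ 3) :=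
      mul_le_mul (by linarith) e2 (by positivity) (by positivity)
    have e4 : 26 * n * a ^ 3 ≤ 3 * m * V := hcu.trans (by
      apply mul_le_mul_of_nonneg_left hVm (by positivity))
    nlinarith
  -- the second term
  have t2 : ((n:ℝ) + 1) * B ≤ 1 / 9 * V := by
    have e1 : (n:ℝ) * ((n + 1) * B) ≤ n * (1 / 9 * V) := by
      have e2 : (n:ℝ) * C ≤ 3 * m * D := by nlinarith
      calc (n:ℝ) * ((n + 1) * B) = (3 * m - 2) * (n * C) := by rw [hb1]; ring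
        _ ≤ (3 * m - 2) * (3 * m * D) := mul_le_mul_of_nonneg_left e2 (by linarith)
        _ ≤ 3 * m * (3 * m * D) := mul_le_mul_of_nonneg_right (by linarith) (by positivity)
        _ = 9 * (m * m) * D := by ring
        _ ≤ (n / 9) * V := by
            apply mul_le_mul (by linarith) hVm hD0 (by positivity)
        _ = n * (1 / 9 * V) := by ring
    exact le_of_mul_le_mul_left e1 (by linarith)
  -- the third term
  have t3 : ((n:ℝ) + 1) * (((e:ℝ) + 3 - 3 * m) * K) ≤ ((e:ℝ) + 1 - m) * (4 / 100 * V) := by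
    have e1 : ((n:ℝ) + 1) * K ≤ 4 / 100 * V := by
      have : ((n:ℝ) + 1) * K ≤ a * (102 / 100 * a ^ 2) := mul_le_mul ha hW hK0 ha0
      nlinarith
    calc ((n:ℝ) + 1) * (((e:ℝ) + 3 - 3 * m) * K) = ((e:ℝ) + 3 - 3 * m) * ((n + 1) * K) := by ring
      _ ≤ ((e:ℝ) + 1 - m) * (4 / 100 * V) := by
          apply mul_le_mul (by linarith) e1 (by positivity) (by linarith)
  have t4 : 2 * (m:ℝ) * V ≤ ((e:ℝ) + 1 - m) * V :=
    mul_le_mul_of_nonneg_right (by linarith) hV0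
  have t5 : 4 * V ≤ 2 * m * V := mul_le_mul_of_nonneg_right (by linarith) hV0
  have e5 : ((n:ℝ) + 1) * (B + ((e:ℝ) + 3 - 3 * m) * K) =
      (n + 1) * B + (n + 1) * (((e:ℝ) + 3 - 3 * m) * K) := by ring
  rw [e5]
  have e6 : (n + (e:ℝ) + 1) * V = (n + m) * V + ((e:ℝ) + 1 - m) * V := by ring
  rw [e6]
  nlinarith

/-- the base term times `a` -/
lemma nt_Ba (n m e : ℕ) (hm : 2 ≤ m) (hn : 27 ^ m ≤ n) (he : 4 * m ≤ e + 3) :
    4 * ((m:ℝ) + 1) * (N (n+1) (3*m-2) * N n m) ≤ N n (e+1) := by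
  have h1 := nb_prod n (3*m-2) (m-1)
  rw [show 3 * m - 2 + 1 = 3 * m - 1 by omega, show m - 1 + 1 = m by omega,
    show 3 * m - 2 + (m - 1) = 4 * m - 3 by omega] at h1
  have h2 : N n (4 * m - 3 + 1) ≤ N n (e+1) := N_mono (by omega)
  have h3 := nt_b1 n m (by omega)
  have h4 := nt_c m hm
  have h5 : (n + 1) * (4 * (m + 1) * (N (n+1) (3*m-2) * N n m)) ≤ (n + 1) * N n (e+1) := by
    calc (n + 1) * (4 * (m + 1) * (N (n+1) (3*m-2) * N n m))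
        = 4 * (m + 1) * (((n + 1) * N (n+1) (3*m-2)) * N n m) := by ring
      _ = 4 * (m + 1) * ((3 * m - 2) * (N n (3*m-1) * N n m)) := by rw [h3]; ring
      _ ≤ 4 * (m + 1) * ((3 * m - 2) * ((4 * m - 3).choose (3 * m - 2) * N n (e+1))) :=
          Nat.mul_le_mul_left _ (Nat.mul_le_mul_left _ (h1.trans (Nat.mul_le_mul_left _ h2)))
      _ = (4 * (m + 1) * ((3 * m - 2) * (4 * m - 3).choose (3 * m - 2))) * N n (e+1) := by ring
      _ ≤ (n + 1) * N n (e+1) := Nat.mul_le_mul_right _ (by omega)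
  have h6 := Nat.le_of_mul_le_mul_left h5 (by omega)
  exact_mod_cast h6

theorem numT4 (n m e : ℕ) (hm : 2 ≤ m) (hn : 27 ^ m ≤ n) (he : 4 * m ≤ e + 3) :
    zf n m (Wf n m) e * N n m + Wf n m ≤ N n (e+1) := by
  obtain ⟨h2, h81, h162, h324⟩ := nt_n n m hm hn
  obtain ⟨hW', hW, -⟩ := nt_data n m hm hn
  have ha := nt_a1 n m hm
  have hBa := nt_Ba n m e hm hn he
  have hV2 := nt_sq_le n m e hm hn (by omega)
  have h3n : 3 * m ≤ n := by
    have : (3 * (m:ℝ)) ≤ n := by linarith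
    exact_mod_cast this
  have hl := nt_lin n (3*m-1) (by omega) (by omega) (by omega) (e + 2 - 3 * m)
  rw [show 3 * m - 1 + (e + 2 - 3 * m) = e + 1 by omega] at hl
  have hlR : ((e:ℝ) + 3 - 3 * m) * N n (3*m-1) ≤ N n (e+1) := by
    have h : (((e + 2 - 3 * m + 1) * N n (3*m-1) : ℕ) : ℝ) ≤ N n (e+1) := by exact_mod_cast hl
    push_cast [Nat.cast_sub (show 3 * m ≤ e + 2 by omega)] at h
    linarith
  have hcube : 26 * (N n m : ℝ) ^ 3 ≤ N n (3*m-1) := by exact_mod_cast nt_cube n m hm hn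
  have heR : 4 * (m:ℝ) ≤ e + 3 := by exact_mod_cast he
  suffices h : (zf n m (Wf n m) e : ℝ) * N n m + Wf n m ≤ N n (e+1) by exact_mod_cast h
  rw [nt_zf n m e (by omega)]
  obtain ⟨V, hVe⟩ : ∃ V : ℝ, V = N n (e+1) := ⟨_, rfl⟩
  obtain ⟨a, hae⟩ : ∃ a : ℝ, a = N n m := ⟨_, rfl⟩
  obtain ⟨W, hWe⟩ : ∃ W : ℝ, W = Wf n m := ⟨_, rfl⟩
  obtain ⟨B, hBe⟩ : ∃ B : ℝ, B = N (n+1) (3*m-2) := ⟨_, rfl⟩
  rw [← hVe, ← hae, ← hBe, ← hWe]
  rw [← hVe, ← hae, ← hBe] at hBa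
  rw [← hVe, ← hae] at hV2
  rw [← hVe] at hlR
  rw [← hae] at hcube hW' hW ha
  rw [← hWe] at hW' hW
  have ha0 : 0 ≤ a := by linarith
  have hB0 : 0 ≤ B := by rw [hBe]; positivity
  have hx0 : 0 ≤ (e:ℝ) + 3 - 3 * m := by linarith
  have t1 : 12 * (B * a) ≤ V := by
    refine le_trans ?_ hBa
    have : 0 ≤ B * a := by positivity
    nlinarith
  have t2 : ((e:ℝ) + 3 - 3 * m) * (26 * a ^ 3) ≤ V :=
    (mul_le_mul_of_nonneg_left hcube hx0).trans hlR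
  have t3 : ((e:ℝ) + 3 - 3 * m) * (W + a) * a ≤ 102 / 2600 * V := by
    have e1 : (W + a) * a ≤ 102 / 100 * a ^ 3 := by
      have := mul_le_mul_of_nonneg_right hW ha0
      nlinarith
    have e2 := mul_le_mul_of_nonneg_left e1 hx0
    nlinarith
  nlinarith

theorem numT5 (n m e : ℕ) (hm : 2 ≤ m) (hn : 27 ^ m ≤ n) (he : 4 * m ≤ e + 3) :
    (m * N (n+1) m + 1) * zf n m (Wf n m) e ≤ N (n+1) (e+1) := by
  obtain ⟨h2, h81, h162, h324⟩ := nt_n n m hm hn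
  obtain ⟨hW', hW, -⟩ := nt_data n m hm hn
  have ha := nt_a1 n m hm
  have hA := nt_A n m hm hn
  have hBa := nt_Ba n m e hm hn he
  have hcu := nt_cu3 n m hm hn
  have h3n : 3 * m ≤ n := by
    have : (3 * (m:ℝ)) ≤ n := by linarith
    exact_mod_cast this
  have hl := nt_lin n (3*m) (by omega) (by omega) (by omega) (e + 1 - 3 * m)
  rw [show 3 * m + (e + 1 - 3 * m) = e + 1 by omega] at hl
  have hlR : ((e:ℝ) + 2 - 3 * m) * N n (3*m) ≤ N n (e+1) := by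
    have h : (((e + 1 - 3 * m + 1) * N n (3*m) : ℕ) : ℝ) ≤ N n (e+1) := by exact_mod_cast hl
    push_cast [Nat.cast_sub (show 3 * m ≤ e + 1 by omega)] at h
    linarith
  have heR : 4 * (m:ℝ) ≤ e + 3 := by exact_mod_cast he
  have hbig : (N n (e+1) : ℝ) ≤ N (n+1) (e+1) := by
    have h : N n (e+1) ≤ N (n+1) (e+1) := by
      rw [N_rec]
      exact Nat.le_add_left _ _
    exact_mod_cast h
  suffices h : ((m:ℝ) * N (n+1) m + 1) * zf n m (Wf n m) e ≤ N (n+1) (e+1) by exact_mod_cast h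
  refine le_trans ?_ hbig
  rw [nt_zf n m e (by omega)]
  obtain ⟨V, hVe⟩ : ∃ V : ℝ, V = N n (e+1) := ⟨_, rfl⟩
  obtain ⟨a, hae⟩ : ∃ a : ℝ, a = N n m := ⟨_, rfl⟩
  obtain ⟨A, hAe⟩ : ∃ A : ℝ, A = N (n+1) m := ⟨_, rfl⟩
  obtain ⟨W, hWe⟩ : ∃ W : ℝ, W = Wf n m := ⟨_, rfl⟩
  obtain ⟨B, hBe⟩ : ∃ B : ℝ, B = N (n+1) (3*m-2) := ⟨_, rfl⟩
  obtain ⟨D, hDe⟩ : ∃ D : ℝ, D = N n (3*m) := ⟨_, rfl⟩
  rw [← hVe, ← hAe, ← hae, ← hBe, ← hWe]
  rw [← hVe, ← hae, ← hBe] at hBa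
  rw [← hVe, ← hDe] at hlR
  rw [← hae] at hW ha hA hcu
  rw [← hAe] at hA
  rw [← hDe] at hcu
  rw [← hWe] at hW
  have ha0 : 0 ≤ a := by linarith
  have hA0 : 0 ≤ A := by rw [hAe]; positivity
  have hB0 : 0 ≤ B := by rw [hBe]; positivity
  have hW0 : 0 ≤ W := by rw [hWe]; positivity
  have hx0 : 0 ≤ (e:ℝ) + 2 - 3 * m := by linarith
  have hmA : (m:ℝ) * A + 1 ≤ (m + 1) * (102 / 100 * a) := by
    have e1 : A ≤ 163 / 162 * a := by linarith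
    have e2 : (m:ℝ) * A ≤ m * (163 / 162 * a) := mul_le_mul_of_nonneg_left e1 (by linarith)
    have e3 : 0 ≤ (m:ℝ) * a := by positivity
    nlinarith
  -- 702 m a^3 <= D
  have hD : 702 * m * a ^ 3 ≤ D := by
    have e1 : 26 * (81 * ((m:ℝ) * m)) * a ^ 3 ≤ 3 * m * D := by
      refine le_trans ?_ hcu
      apply mul_le_mul_of_nonneg_right _ (by positivity)
      linarith
    have e2 : 3 * (m:ℝ) * (702 * m * a ^ 3) ≤ 3 * m * D := by
      refine le_trans (le_of_eq ?_) e1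
      ring
    exact le_of_mul_le_mul_left e2 (by linarith)
  have hDV : ((e:ℝ) + 2 - 3 * m) * (702 * m * a ^ 3) ≤ V :=
    (mul_le_mul_of_nonneg_left hD hx0).trans hlR
  have hV0 : 0 ≤ V := by rw [hVe]; positivity
  have hz0 : 0 ≤ B + ((e:ℝ) + 3 - 3 * m) * (W + a) := by
    have : 0 ≤ ((e:ℝ) + 3 - 3 * m) * (W + a) := mul_nonneg (by linarith) (by linarith)
    linarith
  have e0 := mul_le_mul_of_nonneg_right hmA hz0
  refine e0.trans ?_
  have t1 : ((m:ℝ) + 1) * (102 / 100 * a) * B ≤ 1 / 2 * V := by nlinarith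
  have t2 : ((m:ℝ) + 1) * (102 / 100 * a) * (((e:ℝ) + 3 - 3 * m) * (W + a)) ≤ 1 / 100 * V := by
    have e1 : (W + a) * a ≤ 102 / 100 * a ^ 3 := by
      have := mul_le_mul_of_nonneg_right hW ha0
      nlinarith
    have e2 : ((e:ℝ) + 3 - 3 * m) ≤ 2 * ((e:ℝ) + 2 - 3 * m) := by linarith
    have e3 : ((m:ℝ) + 1) ≤ 2 * m := by linarith
    have e4 : ((m:ℝ) + 1) * (((e:ℝ) + 3 - 3 * m)) ≤ (2 * m) * (2 * ((e:ℝ) + 2 - 3 * m)) :=
      mul_le_mul e3 e2 (by linarith) (by linarith)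
    have e5 : (((m:ℝ) + 1) * (((e:ℝ) + 3 - 3 * m))) * ((W + a) * a) ≤
        ((2 * m) * (2 * ((e:ℝ) + 2 - 3 * m))) * (102 / 100 * a ^ 3) :=
      mul_le_mul e4 e1 (mul_nonneg (by linarith) ha0) (by positivity)
    nlinarith
  nlinarith

end Pool.Agent.Helper98.UAH
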