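import Mathlib
import Pool.Agent.Helper98.UAH.Proc
import Pool.Agent.Helper98.UAH.Low
import Pool.Agent.Helper98.UAH.NumTb
import Pool.Agent.Helper98.UAH.NumC
import Pool.Agent.Helper98.UAH.NumD
import Pool.Agent.Helper98.UAH.NumE

/-! Uniform postulation: the process in dimension more than 27^m and more than 2m. -/

namespace Pool.Agent.Helper98.UAH

open Pool.Agent.Helper46.EAH Finset

lemma zg_zf3 (n m W e : ℕ) (hm : 1 ≤ m) : zg n m W (2*m-1) e = zf n m W e := by
  unfold zg zf
  rw [show 2 * m - 1 + m - 1 = 3 * m - 2 by omega,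
    show e + 2 - (2 * m - 1 + m) = e + 3 - 3 * m by omega]

/-- very large dimension -/
theorem ex_T (k : Type) [Field k] [CharZero k] (n m : ℕ) (hm : 2 ≤ m)
    (hn : 27 ^ m ≤ n) : EX k (n+1) m (4*m-3) := by
  have hnm : 2 * m ≤ n := by
    have h := nt_big m hm
    nlinarith
  have H : HypU k n m (Wf n m) (W1f n m) (2*m-1) (3*m-2) (4*m-3) :=
    { hn := by omega
      hm := hm
      hb := by omega
      hE1 := by omega
      hE1' := by omega
      hD := by omega
      ap2 := fun e he S μ hμ hW hs => ap2_low k n m e (by omega) (by omega) (by omega) (by omega)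
        S μ hμ hW hs
      ap1 := fun e he S μ hμ hs => ap1_low k (n+1) m e (by omega) (by omega) (by omega) (by omega)
        S μ hμ hs
      c1 := fun e he => numT1 n m e hm hn (by omega)
      c2 := fun e he => numT2 n m e hm hn (by omega)
      c3 := fun e he => by
        rw [zg_zf3 _ _ _ _ (by omega)]
        exact numT3 n m e hm hn (by omega)
      c4 := fun e he => by
        rw [zg_zf3 _ _ _ _ (by omega)]
        exact numT4 n m e hm hn (by omega)
      c5 := fun e he => by
        rw [zg_zf3 _ _ _ _ (by omega)]
        exact numT5 n m e hm hn (by omega)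
      c6 := fun e he => numT6 n m e hm hn (by omega) }
  exact H.ex

/-- dimension more than twice the multiplicity -/
theorem ex_L (k : Type) [Field k] [CharZero k] (n m : ℕ) (hm : 2 ≤ m)
    (hn : 2 * m ≤ n) : EX k (n+1) m (64*m) := by
  have H : HypU k n m (Wf n m) (W1f n m) (6*m) (48*m) (64*m) :=
    { hn := by omega
      hm := hm
      hb := by omega
      hE1 := by omega
      hE1' := by omega
      hD := by omega
      ap2 := fun e he S μ hμ hW hs => ap2_low k n m e (by omega) (by omega) (by omega) (by omega)
        S μ hμ hW hs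
      ap1 := fun e he S μ hμ hs => ap1_low k (n+1) m e (by omega) (by omega) (by omega) (by omega)
        S μ hμ hs
      c1 := fun e he => numD1 n m e hm hn he
      c2 := fun e he => numD2 n m e hm hn he
      c3 := fun e he => numD3 n m e hm hn he
      c4 := fun e he => numD4 n m e hm hn he
      c5 := fun e he => numD5 n m e hm hn he
      c6 := fun e he => numD6 n m e hm hn he }
  exact H.ex

/-- simple points -/
theorem ex_sim (k : Type) [Field k] (n : ℕ) : EX k (n+1) 1 0 := by
  intro e _ S μ hμ hs
  rw [TInj_succ_iff]
  apply kill_X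
  refine hs.trans ?_
  have h1 : ∀ i ∈ S, N (n+1) (μ i) ≤ if μ i = 1 then 1 else 0 := by
    intro i hi
    have h2 := hμ i hi
    rcases Nat.eq_zero_or_pos (μ i) with h | h
    · rw [h, N_zero]
      exact Nat.zero_le _
    · rw [if_pos (by omega), show μ i = 1 by omega, N_one]
  refine (sum_le_sum h1).trans (le_of_eq ?_)
  rw [← sum_filter, sum_const, smul_eq_mul, mul_one]
  rfl

end Pool.Agent.Helper98.UAH
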