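import Mathlib
import Pool.Agent.Helper98.UAH.Inst3
import Pool.Agent.Helper98.UAH.Inst2
import Pool.Agent.Helper98.UAH.Hilb

/-! Uniform postulation in all dimensions: the Hilbert function. -/

namespace Pool.Agent.Helper98.UAH

open Pool.Agent.Helper46.EAH Finset MvPolynomial

/-- dimension more than twice the multiplicity -/
theorem ex_IIb (F : Type) [Field F] [CharZero F] (n m : ℕ) (hm : 1 ≤ m) (hn : 2 * m < n) :
    EX F n m (64*m) := by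
  obtain ⟨n, rfl⟩ := Nat.exists_eq_add_of_le' (show 1 ≤ n by omega)
  rcases Nat.eq_or_lt_of_le hm with h | h
  · subst h
    exact EX_mono (ex_sim F n) (Nat.zero_le _)
  · exact ex_L F n m h (by omega)

/-- very large dimension -/
theorem ex_Ib (F : Type) [Field F] [CharZero F] (n m : ℕ) (hm : 1 ≤ m)
    (hn : 27 ^ m < n) : EX F n m (4*m-3) := by
  obtain ⟨n, rfl⟩ := Nat.exists_eq_add_of_le' (show 1 ≤ n from
    Nat.succ_le_of_lt (lt_of_le_of_lt (Nat.zero_le _) hn))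
  rcases Nat.eq_or_lt_of_le hm with h | h
  · subst h
    exact EX_mono (ex_sim F n) (Nat.zero_le _)
  · exact ex_T F n m h (Nat.lt_succ_iff.1 hn)

/-- range of degrees in which one point of each multiplicity imposes independent conditions -/
def BlkR (n m d : ℕ) : Prop :=
  (m ≤ n + 1 ∧ 2 * m ≤ d + 2) ∨ 2 * n ^ 2 + 5 * n * m + m ^ 2 ≤ 2 * n * (d + 1)

lemma blk_range (k : Type) [Field k] (n m d : ℕ) (hn : 1 ≤ n) (h : BlkR n m d) : BlkH k n m d := by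
  rcases h with h | h
  · exact fun μ Y hY hinj => blk k n m d h.1 h.2 μ Y hY hinj
  · exact blk_nat k n m d hn h

/-- the cases settled here; `s` is the number of conditions -/
def Good2 (n m D0 W0 s d : ℕ) : Prop :=
  D0 ≤ d ∨ N n (d+1) + W0 ≤ s ∨ s + W0 ≤ N n (d+1) ∨ (2 * m < n ∧ 64 * m ≤ d) ∨
    (27 ^ m < n ∧ 4 * m ≤ d + 3) ∨
    (5 ≤ n ∧ n ≤ 2 * m ∧ 512 * m * (1 + (m:ℝ) / n) ^ 4 ≤ (d:ℝ)) ∨
    (BlkR n m d ∧
      (N n (d+1) + (2 * (N (n+1) m * N (n+1) m) + 1) ≤ s ∨ s + Wf n m ≤ N n (d+1)))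

theorem uniform2 {F : Type} [Field F] [CharZero F] (n m r : ℕ) (hn : 1 ≤ n) (hm : 1 ≤ m)
    (k : Fin r → ℕ) (hk1 : ∀ i, 1 ≤ k i) (hkm : ∀ i, k i ≤ m) (D0 W0 : ℕ)
    (hEX : EX F n m D0) (hA1 : AP1 F n m W0) (hA2 : AP2 F n m W0) :
    ∃ G : Cf F n r, G ≠ 0 ∧ ∀ P : Fin r → Fin (n+1) → F,
      eval (fun x : Fin r × Fin (n+1) => P x.1 x.2) G ≠ 0 →
        (∀ i, P i 0 ≠ 0) ∧
        ∀ d, Good2 n m D0 W0 (∑ i, N n (k i)) d →
          hilbert (fatI P k) d = ((min (N n (d+1)) (∑ i, N n (k i)) : ℕ) : ℤ) := by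
  refine hilbert_good n m r hn hm k hk1 hkm D0 hEX _ fun d hd => ?_
  rcases hd with h | h | h | ⟨h1, h2⟩ | ⟨h1, h2⟩ | ⟨h1, h2, h3⟩ | ⟨h1, h3 | h3⟩
  · exact ⟨_, le_rfl, tinj_big hm k hkm hEX h⟩
  · exact ⟨_, le_rfl, tinj_over k hm hkm hA1 h _⟩
  · exact ⟨_, le_rfl, tinj_under k hm hkm hA2 h⟩
  · exact ⟨_, le_rfl, tinj_big hm k hkm (ex_IIb F n m hm h1) h2⟩
  · exact ⟨_, le_rfl, tinj_big hm k hkm (ex_Ib F n m hm h1) (by omega)⟩
  · exact ⟨_, le_rfl, tinj_big hm k hkm (ex_IIIa F n m d h1 hm h2 h3) le_rfl⟩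
  · refine ⟨0, Nat.zero_le _, ap1_gen F n m d hn hm (blk_range F n m d hn h1) _ _
      (fun i _ => exm_le hm k hkm i) ?_⟩
    rw [sum_exm]
    omega
  · refine ⟨_, le_rfl, ap2_gen F n m d hn hm (blk_range F n m d hn h1) _ _
      (fun i _ => exm_le hm k hkm i) ?_ ?_⟩
    · exact le_trans (by omega) (exm_simple k _)
    · rw [sum_exm]
      omega

end Pool.Agent.Helper98.UAH
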