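import Pool.Agent.Helper98.UAH.Defs

/-! Uniform postulation, module M3: affine automorphisms of the field of a generic configuration. -/

set_option autoImplicit false

namespace Pool.Agent.Helper98.UAH

open Pool.Agent.Helper46.EAH Finset

/-- values of the affine substitution at the points with index in `S` -/
noncomputable def m3_v (k : Type) [Field k] (n : ℕ) (S : Finset ℕ)
    (B : Matrix (Fin n) (Fin n) k) (b : Fin n → k) (p : ℕ × ℕ) : MvPolynomial (ℕ × ℕ) k :=
  if p.1 ∈ S then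
    (if h : p.2 < n then
      ∑ l : Fin n, MvPolynomial.C (B ⟨p.2, h⟩ l) * MvPolynomial.X (p.1, (l : ℕ))
        + MvPolynomial.C (b ⟨p.2, h⟩)
    else MvPolynomial.X p)
  else MvPolynomial.X p

/-- the affine substitution -/
noncomputable def m3_f (k : Type) [Field k] (n : ℕ) (S : Finset ℕ)
    (B : Matrix (Fin n) (Fin n) k) (b : Fin n → k) :
    MvPolynomial (ℕ × ℕ) k →ₐ[k] MvPolynomial (ℕ × ℕ) k :=
  MvPolynomial.aeval (m3_v k n S B b)

lemma m3_f_in (k : Type) [Field k] (n : ℕ) (S : Finset ℕ)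
    (B : Matrix (Fin n) (Fin n) k) (b : Fin n → k) (i : ℕ) (hi : i ∈ S) (j : Fin n) :
    m3_f k n S B b (MvPolynomial.X (i, (j : ℕ))) =
      ∑ l : Fin n, MvPolynomial.C (B j l) * MvPolynomial.X (i, (l : ℕ))
        + MvPolynomial.C (b j) := by
  unfold m3_f
  rw [MvPolynomial.aeval_X]
  unfold m3_v
  rw [if_pos hi, dif_pos j.2]

lemma m3_f_not (k : Type) [Field k] (n : ℕ) (S : Finset ℕ)
    (B : Matrix (Fin n) (Fin n) k) (b : Fin n → k) (i : ℕ) (hi : i ∉ S) (j : ℕ) :
    m3_f k n S B b (MvPolynomial.X (i, j)) = MvPolynomial.X (i, j) := by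
  unfold m3_f
  rw [MvPolynomial.aeval_X]
  unfold m3_v
  rw [if_neg hi]

lemma m3_f_big (k : Type) [Field k] (n : ℕ) (S : Finset ℕ)
    (B : Matrix (Fin n) (Fin n) k) (b : Fin n → k) (i : ℕ) (j : ℕ) (hj : ¬ j < n) :
    m3_f k n S B b (MvPolynomial.X (i, j)) = MvPolynomial.X (i, j) := by
  unfold m3_f
  rw [MvPolynomial.aeval_X]
  unfold m3_v
  split_ifs with h
  · rfl
  · rfl

lemma m3_comp (k : Type) [Field k] (n : ℕ) (S : Finset ℕ)
    (B B' : Matrix (Fin n) (Fin n) k) (b b' : Fin n → k) (hB : B * B' = 1)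
    (hb : ∀ j, ∑ l, B j l * b' l + b j = 0) :
    (m3_f k n S B' b').comp (m3_f k n S B b) = AlgHom.id k _ := by
  classical
  refine MvPolynomial.algHom_ext fun p => ?_
  obtain ⟨i, j⟩ := p
  rw [AlgHom.comp_apply, AlgHom.id_apply]
  by_cases hi : i ∈ S
  · by_cases hj : j < n
    · obtain ⟨j', rfl⟩ : ∃ j' : Fin n, (j' : ℕ) = j := ⟨⟨j, hj⟩, rfl⟩
      rw [m3_f_in k n S B b i hi j']
      simp only [map_add, map_sum, map_mul, MvPolynomial.algHom_C,
        m3_f_in k n S B' b' i hi, MvPolynomial.algebraMap_eq]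
      simp only [mul_add, Finset.mul_sum, Finset.sum_add_distrib]
      rw [Finset.sum_comm]
      have h1 : ∀ y : Fin n, ∑ x : Fin n, MvPolynomial.C (B j' x) *
          (MvPolynomial.C (B' x y) * (MvPolynomial.X (i, (y : ℕ)) : MvPolynomial (ℕ × ℕ) k))
          = MvPolynomial.C ((1 : Matrix (Fin n) (Fin n) k) j' y) * MvPolynomial.X (i, (y : ℕ)) := by
        intro y
        rw [← hB, Matrix.mul_apply, map_sum, Finset.sum_mul]
        refine Finset.sum_congr rfl fun x _ => ?_
        rw [map_mul, mul_assoc]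
      rw [Finset.sum_congr rfl fun y _ => h1 y]
      rw [Finset.sum_eq_single j']
      · rw [Matrix.one_apply_eq, map_one, one_mul, add_assoc]
        have h2 : ∑ x : Fin n, MvPolynomial.C (B j' x) * (MvPolynomial.C (b' x) :
            MvPolynomial (ℕ × ℕ) k) + MvPolynomial.C (b j') = 0 := by
          have := congrArg (MvPolynomial.C (σ := ℕ × ℕ)) (hb j')
          rw [map_add, map_sum, map_zero] at this
          rw [← this]
          congr 1
          exact Finset.sum_congr rfl fun x _ => (map_mul _ _ _).symm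
        rw [h2, add_zero]
      · intro y _ hy
        rw [Matrix.one_apply_ne (Ne.symm hy), map_zero, zero_mul]
      · intro h
        exact absurd (Finset.mem_univ _) h
    · rw [m3_f_big k n S B b i j hj, m3_f_big k n S B' b' i j hj]
  · rw [m3_f_not k n S B b i hi, m3_f_not k n S B' b' i hi]

theorem exists_aut (k : Type) [Field k] (n : ℕ) (S : Finset ℕ) (B : Matrix (Fin n) (Fin n) k)
    (hB : B.det ≠ 0) (b : Fin n → k) :
    ∃ θ : Gen k ≃+* Gen k,
      (∀ c : k, θ (algebraMap k (Gen k) c) = algebraMap k (Gen k) c) ∧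
      (∀ i, i ∉ S → ∀ j, θ (gen k i j) = gen k i j) ∧
      ∀ i ∈ S, ∀ j : Fin n, θ (gen k i j) =
        ∑ l : Fin n, algebraMap k (Gen k) (B j l) * gen k i l + algebraMap k (Gen k) (b j) := by
  classical
  have hu : IsUnit B.det := isUnit_iff_ne_zero.2 hB
  have e1 : B * B⁻¹ = 1 := Matrix.mul_nonsing_inv B hu
  have e2 : B⁻¹ * B = 1 := Matrix.nonsing_inv_mul B hu
  let b' : Fin n → k := fun l => - ∑ m, B⁻¹ l m * b m
  have hb1 : ∀ j, ∑ l, B j l * b' l + b j = 0 := by
    intro j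
    have h1 : ∑ l, B j l * b' l = - ∑ m, (B * B⁻¹) j m * b m := by
      simp only [b', mul_neg, Finset.sum_neg_distrib, Finset.mul_sum]
      rw [Finset.sum_comm]
      congr 1
      refine Finset.sum_congr rfl fun m _ => ?_
      rw [Matrix.mul_apply, Finset.sum_mul]
      exact Finset.sum_congr rfl fun l _ => (mul_assoc _ _ _).symm
    rw [h1, e1]
    simp [Matrix.one_apply]
  have hb2 : ∀ j, ∑ l, B⁻¹ j l * b l + b' j = 0 := by
    intro j
    simp only [b', add_neg_cancel]
  let φ : MvPolynomial (ℕ × ℕ) k ≃ₐ[k] MvPolynomial (ℕ × ℕ) k :=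
    AlgEquiv.ofAlgHom (m3_f k n S B b) (m3_f k n S B⁻¹ b')
      (m3_comp k n S B⁻¹ B b' b e2 hb2) (m3_comp k n S B B⁻¹ b b' e1 hb1)
  have hφ : ∀ x, φ x = m3_f k n S B b x := fun x => rfl
  let θ : Gen k ≃+* Gen k := IsFractionRing.ringEquivOfRingEquiv φ.toRingEquiv
  have hθ : ∀ x : MvPolynomial (ℕ × ℕ) k,
      θ (algebraMap _ (Gen k) x) = algebraMap _ (Gen k) (m3_f k n S B b x) := by
    intro x
    exact IsFractionRing.ringEquivOfRingEquiv_algebraMap φ.toRingEquiv x
  have hk : ∀ c : k, algebraMap k (Gen k) c = algebraMap (MvPolynomial (ℕ × ℕ) k) (Gen k)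
      (MvPolynomial.C c) := fun c => by
    rw [← MvPolynomial.algebraMap_eq]
    exact IsScalarTower.algebraMap_apply k (MvPolynomial (ℕ × ℕ) k) (Gen k) c
  refine ⟨θ, ?_, ?_, ?_⟩
  · intro c
    rw [hk, hθ]
    congr 1
    unfold m3_f
    rw [MvPolynomial.algHom_C, MvPolynomial.algebraMap_eq]
  · intro i hi j
    unfold gen
    rw [hθ, m3_f_not k n S B b i hi]
  · intro i hi j
    unfold gen
    rw [hθ, m3_f_in k n S B b i hi j, map_add, map_sum, hk]
    congr 1
    refine Finset.sum_congr rfl fun l _ => ?_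
    rw [map_mul, hk]

end Pool.Agent.Helper98.UAH
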