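import Pool.Agent.Helper98.UAH.Aut
import Pool.Agent.Helper98.UAH.Subst

/-! Uniform postulation: compatibility with linear substitutions. -/

namespace Pool.Agent.Helper98.UAH

open Pool.Agent.Helper46.EAH Finset


lemma m5_ext0_comp {K : Type*} [Field K] {n e : ℕ} (θ : K →+* K) (v : Bx n e → K) (x : E n) :
    θ (ext0 v x) = ext0 (fun y => θ (v y)) x := by
  unfold ext0
  split_ifs
  · rfl
  · exact map_zero θ

lemma m5_PS_map {K : Type*} [Field K] {n e : ℕ} (θ : K →+* K) (P : ℕ → K) (a : ℕ)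
    (v : Bx n e → K) (hv : v ∈ PS n e P a) :
    (fun x => θ (v x)) ∈ PS n e (fun j => θ (P j)) a := by
  rw [mem_PS] at hv ⊢
  intro α hα
  have h := Phi_map θ n e P α (ext0 v)
  rw [hv α hα, map_zero] at h
  rw [h]
  exact congrArg _ (funext fun x => (m5_ext0_comp θ v x).symm)

lemma m5_mem_WS' {k : Type} [Field k] {n e : ℕ} {μ : ℕ → ℕ} {S : Finset ℕ} {v : Bx n e → Gen k} :
    v ∈ WS k n e μ S ↔ ∀ i ∈ S, v ∈ PS n e (gen k i) (μ i) := by
  rw [mem_WS]
  rfl

lemma m5_WS_map {k : Type} [Field k] {n e : ℕ} {μ : ℕ → ℕ} {S : Finset ℕ} (θ : Gen k →+* Gen k)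
    (hθ : ∀ i ∈ S, ∀ j, θ (gen k i j) = gen k i j) (v : Bx n e → Gen k)
    (hv : v ∈ WS k n e μ S) : (fun x => θ (v x)) ∈ WS k n e μ S := by
  rw [m5_mem_WS'] at hv ⊢
  intro i hi
  have h := m5_PS_map θ _ _ v (hv i hi)
  have h2 : (fun j => θ (gen k i j)) = gen k i := funext fun j => hθ i hi j
  rwa [h2] at h

lemma m5_subst_homog {K : Type*} [Field K] {n d : ℕ} (M : Matrix (Fin (n+1)) (Fin (n+1)) K)
    (f : MvPolynomial (Fin (n+1)) K) (hf : f.IsHomogeneous d) :
    (subst M f).IsHomogeneous d := by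
  have h1 : ∀ s, (∑ t, MvPolynomial.C (M s t) * MvPolynomial.X t :
      MvPolynomial (Fin (n+1)) K).IsHomogeneous 1 := by
    intro s
    refine MvPolynomial.IsHomogeneous.sum _ _ _ fun t _ => ?_
    have h2 := (MvPolynomial.isHomogeneous_C (Fin (n+1)) (M s t)).mul
      (MvPolynomial.isHomogeneous_X K t)
    rwa [zero_add] at h2
  have h3 := hf.aeval _ h1
  rwa [one_mul] at h3

lemma m5_map_mon {K : Type*} [Field K] {n : ℕ} (θ : K →+* K) (m : ℕ) (a : E m) :
    MvPolynomial.map θ (mon m (xv K n) a) = mon m (xv K n) a := by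
  rw [mon_map]
  refine mon_congr _ _ _ (fun i _ => ?_) _
  unfold xv
  split_ifs
  · exact MvPolynomial.map_X _ _
  · exact map_zero _

lemma m5_map_polL {K : Type*} [Field K] {n e : ℕ} (θ : K →+* K) (v : Bx n e → K) :
    MvPolynomial.map θ (polL K n e v) = polL K n e (fun x => θ (v x)) := by
  change MvPolynomial.map θ (pol n e (ext0 v)) = pol n e (ext0 fun x => θ (v x))
  unfold pol
  rw [map_sum]
  refine sum_congr rfl fun a _ => ?_
  rw [map_mul, map_mul, map_pow, MvPolynomial.map_C, MvPolynomial.map_X, m5_map_mon, m5_ext0_comp]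

lemma m5_map_subst {K : Type*} [Field K] {n : ℕ} (θ : K →+* K)
    (M : Matrix (Fin (n+1)) (Fin (n+1)) K) (hM : ∀ i j, θ (M i j) = M i j)
    (f : MvPolynomial (Fin (n+1)) K) :
    MvPolynomial.map θ (subst M f) = subst M (MvPolynomial.map θ f) := by
  have h : (MvPolynomial.map θ).comp (subst M : MvPolynomial (Fin (n+1)) K →ₐ[K] _).toRingHom =
      (subst M : MvPolynomial (Fin (n+1)) K →ₐ[K] _).toRingHom.comp (MvPolynomial.map θ) := by
    refine MvPolynomial.ringHom_ext (fun r => ?_) fun i => ?_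
    · simp [subst]
    · simp [subst, map_sum, hM]
  exact congrArg (fun g : MvPolynomial (Fin (n+1)) K →+* MvPolynomial (Fin (n+1)) K => g f) h

theorem comp_mem (k : Type) [Field k] (n e : ℕ) (μ : ℕ → ℕ) (S'' S Y : Finset ℕ)
    (h1 : Disjoint S'' S) (h2 : Disjoint S'' Y)
    (hle : WS k n e μ S'' ≤ WS k n e μ S ⊔ WS k n e μ Y)
    (M : Matrix (Fin (n+1)) (Fin (n+1)) k) (hM : ∀ j, j ≠ 0 → M 0 j = 0) (hdet : M.det ≠ 0)
    (v : Bx n e → Gen k) (hv : v ∈ WS k n e μ S'') :
    ∃ w ∈ WS k n e μ S ⊔ WS k n e μ Y,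
      polL (Gen k) n e w = subst (M.map (algebraMap k (Gen k))) (polL (Gen k) n e v) := by
  have hd : M.det = M 0 0 * (M.submatrix Fin.succ Fin.succ).det := by
    rw [Matrix.det_succ_row_zero, Finset.sum_eq_single 0]
    · simp [Fin.succAbove_zero]
    · intro j _ hj
      rw [hM j hj]
      ring
    · intro h
      exact absurd (Finset.mem_univ _) h
  have hr : M 0 0 ≠ 0 := fun h => hdet (by rw [hd, h, zero_mul])
  have hM' : (M.submatrix Fin.succ Fin.succ).det ≠ 0 := fun h => hdet (by rw [hd, h, mul_zero])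
  have hB : ((M 0 0)⁻¹ • M.submatrix Fin.succ Fin.succ).det ≠ 0 := by
    rw [Matrix.det_smul]
    exact mul_ne_zero (pow_ne_zero _ (inv_ne_zero hr)) hM'
  obtain ⟨θ, hθc, hθ1, hθ2⟩ := exists_aut k n S'' ((M 0 0)⁻¹ • M.submatrix Fin.succ Fin.succ) hB
    (fun j => (M 0 0)⁻¹ * M j.succ 0)
  have hf : (subst (M.map (algebraMap k (Gen k))) (polL (Gen k) n e v)).IsHomogeneous e :=
    m5_subst_homog _ _ (pol_homog n e _)
  obtain ⟨w, hw⟩ : subst (M.map (algebraMap k (Gen k))) (polL (Gen k) n e v) ∈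
      LinearMap.range (polL (Gen k) n e) := by
    rw [range_polL]
    exact hf
  refine ⟨w, ?_, hw⟩
  have hMθ : ∀ i j, (θ : Gen k →+* Gen k) (M.map (algebraMap k (Gen k)) i j) =
      M.map (algebraMap k (Gen k)) i j := fun i j => hθc _
  -- the transformed vector vanishes at the points of `S''`
  have htw : (fun x => (θ : Gen k →+* Gen k) (w x)) ∈ WS k n e μ S'' := by
    rw [m5_mem_WS']
    intro i hi
    rw [mem_PS_iff, ← m5_map_polL, hw, m5_map_subst _ _ hMθ, m5_map_polL]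
    refine subst_mem _ _ (hp n fun j => θ (gen k i j)) (algebraMap k (Gen k) (M 0 0))
      (by simpa using hr) (fun s => ?_) _ _ ?_
    · refine Fin.cases ?_ (fun j => ?_) s
      · rw [Fin.sum_univ_succ]
        simp only [hp, Fin.cons_zero, Fin.cons_succ, Matrix.map_apply, mul_one]
        rw [Finset.sum_eq_zero, add_zero]
        intro t _
        rw [hM _ (Fin.succ_ne_zero t), map_zero, zero_mul]
      · rw [Fin.sum_univ_succ]
        simp only [hp, Fin.cons_zero, Fin.cons_succ, Matrix.map_apply, mul_one]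
        rw [hθ2 i hi j, mul_add, mul_sum, ← map_mul, mul_inv_cancel_left₀ hr, add_comm]
        congr 1
        refine sum_congr rfl fun l _ => ?_
        rw [← mul_assoc, ← map_mul]
        congr 2
        simp only [Matrix.smul_apply, Matrix.submatrix_apply, smul_eq_mul]
        rw [mul_inv_cancel_left₀ hr]
    · exact (mem_PS_iff n e _ _ _).1 (m5_PS_map (θ : Gen k →+* Gen k) _ _ v ((m5_mem_WS'.1 hv) i hi))
  obtain ⟨u1, hu1, u2, hu2, hu⟩ := Submodule.mem_sup.1 (hle htw)
  have hsymm : ∀ i, i ∉ S'' → ∀ j, (θ.symm : Gen k →+* Gen k) (gen k i j) = gen k i j := by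
    intro i hi j
    have := hθ1 i hi j
    change θ.symm (gen k i j) = gen k i j
    rw [RingEquiv.symm_apply_eq]
    exact this.symm
  have h3 := m5_WS_map (θ.symm : Gen k →+* Gen k)
    (fun i hi => hsymm i (Finset.disjoint_right.1 h1 hi)) u1 hu1
  have h4 := m5_WS_map (θ.symm : Gen k →+* Gen k)
    (fun i hi => hsymm i (Finset.disjoint_right.1 h2 hi)) u2 hu2
  refine Submodule.mem_sup.2 ⟨_, h3, _, h4, ?_⟩
  funext x
  have h5 := congrFun hu x
  change θ.symm (u1 x) + θ.symm (u2 x) = w x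
  rw [← map_add]
  change θ.symm ((u1 + u2) x) = w x
  rw [hu]
  exact θ.symm_apply_apply (w x)

end Pool.Agent.Helper98.UAH
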