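import Pool.Agent.Helper98.UAH.Defs

/-! Uniform postulation: abstract growth argument. -/

namespace Pool.Agent.Helper98.UAH

open Pool.Agent.Helper46.EAH Finset

/-- intersection of the spaces with index in `S` -/
def m1_I {K V : Type*} [Field K] [AddCommGroup V] [Module K V] (W : ℕ → Submodule K V)
    (S : Finset ℕ) : Submodule K V := ⨅ i ∈ S, W i

/-- dimension of the intersection -/
noncomputable def m1_f {K V : Type*} [Field K] [AddCommGroup V] [Module K V]
    (W : ℕ → Submodule K V) (S : Finset ℕ) : ℕ := Module.finrank K (m1_I W S)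

section lin

variable {K V : Type*} [Field K] [AddCommGroup V] [Module K V] (W : ℕ → Submodule K V)

lemma m1_I_union (S R : Finset ℕ) : m1_I W (S ∪ R) = m1_I W S ⊓ m1_I W R := by
  unfold m1_I
  exact Finset.iInf_union

lemma m1_I_anti {S R : Finset ℕ} (h : S ⊆ R) : m1_I W R ≤ m1_I W S := by
  unfold m1_I
  exact biInf_mono (fun i hi => h hi)

variable [FiniteDimensional K V]

lemma m1_f_anti {S R : Finset ℕ} (h : S ⊆ R) : m1_f W R ≤ m1_f W S :=
  Submodule.finrank_mono (m1_I_anti W h)

lemma m1_dim (S R : Finset ℕ) :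
    Module.finrank K (m1_I W S ⊔ m1_I W R : Submodule K V) + m1_f W (S ∪ R) =
      m1_f W S + m1_f W R := by
  unfold m1_f
  rw [m1_I_union]
  exact Submodule.finrank_sup_add_finrank_inf_eq _ _

lemma m1_submod {P Q : Finset ℕ} (B : Finset ℕ) (h : P ⊆ Q) :
    m1_f W Q + m1_f W (P ∪ B) ≤ m1_f W P + m1_f W (Q ∪ B) := by
  have h1 := m1_dim W Q B
  have h2 := m1_dim W P B
  have h3 : Module.finrank K (m1_I W Q ⊔ m1_I W B : Submodule K V) ≤
      Module.finrank K (m1_I W P ⊔ m1_I W B : Submodule K V) :=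
    Submodule.finrank_mono (sup_le_sup_right (m1_I_anti W h) _)
  omega

lemma m1_f_empty : m1_f W ∅ = Module.finrank K V := by
  have h : m1_I W ∅ = ⊤ := by
    unfold m1_I
    simp
  unfold m1_f
  rw [h]
  exact finrank_top K V

lemma m1_step (S : Finset ℕ) (i b : ℕ) (h : Module.finrank K V ≤ Module.finrank K (W i) + b) :
    m1_f W S ≤ m1_f W (S ∪ {i}) + b := by
  have h1 := m1_dim W S {i}
  have h2 : m1_f W {i} = Module.finrank K (W i) := by
    unfold m1_f m1_I
    rw [show (⨅ j ∈ ({i} : Finset ℕ), W j) = W i by simp]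
  have h3 : Module.finrank K (m1_I W S ⊔ m1_I W {i} : Submodule K V) ≤ Module.finrank K V :=
    Submodule.finrank_le _
  omega

lemma m1_steps (S R : Finset ℕ) (b : ℕ → ℕ)
    (h : ∀ i ∈ R, Module.finrank K V ≤ Module.finrank K (W i) + b i) :
    m1_f W S ≤ m1_f W (S ∪ R) + ∑ i ∈ R, b i := by
  classical
  induction R using Finset.induction_on with
  | empty => simp
  | insert i R hi ih =>
    rw [Finset.sum_insert hi]
    have h1 := ih fun j hj => h j (Finset.mem_insert_of_mem hj)
    have h2 := m1_step W (S ∪ R) i (b i) (h i (Finset.mem_insert_self _ _))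
    have h3 : S ∪ R ∪ {i} = S ∪ insert i R := by
      ext j
      simp only [Finset.mem_union, Finset.mem_insert, Finset.mem_singleton]
      tauto
    rw [h3] at h2
    omega

lemma m1_deficient (P : Finset ℕ) (b : ℕ → ℕ)
    (h : Module.finrank K V < m1_f W P + ∑ i ∈ P, b i) :
    ∃ P' ⊆ P, ∃ x ∈ P, x ∉ P' ∧ m1_f W P' < m1_f W (P' ∪ {x}) + b x := by
  classical
  induction P using Finset.induction_on with
  | empty =>
    rw [m1_f_empty] at h
    simp at h
  | insert x P hx ih =>
    by_cases hP : Module.finrank K V < m1_f W P + ∑ i ∈ P, b i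
    · obtain ⟨P', h1, y, h2, h3, h4⟩ := ih hP
      exact ⟨P', h1.trans (Finset.subset_insert _ _), y, Finset.mem_insert_of_mem h2, h3, h4⟩
    · refine ⟨P, Finset.subset_insert _ _, x, Finset.mem_insert_self _ _, hx, ?_⟩
      rw [Finset.sum_insert hx] at h
      have h3 : P ∪ {x} = insert x P := by
        ext j
        simp only [Finset.mem_union, Finset.mem_insert, Finset.mem_singleton]
        tauto
      rw [h3]
      omega

end lin

section types

/-- all types in `T`, with `c t` points of type `t` -/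
def m1_Ty (μ : ℕ → ℕ) (T : Finset ℕ) (c : ℕ → ℕ) (S : Finset ℕ) : Prop :=
  (∀ i ∈ S, μ i ∈ T) ∧ ∀ t ∈ T, (S.filter (fun i => μ i = t)).card = c t

variable (μ : ℕ → ℕ) (T : Finset ℕ)

lemma m1_Ty_eq {c : ℕ → ℕ} {S S' : Finset ℕ} (h : m1_Ty μ T c S) (h' : m1_Ty μ T c S') (t : ℕ) :
    (S.filter (fun i => μ i = t)).card = (S'.filter (fun i => μ i = t)).card := by
  by_cases ht : t ∈ T
  · rw [h.2 t ht, h'.2 t ht]
  · have aux : ∀ R : Finset ℕ, (∀ i ∈ R, μ i ∈ T) → R.filter (fun i => μ i = t) = ∅ := by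
      intro R hR
      rw [Finset.filter_eq_empty_iff]
      intro i hi h1
      exact ht (h1 ▸ hR i hi)
    rw [aux S h.1, aux S' h'.1]

lemma m1_sub_type (c : ℕ → ℕ) (R : Finset ℕ)
    (h : ∀ t ∈ T, c t ≤ (R.filter (fun i => μ i = t)).card) : ∃ P ⊆ R, m1_Ty μ T c P := by
  classical
  have h1 : ∀ t, ∃ P ⊆ R.filter (fun i => μ i = t), t ∈ T → P.card = c t := by
    intro t
    by_cases ht : t ∈ T
    · obtain ⟨P, hP, hc⟩ := Finset.exists_subset_card_eq (h t ht)
      exact ⟨P, hP, fun _ => hc⟩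
    · exact ⟨∅, Finset.empty_subset _, fun h => absurd h ht⟩
  choose Q hQ hc using h1
  have hQm : ∀ t, ∀ i ∈ Q t, i ∈ R ∧ μ i = t := fun t i hi => Finset.mem_filter.1 (hQ t hi)
  refine ⟨T.biUnion Q, ?_, ?_, ?_⟩
  · intro i hi
    obtain ⟨t, _, ht⟩ := Finset.mem_biUnion.1 hi
    exact (hQm t i ht).1
  · intro i hi
    obtain ⟨t, htT, ht⟩ := Finset.mem_biUnion.1 hi
    rw [(hQm t i ht).2]
    exact htT
  · intro t ht
    rw [← hc t ht]
    congr 1
    ext i
    rw [Finset.mem_filter, Finset.mem_biUnion]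
    constructor
    · rintro ⟨⟨s, _, hs⟩, h2⟩
      have := (hQm s i hs).2
      rw [h2] at this
      rw [this]
      exact hs
    · intro hi
      exact ⟨⟨t, ht, hi⟩, (hQm t i hi).2⟩

lemma m1_fresh (hinf : ∀ t ∈ T, {i | μ i = t}.Infinite) (c : ℕ → ℕ) (R : Finset ℕ) :
    ∃ P, Disjoint P R ∧ m1_Ty μ T c P := by
  classical
  have h1 : ∀ t, ∃ P : Finset ℕ, Disjoint P R ∧ (∀ i ∈ P, μ i = t) ∧ (t ∈ T → P.card = c t) := by
    intro t
    by_cases ht : t ∈ T
    · have h2 : ({i | μ i = t} \ (R : Set ℕ)).Infinite := (hinf t ht).sdiff R.finite_toSet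
      obtain ⟨P, hP, hc⟩ := h2.exists_subset_card_eq (c t)
      refine ⟨P, ?_, ?_, fun _ => hc⟩
      · rw [Finset.disjoint_left]
        intro i hi hR
        exact (hP hi).2 hR
      · intro i hi
        exact (hP hi).1
    · exact ⟨∅, by simp, by simp, fun h => absurd h ht⟩
  choose Q hQ1 hQ2 hQ3 using h1
  obtain ⟨P, hP, hT⟩ := m1_sub_type μ T c (T.biUnion Q) (by
    intro t ht
    rw [← hQ3 t ht]
    apply Finset.card_le_card
    intro i hi
    rw [Finset.mem_filter, Finset.mem_biUnion]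
    exact ⟨⟨t, ht, hi⟩, hQ2 t i hi⟩)
  refine ⟨P, ?_, hT⟩
  rw [Finset.disjoint_left]
  intro i hi hR
  obtain ⟨t, _, ht⟩ := Finset.mem_biUnion.1 (hP hi)
  exact Finset.disjoint_left.1 (hQ1 t) ht hR

lemma m1_Ty_union {c c' : ℕ → ℕ} {S S' : Finset ℕ} (hd : Disjoint S S') (h : m1_Ty μ T c S)
    (h' : m1_Ty μ T c' S') : m1_Ty μ T (fun t => c t + c' t) (S ∪ S') := by
  classical
  refine ⟨?_, ?_⟩
  · intro i hi
    rcases Finset.mem_union.1 hi with h1 | h1
    · exact h.1 i h1
    · exact h'.1 i h1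
  · intro t ht
    rw [Finset.filter_union, Finset.card_union_of_disjoint
      (Finset.disjoint_filter_filter hd), h.2 t ht, h'.2 t ht]

lemma m1_sum (a : ℕ → ℕ) {c : ℕ → ℕ} {S : Finset ℕ} (h : m1_Ty μ T c S) :
    ∑ i ∈ S, a (μ i) = ∑ t ∈ T, c t * a t := by
  classical
  rw [← Finset.sum_fiberwise_of_maps_to (fun i hi => h.1 i hi)]
  refine Finset.sum_congr rfl fun t ht => ?_
  rw [← h.2 t ht, ← smul_eq_mul, ← Finset.sum_const]
  refine Finset.sum_congr rfl fun i hi => ?_
  rw [(Finset.mem_filter.1 hi).2]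

lemma m1_swap {c : ℕ → ℕ} {S : Finset ℕ} (h : m1_Ty μ T c S) {i i' : ℕ} (hi : i ∈ S)
    (hi' : i' ∉ S) (hμ : μ i' = μ i) : m1_Ty μ T c (insert i' (S.erase i)) := by
  classical
  refine ⟨?_, ?_⟩
  · intro j hj
    rcases Finset.mem_insert.1 hj with rfl | h1
    · rw [hμ]
      exact h.1 i hi
    · exact h.1 j (Finset.mem_of_mem_erase h1)
  · intro t ht
    rw [← h.2 t ht]
    by_cases hit : μ i = t
    · rw [Finset.filter_insert, if_pos (by rw [hμ]; exact hit), Finset.filter_erase,
        Finset.card_insert_of_notMem, Finset.card_erase_of_mem]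
      · have : 0 < (S.filter (fun i => μ i = t)).card :=
          Finset.card_pos.2 ⟨i, Finset.mem_filter.2 ⟨hi, hit⟩⟩
        omega
      · exact Finset.mem_filter.2 ⟨hi, hit⟩
      · intro h1
        exact hi' (Finset.mem_filter.1 (Finset.mem_of_mem_erase h1)).1
    · rw [Finset.filter_insert, if_neg (by rw [hμ]; exact hit), Finset.filter_erase,
        Finset.erase_eq_of_notMem]
      intro h1
      exact hit (Finset.mem_filter.1 h1).2

end types

lemma m1_numeric (A : ℕ) (F : ℕ → ℕ) (h1 : ∀ j, F (j+1) ≤ F j) (h2 : F 0 + 1 ≤ F 1 + A)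
    (h4 : ∀ j, F (j+1) ≠ 0 → 2 * F (j+1) + 1 ≤ F j + F (j+2)) :
    2 * F 0 ≤ A * (A - 1) ∧ F A = 0 := by
  have h5 : ∀ j, F j = 0 ∨ F j + j + 1 ≤ F (j+1) + A := by
    intro j
    induction j with
    | zero =>
      right
      simpa using h2
    | succ j ih =>
      by_cases h : F (j+1) = 0
      · exact Or.inl h
      · right
        have h6 := h4 j h
        have h7 := h1 j
        have h9 : F (j + 1 + 1) = F (j + 2) := rfl
        rcases ih with h8 | h8
        · omega
        · omega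
  have h6 : F A = 0 := by
    rcases h5 A with h | h
    · exact h
    · have := h1 A
      omega
  refine ⟨?_, h6⟩
  have h7 : ∀ d, d ≤ A → 2 * F (A - d) ≤ d * (d - 1) := by
    intro d
    induction d with
    | zero =>
      intro _
      simp [h6]
    | succ d ih =>
      intro hd
      have h8 := ih (by omega)
      have h9 : A - d = A - (d+1) + 1 := by omega
      rcases h5 (A - (d+1)) with h | h
      · rw [h]
        simp
      · rw [← h9] at h
        have h10 : F (A - (d+1)) ≤ F (A - d) + d := by omega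
        have h11 : (d + 1) * (d + 1 - 1) = d * (d - 1) + 2 * d := by
          rcases d with _ | d
          · simp
          · simp only [Nat.add_sub_cancel]
            ring
        rw [h11]
        omega
  have := h7 A le_rfl
  simpa using this

theorem growth {K V : Type*} [Field K] [AddCommGroup V] [Module K V] [FiniteDimensional K V]
    (μ : ℕ → ℕ) (T : Finset ℕ) (hinf : ∀ t ∈ T, {i | μ i = t}.Infinite)
    (a : ℕ → ℕ) (W : ℕ → Submodule K V)
    (cod : ∀ i, μ i ∈ T → Module.finrank K V ≤ Module.finrank K (W i) + a (μ i))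
    (sym : ∀ S S' : Finset ℕ,
      (∀ t, (S.filter (fun i => μ i = t)).card = (S'.filter (fun i => μ i = t)).card) →
      Module.finrank K (⨅ i ∈ S, W i : Submodule K V) =
        Module.finrank K (⨅ i ∈ S', W i : Submodule K V))
    (blk : ∀ Y : Finset ℕ, IsBlock μ T Y →
      Module.finrank K (⨅ i ∈ Y, W i : Submodule K V) + ∑ t ∈ T, a t ≤ Module.finrank K V)
    (key : ∀ S'' S Y : Finset ℕ, Disjoint S'' S → Disjoint S'' Y → Disjoint S Y →
      (⨅ i ∈ S'', W i : Submodule K V) ≤ (⨅ i ∈ S, W i) ⊔ (⨅ i ∈ Y, W i) →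
      (⨅ i ∈ S'', W i : Submodule K V) ≠ ⊥ →
      (⨅ i ∈ S, W i) ⊔ (⨅ i ∈ Y, W i) = (⊤ : Submodule K V))
    (X : Finset ℕ) (hXT : ∀ i ∈ X, μ i ∈ T)
    (hX : Module.finrank K V <
      Module.finrank K (⨅ i ∈ X, W i : Submodule K V) + ∑ i ∈ X, a (μ i)) :
    2 * Module.finrank K (⨅ i ∈ X, W i : Submodule K V) ≤
        (∑ t ∈ T, a t) * (∑ t ∈ T, a t - 1) ∧
      ∀ X' : Finset ℕ, X ⊆ X' → (∀ i ∈ X', μ i ∈ T) →
        (∀ t ∈ T, ∑ t ∈ T, a t ≤ ((X' \ X).filter (fun i => μ i = t)).card) →
        (⨅ i ∈ X', W i : Submodule K V) = ⊥ := by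
  classical
  have sym' : ∀ S S' : Finset ℕ,
      (∀ t, (S.filter (fun i => μ i = t)).card = (S'.filter (fun i => μ i = t)).card) →
      m1_f W S = m1_f W S' := sym
  have blk' : ∀ Y : Finset ℕ, m1_Ty μ T (fun _ => 1) Y →
      m1_f W Y + ∑ t ∈ T, a t ≤ Module.finrank K V := fun Y hY => blk Y hY
  have key' : ∀ S'' S Y : Finset ℕ, Disjoint S'' S → Disjoint S'' Y → Disjoint S Y →
      m1_I W S'' ≤ m1_I W S ⊔ m1_I W Y → m1_I W S'' ≠ ⊥ → m1_I W S ⊔ m1_I W Y = ⊤ := key
  have hX' : Module.finrank K V < m1_f W X + ∑ i ∈ X, a (μ i) := hX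
  set A : ℕ := ∑ t ∈ T, a t with hA
  let x : ℕ → ℕ := fun t => (X.filter (fun i => μ i = t)).card
  have hXx : m1_Ty μ T x X := ⟨hXT, fun t _ => rfl⟩
  have hfr : ∀ j : ℕ, ∃ P, m1_Ty μ T (fun t => x t + j) P := fun j => by
    obtain ⟨P, _, hP⟩ := m1_fresh μ T hinf (fun t => x t + j) ∅
    exact ⟨P, hP⟩
  choose XX hXX using hfr
  let F : ℕ → ℕ := fun j => m1_f W (XX j)
  have hF : ∀ j S, m1_Ty μ T (fun t => x t + j) S → m1_f W S = F j := fun j S hS =>
    sym' S (XX j) (m1_Ty_eq μ T hS (hXX j))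
  have hadd : ∀ j S Y, m1_Ty μ T (fun t => x t + j) S → m1_Ty μ T (fun _ => 1) Y → Disjoint S Y →
      m1_Ty μ T (fun t => x t + (j + 1)) (S ∪ Y) := fun j S Y hS hY hd =>
    m1_Ty_union μ T (c := fun t => x t + j) (c' := fun _ => 1) hd hS hY
  have hF0 : m1_f W X = F 0 := hF 0 X hXx
  have h1 : ∀ j, F (j+1) ≤ F j := by
    intro j
    obtain ⟨Y, hY, hYT⟩ := m1_fresh μ T hinf (fun _ => 1) (XX j)
    rw [← hF (j+1) _ (hadd j (XX j) Y (hXX j) hYT hY.symm)]
    exact m1_f_anti W Finset.subset_union_left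
  have h2 : F 0 + 1 ≤ F 1 + A := by
    obtain ⟨P', hP', y, hyX, hyP, hlt⟩ := m1_deficient W X (fun i => a (μ i)) hX'
    obtain ⟨Y, hY, hYT⟩ := m1_fresh μ T hinf (fun _ => 1) X
    have hex : ∃ z ∈ Y, μ z = μ y := by
      have := hYT.2 (μ y) (hXT y hyX)
      have h3 : 0 < (Y.filter (fun i => μ i = μ y)).card := by rw [this]; exact Nat.one_pos
      obtain ⟨z, hz⟩ := Finset.card_pos.1 h3
      exact ⟨z, (Finset.mem_filter.1 hz).1, (Finset.mem_filter.1 hz).2⟩
    obtain ⟨z, hzY, hz⟩ := hex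
    have hzX : z ∉ X := fun h => Finset.disjoint_left.1 hY hzY h
    have h3 := m1_submod W {z} hP'
    have h4 : m1_f W (P' ∪ {z}) = m1_f W (P' ∪ {y}) := by
      apply sym'
      intro t
      rw [Finset.filter_union, Finset.filter_union, Finset.card_union_of_disjoint,
        Finset.card_union_of_disjoint, Finset.filter_singleton, Finset.filter_singleton, hz]
      · split_ifs <;> simp
      · apply Finset.disjoint_filter_filter
        rw [Finset.disjoint_singleton_right]
        exact hyP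
      · apply Finset.disjoint_filter_filter
        rw [Finset.disjoint_singleton_right]
        exact fun h => hzX (hP' h)
    have h5 := m1_steps W (X ∪ {z}) (Y.erase z) (fun i => a (μ i)) (fun i hi =>
      cod i (hYT.1 i (Finset.mem_of_mem_erase hi)))
    have h6 : X ∪ {z} ∪ Y.erase z = X ∪ Y := by
      ext i
      simp only [Finset.mem_union, Finset.mem_singleton, Finset.mem_erase]
      constructor
      · rintro ((h | h) | h)
        · exact Or.inl h
        · rw [h]
          exact Or.inr hzY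
        · exact Or.inr h.2
      · rintro (h | h)
        · exact Or.inl (Or.inl h)
        · by_cases hiz : i = z
          · exact Or.inl (Or.inr hiz)
          · exact Or.inr ⟨hiz, h⟩
    rw [h6] at h5
    have h7 : ∑ i ∈ Y.erase z, a (μ i) + a (μ z) = A := by
      have h8 := m1_sum μ T a hYT
      rw [← Finset.sum_erase_add Y _ hzY] at h8
      rw [h8, hA]
      simp
    have h8 : m1_f W (X ∪ Y) = F 1 := hF 1 _ (hadd 0 X Y hXx hYT hY.symm)
    rw [hz] at h7
    rw [h8] at h5
    rw [h4] at h3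
    have hlt' : m1_f W P' < m1_f W (P' ∪ {y}) + a (μ y) := hlt
    rw [hF0] at h3
    have h5' : m1_f W (X ∪ {z}) ≤ F 1 + ∑ i ∈ Y.erase z, a (μ i) := h5
    omega
  have h3 : ∀ j, 2 * F (j+1) ≤ F j + F (j+2) := by
    intro j
    obtain ⟨Y, hY, hYT⟩ := m1_fresh μ T hinf (fun _ => 1) (XX j)
    have hQ := hadd j (XX j) Y (hXX j) hYT hY.symm
    obtain ⟨Z, hZ, hZT⟩ := m1_fresh μ T hinf (fun _ => 1) (XX j ∪ Y)
    have hd1 : Disjoint (XX j) Z := (Finset.disjoint_of_subset_right Finset.subset_union_left hZ).symm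
    have h4 := m1_submod W Z (Finset.subset_union_left (s₁ := XX j) (s₂ := Y))
    rw [hF (j+1) _ hQ, hF (j+1) _ (hadd j _ Z (hXX j) hZT hd1), hF j _ (hXX j),
      hF (j+2) _ (hadd (j+1) _ Z hQ hZT hZ.symm)] at h4
    omega
  have h3' : ∀ j, F (j+1) + F 1 ≤ F (j+2) + F 0 := by
    intro j
    induction j with
    | zero =>
      have := h3 0
      simp only [Nat.zero_add] at this ⊢
      omega
    | succ j ih =>
      have := h3 (j+1)
      have e1 : j + 1 + 1 = j + 2 := rfl
      have e2 : j + 1 + 2 = j + 3 := rfl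
      rw [e1, e2] at this ⊢
      omega
  have h4 : ∀ j, F (j+1) ≠ 0 → 2 * F (j+1) + 1 ≤ F j + F (j+2) := by
    intro j hj
    by_contra hcon
    have heq : 2 * F (j+1) = F j + F (j+2) := le_antisymm (h3 j) (by omega)
    obtain ⟨Y, _, hYT⟩ := m1_fresh μ T hinf (fun _ => 1) ∅
    have claimA : ∀ P S, P ⊆ S → m1_Ty μ T (fun t => x t + j) P →
        m1_Ty μ T (fun t => x t + (j + 1)) S → Disjoint S Y →
        m1_I W S ⊔ m1_I W Y = m1_I W P ⊔ m1_I W Y := by
      intro P S hPS hP hS hd
      apply Submodule.eq_of_le_of_finrank_eq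
      · exact sup_le_sup_right (m1_I_anti W hPS) _
      · have e1 := m1_dim W S Y
        have e2 := m1_dim W P Y
        rw [hF (j+1) _ hS, hF (j+2) _ (hadd (j+1) _ Y hS hYT hd)] at e1
        rw [hF j _ hP, hF (j+1) _ (hadd j _ Y hP hYT (Finset.disjoint_of_subset_left hPS hd))] at e2
        omega
    have exch : ∀ S i i', m1_Ty μ T (fun t => x t + (j + 1)) S → Disjoint S Y → i ∈ S → i' ∉ S →
        i' ∉ Y → μ i' = μ i →
        m1_I W S ⊔ m1_I W Y = m1_I W (insert i' (S.erase i)) ⊔ m1_I W Y := by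
      intro S i i' hS hd hi hi' hiY hμ
      obtain ⟨P, hP, hPT⟩ := m1_sub_type μ T (fun t => x t + j) (S.erase i) (by
        intro t ht
        rw [Finset.filter_erase]
        have e1 := hS.2 t ht
        have e2 := Finset.pred_card_le_card_erase (s := S.filter (fun i => μ i = t)) (a := i)
        rw [e1] at e2
        have e3 : x t + (j + 1) - 1 = x t + j := by omega
        rw [e3] at e2
        exact e2)
      rw [claimA P S (hP.trans (Finset.erase_subset _ _)) hPT hS hd]
      rw [claimA P (insert i' (S.erase i)) (hP.trans (Finset.subset_insert _ _)) hPT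
        (m1_swap μ T hS hi hi' hμ)]
      rw [Finset.disjoint_insert_left]
      exact ⟨hiY, Finset.disjoint_of_subset_left (Finset.erase_subset _ _) hd⟩
    have hall : ∀ (m : ℕ) (S S'' : Finset ℕ), (S \ S'').card = m →
        m1_Ty μ T (fun t => x t + (j + 1)) S → m1_Ty μ T (fun t => x t + (j + 1)) S'' →
        Disjoint S Y → Disjoint S'' Y →
        m1_I W S ⊔ m1_I W Y = m1_I W S'' ⊔ m1_I W Y := by
      intro m
      induction m with
      | zero =>
        intro S S'' hc hS hS'' hd hd''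
        have hsub : S ⊆ S'' := Finset.sdiff_eq_empty_iff_subset.1 (Finset.card_eq_zero.1 hc)
        have hcard : S.card = S''.card := by
          have e1 := m1_sum μ T (fun _ => 1) hS
          have e2 := m1_sum μ T (fun _ => 1) hS''
          simp only [Finset.sum_const, smul_eq_mul, mul_one] at e1 e2
          rw [e1, e2]
        rw [Finset.eq_of_subset_of_card_le hsub hcard.ge]
      | succ m ih =>
        intro S S'' hc hS hS'' hd hd''
        have hne : (S \ S'').Nonempty := by
          rw [← Finset.card_pos, hc]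
          exact Nat.succ_pos _
        obtain ⟨i, hi⟩ := hne
        obtain ⟨hiS, hiS''⟩ := Finset.mem_sdiff.1 hi
        have hex : ∃ i' ∈ S'', i' ∉ S ∧ μ i' = μ i := by
          by_contra hno
          push Not at hno
          have hsub : S''.filter (fun l => μ l = μ i) ⊆ S.filter (fun l => μ l = μ i) := by
            intro l hl
            obtain ⟨l1, l2⟩ := Finset.mem_filter.1 hl
            refine Finset.mem_filter.2 ⟨?_, l2⟩
            by_contra hlS
            exact hno l l1 hlS l2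
          have heqf := Finset.eq_of_subset_of_card_le hsub (m1_Ty_eq μ T hS hS'' (μ i)).le
          have : i ∈ S.filter (fun l => μ l = μ i) := Finset.mem_filter.2 ⟨hiS, rfl⟩
          rw [← heqf] at this
          exact hiS'' (Finset.mem_filter.1 this).1
        obtain ⟨i', hi'S'', hi'S, hμ⟩ := hex
        have hi'Y : i' ∉ Y := fun h => Finset.disjoint_left.1 hd'' hi'S'' h
        rw [exch S i i' hS hd hiS hi'S hi'Y hμ]
        apply ih
        · have e1 : insert i' (S.erase i) \ S'' = (S \ S'').erase i := by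
            ext l
            simp only [Finset.mem_sdiff, Finset.mem_insert, Finset.mem_erase]
            constructor
            · rintro ⟨h | h, h'⟩
              · rw [h] at h'
                exact absurd hi'S'' h'
              · exact ⟨h.1, h.2, h'⟩
            · rintro ⟨h, h', h''⟩
              exact ⟨Or.inr ⟨h, h'⟩, h''⟩
          rw [e1, Finset.card_erase_of_mem hi, hc]
          rfl
        · exact m1_swap μ T hS hiS hi'S hμ
        · exact hS''
        · rw [Finset.disjoint_insert_left]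
          exact ⟨hi'Y, Finset.disjoint_of_subset_left (Finset.erase_subset _ _) hd⟩
        · exact hd''
    obtain ⟨S, hSd, hST⟩ := m1_fresh μ T hinf (fun t => x t + (j + 1)) Y
    obtain ⟨S'', hS''d, hS''T⟩ := m1_fresh μ T hinf (fun t => x t + (j + 1)) (S ∪ Y)
    rw [Finset.disjoint_union_right] at hS''d
    have hZ := hall _ S S'' rfl hST hS''T hSd hS''d.2
    have hle : m1_I W S'' ≤ m1_I W S ⊔ m1_I W Y := by
      rw [hZ]
      exact le_sup_left
    have hnb : m1_I W S'' ≠ ⊥ := by
      intro hb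
      apply hj
      rw [← hF (j+1) _ hS''T]
      unfold m1_f
      rw [hb]
      simp
    have htop := key' S'' S Y hS''d.1 hS''d.2 hSd hle hnb
    have e1 := m1_dim W S Y
    rw [htop, finrank_top, hF (j+1) _ hST, hF (j+2) _ (hadd (j+1) _ Y hST hYT hSd)] at e1
    have e2 := blk' Y hYT
    have e3 := h3' j
    omega
  obtain ⟨hn1, hn2⟩ := m1_numeric A F h1 h2 h4
  refine ⟨?_, ?_⟩
  · rw [← hF0] at hn1
    exact hn1
  · intro X' hXX' hX'T hcount
    obtain ⟨P, hP, hPT⟩ := m1_sub_type μ T (fun _ => A) (X' \ X) hcount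
    have hd : Disjoint X P := by
      rw [Finset.disjoint_right]
      intro i hi
      exact (Finset.mem_sdiff.1 (hP hi)).2
    have hU : m1_Ty μ T (fun t => x t + A) (X ∪ P) := m1_Ty_union μ T hd hXx hPT
    have e1 : m1_f W (X ∪ P) = 0 := by rw [hF A _ hU, hn2]
    have e2 : m1_I W (X ∪ P) = ⊥ := by
      unfold m1_f at e1
      exact Submodule.finrank_eq_zero.1 e1
    have e3 : m1_I W X' ≤ m1_I W (X ∪ P) := m1_I_anti W (by
      intro i hi
      rcases Finset.mem_union.1 hi with h | h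
      · exact hXX' h
      · exact (Finset.mem_sdiff.1 (hP h)).1)
    rw [e2] at e3
    exact le_bot_iff.1 e3

end Pool.Agent.Helper98.UAH
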