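import Pool.Agent.Helper98.UAH.Defs

/-! Uniform postulation, module M11: numerics, first part. -/

namespace Pool.Agent.Helper98.UAH

open Pool.Agent.Helper46.EAH Finset

/-- upper bound for `N` -/
lemma m11_upper (n q : ℕ) : N n (q+1) ≤ (n + q) ^ q := by
  rw [N_succ]
  have h : (n + q).choose n = (n + q).choose q := by
    rw [Nat.choose_symm_add]
  rw [h]
  exact Nat.choose_le_pow (n + q) q

lemma m11_lower (n q : ℕ) : n ^ q ≤ q ^ q * N n (q+1) := by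
  rw [N_succ]
  have h : (n + q).choose n = (n + q).choose q := by
    rw [Nat.choose_symm_add]
  rw [h]
  have h1 : (n + q + 1 - q) ^ q ≤ (n + q).descFactorial q := Nat.pow_sub_le_descFactorial (n + q) q
  have h2 : (n + q).descFactorial q = q.factorial * (n + q).choose q :=
    Nat.descFactorial_eq_factorial_mul_choose (n + q) q
  calc n ^ q ≤ (n + q + 1 - q) ^ q := Nat.pow_le_pow_left (by omega) q
    _ ≤ q.factorial * (n + q).choose q := by rw [← h2]; exact h1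
    _ ≤ q ^ q * (n + q).choose q := Nat.mul_le_mul_right _ (Nat.factorial_le_pow q)

/-- the comparison lemma -/
lemma m11_cmp (n c s q : ℕ) (hsq : s < q) (hn : c * 2 ^ s * q ^ q ≤ n) (hn1 : 1 ≤ n) :
    c * (2 * n) ^ s ≤ N n (q+1) := by
  have hq : 0 < q ^ q := Nat.pow_pos (by omega)
  refine Nat.le_of_mul_le_mul_left ?_ hq
  calc q ^ q * (c * (2 * n) ^ s) = (c * 2 ^ s * q ^ q) * n ^ s := by rw [mul_pow]; ring
    _ ≤ n * n ^ s := Nat.mul_le_mul_right _ hn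
    _ = n ^ (s + 1) := by ring
    _ ≤ n ^ q := Nat.pow_le_pow_right hn1 hsq
    _ ≤ q ^ q * N n (q+1) := m11_lower n q

lemma m11_up (n i m : ℕ) (hi : i ≤ 2) (hm : 2 ≤ m) (hn : m + 1 ≤ n) :
    N (n + i) m ≤ (2 * n) ^ (m - 1) := by
  obtain ⟨q, rfl⟩ : ∃ q, m = q + 1 := ⟨m - 1, by omega⟩
  refine (m11_upper (n + i) q).trans ?_
  rw [Nat.add_sub_cancel]
  exact Nat.pow_le_pow_left (by omega) q

lemma m11_Wf (n m : ℕ) (hm : 2 ≤ m) (hn : m + 1 ≤ n) : Wf n m ≤ (2 * n) ^ (2 * m - 2) := by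
  have h := m11_up n 1 m (by omega) hm hn
  unfold Wf
  calc N (n + 1) m * N (n + 1) m ≤ (2 * n) ^ (m - 1) * (2 * n) ^ (m - 1) := Nat.mul_le_mul h h
    _ = (2 * n) ^ (2 * m - 2) := by rw [← pow_add]; congr 1; omega

lemma m11_W1f (n m : ℕ) (hm : 2 ≤ m) (hn : m + 1 ≤ n) :
    W1f n m ≤ 3 * (2 * n) ^ (2 * m - 2) := by
  have h := m11_up n 2 m (by omega) hm hn
  have h1 : 1 ≤ (2 * n) ^ (2 * m - 2) := Nat.one_le_pow _ _ (by omega)
  have h2 : N (n + 2) m * N (n + 2) m ≤ (2 * n) ^ (2 * m - 2) := by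
    calc N (n + 2) m * N (n + 2) m ≤ (2 * n) ^ (m - 1) * (2 * n) ^ (m - 1) := Nat.mul_le_mul h h
      _ = (2 * n) ^ (2 * m - 2) := by rw [← pow_add]; congr 1; omega
  unfold W1f
  omega

/-- the size of `n` -/
lemma m11_big (n m k s q : ℕ) (hm : 2 ≤ m) (hn : (8 * m) ^ (4 * m) ≤ n)
    (hs : k + s ≤ 4 * m) (hq : q ≤ 4 * m) : 2 ^ k * 2 ^ s * q ^ q ≤ n := by
  refine le_trans ?_ hn
  have h1 : q ^ q ≤ (4 * m) ^ (4 * m) := by
    calc q ^ q ≤ (4 * m) ^ q := Nat.pow_le_pow_left (by omega) q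
      _ ≤ (4 * m) ^ (4 * m) := Nat.pow_le_pow_right (by omega) (by omega)
  have h2 : 2 ^ k * 2 ^ s ≤ 2 ^ (4 * m) := by
    rw [← pow_add]
    exact Nat.pow_le_pow_right (by omega) hs
  calc 2 ^ k * 2 ^ s * q ^ q ≤ 2 ^ (4 * m) * (4 * m) ^ (4 * m) := Nat.mul_le_mul h2 h1
    _ = (8 * m) ^ (4 * m) := by rw [← mul_pow]; congr 1; ring

lemma m11_n_large (n m : ℕ) (hm : 2 ≤ m) (hn : (8 * m) ^ (4 * m) ≤ n) : 64 * m ^ 2 ≤ n := by
  refine le_trans ?_ hn
  calc 64 * m ^ 2 = (8 * m) ^ 2 := by ring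
    _ ≤ (8 * m) ^ (4 * m) := Nat.pow_le_pow_right (by omega) (by omega)

lemma m11_main (n m k s e q : ℕ) (hm : 2 ≤ m) (hn : (8 * m) ^ (4 * m) ≤ n)
    (hs : k + s ≤ 4 * m) (hq : q ≤ 4 * m) (hsq : s < q) (hqe : q ≤ e) :
    2 ^ k * (2 * n) ^ s ≤ N n (e+1) := by
  have h0 := m11_n_large n m hm hn
  have hn1 : 1 ≤ n := by nlinarith
  exact (m11_cmp n (2 ^ k) s q hsq (m11_big n m k s q hm hn hs hq) hn1).trans
    (N_mono (by omega))

theorem numC1 (n m e : ℕ) (hm : 2 ≤ m) (hn : (8 * m) ^ (4 * m) ≤ n) (he : 2 * m ≤ e + 1) :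
    (m - 1) * N n (e+2) + (m - 1 + n) * Wf n m ≤ (m - 1 + n) * N n (e+1) := by
  have hbig := m11_n_large n m hm hn
  have hmn : m + 1 ≤ n := by nlinarith
  have hW := m11_Wf n m hm hmn
  have hmain := m11_main n m 2 (2 * m - 2) e (2 * m - 1) hm hn (by omega) (by omega) (by omega)
    (by omega)
  have hr : (e + 1 + n) * N n (e + 1) = (e + 1) * N n (e + 2) := N_ratio n (e + 1)
  have hWN : 4 * Wf n m ≤ N n (e+1) := by
    calc 4 * Wf n m ≤ 2 ^ 2 * (2 * n) ^ (2 * m - 2) := by omega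
      _ ≤ _ := hmain
  obtain ⟨p, rfl⟩ : ∃ p, m = p + 1 := ⟨m - 1, by omega⟩
  obtain ⟨t, ht⟩ : ∃ t, e + 1 = 2 * (p + 1) + t := ⟨e + 1 - 2 * (p + 1), by omega⟩
  generalize N n (e + 1) = A at *
  generalize N n (e + 2) = B at *
  generalize Wf n (p + 1) = W at *
  rw [Nat.add_sub_cancel]
  -- multiply by e + 1
  have he0 : 0 < e + 1 := by omega
  refine Nat.le_of_mul_le_mul_left ?_ he0
  have e1 : (e + 1) * (p * B + (p + n) * W) = p * ((e + 1 + n) * A) + (e + 1) * ((p + n) * W) := by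
    rw [hr]; ring
  rw [e1]
  have h2 : (p + n) * W ≤ 2 * n * W := Nat.mul_le_mul_right _ (by omega)
  have h3 : 2 * ((p + n) * W) ≤ n * A := by nlinarith
  have h4 : 2 * (p * n) ≤ (e + 1) * n := by nlinarith
  nlinarith [Nat.mul_le_mul_left (e + 1) h3, Nat.mul_le_mul_right A h4]

theorem numC2 (n m e : ℕ) (hm : 2 ≤ m) (hn : (8 * m) ^ (4 * m) ≤ n) (he : 3 * m ≤ e + 2) :
    2 * (m - 1) * N n (e+2) + 2 * (m - 1 + n) * ((Wf n m + N n m) * N n m) ≤
      (m - 1 + n) * N n (e+1) := by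
  have hbig := m11_n_large n m hm hn
  have hmn : m + 1 ≤ n := by nlinarith
  have hW := m11_Wf n m hm hmn
  have hN := m11_up n 0 m (by omega) hm hmn
  rw [Nat.add_zero] at hN
  have hmain := m11_main n m 5 (3 * m - 3) e (3 * m - 2) hm hn (by omega) (by omega) (by omega)
    (by omega)
  have hr : (e + 1 + n) * N n (e + 1) = (e + 1) * N n (e + 2) := N_ratio n (e + 1)
  have hN2 : N n m ≤ (2 * n) ^ (2 * m - 2) :=
    hN.trans (Nat.pow_le_pow_right (by omega) (by omega))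
  have hX : (Wf n m + N n m) * N n m ≤ 2 * (2 * n) ^ (3 * m - 3) := by
    calc (Wf n m + N n m) * N n m ≤ (2 * (2 * n) ^ (2 * m - 2)) * (2 * n) ^ (m - 1) :=
          Nat.mul_le_mul (by omega) hN
      _ = 2 * (2 * n) ^ (3 * m - 3) := by
          rw [mul_assoc, ← pow_add]; congr 2; omega
  have hXN : 16 * ((Wf n m + N n m) * N n m) ≤ N n (e+1) := by
    calc 16 * ((Wf n m + N n m) * N n m) ≤ 2 ^ 5 * (2 * n) ^ (3 * m - 3) := by omega
      _ ≤ _ := hmain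
  generalize (Wf n m + N n m) * N n m = X at *
  obtain ⟨p, rfl⟩ : ∃ p, m = p + 1 := ⟨m - 1, by omega⟩
  generalize N n (e + 1) = A at *
  generalize N n (e + 2) = B at *
  rw [Nat.add_sub_cancel]
  have he0 : 0 < e + 1 := by omega
  refine Nat.le_of_mul_le_mul_left ?_ he0
  have e1 : (e + 1) * (2 * p * B + 2 * (p + n) * X) =
      2 * p * ((e + 1 + n) * A) + (e + 1) * (2 * (p + n) * X) := by
    rw [hr]; ring
  rw [e1]
  have h2 : (p + n) * X ≤ 2 * n * X := Nat.mul_le_mul_right _ (by omega)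
  have h3 : 4 * (2 * (p + n) * X) ≤ n * A := by nlinarith
  have h4 : 3 * (p * n) ≤ (e + 1) * n := by nlinarith
  have h5 : 12 * p ≤ n := by nlinarith
  nlinarith [Nat.mul_le_mul_left (e + 1) h3, Nat.mul_le_mul_right A h4,
    Nat.mul_le_mul_right ((e + 1) * A) h5]

theorem numC6 (n m e : ℕ) (hm : 2 ≤ m) (hn : (8 * m) ^ (4 * m) ≤ n) (he : 3 * m ≤ e + 2) :
    2 * (n+1) * W1f n m + (n+m) * N n (e+1) ≤ 2 * (n+1) * N n (e+1) := by
  have hbig := m11_n_large n m hm hn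
  have hmn : m + 1 ≤ n := by nlinarith
  have hW := m11_W1f n m hm hmn
  have hmain := m11_main n m 4 (2 * m - 2) e (3 * m - 2) hm hn (by omega) (by omega) (by omega)
    (by omega)
  have hWN : 4 * W1f n m ≤ N n (e+1) := by
    calc 4 * W1f n m ≤ 2 ^ 4 * (2 * n) ^ (2 * m - 2) := by omega
      _ ≤ _ := hmain
  generalize N n (e + 1) = A at *
  generalize W1f n m = W at *
  have h5 : 2 * m ≤ n := by nlinarith
  nlinarith [Nat.mul_le_mul_left (2 * (n + 1)) hWN, Nat.mul_le_mul_right A h5]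

end Pool.Agent.Helper98.UAH
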