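import Pool.Agent.Helper98.UAH.Defs

/-! Uniform postulation: numerical estimates, second part. -/

namespace Pool.Agent.Helper98.UAH

open Pool.Agent.Helper46.EAH Finset

lemma m12_lower (n q c : ℕ) (h : c * 2 ^ q * (q + 1) ^ (q + 1) ≤ n + 1) :
    c * (2 * n) ^ q ≤ N n (q + 2) := by
  have h1 : (n + 1) ^ (q + 1) ≤ (q + 1).factorial * N n (q + 2) := by
    have h2 := Nat.pow_sub_le_descFactorial (n + (q + 1)) (q + 1)
    rw [show n + (q + 1) + 1 - (q + 1) = n + 1 by omega, Nat.descFactorial_eq_factorial_mul_choose]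
      at h2
    rw [show q + 2 = (q + 1) + 1 by ring, N_succ]
    rwa [show (n + (q + 1)).choose n = (n + (q + 1)).choose (q + 1) from
      Nat.choose_symm_add]
  have h3 : (q + 1).factorial ≤ (q + 1) ^ (q + 1) := Nat.factorial_le_pow _
  have h4 : (n + 1) ^ (q + 1) ≤ (q + 1) ^ (q + 1) * N n (q + 2) :=
    h1.trans (Nat.mul_le_mul_right _ h3)
  have h5 : (q + 1) ^ (q + 1) * (c * (2 * n) ^ q) ≤ (n + 1) ^ (q + 1) := by
    calc (q + 1) ^ (q + 1) * (c * (2 * n) ^ q) = c * 2 ^ q * (q + 1) ^ (q + 1) * n ^ q := by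
          rw [mul_pow]; ring
      _ ≤ (n + 1) * n ^ q := Nat.mul_le_mul_right _ h
      _ ≤ (n + 1) * (n + 1) ^ q := Nat.mul_le_mul_left _ (Nat.pow_le_pow_left (by omega) _)
      _ = (n + 1) ^ (q + 1) := by rw [pow_succ]; ring
  exact Nat.le_of_mul_le_mul_left (h5.trans h4) (by positivity)

lemma m12_upper (n a : ℕ) (h : a + 1 ≤ n) : N (n + 1) (a + 1) ≤ (2 * n) ^ a := by
  rw [N_succ, show (n + 1 + a).choose (n + 1) = (n + 1 + a).choose a from Nat.choose_symm_add]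
  exact (Nat.choose_le_pow _ _).trans (Nat.pow_le_pow_left (by omega) _)

lemma m12_mono (n a : ℕ) : N n (a + 1) ≤ N (n + 1) (a + 1) := by
  rw [N_rec]; omega

lemma m12_bounds (n s : ℕ) (hn : 3 * s + 6 ≤ n) :
    N n (s + 2) ≤ (2 * n) ^ (s + 1) ∧ N (n + 1) (s + 2) ≤ (2 * n) ^ (s + 1) ∧
      N (n + 1) (3 * s + 4) ≤ (2 * n) ^ (3 * s + 3) := by
  refine ⟨(m12_mono n (s + 1)).trans (m12_upper n (s + 1) (by omega)),
    m12_upper n (s + 1) (by omega), m12_upper n (3 * s + 3) (by omega)⟩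

lemma m12_W (n s : ℕ) (hn : 3 * s + 6 ≤ n) :
    Wf n (s + 2) ≤ (2 * n) ^ (2 * s + 2) ∧ Wf n (s + 2) + N n (s + 2) ≤ 2 * (2 * n) ^ (2 * s + 2) := by
  obtain ⟨h1, h2, _⟩ := m12_bounds n s hn
  have h3 : Wf n (s + 2) ≤ (2 * n) ^ (2 * s + 2) := by
    unfold Wf
    calc N (n + 1) (s + 2) * N (n + 1) (s + 2) ≤ (2 * n) ^ (s + 1) * (2 * n) ^ (s + 1) :=
          Nat.mul_le_mul h2 h2
      _ = (2 * n) ^ (2 * s + 2) := by rw [← pow_add]; congr 1; ring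
  have h4 : (2 * n) ^ (s + 1) ≤ (2 * n) ^ (2 * s + 2) :=
    Nat.pow_le_pow_right (by omega) (by omega)
  exact ⟨h3, by omega⟩

lemma m12_size (n s c q : ℕ) (hn : (8 * (s + 2)) ^ (4 * (s + 2)) ≤ n) (hq : q ≤ 4 * s + 4)
    (hc : c ≤ (8 * (s + 2)) ^ 2) : c * 2 ^ q * (q + 1) ^ (q + 1) ≤ n + 1 := by
  have h1 : (q + 1) ^ (q + 1) ≤ (4 * (s + 2)) ^ (q + 1) := Nat.pow_le_pow_left (by omega) _
  have h2 : (2 : ℕ) ^ q ≤ 2 ^ (q + 1) := Nat.pow_le_pow_right (by omega) (by omega)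
  calc c * 2 ^ q * (q + 1) ^ (q + 1)
      ≤ (8 * (s + 2)) ^ 2 * 2 ^ (q + 1) * (4 * (s + 2)) ^ (q + 1) :=
        Nat.mul_le_mul (Nat.mul_le_mul hc h2) h1
    _ = (8 * (s + 2)) ^ 2 * (8 * (s + 2)) ^ (q + 1) := by
        rw [mul_assoc, ← mul_pow]; congr 2; ring
    _ = (8 * (s + 2)) ^ (q + 3) := by rw [← pow_add]; congr 1; ring
    _ ≤ (8 * (s + 2)) ^ (4 * (s + 2)) := Nat.pow_le_pow_right (by omega) (by omega)
    _ ≤ n + 1 := by omega

lemma m12_big (n s : ℕ) (hn : (8 * (s + 2)) ^ (4 * (s + 2)) ≤ n) : 3 * s + 6 ≤ n := by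
  have h : (8 * (s + 2)) ^ 1 ≤ (8 * (s + 2)) ^ (4 * (s + 2)) :=
    Nat.pow_le_pow_right (by omega) (by omega)
  rw [pow_one] at h
  omega

/-- growth in the degree -/
lemma m12_grow (n s d Y : ℕ) (hn : (8 * (s + 2)) ^ (4 * (s + 2)) ≤ n)
    (hY : Y ≤ (s + 3) * (2 * (s + 3 + d)) * (2 * n) ^ (4 * s + 4)) :
    Y ≤ N n (4 * s + 6 + d) := by
  have hb := m12_big n s hn
  have h1 : (2 * (4 * s + 6) * (s + 3)) * (2 * n) ^ (4 * s + 4) ≤ N n (4 * s + 4 + 2) :=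
    m12_lower n (4 * s + 4) _ (m12_size n s _ (4 * s + 4) hn le_rfl (by nlinarith))
  have h2 : (4 * s + 6 + d) * N n (4 * s + 6) ≤ (4 * s + 6) * N n (4 * s + 6 + d) := by
    rcases N_convex n (4 * s + 6 + d) (4 * s + 6) (by omega) with h | h
    · exact h
    · omega
  have h3 : (4 * s + 6) * Y ≤ (4 * s + 6) * N n (4 * s + 6 + d) := by
    refine le_trans ?_ h2
    calc (4 * s + 6) * Y
        ≤ (4 * s + 6) * ((s + 3) * (2 * (s + 3 + d)) * (2 * n) ^ (4 * s + 4)) :=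
          Nat.mul_le_mul_left _ hY
      _ ≤ (4 * s + 6) * ((s + 3) * (2 * (4 * s + 6 + d)) * (2 * n) ^ (4 * s + 4)) := by
          gcongr <;> omega
      _ = (4 * s + 6 + d) * ((2 * (4 * s + 6) * (s + 3)) * (2 * n) ^ (4 * s + 4)) := by ring
      _ ≤ (4 * s + 6 + d) * N n (4 * s + 6) := Nat.mul_le_mul_left _ h1
  exact Nat.le_of_mul_le_mul_left h3 (by omega)

theorem numC3 (n m e : ℕ) (hm : 2 ≤ m) (hn : (8 * m) ^ (4 * m) ≤ n) (he : 3 * m ≤ e + 1) :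
    (n+1) * ((Wf n m + N n m) * N (n+1) m) + (n+1) * zf n m (Wf n m) e + (n+m) * N n (e+1) ≤
      (n+e+1) * N n (e+1) := by
  obtain ⟨s, rfl⟩ := Nat.exists_eq_add_of_le' hm
  obtain ⟨d, hd⟩ := Nat.exists_eq_add_of_le he
  have he' : e = 3 * s + 5 + d := by omega
  subst he'
  have hb := m12_big n s hn
  obtain ⟨h1, h2, h3⟩ := m12_bounds n s hb
  obtain ⟨h4, h5⟩ := m12_W n s hb
  have hz : zf n (s + 2) (Wf n (s + 2)) (3 * s + 5 + d)
      = N (n + 1) (3 * s + 4) + (d + 2) * (Wf n (s + 2) + N n (s + 2)) := by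
    unfold zf
    congr 2 <;> omega
  rw [hz]
  have hp : (2 * n) ^ (2 * s + 2) ≤ (2 * n) ^ (3 * s + 3) :=
    Nat.pow_le_pow_right (by omega) (by omega)
  have h6 : (Wf n (s + 2) + N n (s + 2)) * N (n + 1) (s + 2) ≤ 2 * (2 * n) ^ (3 * s + 3) := by
    calc _ ≤ (2 * (2 * n) ^ (2 * s + 2)) * (2 * n) ^ (s + 1) := Nat.mul_le_mul h5 h2
      _ = 2 * (2 * n) ^ (3 * s + 3) := by rw [mul_assoc, ← pow_add]; congr 2; ring
  have h7 : (d + 2) * (Wf n (s + 2) + N n (s + 2)) ≤ (d + 2) * (2 * (2 * n) ^ (3 * s + 3)) :=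
    Nat.mul_le_mul_left _ (by omega)
  have h8 : 2 * (2 * n) ^ (3 * s + 4) ≤ N n (3 * s + 4 + 2) :=
    m12_lower n (3 * s + 4) 2 (m12_size n s 2 (3 * s + 4) hn (by omega) (by nlinarith))
  have h9 : N n (3 * s + 4 + 2) ≤ N n (3 * s + 5 + d + 1) := N_mono (by omega)
  have h10 : (n + 1) * (((Wf n (s + 2) + N n (s + 2)) * N (n + 1) (s + 2))
      + (N (n + 1) (3 * s + 4) + (d + 2) * (Wf n (s + 2) + N n (s + 2))))
      ≤ (2 * s + 4 + d) * N n (3 * s + 5 + d + 1) := by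
    calc _ ≤ (2 * n) * ((2 * d + 7) * (2 * n) ^ (3 * s + 3)) := by
          refine Nat.mul_le_mul (by omega) ?_
          calc _ ≤ 2 * (2 * n) ^ (3 * s + 3) + ((2 * n) ^ (3 * s + 3)
                + (d + 2) * (2 * (2 * n) ^ (3 * s + 3))) :=
                Nat.add_le_add h6 (Nat.add_le_add h3 h7)
            _ = (2 * d + 7) * (2 * n) ^ (3 * s + 3) := by ring
      _ ≤ (2 * n) * ((2 * (2 * s + 4 + d)) * (2 * n) ^ (3 * s + 3)) := by
          gcongr; omega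
      _ = (2 * s + 4 + d) * (2 * (2 * n) ^ (3 * s + 4)) := by ring
      _ ≤ (2 * s + 4 + d) * N n (3 * s + 5 + d + 1) := Nat.mul_le_mul_left _ (h8.trans h9)
  calc _ = (n + 1) * (((Wf n (s + 2) + N n (s + 2)) * N (n + 1) (s + 2))
      + (N (n + 1) (3 * s + 4) + (d + 2) * (Wf n (s + 2) + N n (s + 2))))
      + (n + (s + 2)) * N n (3 * s + 5 + d + 1) := by ring
    _ ≤ (2 * s + 4 + d) * N n (3 * s + 5 + d + 1) + (n + (s + 2)) * N n (3 * s + 5 + d + 1) :=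
        Nat.add_le_add_right h10 _
    _ = (n + (3 * s + 5 + d) + 1) * N n (3 * s + 5 + d + 1) := by ring

lemma m12_zf (n s d : ℕ) (hb : 3 * s + 6 ≤ n) :
    zf n (s + 2) (Wf n (s + 2)) (4 * s + 5 + d) ≤ (2 * (s + 3 + d)) * (2 * n) ^ (3 * s + 3) := by
  obtain ⟨h1, h2, h3⟩ := m12_bounds n s hb
  obtain ⟨h4, h5⟩ := m12_W n s hb
  have hz : zf n (s + 2) (Wf n (s + 2)) (4 * s + 5 + d)
      = N (n + 1) (3 * s + 4) + (s + 2 + d) * (Wf n (s + 2) + N n (s + 2)) := by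
    unfold zf
    congr 2 <;> omega
  rw [hz]
  have hp : (2 * n) ^ (2 * s + 2) ≤ (2 * n) ^ (3 * s + 3) :=
    Nat.pow_le_pow_right (by omega) (by omega)
  calc _ ≤ (2 * n) ^ (3 * s + 3) + (s + 2 + d) * (2 * (2 * n) ^ (3 * s + 3)) :=
        Nat.add_le_add h3 (Nat.mul_le_mul_left _ (by omega))
    _ = (2 * (s + 2 + d) + 1) * (2 * n) ^ (3 * s + 3) := by ring
    _ ≤ (2 * (s + 3 + d)) * (2 * n) ^ (3 * s + 3) := Nat.mul_le_mul_right _ (by omega)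

theorem numC4 (n m e : ℕ) (hm : 2 ≤ m) (hn : (8 * m) ^ (4 * m) ≤ n) (he : 4 * m ≤ e + 3) :
    zf n m (Wf n m) e * N n m + Wf n m ≤ N n (e+1) := by
  obtain ⟨s, rfl⟩ := Nat.exists_eq_add_of_le' hm
  obtain ⟨d, hd⟩ := Nat.exists_eq_add_of_le he
  have he' : e = 4 * s + 5 + d := by omega
  subst he'
  have hb := m12_big n s hn
  obtain ⟨h1, h2, h3⟩ := m12_bounds n s hb
  obtain ⟨h4, h5⟩ := m12_W n s hb
  rw [show 4 * s + 5 + d + 1 = 4 * s + 6 + d by ring]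
  refine m12_grow n s d _ hn ?_
  have hp : (2 * n) ^ (2 * s + 2) ≤ (2 * n) ^ (4 * s + 4) :=
    Nat.pow_le_pow_right (by omega) (by omega)
  calc _ ≤ (2 * (s + 3 + d)) * (2 * n) ^ (3 * s + 3) * (2 * n) ^ (s + 1) + (2 * n) ^ (4 * s + 4) :=
        Nat.add_le_add (Nat.mul_le_mul (m12_zf n s d hb) h1) (h4.trans hp)
    _ = (2 * (s + 3 + d) + 1) * (2 * n) ^ (4 * s + 4) := by
        rw [mul_assoc, ← pow_add, show 3 * s + 3 + (s + 1) = 4 * s + 4 by ring]; ring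
    _ ≤ (s + 3) * (2 * (s + 3 + d)) * (2 * n) ^ (4 * s + 4) :=
        Nat.mul_le_mul_right _ (by nlinarith)

theorem numC5 (n m e : ℕ) (hm : 2 ≤ m) (hn : (8 * m) ^ (4 * m) ≤ n) (he : 4 * m ≤ e + 3) :
    (m * N (n+1) m + 1) * zf n m (Wf n m) e ≤ N (n+1) (e+1) := by
  obtain ⟨s, rfl⟩ := Nat.exists_eq_add_of_le' hm
  obtain ⟨d, hd⟩ := Nat.exists_eq_add_of_le he
  have he' : e = 4 * s + 5 + d := by omega
  subst he'
  have hb := m12_big n s hn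
  obtain ⟨h1, h2, h3⟩ := m12_bounds n s hb
  refine le_trans ?_ (m12_mono n (4 * s + 5 + d))
  rw [show 4 * s + 5 + d + 1 = 4 * s + 6 + d by ring]
  refine m12_grow n s d _ hn ?_
  have hpos : 1 ≤ (2 * n) ^ (s + 1) := Nat.one_le_pow _ _ (by omega)
  calc _ ≤ ((s + 3) * (2 * n) ^ (s + 1)) * ((2 * (s + 3 + d)) * (2 * n) ^ (3 * s + 3)) := by
        refine Nat.mul_le_mul ?_ (m12_zf n s d hb)
        calc (s + 2) * N (n + 1) (s + 2) + 1
            ≤ (s + 2) * (2 * n) ^ (s + 1) + (2 * n) ^ (s + 1) :=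
              Nat.add_le_add (Nat.mul_le_mul_left _ h2) hpos
          _ = (s + 3) * (2 * n) ^ (s + 1) := by ring
    _ = (s + 3) * (2 * (s + 3 + d)) * (2 * n) ^ (4 * s + 4) := by
        rw [show 4 * s + 4 = (s + 1) + (3 * s + 3) by ring, pow_add]; ring

end Pool.Agent.Helper98.UAH
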