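import Pool.Agent.Helper98.UAH.Proc

/-! Uniform postulation: elementary estimates for binomial coefficients. -/

namespace Pool.Agent.Helper98.UAH

open Pool.Agent.Helper46.EAH Finset

lemma nb_step (y q : ℕ) : (y + 1) * (y + 1 + q) ^ q ≤ (y + 1 + q) * (y + q) ^ q := by
  -- Bernoulli: (1 - 1/(y+q+1))^q ≥ 1 - q/(y+q+1)
  have h : ((y : ℝ) + 1) * ((y : ℝ) + 1 + q) ^ q ≤ ((y : ℝ) + 1 + q) * ((y : ℝ) + q) ^ q := by
    have hy : (0 : ℝ) < (y : ℝ) + 1 + q := by positivity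
    have hb := one_add_mul_le_pow (a := -1 / ((y : ℝ) + 1 + q)) (by
      rw [le_div_iff₀ hy]
      have : (0 : ℝ) ≤ (y : ℝ) := by positivity
      have : (0 : ℝ) ≤ (q : ℝ) := by positivity
      linarith) q
    have e1 : 1 + -1 / ((y : ℝ) + 1 + q) = ((y : ℝ) + q) / ((y : ℝ) + 1 + q) := by
      field_simp
      ring
    have e2 : 1 + (q : ℝ) * (-1 / ((y : ℝ) + 1 + q)) = ((y : ℝ) + 1) / ((y : ℝ) + 1 + q) := by
      field_simp
      ring
    rw [e1, e2, div_pow, div_le_div_iff₀ hy (pow_pos hy q)] at hb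
    linarith
  exact_mod_cast h

/-- growth in the degree -/
theorem nb_growth (n m x y : ℕ) (hn : 2 * m ≤ n) (hxy : x ≤ y) :
    (y + 2 * m) ^ (2 * m) * N n (x+1) ≤ (x + 2 * m) ^ (2 * m) * N n (y+1) := by
  induction y, hxy using Nat.le_induction with
  | base => exact le_rfl
  | succ y hxy ih =>
    have h1 : (y + 1 + n) * N n (y+1) = (y + 1) * N n (y+2) := N_ratio n (y+1)
    have h2 := nb_step y (2 * m)
    have h3 : (y + 1) * ((y + 1 + 2 * m) ^ (2 * m) * N n (x+1)) ≤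
        (y + 1) * ((x + 2 * m) ^ (2 * m) * N n (y+1+1)) := by
      calc (y + 1) * ((y + 1 + 2 * m) ^ (2 * m) * N n (x+1))
          = ((y + 1) * (y + 1 + 2 * m) ^ (2 * m)) * N n (x+1) := by ring
        _ ≤ ((y + 1 + 2 * m) * (y + 2 * m) ^ (2 * m)) * N n (x+1) := Nat.mul_le_mul_right _ h2
        _ = (y + 1 + 2 * m) * ((y + 2 * m) ^ (2 * m) * N n (x+1)) := by ring
        _ ≤ (y + 1 + 2 * m) * ((x + 2 * m) ^ (2 * m) * N n (y+1)) := Nat.mul_le_mul_left _ ih
        _ ≤ (y + 1 + n) * ((x + 2 * m) ^ (2 * m) * N n (y+1)) :=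
            Nat.mul_le_mul_right _ (by omega)
        _ = (x + 2 * m) ^ (2 * m) * ((y + 1 + n) * N n (y+1)) := by ring
        _ = (y + 1) * ((x + 2 * m) ^ (2 * m) * N n (y+1+1)) := by rw [h1]; ring
    exact Nat.le_of_mul_le_mul_left h3 (by omega)

/-- products -/
theorem nb_prod (n x y : ℕ) :
    N n (x+1) * N n (y+1) ≤ (x + y).choose x * N n (x+y+1) := by
  induction x with
  | zero => simp [N_one]
  | succ x ih =>
    have h1 : (x + 1 + n) * N n (x+1) = (x + 1) * N n (x+2) := N_ratio n (x+1)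
    have h2 : (x + y + 1 + n) * N n (x+y+1) = (x + y + 1) * N n (x+y+2) := N_ratio n (x+y+1)
    have h3 : (x + y + 1) * (x + y).choose x = (x + 1 + y).choose (x+1) * (x + 1) := by
      rw [Nat.add_one_mul_choose_eq]
      congr 2
      ring
    have h4 : (x + 1) * (N n (x+1+1) * N n (y+1)) ≤
        (x + 1) * ((x + 1 + y).choose (x+1) * N n (x+1+y+1)) := by
      calc (x + 1) * (N n (x+1+1) * N n (y+1)) = ((x + 1) * N n (x+2)) * N n (y+1) := by ring
        _ = (x + 1 + n) * (N n (x+1) * N n (y+1)) := by rw [← h1]; ring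
        _ ≤ (x + 1 + n) * ((x + y).choose x * N n (x+y+1)) := Nat.mul_le_mul_left _ ih
        _ ≤ (x + y + 1 + n) * ((x + y).choose x * N n (x+y+1)) :=
            Nat.mul_le_mul_right _ (by omega)
        _ = (x + y).choose x * ((x + y + 1 + n) * N n (x+y+1)) := by ring
        _ = ((x + y + 1) * (x + y).choose x) * N n (x+y+2) := by rw [h2]; ring
        _ = (x + 1) * ((x + 1 + y).choose (x+1) * N n (x+1+y+1)) := by
            rw [h3, show x + 1 + y + 1 = x + y + 2 by ring]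
            ring
    exact Nat.le_of_mul_le_mul_left h4 (by omega)

theorem nb_pow_choose (c M k : ℕ) (hk : k ≤ M) : M.choose k * c ^ (M - k) ≤ (c + 1) ^ M := by
  rw [add_comm c 1, add_pow]
  have h := single_le_sum (f := fun i => 1 ^ i * c ^ (M - i) * M.choose i)
    (fun i _ => Nat.zero_le _) (mem_range.2 (Nat.lt_succ_of_le hk))
  simp only [one_pow, one_mul] at h ⊢
  rw [mul_comm]
  exact h

theorem nb_sq (n t : ℕ) : N n (t+1) ^ 2 ≤ 4 ^ t * N n (2*t+1) := by
  have h1 := nb_prod n t t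
  have h2 := nb_pow_choose 1 (t + t) t (by omega)
  rw [one_pow, mul_one] at h2
  calc N n (t+1) ^ 2 = N n (t+1) * N n (t+1) := sq _
    _ ≤ (t + t).choose t * N n (t+t+1) := h1
    _ ≤ (1 + 1) ^ (t + t) * N n (t+t+1) := Nat.mul_le_mul_right _ h2
    _ = 4 ^ t * N n (2*t+1) := by
        rw [show t + t = 2 * t by ring, pow_mul]
        norm_num

theorem nb_cube (n t : ℕ) : N n (t+1) ^ 3 ≤ 27 ^ t * N n (3*t+1) := by
  have h1 := nb_prod n t t
  have h3 := nb_prod n t (t + t)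
  have h2 := nb_pow_choose 1 (t + t) t (by omega)
  rw [one_pow, mul_one] at h2
  have h4 := nb_pow_choose 2 (t + (t + t)) t (by omega)
  rw [show t + (t + t) - t = t + t by omega] at h4
  -- choose (3t) t * 4^t ≤ 27^t
  have h5 : (t + t).choose t * (t + (t + t)).choose t ≤ 27 ^ t := by
    have h6 : (2 ^ (t + t)) * ((t + t).choose t * (t + (t + t)).choose t) ≤
        (2 ^ (t + t)) * 27 ^ t := by
      calc (2 ^ (t + t)) * ((t + t).choose t * (t + (t + t)).choose t)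
          = (t + t).choose t * ((t + (t + t)).choose t * 2 ^ (t + t)) := by ring
        _ ≤ (1 + 1) ^ (t + t) * (2 + 1) ^ (t + (t + t)) := Nat.mul_le_mul h2 h4
        _ = (2 ^ (t + t)) * 27 ^ t := by
            rw [show t + (t + t) = 3 * t by ring, pow_mul]
            norm_num
    exact Nat.le_of_mul_le_mul_left h6 (by positivity)
  calc N n (t+1) ^ 3 = N n (t+1) * (N n (t+1) * N n (t+1)) := by ring
    _ ≤ N n (t+1) * ((t + t).choose t * N n (t+t+1)) := Nat.mul_le_mul_left _ h1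
    _ = (t + t).choose t * (N n (t+1) * N n (t+t+1)) := by ring
    _ ≤ (t + t).choose t * ((t + (t + t)).choose t * N n (t+(t+t)+1)) :=
        Nat.mul_le_mul_left _ h3
    _ = ((t + t).choose t * (t + (t + t)).choose t) * N n (t+(t+t)+1) := by ring
    _ ≤ 27 ^ t * N n (t+(t+t)+1) := Nat.mul_le_mul_right _ h5
    _ = 27 ^ t * N n (3*t+1) := by rw [show t + (t + t) = 3 * t by ring]

theorem nb_choose (M k : ℕ) (hk : k ≤ M) : M.choose k * 7 ^ (M - k) ≤ 8 ^ M :=
  nb_pow_choose 7 M k hk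

theorem nb_A (n m : ℕ) (hm : 1 ≤ m) (hn : 2 * m ≤ n) : 2 * N (n+1) m ≤ 3 * N n m := by
  have h := N_dim n m
  have h1 : (n + 1) * (2 * N (n+1) m) ≤ (n + 1) * (3 * N n m) := by
    calc (n + 1) * (2 * N (n+1) m) = 2 * ((n + 1) * N (n+1) m) := by ring
      _ = (2 * (m + n)) * N n m := by rw [h]; ring
      _ ≤ (3 * (n + 1)) * N n m := Nat.mul_le_mul_right _ (by omega)
      _ = (n + 1) * (3 * N n m) := by ring
  exact Nat.le_of_mul_le_mul_left h1 (by omega)

theorem nb_Wf (n m : ℕ) (hm : 1 ≤ m) (hn : 2 * m ≤ n) : 4 * Wf n m ≤ 9 * N n m ^ 2 := by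
  have h := nb_A n m hm hn
  unfold Wf
  calc 4 * (N (n+1) m * N (n+1) m) = (2 * N (n+1) m) * (2 * N (n+1) m) := by ring
    _ ≤ (3 * N n m) * (3 * N n m) := Nat.mul_le_mul h h
    _ = 9 * N n m ^ 2 := by ring

theorem nb_K (n m : ℕ) (hm : 1 ≤ m) (hn : 2 * m ≤ n) :
    4 * (Wf n m + N n m) ≤ 13 * N n m ^ 2 := by
  have h := nb_Wf n m hm hn
  have h1 : 1 ≤ N n m := N_pos hm
  have h2 : N n m ≤ N n m ^ 2 := by rw [sq]; exact Nat.le_mul_of_pos_left _ h1
  omega

theorem nb_W1f (n m : ℕ) (hm : 1 ≤ m) (hn : 2 * m ≤ n) : 8 * W1f n m ≤ 89 * N n m ^ 2 := by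
  have h := nb_A n m hm hn
  have h' := nb_A (n+1) m hm (by omega)
  have h1 : 1 ≤ N n m := N_pos hm
  have h2 : 1 ≤ N n m ^ 2 := Nat.one_le_pow _ _ h1
  have h3 : 4 * N (n+2) m ≤ 9 * N n m := by
    have : N (n+1+1) m = N (n+2) m := rfl
    omega
  have h4 : 16 * (N (n+2) m * N (n+2) m) ≤ 81 * N n m ^ 2 := by
    calc 16 * (N (n+2) m * N (n+2) m) = (4 * N (n+2) m) * (4 * N (n+2) m) := by ring
      _ ≤ (9 * N n m) * (9 * N n m) := Nat.mul_le_mul h3 h3
      _ = 81 * N n m ^ 2 := by ring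
  unfold W1f
  omega

theorem nb_a (n m : ℕ) (hm : 2 ≤ m) : n + 1 ≤ N n m := by
  have h1 : N n 2 ≤ N n m := N_mono hm
  have h2 : N n 2 = n + 1 := by
    rw [N_succ]
    exact Nat.choose_succ_self_right n
  omega

end Pool.Agent.Helper98.UAH
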