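import Pool.Agent.Helper98.UAH.NumT0

/-! Uniform postulation: numerics for n at least 27^m. -/

namespace Pool.Agent.Helper98.UAH

open Pool.Agent.Helper46.EAH Finset

/-- elementary facts -/
lemma nt_n (n m : ℕ) (hm : 2 ≤ m) (hn : 27 ^ m ≤ n) :
    (2:ℝ) ≤ m ∧ 81 * ((m:ℝ) * m) ≤ n ∧ 162 * (m:ℝ) ≤ n ∧ (324:ℝ) ≤ n := by
  have hb := nt_big m hm
  have hb' : 81 * (m * m) ≤ n := by omega
  have h2 : (2:ℝ) ≤ m := by exact_mod_cast hm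
  have h81 : 81 * ((m:ℝ) * m) ≤ n := by exact_mod_cast hb'
  refine ⟨h2, h81, by nlinarith, by nlinarith⟩

lemma nt_A (n m : ℕ) (hm : 2 ≤ m) (hn : 27 ^ m ≤ n) :
    162 * (N (n+1) m : ℝ) ≤ 163 * N n m := by
  obtain ⟨h2, -, h162, h324⟩ := nt_n n m hm hn
  have h1 : ((n:ℝ) + 1) * N (n+1) m = ((m:ℝ) + n) * N n m := by exact_mod_cast N_dim n m
  have hN0 : (0:ℝ) ≤ (N n m : ℝ) := by positivity
  have h3 : ((n:ℝ) + 1) * (162 * N (n+1) m) ≤ (n + 1) * (163 * N n m) := by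
    have h4 : 162 * ((m:ℝ) + n) ≤ 163 * (n + 1) := by linarith
    nlinarith [mul_le_mul_of_nonneg_right h4 hN0]
  exact le_of_mul_le_mul_left h3 (by positivity)

lemma nt_A1 (n m : ℕ) (hm : 2 ≤ m) (hn : 27 ^ m ≤ n) :
    162 * (N (n+2) m : ℝ) ≤ 165 * N n m := by
  obtain ⟨h2, -, h162, h324⟩ := nt_n n m hm hn
  have h1 : ((n:ℝ) + 1 + 1) * N (n+2) m = ((m:ℝ) + (n + 1)) * N (n+1) m := by
    exact_mod_cast N_dim (n+1) m
  have hN0 : (0:ℝ) ≤ (N (n+1) m : ℝ) := by positivity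
  have h3 : ((n:ℝ) + 1 + 1) * (162 * N (n+2) m) ≤ (n + 1 + 1) * (163 * N (n+1) m) := by
    have h4 : 162 * ((m:ℝ) + (n + 1)) ≤ 163 * (n + 1 + 1) := by linarith
    nlinarith [mul_le_mul_of_nonneg_right h4 hN0]
  have h5 := le_of_mul_le_mul_left h3 (by positivity)
  have h6 := nt_A n m hm hn
  have h7 : (0:ℝ) ≤ (N n m : ℝ) := by positivity
  linarith

lemma nt_a1 (n m : ℕ) (hm : 2 ≤ m) : (n:ℝ) + 1 ≤ N n m := by
  exact_mod_cast nb_a n m hm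

/-- bounds of the data in terms of `a` -/
lemma nt_data (n m : ℕ) (hm : 2 ≤ m) (hn : 27 ^ m ≤ n) :
    (Wf n m : ℝ) ≤ 102 / 100 * (N n m : ℝ) ^ 2 ∧
    (Wf n m : ℝ) + N n m ≤ 102 / 100 * (N n m : ℝ) ^ 2 ∧
    (W1f n m : ℝ) ≤ 21 / 10 * (N n m : ℝ) ^ 2 := by
  obtain ⟨h2, -, h162, h324⟩ := nt_n n m hm hn
  have ha := nt_a1 n m hm
  have hA := nt_A n m hm hn
  have hA1 := nt_A1 n m hm hn
  obtain ⟨a, hae⟩ : ∃ a : ℝ, a = N n m := ⟨_, rfl⟩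
  obtain ⟨A, hAe⟩ : ∃ A : ℝ, A = N (n+1) m := ⟨_, rfl⟩
  obtain ⟨A1, hA1e⟩ : ∃ A1 : ℝ, A1 = N (n+2) m := ⟨_, rfl⟩
  have hA0 : 0 ≤ A := by rw [hAe]; positivity
  have hA10 : 0 ≤ A1 := by rw [hA1e]; positivity
  have hW : (Wf n m : ℝ) = A * A := by
    unfold Wf
    push_cast
    rw [hAe]
  have hW1 : (W1f n m : ℝ) = 2 * (A1 * A1) + 1 := by
    unfold W1f
    push_cast
    rw [hA1e]
  rw [hW, hW1, ← hae]
  rw [← hae] at ha hA hA1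
  rw [← hAe] at hA
  rw [← hA1e] at hA1
  have ha325 : 325 ≤ a := by linarith
  have h5 : A ≤ 163 / 162 * a := by linarith
  have h6 : A1 ≤ 165 / 162 * a := by linarith
  have h7 : A * A ≤ (163 / 162 * a) * (163 / 162 * a) := mul_le_mul h5 h5 hA0 (by positivity)
  have h8 : A1 * A1 ≤ (165 / 162 * a) * (165 / 162 * a) := mul_le_mul h6 h6 hA10 (by positivity)
  have h9 : 325 * a ≤ a ^ 2 := by nlinarith
  refine ⟨by nlinarith, by nlinarith, by nlinarith⟩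

/-- the next number of forms -/
lemma nt_next (n e : ℕ) : ((e:ℝ) + 1) * N n (e+2) = ((e:ℝ) + 1 + n) * N n (e+1) := by
  have h := N_ratio n (e+1)
  have h1 : ((e + 1 + n) * N n (e+1) : ℕ) = (e + 1) * N n (e+2) := h
  have h2 : (((e + 1 + n) * N n (e+1) : ℕ) : ℝ) = (((e + 1) * N n (e+2) : ℕ) : ℝ) := by rw [h1]
  push_cast at h2
  linarith

lemma nt_sq_le (n m e : ℕ) (hm : 2 ≤ m) (hn : 27 ^ m ≤ n) (he : 2 * m ≤ e + 1) :
    26 * (N n m : ℝ) ^ 2 ≤ N n (e+1) := by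
  have h := (nt_square n m hm hn).trans (N_mono he)
  exact_mod_cast h

lemma nt_cu_le (n m e : ℕ) (hm : 2 ≤ m) (hn : 27 ^ m ≤ n) (he : 3 * m ≤ e + 2) :
    26 * (N n m : ℝ) ^ 3 ≤ N n (e+1) := by
  have h := (nt_cube n m hm hn).trans (N_mono (show 3 * m - 1 ≤ e + 1 by omega))
  exact_mod_cast h

theorem numT1 (n m e : ℕ) (hm : 2 ≤ m) (hn : 27 ^ m ≤ n) (he : 2 * m ≤ e + 1) :
    (m - 1) * N n (e+2) + (m - 1 + n) * Wf n m ≤ (m - 1 + n) * N n (e+1) := by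
  obtain ⟨h2, -, h162, h324⟩ := nt_n n m hm hn
  obtain ⟨hW, -, -⟩ := nt_data n m hm hn
  have hV := nt_sq_le n m e hm hn he
  have hnx := nt_next n e
  have heR : 2 * (m:ℝ) ≤ e + 1 := by exact_mod_cast he
  have hm1 : ((m - 1 : ℕ) : ℝ) = m - 1 := by
    rw [Nat.cast_sub (by omega)]
    push_cast
    ring
  suffices h : ((m:ℝ) - 1) * N n (e+2) + (m - 1 + n) * Wf n m ≤ (m - 1 + n) * N n (e+1) by
    rw [← hm1] at h
    exact_mod_cast h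
  obtain ⟨V, hVe⟩ : ∃ V : ℝ, V = N n (e+1) := ⟨_, rfl⟩
  obtain ⟨V', hV'e⟩ : ∃ V' : ℝ, V' = N n (e+2) := ⟨_, rfl⟩
  obtain ⟨W, hWe⟩ : ∃ W : ℝ, W = Wf n m := ⟨_, rfl⟩
  obtain ⟨a, hae⟩ : ∃ a : ℝ, a = N n m := ⟨_, rfl⟩
  obtain ⟨E, hEe⟩ : ∃ E : ℝ, E = (e:ℝ) + 1 := ⟨_, rfl⟩
  rw [← hVe, ← hV'e, ← hWe]
  rw [← hVe, ← hae] at hV
  rw [← hVe, ← hV'e, ← hEe] at hnx
  rw [← hWe, ← hae] at hW
  rw [← hEe] at heR
  have hE0 : 0 < E := by linarith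
  refine le_of_mul_le_mul_left ?_ hE0
  have h3 : E * (((m:ℝ) - 1) * V' + (m - 1 + n) * W) =
      (m - 1) * ((E + n) * V) + E * ((m - 1 + n) * W) := by
    rw [← hnx]
    ring
  rw [h3]
  have hW2 : W ≤ 102 / 2600 * V := by linarith
  have hV0 : 0 ≤ V := by nlinarith [sq_nonneg a]
  have h4 : ((m:ℝ) - 1 + n) * W ≤ (163 / 162 * n) * (102 / 2600 * V) := by
    apply mul_le_mul (by linarith) hW2 _ (by positivity)
    rw [hWe]
    positivity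
  have h5 : E * (((m:ℝ) - 1 + n) * W) ≤ E * ((163 / 162 * n) * (102 / 2600 * V)) :=
    mul_le_mul_of_nonneg_left h4 hE0.le
  -- (m-1)(E+n) <= (m-1)E + n E/2
  have h6 : ((m:ℝ) - 1) * n ≤ E / 2 * n := by
    apply mul_le_mul_of_nonneg_right (by linarith) (by linarith)
  have h7 : ((m:ℝ) - 1) * ((E + n) * V) ≤ (m - 1) * E * V + E / 2 * n * V := by
    nlinarith [mul_le_mul_of_nonneg_right h6 hV0]
  have h8 : 0 ≤ E * n * V := by positivity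
  nlinarith

theorem numT2 (n m e : ℕ) (hm : 2 ≤ m) (hn : 27 ^ m ≤ n) (he : 3 * m ≤ e + 2) :
    2 * (m - 1) * N n (e+2) + 2 * (m - 1 + n) * ((Wf n m + N n m) * N n m) ≤
      (m - 1 + n) * N n (e+1) := by
  obtain ⟨h2, h81, h162, h324⟩ := nt_n n m hm hn
  obtain ⟨-, hW, -⟩ := nt_data n m hm hn
  have hV := nt_cu_le n m e hm hn he
  have hnx := nt_next n e
  have heR : 3 * (m:ℝ) ≤ e + 1 + 1 := by exact_mod_cast (show 3 * m ≤ e + 1 + 1 by omega)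
  have hm1 : ((m - 1 : ℕ) : ℝ) = m - 1 := by
    rw [Nat.cast_sub (by omega)]
    push_cast
    ring
  suffices h : 2 * ((m:ℝ) - 1) * N n (e+2) + 2 * (m - 1 + n) * ((Wf n m + N n m) * N n m) ≤
      (m - 1 + n) * N n (e+1) by
    rw [← hm1] at h
    exact_mod_cast h
  obtain ⟨V, hVe⟩ : ∃ V : ℝ, V = N n (e+1) := ⟨_, rfl⟩
  obtain ⟨V', hV'e⟩ : ∃ V' : ℝ, V' = N n (e+2) := ⟨_, rfl⟩
  obtain ⟨a, hae⟩ : ∃ a : ℝ, a = N n m := ⟨_, rfl⟩
  obtain ⟨K, hKe⟩ : ∃ K : ℝ, K = (Wf n m : ℝ) + N n m := ⟨_, rfl⟩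
  obtain ⟨E, hEe⟩ : ∃ E : ℝ, E = (e:ℝ) + 1 := ⟨_, rfl⟩
  rw [← hVe, ← hV'e, ← hKe, ← hae]
  rw [← hVe, ← hae] at hV
  rw [← hVe, ← hV'e, ← hEe] at hnx
  rw [← hKe, ← hae] at hW
  rw [← hEe] at heR
  have ha0 : 0 ≤ a := by rw [hae]; positivity
  have hK0 : 0 ≤ K := by rw [hKe]; positivity
  have hE0 : 0 < E := by linarith
  have hV0 : 0 ≤ V := by rw [hVe]; positivity
  refine le_of_mul_le_mul_left ?_ hE0
  have h3 : E * (2 * ((m:ℝ) - 1) * V' + 2 * (m - 1 + n) * (K * a)) =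
      2 * (m - 1) * ((E + n) * V) + E * (2 * (m - 1 + n) * (K * a)) := by
    rw [← hnx]
    ring
  rw [h3]
  have hKa : K * a ≤ 102 / 2600 * V := by
    have : K * a ≤ (102 / 100 * a ^ 2) * a := mul_le_mul_of_nonneg_right hW ha0
    nlinarith
  have h4 : 2 * ((m:ℝ) - 1 + n) * (K * a) ≤ (2 * (163 / 162 * n)) * (102 / 2600 * V) := by
    apply mul_le_mul (by linarith) hKa (by positivity) (by positivity)
  have h5 : E * (2 * ((m:ℝ) - 1 + n) * (K * a)) ≤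
      E * ((2 * (163 / 162 * n)) * (102 / 2600 * V)) :=
    mul_le_mul_of_nonneg_left h4 hE0.le
  -- 2 (m-1) n <= (2/3) E n, (m-1) E <= n E / 162
  have h6 : 2 * ((m:ℝ) - 1) * n ≤ 2 / 3 * E * n := by
    apply mul_le_mul_of_nonneg_right (by linarith) (by linarith)
  have h6' : ((m:ℝ) - 1) * E ≤ n / 162 * E := by
    apply mul_le_mul_of_nonneg_right (by linarith) hE0.le
  have h7 : 2 * ((m:ℝ) - 1) * ((E + n) * V) ≤ ((m - 1) * E + n / 162 * E) * V + 2 / 3 * E * n * V := by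
    nlinarith [mul_le_mul_of_nonneg_right h6 hV0, mul_le_mul_of_nonneg_right h6' hV0]
  have h8 : 0 ≤ E * n * V := by positivity
  nlinarith

theorem numT6 (n m e : ℕ) (hm : 2 ≤ m) (hn : 27 ^ m ≤ n) (he : 3 * m ≤ e + 2) :
    2 * (n+1) * W1f n m + (n+m) * N n (e+1) ≤ 2 * (n+1) * N n (e+1) := by
  obtain ⟨h2, h81, h162, h324⟩ := nt_n n m hm hn
  obtain ⟨-, -, hW⟩ := nt_data n m hm hn
  have hV := nt_sq_le n m e hm hn (by omega)
  suffices h : 2 * ((n:ℝ)+1) * W1f n m + (n+m) * N n (e+1) ≤ 2 * (n+1) * N n (e+1) by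
    exact_mod_cast h
  obtain ⟨V, hVe⟩ : ∃ V : ℝ, V = N n (e+1) := ⟨_, rfl⟩
  obtain ⟨a, hae⟩ : ∃ a : ℝ, a = N n m := ⟨_, rfl⟩
  obtain ⟨W, hWe⟩ : ∃ W : ℝ, W = W1f n m := ⟨_, rfl⟩
  rw [← hVe, ← hWe]
  rw [← hVe, ← hae] at hV
  rw [← hWe, ← hae] at hW
  have hW2 : W ≤ 21 / 260 * V := by linarith
  have hV0 : 0 ≤ V := by nlinarith [sq_nonneg a]
  have h4 : 2 * ((n:ℝ)+1) * W ≤ 2 * (n + 1) * (21 / 260 * V) :=
    mul_le_mul_of_nonneg_left hW2 (by positivity)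
  have h5 : (n + (m:ℝ)) * V ≤ (163 / 162 * n) * V :=
    mul_le_mul_of_nonneg_right (by linarith) hV0
  have h8 : 0 ≤ n * V := by positivity
  nlinarith

/-- linear growth -/
lemma nt_lin (n j : ℕ) (hn : 1 ≤ n) (hj : 1 ≤ j) (hjn : j ≤ n) : ∀ i : ℕ,
    (i + 1) * N n j ≤ N n (j + i)
  | 0 => by simp
  | (i+1) => by
      have ih := nt_lin n j hn hj hjn i
      obtain ⟨n', rfl⟩ := Nat.exists_eq_add_of_le' hn
      have h1 : N (n'+1) (j + i + 1) = N (n'+1) (j+i) + N n' (j+i+1) := N_rec n' (j+i)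
      have h2 : N n' (j+1) ≤ N n' (j+i+1) := N_mono (by omega)
      have h3 : N (n'+1) j ≤ N n' (j+1) := by
        have h4 := N_ratio n' j
        have h5 := N_dim n' j
        -- (n'+1) N (n'+1) j = (j+n') N n' j = j N n' (j+1)
        rw [h4] at h5
        have h6 : (n' + 1) * N (n'+1) j ≤ (n' + 1) * N n' (j+1) := by
          rw [h5]
          exact Nat.mul_le_mul_right _ hjn
        exact Nat.le_of_mul_le_mul_left h6 (by omega)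
      rw [show j + (i + 1) = j + i + 1 by ring, h1]
      have : (i + 1 + 1) * N (n'+1) j = (i + 1) * N (n'+1) j + N (n'+1) j := by ring
      omega

end Pool.Agent.Helper98.UAH
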