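import Pool.Agent.Helper98.UAH.NumBase

/-! Uniform postulation: base estimates for n at least 27^m. -/

namespace Pool.Agent.Helper98.UAH

open Pool.Agent.Helper46.EAH Finset

/-- multinomial bound -/
theorem nt_fact3 (k : ℕ) : (3 * k + 1).factorial ≤ 27 ^ k * k.factorial ^ 3 := by
  induction k with
  | zero => simp
  | succ k ih =>
    have h1 : (3 * (k + 1) + 1).factorial =
        (3 * k + 4) * (3 * k + 3) * (3 * k + 2) * (3 * k + 1).factorial := by
      rw [show 3 * (k + 1) + 1 = 3 * k + 1 + 1 + 1 + 1 by ring, Nat.factorial_succ,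
        Nat.factorial_succ, Nat.factorial_succ]
      ring
    rw [h1, Nat.factorial_succ]
    have h2 : (3 * k + 4) * (3 * k + 3) * (3 * k + 2) ≤ 27 * (k + 1) ^ 3 := by
      nlinarith
    calc (3 * k + 4) * (3 * k + 3) * (3 * k + 2) * (3 * k + 1).factorial
        ≤ 27 * (k + 1) ^ 3 * (27 ^ k * k.factorial ^ 3) := Nat.mul_le_mul h2 ih
      _ = 27 ^ (k + 1) * ((k + 1) * k.factorial) ^ 3 := by ring

theorem nt_fact2 (k : ℕ) : (2 * k + 1).factorial ≤ 6 ^ k * k.factorial ^ 2 := by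
  induction k with
  | zero => simp
  | succ k ih =>
    have h1 : (2 * (k + 1) + 1).factorial = (2 * k + 3) * (2 * k + 2) * (2 * k + 1).factorial := by
      rw [show 2 * (k + 1) + 1 = 2 * k + 1 + 1 + 1 by ring, Nat.factorial_succ,
        Nat.factorial_succ]
      ring
    rw [h1, Nat.factorial_succ]
    have h2 : (2 * k + 3) * (2 * k + 2) ≤ 6 * (k + 1) ^ 2 := by
      nlinarith
    calc (2 * k + 3) * (2 * k + 2) * (2 * k + 1).factorial
        ≤ 6 * (k + 1) ^ 2 * (6 ^ k * k.factorial ^ 2) := Nat.mul_le_mul h2 ih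
      _ = 6 ^ (k + 1) * ((k + 1) * k.factorial) ^ 2 := by ring

/-- binomial coefficients in the second variable -/
theorem nt_symm (n q : ℕ) : N n (q+1) = (n + q).choose q := by
  rw [N_succ, Nat.choose_symm_add]

theorem nt_low (n q : ℕ) : (n + 1) ^ q ≤ q.factorial * N n (q+1) := by
  rw [nt_symm, ← Nat.descFactorial_eq_factorial_mul_choose]
  have h := Nat.pow_sub_le_descFactorial (n + q) q
  rwa [show n + q + 1 - q = n + 1 by omega] at h

theorem nt_up (n q : ℕ) : q.factorial * N n (q+1) ≤ (n + q) ^ q := by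
  rw [nt_symm, ← Nat.descFactorial_eq_factorial_mul_choose]
  exact Nat.descFactorial_le_pow _ _

theorem nt_big (m : ℕ) (hm : 2 ≤ m) : 81 * (m * m) ≤ 27 ^ m * 1 := by
  induction m, hm using Nat.le_induction with
  | base => norm_num
  | succ m hm ih =>
    rw [pow_succ]
    nlinarith

/-- powers of neighbouring numbers -/
theorem nt_pow (n m j : ℕ) (hm : 2 ≤ m) (hn : 27 ^ m ≤ n) (hj : j ≤ 3 * (m - 1)) :
    26 * (n + m - 1) ^ j ≤ 27 * (n + 1) ^ j := by
  have hb := nt_big m hm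
  have hb' : 81 * (m * m) ≤ n := by omega
  -- (1 - m/(n+m)) ^ j >= 1 - j m / (n+m)
  obtain ⟨x, hx⟩ : ∃ x : ℝ, x = ((n:ℝ) + m - 1) := ⟨_, rfl⟩
  have hn0 : (0:ℝ) < n := by
    have : 0 < n := by nlinarith
    exact_mod_cast this
  have hm0 : (2:ℝ) ≤ m := by exact_mod_cast hm
  have hx0 : 0 < x := by rw [hx]; linarith
  have hbR : 81 * ((m:ℝ) * m) ≤ n := by exact_mod_cast hb'
  have hjR : (j:ℝ) ≤ 3 * (m - 1) := by
    have : ((j:ℕ):ℝ) ≤ ((3 * (m - 1) : ℕ) : ℝ) := by exact_mod_cast hj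
    push_cast [Nat.cast_sub (show 1 ≤ m by omega)] at this
    exact this
  have h1 : 1 + (j:ℝ) * ((((n:ℝ) + 1) / x) - 1) ≤ (1 + ((((n:ℝ) + 1) / x) - 1)) ^ j := by
    apply one_add_mul_le_pow
    have : 0 ≤ ((n:ℝ) + 1) / x := by positivity
    linarith
  have h2 : 1 + ((((n:ℝ) + 1) / x) - 1) = ((n:ℝ) + 1) / x := by ring
  rw [h2] at h1
  have h3 : (26:ℝ)/27 ≤ 1 + (j:ℝ) * ((((n:ℝ) + 1) / x) - 1) := by
    have h4 : (((n:ℝ) + 1) / x) - 1 = -((m - 2) / x) := by
      rw [hx]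
      rw [hx] at hx0
      field_simp
      ring
    rw [h4]
    have h5 : ((m:ℝ) - 2) / x ≤ (m - 2) / n := by
      apply div_le_div_of_nonneg_left (by linarith) hn0
      rw [hx]
      linarith
    have h6 : (j:ℝ) * (((m:ℝ) - 2) / x) ≤ 1 / 27 := by
      calc (j:ℝ) * (((m:ℝ) - 2) / x) ≤ (3 * (m - 1)) * ((m - 2) / n) := by
            apply mul_le_mul hjR h5 _ (by linarith)
            apply div_nonneg (by linarith) hx0.le
        _ = (3 * (m - 1) * (m - 2)) / n := by ring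
        _ ≤ 1 / 27 := by
            rw [div_le_div_iff₀ hn0 (by norm_num)]
            nlinarith
    nlinarith
  have h7 := h3.trans h1
  rw [div_pow, le_div_iff₀ (by positivity)] at h7
  have h8 : 26 * x ^ j ≤ 27 * ((n:ℝ) + 1) ^ j := by linarith
  have h9 : ((n + m - 1 : ℕ) : ℝ) = x := by
    rw [hx, Nat.cast_sub (by omega)]
    push_cast
    ring
  have h10 : (26 * ((n + m - 1 : ℕ) : ℝ) ^ j) ≤ 27 * ((n:ℝ) + 1) ^ j := by rw [h9]; exact h8
  exact_mod_cast h10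

/-- the cube of the number of conditions -/
theorem nt_cube (n m : ℕ) (hm : 2 ≤ m) (hn : 27 ^ m ≤ n) :
    26 * N n m ^ 3 ≤ N n (3 * m - 1) := by
  obtain ⟨k, rfl⟩ := Nat.exists_eq_add_of_le' (show 1 ≤ m by omega)
  have h1 := nt_up n k
  have h2 := nt_low n (3 * k + 1)
  have h3 := nt_fact3 k
  have h4 := nt_pow n (k+1) (3 * k) hm hn (by omega)
  rw [show n + (k + 1) - 1 = n + k by omega] at h4
  rw [show 3 * (k + 1) - 1 = 3 * k + 1 + 1 by omega]
  have hf : 0 < k.factorial := Nat.factorial_pos k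
  have h5 : (k.factorial * N n (k+1)) ^ 3 ≤ ((n + k) ^ k) ^ 3 := Nat.pow_le_pow_left h1 3
  have h6 : (27 ^ k * k.factorial ^ 3 * 27) * (26 * N n (k+1) ^ 3) ≤
      (27 ^ k * k.factorial ^ 3 * 27) * N n (3 * k + 1 + 1) := by
    calc (27 ^ k * k.factorial ^ 3 * 27) * (26 * N n (k+1) ^ 3)
        = 27 ^ (k + 1) * (26 * (k.factorial * N n (k+1)) ^ 3) := by ring
      _ ≤ n * (26 * ((n + k) ^ k) ^ 3) := Nat.mul_le_mul hn (Nat.mul_le_mul_left _ h5)
      _ = n * (26 * (n + k) ^ (3 * k)) := by rw [← pow_mul, mul_comm k 3]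
      _ ≤ (n + 1) * (27 * (n + 1) ^ (3 * k)) := Nat.mul_le_mul (by omega) h4
      _ = 27 * (n + 1) ^ (3 * k + 1) := by ring
      _ ≤ 27 * ((3 * k + 1).factorial * N n (3 * k + 1 + 1)) := Nat.mul_le_mul_left _ h2
      _ ≤ 27 * ((27 ^ k * k.factorial ^ 3) * N n (3 * k + 1 + 1)) :=
        Nat.mul_le_mul_left _ (Nat.mul_le_mul_right _ h3)
      _ = _ := by ring
  exact Nat.le_of_mul_le_mul_left h6 (by positivity)

/-- the square of the number of conditions -/
theorem nt_square (n m : ℕ) (hm : 2 ≤ m) (hn : 27 ^ m ≤ n) :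
    26 * N n m ^ 2 ≤ N n (2 * m) := by
  obtain ⟨k, rfl⟩ := Nat.exists_eq_add_of_le' (show 1 ≤ m by omega)
  have h1 := nt_up n k
  have h2 := nt_low n (2 * k + 1)
  have h3 := nt_fact2 k
  have h4 := nt_pow n (k+1) (2 * k) hm hn (by omega)
  rw [show n + (k + 1) - 1 = n + k by omega] at h4
  rw [show 2 * (k + 1) = 2 * k + 1 + 1 by omega]
  have hf : 0 < k.factorial := Nat.factorial_pos k
  have h5 : (k.factorial * N n (k+1)) ^ 2 ≤ ((n + k) ^ k) ^ 2 := Nat.pow_le_pow_left h1 2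
  have h27 : 6 ^ k * 27 ≤ n := by
    refine le_trans ?_ hn
    rw [pow_succ]
    exact Nat.mul_le_mul_right _ (Nat.pow_le_pow_left (by norm_num) _)
  have h6 : (6 ^ k * k.factorial ^ 2 * 27) * (26 * N n (k+1) ^ 2) ≤
      (6 ^ k * k.factorial ^ 2 * 27) * N n (2 * k + 1 + 1) := by
    calc (6 ^ k * k.factorial ^ 2 * 27) * (26 * N n (k+1) ^ 2)
        = (6 ^ k * 27) * (26 * (k.factorial * N n (k+1)) ^ 2) := by ring
      _ ≤ n * (26 * ((n + k) ^ k) ^ 2) := Nat.mul_le_mul h27 (Nat.mul_le_mul_left _ h5)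
      _ = n * (26 * (n + k) ^ (2 * k)) := by rw [← pow_mul, mul_comm k 2]
      _ ≤ (n + 1) * (27 * (n + 1) ^ (2 * k)) := Nat.mul_le_mul (by omega) h4
      _ = 27 * (n + 1) ^ (2 * k + 1) := by ring
      _ ≤ 27 * ((2 * k + 1).factorial * N n (2 * k + 1 + 1)) := Nat.mul_le_mul_left _ h2
      _ ≤ 27 * ((6 ^ k * k.factorial ^ 2) * N n (2 * k + 1 + 1)) :=
        Nat.mul_le_mul_left _ (Nat.mul_le_mul_right _ h3)
      _ = _ := by ring
  exact Nat.le_of_mul_le_mul_left h6 (by positivity)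

end Pool.Agent.Helper98.UAH
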